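import Pool.Agent.CRP.St
import Pool.Agent.CRM.All

/-!
Campaign CRP, module Cfb: rings of the central local type are critical (helper24).
-/

set_option autoImplicit false

namespace Pool.Agent.CRP

open Pool.Agent.CRR Pool.Agent.CRN Pool.Agent.CRK Pool.Agent.CRL Pool.Agent.CRM

theorem Cfb_pw {R : Type} [NonUnitalRing R] {t : R} (h : ∀ r, t * r = r * t) (k : ℕ) :
    ∀ r, pw t k * r = r * pw t k := by
  induction k with
  | zero => exact h
  | succ k ih =>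
    intro r
    change pw t k * t * r = r * (pw t k * t)
    rw [mul_assoc, h r, ← mul_assoc, ih r, mul_assoc]

theorem Cfb_central {n p : ℕ} {R : Type} [NonUnitalRing R] [Finite R] (hC : Cy R n p) {t₁ t : R}
    (h₁ : Frame R n 1 (fun _ => t₁)) (hc : ∀ r, t₁ * r = r * t₁) (ht : Frame R n 1 (fun _ => t)) :
    ∀ r, t * r = r * t := by
  obtain ⟨θ, π, hθ⟩ := cnj n p R hC 1 (fun _ => t₁) (fun _ => t) h₁ ht
  obtain ⟨⟨k, hk⟩, -⟩ := hθ 0
  intro r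
  apply θ.injective
  rw [map_mul, map_mul]
  change θ t = pw t₁ k at hk
  rw [hk]
  exact Cfb_pw hc k _

theorem thm_Cfb : St_Cfb := by
  intro n R _ _ hn hM hT hC
  refine lfb n R hn hM hT ?_
  obtain ⟨he, p, H, hp, hr, hH, g, L, hgen, ⟨t₁, x₁, hf₁, hc₁, hx₁, htop⟩, hit, hval,
    t₀, x₀, hf₀, hx₀, hne⟩ := hC
  have hCy : Cy R n p := ⟨hn, hM, hT, hp, hr⟩
  refine ⟨he, p, H, hp, hr, hH, g, fun _ => 0, L, ?_,
    ⟨t₁, x₁, ⟨hf₁, fun i => ⟨hx₁ i, (hc₁ _).symm⟩⟩, htop⟩, hit, ?_, t₀, x₀,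
    ⟨hf₀, fun i => ⟨hx₀ i, (Cfb_central hCy hf₁ hc₁ hf₀ _).symm⟩⟩, hne⟩
  · intro k y hy
    exact (hgen k y hy).trans (Nat.le_mul_of_pos_left k (by omega))
  · intro t x hTy
    obtain ⟨h1, h2⟩ := hval t x hTy.1 (fun i => (hTy.2 i).1)
    exact ⟨h1, fun j y _ _ hy => h2 j y hy⟩

end Pool.Agent.CRP
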