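import Pool.Agent.CRP.St

/-!
Campaign CRP, module `Cha`: the exponents of the normal words.
-/

set_option autoImplicit false

namespace Pool.Agent.CRP

open Pool.Agent.CRR Pool.Agent.CRN Pool.Agent.CRK Pool.Agent.CRL Pool.Agent.CRM

/-- The factor of a letter. -/
def ChaM {g : ℕ} (a : Fin g → ℕ) (l : ℕ) : ℕ := if h : l < g then a ⟨l, h⟩ + 1 else 1

theorem Cha_cons {g : ℕ} (a : Fin g → ℕ) (l : ℕ) (w : List ℕ) (i : ℕ) :
    chi a (l :: w) i = (if l = i then 1 else 0) + ChaM a l * chi a w i := rfl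

theorem Cha_nil {g : ℕ} (a : Fin g → ℕ) (i : ℕ) : chi a [] i = 0 := rfl

theorem Cha_app {g : ℕ} (a : Fin g → ℕ) (u v : List ℕ) (i : ℕ) :
    chi a (u ++ v) i = chi a u i + (u.map (ChaM a)).prod * chi a v i := by
  induction u with
  | nil => simp [Cha_nil]
  | cons l u ih =>
    rw [List.cons_append, Cha_cons, ih, Cha_cons, List.map_cons, List.prod_cons]
    ring

theorem Cha_prod {g : ℕ} (a : Fin g → ℕ) (N : ℕ) (u : List ℕ)
    (h : ∀ l ∈ u, ChaM a l ≡ 1 [MOD N]) : (u.map (ChaM a)).prod ≡ 1 [MOD N] := by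
  induction u with
  | nil => exact Nat.ModEq.refl _
  | cons l u ih =>
    rw [List.map_cons, List.prod_cons]
    have h1 := (h l (by simp)).mul (ih fun l hl => h l (by simp [hl]))
    simpa using h1

theorem Cha_count {g : ℕ} (a : Fin g → ℕ) (N : ℕ) (u : List ℕ)
    (h : ∀ l ∈ u, ChaM a l ≡ 1 [MOD N]) (i : ℕ) : chi a u i ≡ u.count i [MOD N] := by
  induction u with
  | nil => exact Nat.ModEq.refl _
  | cons l u ih =>
    have h1 := (h l (by simp)).mul (ih fun l hl => h l (by simp [hl]))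
    rw [Cha_cons, List.count_cons]
    have h2 : (if l = i then 1 else 0) + ChaM a l * chi a u i ≡
        (if l = i then 1 else 0) + 1 * List.count i u [MOD N] := Nat.ModEq.add_left _ h1
    refine h2.trans ?_
    have h3 : (if l = i then 1 else 0) + 1 * List.count i u =
        List.count i u + if (l == i) = true then 1 else 0 := by
      by_cases hl : l = i <;> simp [hl, add_comm]
    rw [h3]

theorem Cha_lt0 {g : ℕ} (a : Fin g → ℕ) {N : ℕ} {l : ℕ} (h : l ∈ Lt0 N a) :
    ∃ h : l < g, a ⟨l, h⟩ % N = 0 := by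
  unfold Lt0 at h
  rw [List.mem_filter] at h
  obtain ⟨h1, h2⟩ := h
  have h3 : l < g := List.mem_range.1 h1
  refine ⟨h3, ?_⟩
  simpa [h3] using h2

theorem Cha_lt1 {g : ℕ} (a : Fin g → ℕ) {N : ℕ} {l : ℕ} (h : l ∈ Lt1 N a) :
    ∃ h : l < g, a ⟨l, h⟩ % N ≠ 0 := by
  unfold Lt1 at h
  rw [List.mem_filter] at h
  obtain ⟨h1, h2⟩ := h
  have h3 : l < g := List.mem_range.1 h1
  refine ⟨h3, ?_⟩
  simpa [h3] using h2

theorem Cha_nd0 {g : ℕ} (a : Fin g → ℕ) (N : ℕ) : (Lt0 N a).Nodup :=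
  List.Nodup.filter _ List.nodup_range

theorem Cha_nd1 {g : ℕ} (a : Fin g → ℕ) (N : ℕ) : (Lt1 N a).Nodup :=
  List.Nodup.filter _ List.nodup_range

theorem Cha_M0 {g : ℕ} (a : Fin g → ℕ) {N : ℕ} {l : ℕ} (h : l ∈ Lt0 N a) :
    ChaM a l ≡ 1 [MOD N] := by
  obtain ⟨h1, h2⟩ := Cha_lt0 a h
  unfold ChaM
  rw [dif_pos h1]
  have h3 : a ⟨l, h1⟩ ≡ 0 [MOD N] := by
    rw [Nat.ModEq, Nat.zero_mod]
    exact h2
  simpa using h3.add_right 1

theorem Cha_M1 {g : ℕ} (a : Fin g → ℕ) {N : ℕ} {l : ℕ} (h : l ∈ Lt1 N a) :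
    ¬ ChaM a l ≡ 1 [MOD N] := by
  obtain ⟨h1, h2⟩ := Cha_lt1 a h
  unfold ChaM
  rw [dif_pos h1]
  intro h3
  have h4 : a ⟨l, h1⟩ ≡ 0 [MOD N] := Nat.ModEq.add_right_cancel' 1 (by simpa using h3)
  rw [Nat.ModEq, Nat.zero_mod] at h4
  exact h2 h4

theorem Cha_te {R : Type} [NonUnitalRing R] {e t : R} (he : ∀ x : R, e * x = x) (j k : ℕ) :
    te e t (j + k) = te e t j * te e t k := by
  induction j with
  | zero => rw [Nat.zero_add]; exact (he _).symm
  | succ j ih =>
    rw [Nat.succ_add]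
    change t * te e t (j + k) = t * te e t j * te e t k
    rw [ih, mul_assoc]

theorem Cha_one {R : Type} [NonUnitalRing R] {g : ℕ} (a : Fin g → ℕ) (y : Fin g → R) (e t : R)
    (he : ∀ x : R, e * x = x)
    (h1 : ∀ (x : R) (a k : ℕ), x * t = pw t a * x → x * te e t k = te e t (k * (a + 1)) * x)
    (hy : ∀ i, y i * t = pw t (a i) * y i) (s : Fin g → ℕ) :
    ∀ w : List ℕ, w ≠ [] → (∀ i ∈ w, i < g) →
    wp (w.map (xs fun i => te e t (s i) * y i)) =
      te e t (∑ i : Fin g, chi a w i * s i) * wp (w.map (xs y)) := by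
  have key : ∀ (l : ℕ) (hl : l < g) (w : List ℕ), (∑ i : Fin g, chi a (l :: w) i * s i) =
      s ⟨l, hl⟩ + (∑ i : Fin g, chi a w i * s i) * (a ⟨l, hl⟩ + 1) := by
    intro l hl w
    have h2 : ∀ i : Fin g, chi a (l :: w) i * s i =
        (if (⟨l, hl⟩ : Fin g) = i then s i else 0) + chi a w i * s i * (a ⟨l, hl⟩ + 1) := by
      intro i
      have hM : ChaM a l = a ⟨l, hl⟩ + 1 := by unfold ChaM; rw [dif_pos hl]
      rw [Cha_cons, hM]
      by_cases hi : l = (i : ℕ)
      · have hi' : (⟨l, hl⟩ : Fin g) = i := Fin.ext hi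
        rw [if_pos hi, if_pos hi']
        ring
      · have hi' : ¬ (⟨l, hl⟩ : Fin g) = i := fun h => hi (congrArg Fin.val h)
        rw [if_neg hi, if_neg hi']
        ring
    rw [Finset.sum_congr rfl fun i _ => h2 i, Finset.sum_add_distrib, Finset.sum_ite_eq,
      if_pos (Finset.mem_univ _), ← Finset.sum_mul]
  intro w
  induction w with
  | nil => intro h; exact absurd rfl h
  | cons l w ih =>
    intro _ hw
    have hl : l < g := hw l (by simp)
    rw [key l hl w]
    have hx : xs (fun i => te e t (s i) * y i) l = te e t (s ⟨l, hl⟩) * y ⟨l, hl⟩ := by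
      unfold xs
      rw [dif_pos hl]
    have hx' : xs y l = y ⟨l, hl⟩ := by
      unfold xs
      rw [dif_pos hl]
    cases w with
    | nil =>
      have h0 : (∑ i : Fin g, chi a [] i * s i) = 0 := by
        simp [Cha_nil]
      rw [h0, zero_mul, add_zero]
      change xs (fun i => te e t (s i) * y i) l = te e t (s ⟨l, hl⟩) * xs y l
      rw [hx, hx']
    | cons l' w' =>
      have h2 := ih (by simp) (fun i hi => hw i (by simp [hi]))
      change xs (fun i => te e t (s i) * y i) l *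
        wp ((l' :: w').map (xs fun i => te e t (s i) * y i)) = _ * (xs y l *
          wp ((l' :: w').map (xs y)))
      rw [h2, hx, hx', Cha_te he, ← mul_assoc, mul_assoc (te e t (s ⟨l, hl⟩)) (y ⟨l, hl⟩),
        h1 (y ⟨l, hl⟩) (a ⟨l, hl⟩) _ (hy _)]
      simp only [mul_assoc]

/-- The facts about the numbers `m`. -/
theorem Cha_zero {N m : ℕ} (hN : 2 ≤ N) (h : m.Coprime N) : ¬ m ≡ 0 [MOD N] := by
  intro h1
  have h2 : N ∣ m := (Nat.modEq_zero_iff_dvd).1 h1
  have h3 : N ∣ 1 := by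
    have h4 := Nat.dvd_gcd h2 (dvd_refl N)
    rwa [h] at h4
  have := Nat.le_of_dvd one_pos h3
  omega

theorem Cha_add {N c m : ℕ} (hm : ¬ m ≡ 0 [MOD N]) : ¬ c ≡ c + m [MOD N] := by
  intro h
  refine hm (Nat.ModEq.add_left_cancel' c ?_)
  simpa using h.symm

theorem Cha_wpne {R : Type} [NonUnitalRing R] {g : ℕ} (y : Fin g → R) (w : List ℕ)
    (h : wp (w.map (xs y)) ≠ 0) : ∀ l ∈ w, xs y l ≠ 0 := by
  induction w with
  | nil => intro l hl; simp at hl
  | cons l w ih =>
    cases w with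
    | nil =>
      intro l' hl'
      have : l' = l := by simpa using hl'
      rw [this]
      exact h
    | cons l1 w1 =>
      have h' : xs y l * wp ((l1 :: w1).map (xs y)) ≠ 0 := h
      intro l' hl'
      rcases List.mem_cons.1 hl' with h1 | h1
      · rw [h1]
        exact left_ne_zero_of_mul h'
      · exact ih (right_ne_zero_of_mul h') l' h1

theorem Cha_A {g : ℕ} (a : Fin g → ℕ) {N : ℕ} {A : List ℕ} (hA : ∀ l ∈ A, ChaM a l ≡ 1 [MOD N])
    (u : List ℕ) (i : ℕ) : chi a (A ++ u) i ≡ A.count i + chi a u i [MOD N] := by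
  rw [Cha_app]
  have h1 := (Cha_prod a N A hA).mul_right (chi a u i)
  rw [one_mul] at h1
  exact (Cha_count a N A hA i).add h1

theorem Cha_AA {g : ℕ} (a : Fin g → ℕ) {N : ℕ} {A : List ℕ} (hA : ∀ l ∈ A, ChaM a l ≡ 1 [MOD N])
    (u v : List ℕ) (i : ℕ) (h : ¬ chi a u i ≡ chi a v i [MOD N]) :
    ¬ chi a (A ++ u) i ≡ chi a (A ++ v) i [MOD N] := by
  intro h1
  exact h (Nat.ModEq.add_left_cancel' (A.count i)
    (((Cha_A a hA u i).symm.trans h1).trans (Cha_A a hA v i)))

/-- The relation of two words. -/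
def ChaD {R : Type} [NonUnitalRing R] {g : ℕ} (N : ℕ) (a : Fin g → ℕ) (y : Fin g → R)
    (ν ν' : List ℕ) : Prop :=
  wp (ν.map (xs y)) ≠ 0 → wp (ν'.map (xs y)) ≠ 0 → ∃ i < g, ¬ chi a ν i ≡ chi a ν' i [MOD N]

theorem Cha_D {R : Type} [NonUnitalRing R] {g : ℕ} {N : ℕ} {a : Fin g → ℕ} {y : Fin g → R}
    {A : List ℕ} (hA : ∀ l ∈ A, ChaM a l ≡ 1 [MOD N]) {u v : List ℕ} {i : ℕ} (hi : i < g)
    (h : wp ((A ++ u).map (xs y)) ≠ 0 → wp ((A ++ v).map (xs y)) ≠ 0 →
      ¬ chi a u i ≡ chi a v i [MOD N]) : ChaD N a y (A ++ u) (A ++ v) := by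
  intro h1 h2
  exact ⟨i, hi, Cha_AA a hA u v i (h h1 h2)⟩

section words

variable {R : Type} [NonUnitalRing R] {g N : ℕ} {a : Fin g → ℕ} {y : Fin g → R}

theorem Cha_w1 (hN : 2 ≤ N) (hc : ∀ l, xs y l ≠ 0 → (ChaM a l).Coprime N) {A : List ℕ}
    (hA : ∀ l ∈ A, ChaM a l ≡ 1 [MOD N]) {z : ℕ} (hz : z < g) :
    ChaD N a y (A ++ [z]) (A ++ [z, z]) := by
  refine Cha_D hA hz fun h _ => ?_
  have hz0 := Cha_zero hN (hc z (Cha_wpne y _ h z (by simp)))
  have e1 : chi a [z] z = 1 := by simp [Cha_cons, Cha_nil]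
  have e2 : chi a [z, z] z = 1 + ChaM a z := by simp [Cha_cons, Cha_nil]
  rw [e1, e2]
  exact Cha_add hz0

theorem Cha_w2 {A : List ℕ}
    (hA : ∀ l ∈ A, ChaM a l ≡ 1 [MOD N]) {x z : ℕ} (hz : z < g) (hxz : x ≠ z)
    (hx : ¬ ChaM a x ≡ 1 [MOD N]) :
    ChaD N a y (A ++ [x, z]) (A ++ [z, x]) := by
  refine Cha_D hA hz fun _ _ => ?_
  have e1 : chi a [x, z] z = ChaM a x := by simp [Cha_cons, Cha_nil, hxz]
  have e2 : chi a [z, x] z = 1 := by simp [Cha_cons, Cha_nil, hxz]
  rw [e1, e2]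
  exact hx

/-- The two twisted letters without loops. -/
theorem Cha_w5 (hN : 2 ≤ N) (hc : ∀ l, xs y l ≠ 0 → (ChaM a l).Coprime N) {x z : ℕ} (hx : x < g)
    (hz : z < g) (hxz : x ≠ z) (hx1 : ¬ ChaM a x ≡ 1 [MOD N]) (hz1 : ¬ ChaM a z ≡ 1 [MOD N])
    (hR : wp ([x, x, z].map (xs y)) ≠ 0 → ChaM a x ≡ ChaM a z [MOD N]) :
    List.Pairwise (ChaD N a y) [[x, z], [z, x], [x, x, z], [x, z, z], [x, z, x]] := by
  have hzx : z ≠ x := fun h => hxz h.symm
  have hnil : ∀ l ∈ ([] : List ℕ), ChaM a l ≡ 1 [MOD N] := fun l hl => by simp at hl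
  have mulz : ∀ {w : List ℕ}, wp (w.map (xs y)) ≠ 0 → x ∈ w → z ∈ w →
      ¬ ChaM a x * ChaM a z ≡ 0 [MOD N] := fun {w} h h1 h2 =>
    Cha_zero hN (Nat.Coprime.mul_left (hc x (Cha_wpne y _ h x h1)) (hc z (Cha_wpne y _ h z h2)))
  have e1x : chi a [x, z] x = 1 := by simp [Cha_cons, Cha_nil, hzx]
  have e1z : chi a [x, z] z = ChaM a x := by simp [Cha_cons, Cha_nil, hxz]
  have e2x : chi a [z, x] x = ChaM a z := by simp [Cha_cons, Cha_nil, hzx]
  have e2z : chi a [z, x] z = 1 := by simp [Cha_cons, Cha_nil, hxz]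
  have e3x : chi a [x, x, z] x = 1 + ChaM a x := by simp [Cha_cons, Cha_nil, hzx]
  have e4x : chi a [x, z, z] x = 1 := by simp [Cha_cons, Cha_nil, hzx]
  have e4z : chi a [x, z, z] z = ChaM a x + ChaM a x * ChaM a z := by
    simp [Cha_cons, Cha_nil, hxz]; ring
  have e5x : chi a [x, z, x] x = 1 + ChaM a x * ChaM a z := by
    simp [Cha_cons, Cha_nil, hzx]
  have e5z : chi a [x, z, x] z = ChaM a x := by simp [Cha_cons, Cha_nil, hxz]
  have q12 : ChaD N a y [x, z] [z, x] := Cha_w2 (A := []) hnil hz hxz hx1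
  have q13 : ChaD N a y [x, z] [x, x, z] := by
    refine Cha_D (A := []) hnil hx fun h _ => ?_
    rw [e1x, e3x]
    exact Cha_add (Cha_zero hN (hc x (Cha_wpne y _ h x (by simp))))
  have q14 : ChaD N a y [x, z] [x, z, z] := by
    refine Cha_D (A := []) hnil hz fun h _ => ?_
    rw [e1z, e4z]
    exact Cha_add (mulz h (by simp) (by simp))
  have q15 : ChaD N a y [x, z] [x, z, x] := by
    refine Cha_D (A := []) hnil hx fun h _ => ?_
    rw [e1x, e5x]
    exact Cha_add (mulz h (by simp) (by simp))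
  have q23 : ChaD N a y [z, x] [x, x, z] := by
    refine Cha_D (A := []) hnil hx fun _ h => ?_
    rw [e2x, e3x]
    intro h1
    have h2 := hR h
    have h3 : ChaM a x ≡ ChaM a x + 1 [MOD N] := by
      rw [add_comm]
      exact h2.trans h1
    refine Cha_add ?_ h3
    intro h4
    have h5 : N ∣ 1 := (Nat.modEq_zero_iff_dvd).1 h4
    have := Nat.le_of_dvd one_pos h5
    omega
  have q24 : ChaD N a y [z, x] [x, z, z] := by
    refine Cha_D (A := []) hnil hx fun _ _ => ?_
    rw [e2x, e4x]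
    exact hz1
  have q25 : ChaD N a y [z, x] [x, z, x] := by
    refine Cha_D (A := []) hnil hz fun _ _ => ?_
    rw [e2z, e5z]
    exact fun h => hx1 h.symm
  have q34 : ChaD N a y [x, x, z] [x, z, z] := by
    refine Cha_D (A := []) hnil hx fun h _ => ?_
    rw [e3x, e4x]
    exact fun h1 => Cha_add (Cha_zero hN (hc x (Cha_wpne y _ h x (by simp)))) h1.symm
  have q35 : ChaD N a y [x, x, z] [x, z, x] := by
    refine Cha_D (A := []) hnil hx fun h _ => ?_
    rw [e3x, e5x]
    intro h1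
    have h2 : ChaM a x * 1 ≡ ChaM a x * ChaM a z [MOD N] := by
      rw [mul_one]
      exact Nat.ModEq.add_left_cancel' 1 h1
    have h3 : (ChaM a x).Coprime N := hc x (Cha_wpne y _ h x (by simp))
    exact hz1 (Nat.ModEq.cancel_left_of_coprime h3.symm h2).symm
  have q45 : ChaD N a y [x, z, z] [x, z, x] := by
    refine Cha_D (A := []) hnil hx fun h _ => ?_
    rw [e4x, e5x]
    exact Cha_add (mulz h (by simp) (by simp))
  simp only [List.pairwise_cons, List.mem_cons, List.not_mem_nil, or_false, forall_eq_or_imp,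
    forall_eq, false_imp_iff, implies_true, and_true, List.Pairwise.nil]
  exact ⟨⟨q12, q13, q14, q15⟩, ⟨q23, q24, q25⟩, ⟨q34, q35⟩, q45⟩

/-- Three twisted letters. -/
theorem Cha_w3 (hc : ∀ l, xs y l ≠ 0 → (ChaM a l).Coprime N) {x z w : ℕ} (hx : x < g)
    (hz : z < g) (hw : w < g) (hxz : x ≠ z) (hxw : x ≠ w) (hzw : z ≠ w)
    (hx1 : ¬ ChaM a x ≡ 1 [MOD N]) (hz1 : ¬ ChaM a z ≡ 1 [MOD N]) :
    List.Pairwise (ChaD N a y) [[x, z, w], [z, x, w], [x, w, z]] := by
  have hzx : z ≠ x := fun h => hxz h.symm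
  have hwx : w ≠ x := fun h => hxw h.symm
  have hwz : w ≠ z := fun h => hzw h.symm
  have hnil : ∀ l ∈ ([] : List ℕ), ChaM a l ≡ 1 [MOD N] := fun l hl => by simp at hl
  have e1z : chi a [x, z, w] z = ChaM a x := by simp [Cha_cons, Cha_nil, hxz, hwz]
  have e1w : chi a [x, z, w] w = ChaM a x * ChaM a z := by simp [Cha_cons, Cha_nil, hxw, hzw]
  have e2z : chi a [z, x, w] z = 1 := by simp [Cha_cons, Cha_nil, hxz, hwz]
  have e2x : chi a [z, x, w] x = ChaM a z := by simp [Cha_cons, Cha_nil, hzx, hwx]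
  have e3w : chi a [x, w, z] w = ChaM a x := by simp [Cha_cons, Cha_nil, hxw, hzw]
  have e3x : chi a [x, w, z] x = 1 := by simp [Cha_cons, Cha_nil, hzx, hwx]
  have q12 : ChaD N a y [x, z, w] [z, x, w] := by
    refine Cha_D (A := []) hnil hz fun _ _ => ?_
    rw [e1z, e2z]
    exact hx1
  have q13 : ChaD N a y [x, z, w] [x, w, z] := by
    refine Cha_D (A := []) hnil hw fun h _ => ?_
    rw [e1w, e3w]
    intro h1
    have h2 : ChaM a x * ChaM a z ≡ ChaM a x * 1 [MOD N] := by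
      rw [mul_one]
      exact h1
    have h3 : (ChaM a x).Coprime N := hc x (Cha_wpne y _ h x (by simp))
    exact hz1 (Nat.ModEq.cancel_left_of_coprime h3.symm h2)
  have q23 : ChaD N a y [z, x, w] [x, w, z] := by
    refine Cha_D (A := []) hnil hx fun _ _ => ?_
    rw [e2x, e3x]
    exact hz1
  simp only [List.pairwise_cons, List.mem_cons, List.not_mem_nil, or_false, forall_eq_or_imp,
    forall_eq, false_imp_iff, implies_true, and_true, List.Pairwise.nil]
  exact ⟨⟨q12, q13⟩, q23⟩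

/-- One twisted letter, with loops. -/
theorem Cha_wl (hN : 2 ≤ N) (hc : ∀ l, xs y l ≠ 0 → (ChaM a l).Coprime N) {A : List ℕ}
    (hA : ∀ l ∈ A, ChaM a l ≡ 1 [MOD N]) (hnd : A.Nodup) {z l : ℕ} (hz : z < g) (hl : l < g)
    (hlA : l ∈ A) (hzl : z ≠ l) (hz1 : ¬ ChaM a z ≡ 1 [MOD N]) :
    List.Pairwise (ChaD N a y) [A ++ [z], [z] ++ A, A ++ [z, z]] := by
  have hcl : A.count l = 1 := List.count_eq_one_of_mem hnd hlA
  have c2 : chi a ([z] ++ A) l ≡ ChaM a z [MOD N] := by
    have h1 : chi a ([z] ++ A) l = ChaM a z * chi a A l := by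
      change chi a (z :: A) l = _
      rw [Cha_cons, if_neg hzl, zero_add]
    rw [h1]
    have h2 := (Cha_count a N A hA l).mul_left (ChaM a z)
    rw [hcl, mul_one] at h2
    exact h2
  have c1 : chi a (A ++ [z]) l ≡ 1 [MOD N] := by
    have h1 := Cha_A a hA [z] l
    have h2 : chi a [z] l = 0 := by simp [Cha_cons, Cha_nil, hzl]
    rw [h2, hcl] at h1
    exact h1
  have c3 : chi a (A ++ [z, z]) l ≡ 1 [MOD N] := by
    have h1 := Cha_A a hA [z, z] l
    have h2 : chi a [z, z] l = 0 := by simp [Cha_cons, Cha_nil, hzl]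
    rw [h2, hcl] at h1
    exact h1
  have q12 : ChaD N a y (A ++ [z]) ([z] ++ A) := fun _ _ =>
    ⟨l, hl, fun h => hz1 ((c2.symm.trans h.symm).trans c1)⟩
  have q13 : ChaD N a y (A ++ [z]) (A ++ [z, z]) := Cha_w1 hN hc hA hz
  have q23 : ChaD N a y ([z] ++ A) (A ++ [z, z]) := fun _ _ =>
    ⟨l, hl, fun h => hz1 ((c2.symm.trans h).trans c3)⟩
  simp only [List.pairwise_cons, List.mem_cons, List.not_mem_nil, or_false, forall_eq_or_imp,
    forall_eq, false_imp_iff, implies_true, and_true, List.Pairwise.nil]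
  exact ⟨⟨q12, q13⟩, q23⟩

end words

theorem thm_Cha (hTyp : St_Typ) (hRlz : St_Rlz) : St_Cha := by
  intro n p N R _ _ e t hL g a y hy
  obtain ⟨T1, _, _, T4, T5, T6, _⟩ := hTyp n p N R e t hL
  refine ⟨?_, ?_⟩
  · intro w hw hg s
    exact Cha_one a y e t (fun x => (hL.one x).1) T1 (fun i => (hy.2 i).2) s w hw hg
  · rintro ⟨i0, hi0⟩ ν hν ν' hν' hne h1 h2
    have hN : 2 ≤ N := by
      have h3 := hL.n1
      rcases Nat.lt_or_ge N 2 with h4 | h4
      · have h5 : N = 1 := by omega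
        rw [h5, Nat.mod_one] at hi0
        exact absurd rfl hi0
      · exact h4
    have hc : ∀ l, xs y l ≠ 0 → (ChaM a l).Coprime N := by
      intro l hl
      by_cases h : l < g
      · have h3 : xs y l = y ⟨l, h⟩ := by unfold xs; rw [dif_pos h]
        have h4 : ChaM a l = a ⟨l, h⟩ + 1 := by unfold ChaM; rw [dif_pos h]
        rw [h4]
        rw [h3] at hl
        exact T5 (y ⟨l, h⟩) (a ⟨l, h⟩) (hy.2 _).2 hl
      · exfalso
        apply hl
        unfold xs
        rw [dif_neg h]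
    have hA : ∀ l ∈ Lt0 N a, ChaM a l ≡ 1 [MOD N] := fun l hl => Cha_M0 a hl
    have hP : List.Pairwise (ChaD N a y) (NW N a) := by
      have hnd := Cha_nd1 a N
      have hM : ∀ l ∈ Lt1 N a, l < g ∧ ¬ ChaM a l ≡ 1 [MOD N] := fun l hl =>
        ⟨(Cha_lt1 a hl).1, Cha_M1 a hl⟩
      rcases h : Lt1 N a with _ | ⟨x, _ | ⟨z, _ | ⟨w, _ | ⟨w', l'⟩⟩⟩⟩
      · have : NW N a = [] := by unfold NW; rw [h]
        rw [this]
        exact List.Pairwise.nil
      · obtain ⟨hx, hx1⟩ := hM x (by rw [h]; simp)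
        by_cases h0 : Lt0 N a = []
        · have : NW N a = [[x], [x, x]] := by unfold NW; rw [h]; simp [h0]
          rw [this]
          have hnil : ∀ l ∈ ([] : List ℕ), ChaM a l ≡ 1 [MOD N] := fun l hl => by simp at hl
          have q : ChaD N a y [x] [x, x] := Cha_w1 (A := []) hN hc hnil hx
          simp only [List.pairwise_cons, List.mem_cons, List.not_mem_nil, or_false,
            forall_eq, false_imp_iff, implies_true, and_true, List.Pairwise.nil]
          exact q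
        · have : NW N a = [Lt0 N a ++ [x], [x] ++ Lt0 N a, Lt0 N a ++ [x, x]] := by
            unfold NW; rw [h]; simp [h0]
          rw [this]
          obtain ⟨l, hl⟩ := List.exists_mem_of_ne_nil _ h0
          refine Cha_wl hN hc hA (Cha_nd0 a N) hx (Cha_lt0 a hl).1 hl ?_ hx1
          intro hxl
          rw [hxl] at hx1
          exact hx1 (Cha_M0 a hl)
      · obtain ⟨hx, hx1⟩ := hM x (by rw [h]; simp)
        obtain ⟨hz, hz1⟩ := hM z (by rw [h]; simp)
        have hxz : x ≠ z := by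
          rw [h] at hnd
          intro hxz
          rw [hxz] at hnd
          simp at hnd
        by_cases h0 : Lt0 N a = []
        · have : NW N a = [[x, z], [z, x], [x, x, z], [x, z, z], [x, z, x]] := by
            unfold NW; rw [h]; simp [h0]
          rw [this]
          refine Cha_w5 hN hc hx hz hxz hx1 hz1 ?_
          intro hR
          have hx0 : xs y x ≠ 0 := Cha_wpne y _ hR x (by simp)
          have hz0 : xs y z ≠ 0 := Cha_wpne y _ hR z (by simp)
          have ex : xs y x = y ⟨x, hx⟩ := by unfold xs; rw [dif_pos hx]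
          have ez : xs y z = y ⟨z, hz⟩ := by unfold xs; rw [dif_pos hz]
          have mx : ChaM a x = a ⟨x, hx⟩ + 1 := by unfold ChaM; rw [dif_pos hx]
          have mz : ChaM a z = a ⟨z, hz⟩ + 1 := by unfold ChaM; rw [dif_pos hz]
          obtain ⟨hx2, hx3⟩ := Cha_lt1 (N := N) a (l := x) (by rw [h]; simp)
          obtain ⟨hz2, hz3⟩ := Cha_lt1 (N := N) a (l := z) (by rw [h]; simp)
          have tx : Tt t (xs y x) := by
            rw [ex]
            refine ⟨(hy.2 _).1, ⟨_, (hy.2 _).2⟩, fun hcm => hx3 ?_⟩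
            exact (T6 _ _ (hy.2 _).2 (by rw [← ex]; exact hx0)).1 hcm
          have tz : Tt t (xs y z) := by
            rw [ez]
            refine ⟨(hy.2 _).1, ⟨_, (hy.2 _).2⟩, fun hcm => hz3 ?_⟩
            exact (T6 _ _ (hy.2 _).2 (by rw [← ez]; exact hz0)).1 hcm
          obtain ⟨_, _, _, _, _, _, R7, _⟩ := hRlz n p N R e t hL
          have h7 := (R7 _ _ _ tx tx tz).2
          have hR' : xs y x * xs y x * xs y z ≠ 0 := by
            intro h9
            apply hR
            change xs y x * (xs y x * xs y z) = 0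
            rw [← mul_assoc]
            exact h9
          rcases h7 with h8 | ⟨_, _, c, hc1, hc2⟩
          · exact absurd h8 hR'
          · rw [mx, mz]
            have k1 := T4 (xs y x) (a ⟨x, hx⟩) c (by rw [ex]; exact (hy.2 _).2) hc1 hx0
            have k2 := T4 (xs y z) (a ⟨z, hz⟩) c (by rw [ez]; exact (hy.2 _).2) hc2 hz0
            have k3 : a ⟨x, hx⟩ ≡ a ⟨z, hz⟩ [MOD N] := k1.trans k2.symm
            exact k3.add_right 1
        · have : NW N a = [Lt0 N a ++ [x, z], Lt0 N a ++ [z, x]] := by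
            unfold NW; rw [h]; simp [h0]
          rw [this]
          have q : ChaD N a y (Lt0 N a ++ [x, z]) (Lt0 N a ++ [z, x]) :=
            Cha_w2 hA hz hxz hx1
          simp only [List.pairwise_cons, List.mem_cons, List.not_mem_nil, or_false,
            forall_eq, false_imp_iff, implies_true, and_true, List.Pairwise.nil]
          exact q
      · obtain ⟨hx, hx1⟩ := hM x (by rw [h]; simp)
        obtain ⟨hz, hz1⟩ := hM z (by rw [h]; simp)
        obtain ⟨hw, hw1⟩ := hM w (by rw [h]; simp)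
        rw [h] at hnd
        simp only [List.nodup_cons, List.mem_cons, List.not_mem_nil, or_false, not_or] at hnd
        by_cases h0 : Lt0 N a = []
        · have : NW N a = [[x, z, w], [z, x, w], [x, w, z]] := by
            unfold NW; rw [h]; simp [h0]
          rw [this]
          exact Cha_w3 hc hx hz hw hnd.1.1 hnd.1.2 hnd.2.1 hx1 hz1
        · have : NW N a = [] := by
            unfold NW; rw [h]; simp [h0]
          rw [this]
          exact List.Pairwise.nil
      · have : NW N a = [] := by unfold NW; rw [h]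
        rw [this]
        exact List.Pairwise.nil
    have hsym : Std.Symm (ChaD N a y) := ⟨by
      intro u v huv h3 h4
      obtain ⟨i, hi, h5⟩ := huv h4 h3
      exact ⟨i, hi, fun h6 => h5 h6.symm⟩⟩
    obtain ⟨i, hi, h3⟩ := hP.forall hν hν' hne h1 h2
    exact ⟨⟨i, hi⟩, h3⟩

end Pool.Agent.CRP
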