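import Pool.Agent.CRP.St
import Pool.Agent.CRM.Cna
import Pool.Agent.CRM.Cnb
import Pool.Agent.CRM.Cnj
import Pool.Agent.CRM.Gbp

/-!
Campaign CRP, module CJL: reduction to one frame.
-/

set_option autoImplicit false

namespace Pool.Agent.CRP

open Pool.Agent.CRR Pool.Agent.CRN Pool.Agent.CRK Pool.Agent.CRL Pool.Agent.CRM

theorem thm_Cjl : St_Cjl := by
  intro n p N R _ _ e t hL H hH b φ htm hdep hyp hne
  have hCnj : CRM.St_Cnj := CRM.thm_Cnj CRM.thm_Cna CRM.thm_Cnb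
  have htr : ∀ v : ℕ → R, Vec n 1 b v → ∃ θ : R ≃+* R,
      Vec n 1 b (fun i => θ (v i)) ∧ (∃ k, θ (v 0) = pw t k) ∧ ∃ k, t = pw (θ (v 0)) k := by
    intro v hv
    obtain ⟨θ, π, h⟩ := hCnj n p R hL.cy 1 (fun _ => t) (fun i => v i) hL.fr hv.1
    obtain ⟨h1, h2, _⟩ := h 0
    exact ⟨θ, ⟨Gbp_frame θ n 1 _ hv.1, fun k hk => Gbp_nl θ (hv.2 k hk)⟩, h1, h2⟩
  refine ⟨htm, hdep, ?_, ?_, hne⟩
  · intro v hv
    obtain ⟨θ, h1, h2, h3⟩ := htr v hv
    have h4 := (hyp (fun i => θ (v i)) h1 h2 h3).1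
    rw [htm.map θ v] at h4
    exact Gbp_inv θ H hH h4
  · intro v hv S hS hvS
    obtain ⟨θ, h1, h2, h3⟩ := htr v hv
    have h4 := (hyp (fun i => θ (v i)) h1 h2 h3).2 (S.map (θ : R →ₙ+* R)) ?_ ?_
    · rw [htm.map θ v] at h4
      exact (map_eq_zero_iff θ θ.injective).1 h4
    · intro htop
      apply hS
      rw [eq_top_iff]
      intro x _
      have h5 : θ x ∈ S.map (θ : R →ₙ+* R) := by
        rw [htop]
        trivial
      obtain ⟨y, hy, hyx⟩ := NonUnitalSubring.mem_map.1 h5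
      have h6 : y = x := θ.injective hyx
      rwa [← h6]
    · intro i hi
      exact NonUnitalSubring.mem_map.2 ⟨v i, hvS i hi, rfl⟩

end Pool.Agent.CRP
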