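import Pool.Agent.CRP.St
import Pool.Agent.CRM.Dmk
import Pool.Agent.CRM.Kjf
import Pool.Agent.CRM.Tyn
import Pool.Agent.CRM.Foi

/-!
Campaign CRP, module Dcp: decomposition of nil elements with a type.
-/

set_option autoImplicit false

namespace Pool.Agent.CRP

open Pool.Agent.CRR Pool.Agent.CRN Pool.Agent.CRK Pool.Agent.CRL Pool.Agent.CRM

section

variable {R : Type} [NonUnitalRing R]

theorem Dcp_com {t u : R} (hu : u ∈ NonUnitalSubring.closure ({t} : Set R)) (k : ℕ) :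
    u * pw t k = pw t k * u := by
  have h1 : u * t = t * u := by
    induction hu using NonUnitalSubring.closure_induction with
    | mem w hw => rw [Set.mem_singleton_iff.1 hw]
    | zero => rw [zero_mul, mul_zero]
    | add a b _ _ ha hb => rw [add_mul, mul_add, ha, hb]
    | neg a _ ha => rw [neg_mul, mul_neg, ha]
    | mul a b _ _ ha hb => rw [mul_assoc, hb, ← mul_assoc, ha, mul_assoc]
  induction k with
  | zero => exact h1
  | succ k ih =>
    have h2 : pw t (k + 1) = pw t k * t := rfl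
    rw [h2, ← mul_assoc, ih, mul_assoc, h1, ← mul_assoc]

theorem Dcp_all {n p : ℕ} [Finite R] (hC : Cy R n p) {e : R} (he : Prm R e)
    (hid : ∀ x, e * x = x ∧ x * e = x) {g : ℕ} {a : Fin g → ℕ} {t : R} {x : Fin g → R}
    (hT : Ty n a t x) (hgen : NonUnitalSubring.closure ({t} ∪ Set.range x) = ⊤) {y : R}
    (hy : Nl y) : y ∈ DmkM p t x g := by
  obtain ⟨J, hJ, hJn⟩ := CRL.jil n hC.n4 R hC.inM hC.nt
  obtain ⟨N, _, _, _, _, hTy⟩ := thm_Tyn n p R hC e he hid
  obtain ⟨hK1, hK2⟩ := thm_Kjf thm_Tyn n p R hC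
  have hJWJ : JW t ≤ J := by
    unfold JW
    rw [AddSubgroup.closure_le]
    rintro w (⟨a, b, ha, hb, rfl⟩ | ⟨_, hw⟩)
    · exact (hJ a b ((hJn b).2 hb)).1
    · exact (hJn w).2 hw
  have hKJ : KJ R p ≤ J := by
    rw [← hK2 e he hid t hT.1]
    exact hJWJ
  have hKI := Dmk_kj p hJ hJn
  have ht : t ∈ NonUnitalSubring.closure ({t} : Set R) :=
    NonUnitalSubring.subset_closure (Set.mem_singleton t)
  have heW : e ∈ NonUnitalSubring.closure ({t} : Set R) := by
    rw [← (hTy t hT.1).1]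
    exact Dmk_pw _ ht _
  have hMJ : DmkM p t x g ≤ J := Dmk_le hKJ fun i _ u _ => (hJ u _ ((hJn _).2 (hT.2 i).1)).1
  let Y : NonUnitalSubring R :=
    { carrier := {r | ∃ w ∈ NonUnitalSubring.closure ({t} : Set R), ∃ m ∈ DmkM p t x g,
        r = w + m}
      zero_mem' := ⟨0, zero_mem _, 0, zero_mem _, (add_zero 0).symm⟩
      add_mem' := by
        rintro _ _ ⟨w, hw, m, hm, rfl⟩ ⟨w', hw', m', hm', rfl⟩
        exact ⟨w + w', add_mem hw hw', m + m', add_mem hm hm', by abel⟩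
      neg_mem' := by
        rintro _ ⟨w, hw, m, hm, rfl⟩
        exact ⟨-w, neg_mem hw, -m, neg_mem hm, by abel⟩
      mul_mem' := by
        rintro _ _ ⟨w, hw, m, hm, rfl⟩ ⟨w', hw', m', hm', rfl⟩
        refine ⟨w * w', mul_mem hw hw', w * m' + m * w' + m * m', ?_, ?_⟩
        · refine add_mem (add_mem (Dmk_left hKI g hw hm')
            (Dmk_right hKI a (fun i => (hT.2 i).2) g hw' m hm)) (Dmk_kjle ?_)
          exact AddSubgroup.subset_closure
            (Or.inl ⟨m, m', (hJn _).1 (hMJ hm), (hJn _).1 (hMJ hm'), rfl⟩)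
        · rw [add_mul, mul_add, mul_add]
          abel }
  have hY : Y = ⊤ := by
    rw [eq_top_iff, ← hgen, NonUnitalSubring.closure_le]
    rintro r (hr | ⟨i, rfl⟩)
    · rw [Set.mem_singleton_iff.1 hr]
      exact ⟨t, ht, 0, zero_mem _, (add_zero t).symm⟩
    · refine ⟨0, zero_mem _, x i, ?_, (zero_add _).symm⟩
      rw [← (hid (x i)).1]
      exact Dmk_gen i i.2 heW
  obtain ⟨w, hw, m, hm, h1⟩ : y ∈ Y := by
    rw [hY]
    trivial
  have hwJ : w ∈ J := by
    have h2 : w = y - m := by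
      rw [h1]
      abel
    rw [h2]
    exact sub_mem ((hJn y).2 hy) (hMJ hm)
  rw [h1]
  refine add_mem (Dmk_kjle ?_) hm
  rw [← hK2 e he hid t hT.1]
  exact AddSubgroup.subset_closure (Or.inr ⟨hw, (hJn w).1 hwJ⟩)

theorem Dcp_rep {p g : ℕ} {t : R} {x : Fin g → R} {y : R} (hy : y ∈ DmkM p t x g) :
    ∃ κ ∈ KJ R p, ∃ u : Fin g → R, (∀ i, u i ∈ NonUnitalSubring.closure ({t} : Set R)) ∧
      y = κ + ∑ i, u i * x i := by
  obtain ⟨κ, hκ, m, hm, h1⟩ := AddSubgroup.mem_sup.1 hy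
  refine ⟨κ, hκ, ?_⟩
  have h2 : ∃ u : Fin g → R, (∀ i, u i ∈ NonUnitalSubring.closure ({t} : Set R)) ∧
      m = ∑ i, u i * x i := by
    clear h1
    induction hm using AddSubgroup.closure_induction with
    | mem w hw =>
      obtain ⟨i, _, u, hu, rfl⟩ := hw
      refine ⟨fun j => if j = i then u else 0, fun j => ?_, ?_⟩
      · show (if j = i then u else 0) ∈ NonUnitalSubring.closure ({t} : Set R)
        split_ifs
        · exact hu
        · exact zero_mem _
      · simp only [ite_mul, zero_mul, Finset.sum_ite_eq', Finset.mem_univ, if_true]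
    | zero => exact ⟨fun _ => 0, fun _ => zero_mem _, by simp⟩
    | add a b _ _ ha hb =>
      obtain ⟨u, hu, rfl⟩ := ha
      obtain ⟨v, hv, rfl⟩ := hb
      exact ⟨fun i => u i + v i, fun i => add_mem (hu i) (hv i), by
        simp only [add_mul, Finset.sum_add_distrib]⟩
    | neg a _ ha =>
      obtain ⟨u, hu, rfl⟩ := ha
      exact ⟨fun i => -u i, fun i => neg_mem (hu i), by
        simp only [neg_mul, Finset.sum_neg_distrib]⟩
  obtain ⟨u, hu, h3⟩ := h2
  exact ⟨u, hu, by rw [← h1, h3]⟩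

end

theorem thm_Dcp (hT : St_Typ) (hK : St_Kdc) : St_Dcp := by
  intro n p N R _ _ e t hF g a x hx hgen y b hy hyt
  obtain ⟨-, -, hpw, -⟩ := hT n p N R e t hF
  obtain ⟨κ, hκ, u, hu, h1⟩ := Dcp_rep (Dcp_all hF.cy hF.prm hF.one hx hgen hy)
  obtain ⟨J, hJ, hJn⟩ := CRL.jil n hF.cy.n4 R hF.cy.inM hF.cy.nt
  have hKI := Dmk_kj p hJ hJn
  obtain ⟨Φ, hΦ, -, hadd, -, hI⟩ := thm_Foi n p R hF.cy e hF.prm hF.one N hF.n1 hF.np
  have hΦt := hΦ t hF.pn fun k h1 h2 => (hF.un k h1 h2).imp fun _ h => h.1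
  have hN : 0 < N := hF.n1
  have hjN : b % N < N := Nat.mod_lt _ hN
  have hb : pw t b = pw t (b % N) := hpw b (b % N) (Nat.mod_mod _ _).symm
  have h2 : Φ (b % N) t y = y := (hΦt y).2.1 _ hjN (by rw [← hb]; exact hyt)
  have h3 : ∀ i, Φ (b % N) t (u i * x i) = if a i % N = b % N then u i * x i else 0 := by
    intro i
    have h4 : u i * x i * t = pw t (a i) * (u i * x i) := by
      rw [mul_assoc, (hx.2 i).2, ← mul_assoc, Dcp_com (hu i), mul_assoc]
    have h5 : pw t (a i) = pw t (a i % N) := hpw _ _ (Nat.mod_mod _ _).symm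
    rw [h5] at h4
    split_ifs with h6
    · rw [h6] at h4
      exact (hΦt _).2.1 _ hjN h4
    · exact (hΦt _).2.2.1 _ _ hjN (Nat.mod_lt _ hN) (fun h => h6 h.symm) h4
  have h4 : y = Φ (b % N) t κ + ∑ i, (if a i % N = b % N then u i else 0) * x i := by
    let F : R →+ R := AddMonoidHom.mk' (Φ (b % N) t) (hadd (b % N) t)
    have h5 : F y = F κ + ∑ i, F (u i * x i) := by
      rw [← map_sum, ← map_add, ← h1]
    have h6 : ∀ z, F z = Φ (b % N) t z := fun _ => rfl
    rw [h6, h2, h6] at h5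
    rw [h5]
    congr 1
    refine Finset.sum_congr rfl fun i _ => ?_
    rw [h6, h3 i]
    split_ifs
    · rfl
    · rw [zero_mul]
  have h5 : Φ (b % N) t κ * t = pw t b * Φ (b % N) t κ := by
    rw [hb]
    exact (hΦt κ).1 _ hjN
  obtain ⟨w, hw, hw0, hw1⟩ := hK n p N R e t hF (Φ (b % N) t κ) b (hI _ hKI _ _ _ hκ) h5
  refine ⟨fun i => if a i % N = b % N then u i else 0, w, fun i => ⟨?_, fun h => if_neg h⟩, hw,
    hw0, ?_⟩
  · show (if a i % N = b % N then u i else 0) ∈ NonUnitalSubring.closure ({t} : Set R)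
    split_ifs
    · exact hu i
    · exact zero_mem _
  · have h6 : y - ∑ i, (if a i % N = b % N then u i else 0) * x i - w * (p • e) =
        Φ (b % N) t κ - w * (p • e) := by
      have : y - ∑ i, (if a i % N = b % N then u i else 0) * x i = Φ (b % N) t κ := by
        rw [sub_eq_iff_eq_add]
        exact h4
      rw [this]
    rw [h6]
    exact hw1

end Pool.Agent.CRP
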