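import Pool.Agent.CRP.St
import Pool.Agent.CRM.Foi
import Pool.Agent.CRM.Nac
import Pool.Agent.CRL.All

/-!
Campaign CRP, module Kdc: elements of `J^2 + p R` with a type.
-/

set_option autoImplicit false

namespace Pool.Agent.CRP

open Pool.Agent.CRR Pool.Agent.CRN Pool.Agent.CRK Pool.Agent.CRL Pool.Agent.CRM

/-- `p e` is nil -/
theorem Kdc_pe {n p : ℕ} {R : Type} [NonUnitalRing R] [Finite R] (hcy : Cy R n p) {e : R}
    (he : Prm R e) (h1 : ∀ x : R, e * x = x ∧ x * e = x) : Nl (p • e) := by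
  obtain ⟨r, hr⟩ := hcy.pr
  have h2 : e * (p • e) = p • e := by rw [mul_smul_comm, (h1 e).1]
  have h3 : (p • e) * e = p • e := by rw [smul_mul_assoc, (h1 e).1]
  rcases thm_Prl n hcy.n4 R hcy.inM e he (p • e) h2 h3 with h | ⟨y, hy, _, hxy, _⟩
  · exact h
  · exfalso
    rw [smul_mul_assoc, (h1 y).1] at hxy
    have h4 : ∀ k : ℕ, ∃ z : R, e = (p ^ k) • z := by
      intro k
      induction k with
      | zero => exact ⟨e, by rw [pow_zero, one_smul]⟩
      | succ k ih =>
        obtain ⟨z, hz⟩ := ih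
        refine ⟨y * z, ?_⟩
        have h5 : z = p • (y * z) := by
          rw [← smul_mul_assoc, hxy, (h1 z).1]
        rw [pow_succ, mul_smul, ← h5]
        exact hz
    obtain ⟨z, hz⟩ := h4 r
    rw [hr] at hz
    exact he.2.1 hz

/-- the elements of the subring generated by `t` commute with `t` -/
theorem Kdc_comm {R : Type} [NonUnitalRing R] {t w : R}
    (hw : w ∈ NonUnitalSubring.closure ({t} : Set R)) : w * t = t * w := by
  induction hw using NonUnitalSubring.closure_induction with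
  | mem x hx =>
    rw [Set.mem_singleton_iff] at hx
    rw [hx]
  | zero => rw [zero_mul, mul_zero]
  | add x y _ _ hx hy => rw [add_mul, mul_add, hx, hy]
  | neg x _ hx => rw [neg_mul, mul_neg, hx]
  | mul x y _ _ hx hy => rw [mul_assoc, hy, ← mul_assoc, hx, mul_assoc]

/-- **KDC.** -/
theorem thm_Kdc (hT : St_Typ) : St_Kdc := by
  intro n p N R _ _ e t hL κ a hκ hκt
  obtain ⟨_, hmul, hmod, _, _, _, _, _, _⟩ := hT n p N R e t hL
  obtain ⟨Φ, hΦ, hnl, hadd, _, _⟩ := thm_Foi n p R hL.cy e hL.prm hL.one N hL.n1 hL.np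
  have hΦt := hΦ t hL.pn (fun k h1 h2 => (hL.un k h1 h2).imp fun u hu => hu.1)
  obtain ⟨j, hj⟩ : ∃ j, j = a % N := ⟨_, rfl⟩
  have hjN : j < N := by
    rw [hj]
    exact Nat.mod_lt _ hL.n1
  have haj : pw t a = pw t j := hmod a j (by rw [hj, Nat.mod_mod])
  obtain ⟨P, hP⟩ : ∃ P : R →+ R, ∀ x, P x = Φ j t x :=
    ⟨AddMonoidHom.mk' (Φ j t) (hadd j t), fun _ => rfl⟩
  have hC : ∀ x y, Nl x → Nl y → P (x * y) ∈ AddSubgroup.closure
      {z | ∃ c d, Hx t c ∧ Hx t d ∧ z = c * d ∧ z * t = pw t a * z} := by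
    intro x y hx hy
    have e1 : x * y = ∑ i ∈ Finset.range N, ∑ i' ∈ Finset.range N, Φ i t x * Φ i' t y := by
      conv_lhs => rw [(hΦt x).2.2.2, (hΦt y).2.2.2]
      rw [Finset.sum_mul_sum]
    rw [e1, map_sum]
    refine sum_mem fun i hi => ?_
    rw [map_sum]
    refine sum_mem fun i' hi' => ?_
    have hi := Finset.mem_range.1 hi
    have hi' := Finset.mem_range.1 hi'
    have h1 := (hΦt x).1 i hi
    have h2 := (hΦt y).1 i' hi'
    have h3 := hmul _ _ _ _ h1 h2
    have h4 : pw t ((i + 1) * (i' + 1) - 1) = pw t (((i + 1) * (i' + 1) - 1) % N) :=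
      hmod _ _ (by rw [Nat.mod_mod])
    rw [h4] at h3
    by_cases hm : ((i + 1) * (i' + 1) - 1) % N = j
    · rw [hm] at h3
      rw [hP, (hΦt _).2.1 j hjN h3]
      refine AddSubgroup.subset_closure ⟨_, _, ⟨hnl _ _ _ hx, i, h1⟩, ⟨hnl _ _ _ hy, i', h2⟩,
        rfl, ?_⟩
      rw [haj]
      exact h3
    · rw [hP, (hΦt (Φ i t x * Φ i' t y)).2.2.1 j _ hjN (Nat.mod_lt _ hL.n1) (fun h => hm h.symm) h3]
      exact zero_mem _
  have hmain : ∃ w ∈ NonUnitalSubring.closure ({t} : Set R), (a % N ≠ 0 → w = 0) ∧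
      P κ - w * (p • e) ∈ AddSubgroup.closure
        {z | ∃ c d, Hx t c ∧ Hx t d ∧ z = c * d ∧ z * t = pw t a * z} := by
    unfold KJ at hκ
    clear hκt
    induction hκ using AddSubgroup.closure_induction with
    | mem x hx =>
      rcases hx with ⟨c, d, hc, hd, rfl⟩ | ⟨b, rfl⟩
      · refine ⟨0, zero_mem _, fun _ => rfl, ?_⟩
        rw [zero_mul, sub_zero]
        exact hC c d hc hd
      · obtain ⟨c, hc, hu⟩ := gen n p R hL.cy 1 (fun _ => t) hL.fr b
        have hw : (∑ i, c i) ∈ NonUnitalSubring.closure ({t} : Set R) := by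
          refine sum_mem fun i _ => ?_
          rcases hc i with h | ⟨k, h⟩
          · rw [h]
            exact zero_mem _
          · rw [h]
            exact Nac_pw _ (NonUnitalSubring.subset_closure (Set.mem_singleton t)) k
        have hpe := Kdc_pe hL.cy hL.prm hL.one
        have e1 : p • b = (∑ i, c i) * (p • e) + (p • e) * (b - ∑ i, c i) := by
          rw [mul_smul_comm, smul_mul_assoc, (hL.one _).1, (hL.one _).2, ← smul_add,
            add_sub_cancel]
        have h2 := hC _ _ hpe hu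
        have h3 : (∑ i, c i) * (p • e) * t = pw t 0 * ((∑ i, c i) * (p • e)) := by
          rw [mul_smul_comm, (hL.one _).2, smul_mul_assoc, Kdc_comm hw]
          show _ = t * _
          rw [mul_smul_comm]
        by_cases h0 : j = 0
        · refine ⟨∑ i, c i, hw, fun h => absurd (hj ▸ h0) h, ?_⟩
          rw [e1, map_add, hP ((∑ i, c i) * (p • e)), (hΦt _).2.1 j hjN (by rw [h0]; exact h3),
            add_sub_cancel_left]
          exact h2
        · refine ⟨0, zero_mem _, fun _ => rfl, ?_⟩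
          rw [e1, map_add, hP ((∑ i, c i) * (p • e)),
            (hΦt ((∑ i, c i) * (p • e))).2.2.1 j 0 hjN hL.n1 h0 h3, zero_add, zero_mul, sub_zero]
          exact h2
    | zero =>
      refine ⟨0, zero_mem _, fun _ => rfl, ?_⟩
      rw [map_zero, zero_mul, sub_zero]
      exact zero_mem _
    | add x y _ _ hx hy =>
      obtain ⟨w, hw, hw0, hx⟩ := hx
      obtain ⟨w', hw', hw0', hy⟩ := hy
      refine ⟨w + w', add_mem hw hw', fun h => by rw [hw0 h, hw0' h, add_zero], ?_⟩
      rw [map_add, add_mul, add_sub_add_comm]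
      exact add_mem hx hy
    | neg x _ hx =>
      obtain ⟨w, hw, hw0, hx⟩ := hx
      refine ⟨-w, neg_mem hw, fun h => by rw [hw0 h, neg_zero], ?_⟩
      have e2 : P (-x) - -w * (p • e) = -(P x - w * (p • e)) := by
        rw [map_neg, neg_mul]
        abel
      rw [e2]
      exact neg_mem hx
  rw [haj] at hκt
  rwa [hP, (hΦt κ).2.1 j hjN hκt] at hmain

end Pool.Agent.CRP
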