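import Pool.Agent.CRP.St
import Pool.Agent.CRM.Tyn

/-!
Campaign CRP, module Lfx: frames of a local ring.
-/

set_option autoImplicit false

namespace Pool.Agent.CRP

open Pool.Agent.CRR Pool.Agent.CRN Pool.Agent.CRK Pool.Agent.CRL Pool.Agent.CRM

theorem thm_Lfx : St_Lfx := by
  intro n p R _ _ hC e he h1
  obtain ⟨N, hN1, _, hNp, ⟨t₀, ht₀⟩, hall⟩ := thm_Tyn n p R hC e he h1
  have hL : ∀ t : R, Frame R n 1 (fun _ => t) → Lfr n p N e t := fun t ht =>
    { cy := hC
      prm := he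
      one := h1
      fr := ht
      n1 := hN1
      np := hNp
      pn := (hall t ht).2.1
      un := (hall t ht).2.2 }
  exact ⟨N, ⟨t₀, hL t₀ ht₀⟩, hL⟩

end Pool.Agent.CRP
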