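import Pool.Agent.CRP.St
import Pool.Agent.CRL.All
import Pool.Agent.CRN.Jnl
import Pool.Agent.CRK.Phz

/-!
Campaign CRP, module Lll: the values `p^k c_(s-1) ... c_0 x y` for loops `c_i` and two twisted
elements `x, y`.
-/

set_option autoImplicit false

namespace Pool.Agent.CRP

open Pool.Agent.CRR Pool.Agent.CRN Pool.Agent.CRK Pool.Agent.CRL Pool.Agent.CRM

section Lll

variable {R : Type} [NonUnitalRing R]

/-- The product of the elements of a list and `z`. -/
def LllFo (L : List R) (z : R) : R := L.foldr (fun c w => c * w) z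

theorem Lll_nil (z : R) : LllFo [] z = z := rfl

theorem Lll_cons (c : R) (L : List R) (z : R) : LllFo (c :: L) z = c * LllFo L z := rfl

theorem Lll_app (L L' : List R) (z : R) : LllFo (L ++ L') z = LllFo L (LllFo L' z) := by
  simp [LllFo, List.foldr_append]

theorem Lll_add (L : List R) (z w : R) : LllFo L (z + w) = LllFo L z + LllFo L w := by
  induction L with
  | nil => rfl
  | cons c L ih => rw [Lll_cons, Lll_cons, Lll_cons, ih, mul_add]

theorem Lll_zero (L : List R) : LllFo L 0 = 0 := by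
  induction L with
  | nil => rfl
  | cons c L ih => rw [Lll_cons, ih, mul_zero]

theorem Lll_neg (L : List R) (z : R) : LllFo L (-z) = -LllFo L z := by
  induction L with
  | nil => rfl
  | cons c L ih => rw [Lll_cons, Lll_cons, ih, mul_neg]

theorem Lll_mul (L : List R) (z w : R) : LllFo L (z * w) = LllFo L z * w := by
  induction L with
  | nil => rfl
  | cons c L ih => rw [Lll_cons, Lll_cons, ih, mul_assoc]

theorem Lll_smul (k : ℕ) (L : List R) (z : R) : LllFo L (k • z) = k • LllFo L z := by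
  induction L with
  | nil => rfl
  | cons c L ih => rw [Lll_cons, Lll_cons, ih, mul_smul_comm]

theorem Lll_comm (u : R) (L : List R) (z : R) (h : ∀ c ∈ L, c * u = u * c) :
    LllFo L (u * z) = u * LllFo L z := by
  induction L with
  | nil => rfl
  | cons c L ih =>
    rw [Lll_cons, Lll_cons, ih fun d hd => h d (List.mem_cons_of_mem c hd), ← mul_assoc,
      h c List.mem_cons_self, mul_assoc]

theorem Lll_pll (c : ℕ → R) (z : R) (s : ℕ) :
    pll c z s = LllFo ((List.range s).reverse.map c) z := by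
  induction s with
  | zero => rfl
  | succ s ih =>
    rw [List.range_succ, List.reverse_append, List.reverse_singleton, List.singleton_append,
      List.map_cons, Lll_cons, ← ih]
    rfl

/-- Twisted or zero. -/
def LllT (t x : R) : Prop := x = 0 ∨ Tt t x

theorem Lll_W {t c u : R} (h : c * t = t * c)
    (hu : u ∈ NonUnitalSubring.closure ({t} : Set R)) : c * u = u * c := by
  induction hu using NonUnitalSubring.closure_induction with
  | mem x hx => rw [Set.mem_singleton_iff.1 hx]; exact h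
  | zero => rw [mul_zero, zero_mul]
  | add a b _ _ ha hb => rw [mul_add, add_mul, ha, hb]
  | neg a _ ha => rw [mul_neg, neg_mul, ha]
  | mul a b _ _ ha hb => rw [← mul_assoc, ha, mul_assoc, hb, mul_assoc]

theorem Lll_pwW (t : R) (a : ℕ) : pw t a ∈ NonUnitalSubring.closure ({t} : Set R) := by
  induction a with
  | zero => exact NonUnitalSubring.subset_closure rfl
  | succ a ih => exact mul_mem ih (NonUnitalSubring.subset_closure rfl)

theorem Lll_xW {t x u : R} {a : ℕ} (h : x * t = pw t a * x)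
    (hu : u ∈ NonUnitalSubring.closure ({t} : Set R)) :
    ∃ u' ∈ NonUnitalSubring.closure ({t} : Set R), x * u = u' * x := by
  induction hu using NonUnitalSubring.closure_induction with
  | mem y hy => rw [Set.mem_singleton_iff.1 hy]; exact ⟨_, Lll_pwW t a, h⟩
  | zero => exact ⟨0, zero_mem _, by rw [mul_zero, zero_mul]⟩
  | add b c _ _ hb hc =>
    obtain ⟨b', hb', hb⟩ := hb
    obtain ⟨c', hc', hc⟩ := hc
    exact ⟨b' + c', add_mem hb' hc', by rw [mul_add, add_mul, hb, hc]⟩
  | neg b _ hb =>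
    obtain ⟨b', hb', hb⟩ := hb
    exact ⟨-b', neg_mem hb', by rw [mul_neg, neg_mul, hb]⟩
  | mul b c _ _ hb hc =>
    obtain ⟨b', hb', hb⟩ := hb
    obtain ⟨c', hc', hc⟩ := hc
    exact ⟨b' * c', mul_mem hb' hc', by rw [← mul_assoc, hb, mul_assoc, hc, mul_assoc]⟩

/-- The rules which are used. -/
structure LllP (N p : ℕ) (e t : R) : Prop where
  a1 : ∀ X c Y, LllT t X → Lo t c → LllT t Y → X * c * Y = 0
  a2 : ∀ c d X, Lo t c → Lo t d → LllT t X → c * d * X + d * c * X = 0
  a3 : ∀ c X, Lo t c → LllT t X → c * c * X = 0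
  a4 : ∀ X Y c, LllT t X → LllT t Y → Lo t c → X * Y * c = 0 ∨ X * Y * c + c * X * Y = 0
  a5 : ∀ c X, Lo t c → LllT t X → LllT t (c * X) ∧ LllT t (X * c)
  hx : ∀ z, Hx t z → z = 0 ∨ Lo t z ∨ Tt t z
  pe : Lo t (p • e)
  pp : ∀ X, LllT t X → p • p • X = 0
  ll : ∀ c d, Lo t c → Lo t d → Lo t (c * d)
  zt : ∀ X Y Z, LllT t X → LllT t Y → LllT t Z → X * Y * Z = 0
  e1 : ∀ x : R, e * x = x
  ty3 : ∀ a b : ℕ, a % N = b % N → pw t a = pw t b
  ty4 : ∀ (x : R) (a b : ℕ), x * t = pw t a * x → x * t = pw t b * x → x ≠ 0 → a % N = b % N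
  ty6 : ∀ (x : R) (a : ℕ), x * t = pw t a * x → x ≠ 0 → (x * t = t * x ↔ a % N = 0)
  cd : ∀ (c d : R) (b : ℕ), Lo t c → Tt t d → c * d ≠ 0 → c * d * t = pw t b * (c * d) →
    d * t = pw t b * d
  dc : ∀ (c d : R) (b : ℕ), Tt t c → Lo t d → c * d ≠ 0 → c * d * t = pw t b * (c * d) →
    c * t = pw t b * c

namespace LllP

variable {N p : ℕ} {e t : R} (P : LllP N p e t)
include P

theorem tt {a : ℕ} (ha : a % N ≠ 0) {x : R} (hx : Nl x) (h : x * t = pw t a * x) :
    LllT t x := by
  by_cases h0 : x = 0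
  · exact Or.inl h0
  · exact Or.inr ⟨hx, ⟨a, h⟩, fun h1 => ha ((P.ty6 x a h h0).1 h1)⟩

theorem llz {a : ℕ} (ha : a % N ≠ 0) {c d : R} (hc : Lo t c) (hd : Lo t d)
    (h : c * d * t = pw t a * (c * d)) : c * d = 0 := by
  by_contra h0
  exact ha ((P.ty6 _ a h h0).1 (P.ll c d hc hd).2)

theorem foT (L : List R) (hL : ∀ c ∈ L, Lo t c) {x : R} (hx : LllT t x) :
    LllT t (LllFo L x) := by
  induction L with
  | nil => exact hx
  | cons c L ih =>
    exact (P.a5 c _ (hL c List.mem_cons_self) (ih fun d hd => hL d (List.mem_cons_of_mem c hd))).1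

theorem clX {ax ay k s : ℕ} (hax : ax % N ≠ 0) (hay : ay % N ≠ 0)
    (ih : ∀ (L : List R) (x' y' : R), L.length = s + 1 → (∀ c ∈ L, Lo t c) → Nl x' →
      x' * t = pw t ax * x' → Nl y' → y' * t = pw t ay * y' → p ^ k • LllFo L (x' * y') = 0)
    (L : List R) (hL : L.length = s) (hLo : ∀ c ∈ L, Lo t c) {y' : R} (hy : Nl y')
    (hyt : y' * t = pw t ay * y') {κ : R} (hκ : κ ∈ AddSubgroup.closure
      {z | ∃ c d, Hx t c ∧ Hx t d ∧ z = c * d ∧ z * t = pw t ax * z}) :
    p ^ k • LllFo L (κ * y') = 0 := by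
  have hY : LllT t y' := P.tt hay hy hyt
  induction hκ using AddSubgroup.closure_induction with
  | mem z hz =>
    obtain ⟨c, d, hc, hd, rfl, hz⟩ := hz
    rcases P.hx c hc with rfl | hc | hc
    · rw [zero_mul, zero_mul, Lll_zero, smul_zero]
    · rcases P.hx d hd with rfl | hd | hd
      · rw [mul_zero, zero_mul, Lll_zero, smul_zero]
      · rw [P.llz hax hc hd hz, zero_mul, Lll_zero, smul_zero]
      · by_cases h0 : c * d = 0
        · rw [h0, zero_mul, Lll_zero, smul_zero]
        · have h1 := ih (L ++ [c]) d y' (by simp [hL]) (by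
            intro b hb
            rcases List.mem_append.1 hb with hb | hb
            · exact hLo b hb
            · rw [List.mem_singleton.1 hb]; exact hc) hd.1 (P.cd c d ax hc hd h0 hz) hy hyt
          rw [Lll_app, Lll_cons, Lll_nil] at h1
          rw [mul_assoc]
          exact h1
    · rcases P.hx d hd with rfl | hd | hd
      · rw [mul_zero, zero_mul, Lll_zero, smul_zero]
      · rw [P.a1 c d y' (Or.inr hc) hd hY, Lll_zero, smul_zero]
      · rw [P.zt c d y' (Or.inr hc) (Or.inr hd) hY, Lll_zero, smul_zero]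
  | zero => rw [zero_mul, Lll_zero, smul_zero]
  | add a b _ _ ha hb => rw [add_mul, Lll_add, smul_add, ha, hb, add_zero]
  | neg a _ ha => rw [neg_mul, Lll_neg, smul_neg, ha, neg_zero]

theorem clY {ax ay k s : ℕ} (hax : ax % N ≠ 0) (hay : ay % N ≠ 0)
    (ih : ∀ (L : List R) (x' y' : R), L.length = s + 1 → (∀ c ∈ L, Lo t c) → Nl x' →
      x' * t = pw t ax * x' → Nl y' → y' * t = pw t ay * y' → p ^ k • LllFo L (x' * y') = 0)
    (L : List R) (hL : L.length = s) (hLo : ∀ c ∈ L, Lo t c) {x' : R} (hx : Nl x')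
    (hxt : x' * t = pw t ax * x') {κ : R} (hκ : κ ∈ AddSubgroup.closure
      {z | ∃ c d, Hx t c ∧ Hx t d ∧ z = c * d ∧ z * t = pw t ay * z}) :
    p ^ k • LllFo L (x' * κ) = 0 := by
  have hX : LllT t x' := P.tt hax hx hxt
  induction hκ using AddSubgroup.closure_induction with
  | mem z hz =>
    obtain ⟨c, d, hc, hd, rfl, hz⟩ := hz
    rcases P.hx c hc with rfl | hc | hc
    · rw [zero_mul, mul_zero, Lll_zero, smul_zero]
    · rcases P.hx d hd with rfl | hd | hd
      · rw [mul_zero, mul_zero, Lll_zero, smul_zero]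
      · rw [P.llz hay hc hd hz, mul_zero, Lll_zero, smul_zero]
      · rw [← mul_assoc, P.a1 x' c d hX hc (Or.inr hd), Lll_zero, smul_zero]
    · rcases P.hx d hd with rfl | hd | hd
      · rw [mul_zero, mul_zero, Lll_zero, smul_zero]
      · by_cases h0 : c * d = 0
        · rw [h0, mul_zero, Lll_zero, smul_zero]
        · rcases P.a4 x' c d hX (Or.inr hc) hd with h2 | h2
          · rw [← mul_assoc, h2, Lll_zero, smul_zero]
          · have h1 := ih (L ++ [d]) x' c (by simp [hL]) (by
              intro b hb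
              rcases List.mem_append.1 hb with hb | hb
              · exact hLo b hb
              · rw [List.mem_singleton.1 hb]; exact hd) hx hxt hc.1 (P.dc c d ay hc hd h0 hz)
            rw [Lll_app, Lll_cons, Lll_nil] at h1
            have h3 : x' * (c * d) = -(d * (x' * c)) := by
              rw [← mul_assoc, ← mul_assoc]
              exact eq_neg_of_add_eq_zero_left h2
            rw [h3, Lll_neg, smul_neg, h1, neg_zero]
      · rw [← mul_assoc, P.zt x' c d hX (Or.inr hc) (Or.inr hd), Lll_zero, smul_zero]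
  | zero => rw [mul_zero, Lll_zero, smul_zero]
  | add a b _ _ ha hb => rw [mul_add, Lll_add, smul_add, ha, hb, add_zero]
  | neg a _ ha => rw [mul_neg, Lll_neg, smul_neg, ha, neg_zero]

theorem clL {ax ay k s : ℕ} (hax : ax % N ≠ 0)
    (ih : ∀ (L : List R) (x' y' : R), L.length = s + 1 → (∀ c ∈ L, Lo t c) → Nl x' →
      x' * t = pw t ax * x' → Nl y' → y' * t = pw t ay * y' → p ^ k • LllFo L (x' * y') = 0)
    (L1 L2 : List R) (hL : L1.length + L2.length + 1 = s) (hLo1 : ∀ c ∈ L1, Lo t c)
    (hLo2 : ∀ c ∈ L2, Lo t c) {x' y' : R} (hx : Nl x')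
    (hxt : x' * t = pw t ax * x') (hy : Nl y') (hyt : y' * t = pw t ay * y') {κ : R}
    (hκ : κ ∈ AddSubgroup.closure
      {z | ∃ c d, Hx t c ∧ Hx t d ∧ z = c * d ∧ z * t = pw t 0 * z}) :
    p ^ k • LllFo (L1 ++ κ :: L2) (x' * y') = 0 := by
  have hX : LllT t x' := P.tt hax hx hxt
  rw [Lll_app, Lll_cons]
  induction hκ using AddSubgroup.closure_induction with
  | mem z hz =>
    obtain ⟨c, d, hc, hd, rfl, hz⟩ := hz
    have hz' : c * d * t = t * (c * d) := hz
    rcases P.hx c hc with rfl | hc | hc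
    · rw [zero_mul, zero_mul, Lll_zero, smul_zero]
    · rcases P.hx d hd with rfl | hd | hd
      · rw [mul_zero, zero_mul, Lll_zero, smul_zero]
      · have h1 := ih (L1 ++ c :: d :: L2) x' y' (by simp; omega) (by
          intro b hb
          rcases List.mem_append.1 hb with hb | hb
          · exact hLo1 b hb
          · rcases List.mem_cons.1 hb with hb | hb
            · rw [hb]; exact hc
            · rcases List.mem_cons.1 hb with hb | hb
              · rw [hb]; exact hd
              · exact hLo2 b hb) hx hxt hy hyt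
        rw [Lll_app, Lll_cons, Lll_cons] at h1
        rw [mul_assoc]
        exact h1
      · have h0 : c * d = 0 := by
          rcases (P.a5 c d hc (Or.inr hd)).1 with h | h
          · exact h
          · exact absurd hz' h.2.2
        rw [h0, zero_mul, Lll_zero, smul_zero]
    · rcases P.hx d hd with rfl | hd | hd
      · rw [mul_zero, zero_mul, Lll_zero, smul_zero]
      · have h0 : c * d = 0 := by
          rcases (P.a5 d c hd (Or.inr hc)).2 with h | h
          · exact h
          · exact absurd hz' h.2.2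
        rw [h0, zero_mul, Lll_zero, smul_zero]
      · rw [Lll_mul L2, ← mul_assoc, P.zt c d _ (Or.inr hc) (Or.inr hd) (P.foT L2 hLo2 hX),
          zero_mul, Lll_zero, smul_zero]
  | zero => rw [zero_mul, Lll_zero, smul_zero]
  | add a b _ _ ha hb => rw [add_mul, Lll_add, smul_add, ha, hb, add_zero]
  | neg a _ ha => rw [neg_mul, Lll_neg, smul_neg, ha, neg_zero]

theorem perm {L L' : List R} (h : L.Perm L') (hL : ∀ c ∈ L, Lo t c) {x : R} (hx : LllT t x) :
    LllFo L x = LllFo L' x ∨ LllFo L x = -LllFo L' x := by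
  induction h with
  | nil => exact Or.inl rfl
  | cons c _ ih =>
    rcases ih fun d hd => hL d (List.mem_cons_of_mem c hd) with h | h
    · left; rw [Lll_cons, Lll_cons, h]
    · right; rw [Lll_cons, Lll_cons, h, mul_neg]
  | swap c d L =>
    right
    have h1 := P.a2 d c _ (hL d List.mem_cons_self)
      (hL c (List.mem_cons_of_mem _ List.mem_cons_self))
      (P.foT L (fun b hb => hL b (List.mem_cons_of_mem _ (List.mem_cons_of_mem _ hb))) hx)
    rw [Lll_cons, Lll_cons, Lll_cons, Lll_cons, ← mul_assoc, ← mul_assoc]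
    exact eq_neg_of_add_eq_zero_left h1
  | trans h1 _ ih1 ih2 =>
    have h3 := ih1 hL
    have h4 := ih2 fun c hc => hL c (h1.mem_iff.2 hc)
    rcases h3 with h3 | h3 <;> rcases h4 with h4 | h4
    · left; rw [h3, h4]
    · right; rw [h3, h4]
    · right; rw [h3, h4]
    · left; rw [h3, h4, neg_neg]

theorem perm' {g : ℕ → R} (hg : ∀ i, Lo t (g i)) {l l' : List ℕ} (h : l.Perm l') {x : R}
    (hx : LllT t x) (y : R) (H' : AddSubgroup R) (k : ℕ)
    (h1 : p ^ k • LllFo (l'.map g) (x * y) ∈ H') : p ^ k • LllFo (l.map g) (x * y) ∈ H' := by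
  have h2 := P.perm (h.map g) (by
    intro c hc
    obtain ⟨i, -, rfl⟩ := List.mem_map.1 hc
    exact hg i) hx
  rw [Lll_mul] at h1 ⊢
  rcases h2 with h2 | h2
  · rw [h2]; exact h1
  · rw [h2, neg_mul, smul_neg]; exact neg_mem h1

theorem dup {g : ℕ → R} (hg : ∀ i, Lo t (g i)) {l : List ℕ} (h : ¬ l.Nodup) {x : R}
    (hx : LllT t x) (y : R) (k : ℕ) : p ^ k • LllFo (l.map g) (x * y) = 0 := by
  rw [List.nodup_iff_sublist] at h
  push Not at h
  obtain ⟨a, ha⟩ := h
  obtain ⟨l', hl'⟩ := ha.exists_perm_append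
  have := P.perm' hg hl' hx y ⊥ k (by
    rw [AddSubgroup.mem_bot, Lll_mul]
    change p ^ k • (g a * (g a * LllFo (l'.map g) x) * y) = 0
    rw [← mul_assoc (g a), P.a3 (g a) _ (hg a) (P.foT _ (by
      intro c hc
      obtain ⟨i, -, rfl⟩ := List.mem_map.1 hc
      exact hg i) hx), zero_mul, smul_zero])
  exact this

end LllP

theorem Lll_pllc (a b : ℕ → R) (z : R) (s : ℕ) (h : ∀ i, i < s → a i = b i) :
    pll a z s = pll b z s := by
  induction s with
  | zero => rfl
  | succ s ih =>
    change a s * pll a z s = b s * pll b z s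
    rw [h s (Nat.lt_succ_self s), ih fun i hi => h i (Nat.lt_succ_of_lt hi)]

/-- The loops `a_0, ..., a_(v-1), p e`. -/
def LllG (v : ℕ) (a : ℕ → R) (p : ℕ) (e : R) (j : ℕ) : R := if j < v then a j else p • e

theorem Lll_finset {l : List ℕ} (hn : l.Nodup) {S : Finset ℕ} (hS : ∀ i ∈ l, i ∈ S)
    (hc : S.card ≤ l.length) (i : ℕ) : i ∈ l ↔ i ∈ S := by
  have h1 : l.toFinset = S := by
    refine Finset.eq_of_subset_of_card_le (fun i hi => hS i (List.mem_toFinset.1 hi)) ?_
    rw [List.toFinset_card_of_nodup hn]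
    exact hc
  rw [← h1, List.mem_toFinset]

namespace LllP

variable {N p : ℕ} {e t : R} (P : LllP N p e t)
include P

theorem pem (z : R) : (p • e) * z = p • z := by
  rw [smul_mul_assoc, P.e1]

theorem gLo {v : ℕ} {a : ℕ → R} (ha : ∀ i, i < v → Lo t (a i)) (j : ℕ) :
    Lo t (LllG v a p e j) := by
  unfold LllG
  split_ifs with h
  · exact ha j h
  · exact P.pe

theorem mLo {v : ℕ} {a : ℕ → R} (ha : ∀ i, i < v → Lo t (a i)) (l : List ℕ) :
    ∀ c ∈ l.map (LllG v a p e), Lo t c := by
  intro c hc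
  obtain ⟨i, -, rfl⟩ := List.mem_map.1 hc
  exact P.gLo ha i

theorem base1 {v k : ℕ} {a : ℕ → R} (ha : ∀ i, i < v → Lo t (a i)) {x : R} (hx : LllT t x)
    (y : R) {H : AddSubgroup R} (hph : ∀ h ∈ H, p • h = 0) (hk : p ^ k • pll a (x * y) v ∈ H)
    (l : List ℕ) (hl : ∀ i ∈ l, i < v + 1) (hlen : v < l.length) :
    p ^ k • LllFo (l.map (LllG v a p e)) (x * y) ∈ (⊥ : AddSubgroup R) := by
  by_cases hn : l.Nodup
  · have hperm : l.Perm (List.range (v + 1)).reverse := by
      refine (List.perm_ext_iff_of_nodup hn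
        (List.nodup_reverse.2 List.nodup_range)).2 fun i => ?_
      rw [Lll_finset hn (S := Finset.range (v + 1)) (fun i hi => Finset.mem_range.2 (hl i hi))
        (by rw [Finset.card_range]; omega)]
      simp
    refine P.perm' (P.gLo ha) hperm hx y ⊥ k ?_
    rw [← Lll_pll, AddSubgroup.mem_bot]
    change p ^ k • (LllG v a p e v * pll (LllG v a p e) (x * y) v) = 0
    rw [Lll_pllc (LllG v a p e) a (x * y) v fun i hi => if_pos hi]
    have h1 : LllG v a p e v = p • e := if_neg (lt_irrefl v)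
    rw [h1, P.pem, smul_comm]
    exact hph _ hk
  · rw [P.dup (P.gLo ha) hn hx]
    exact zero_mem _

theorem base3 {v k : ℕ} {a : ℕ → R} (ha : ∀ i, i < v → Lo t (a i)) {x : R} (hx : LllT t x)
    (y : R) (hk0 : k = 0 → ∀ i, i < v → pll (Function.update a i (p • e)) (x * y) v = 0)
    (l : List ℕ) (hl : ∀ i ∈ l, i < v + 1) (hlen : l.length = v) (hv : v ∈ l) :
    p ^ k • LllFo (l.map (LllG v a p e)) (x * y) ∈ (⊥ : AddSubgroup R) := by
  have hgv : LllG v a p e v = p • e := if_neg (lt_irrefl v)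
  rcases Nat.eq_zero_or_pos k with rfl | hk
  · by_cases hn : l.Nodup
    · obtain ⟨j, hj, hjl⟩ : ∃ j, j < v ∧ j ∉ l := by
        by_contra hcon
        push Not at hcon
        have h1 : Finset.range (v + 1) ⊆ l.toFinset := by
          intro i hi
          rw [List.mem_toFinset]
          rcases Nat.lt_succ_iff_lt_or_eq.1 (Finset.mem_range.1 hi) with h | h
          · exact hcon i h
          · rw [h]; exact hv
        have h2 := Finset.card_le_card h1
        rw [List.toFinset_card_of_nodup hn, Finset.card_range] at h2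
        omega
      have hmem : ∀ i, i ∈ l ↔ i ∈ (Finset.range (v + 1)).erase j := by
        refine Lll_finset hn (fun i hi => ?_) ?_
        · rw [Finset.mem_erase]
          exact ⟨fun h => hjl (h ▸ hi), Finset.mem_range.2 (hl i hi)⟩
        · rw [Finset.card_erase_of_mem (Finset.mem_range.2 (by omega)), Finset.card_range]
          omega
      have hperm : l.Perm ((List.range v).reverse.map fun i => if i = j then v else i) := by
        refine (List.perm_ext_iff_of_nodup hn ?_).2 fun i => ?_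
        · refine List.Nodup.map_on ?_ (List.nodup_reverse.2 List.nodup_range)
          intro i hi i' hi' h
          have h1 : i < v := by simpa using hi
          have h2 : i' < v := by simpa using hi'
          split_ifs at h with h3 h4 h4 <;> omega
        · rw [hmem, Finset.mem_erase, Finset.mem_range, List.mem_map]
          constructor
          · rintro ⟨h1, h2⟩
            by_cases h3 : i = v
            · exact ⟨j, by simpa using hj, by rw [if_pos rfl, h3]⟩
            · refine ⟨i, ?_, if_neg h1⟩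
              rw [List.mem_reverse, List.mem_range]
              omega
          · rintro ⟨i', h1, h2⟩
            rw [List.mem_reverse, List.mem_range] at h1
            split_ifs at h2 with h3 <;> constructor <;> omega
      refine P.perm' (P.gLo ha) hperm hx y ⊥ 0 ?_
      rw [List.map_map, ← Lll_pll, AddSubgroup.mem_bot, pow_zero, one_smul]
      rw [← hk0 rfl j hj]
      refine Lll_pllc _ _ _ _ fun i hi => ?_
      by_cases h1 : i = j
      · subst h1
        rw [Function.update_self, Function.comp_apply, if_pos rfl]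
        exact hgv
      · rw [Function.update_of_ne h1, Function.comp_apply, if_neg h1]
        exact if_pos hi
    · rw [P.dup (P.gLo ha) hn hx]
      exact zero_mem _
  · refine P.perm' (P.gLo ha) (List.perm_cons_erase hv) hx y ⊥ k ?_
    rw [AddSubgroup.mem_bot, List.map_cons, Lll_cons, hgv, P.pem, Lll_mul]
    obtain ⟨k', rfl⟩ : ∃ k', k = k' + 1 := ⟨k - 1, by omega⟩
    have h1 := P.pp _ (P.foT _ (P.mLo ha (l.erase v)) hx)
    rw [pow_succ, mul_smul, ← smul_mul_assoc, ← smul_mul_assoc, h1, zero_mul, smul_zero]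

theorem base2 {v k : ℕ} {a : ℕ → R} (ha : ∀ i, i < v → Lo t (a i)) {x : R} (hx : LllT t x)
    (y : R) {H : AddSubgroup R} (hk : p ^ k • pll a (x * y) v ∈ H)
    (hk0 : k = 0 → ∀ i, i < v → pll (Function.update a i (p • e)) (x * y) v = 0)
    (l : List ℕ) (hl : ∀ i ∈ l, i < v + 1) (hlen : l.length = v) :
    p ^ k • LllFo (l.map (LllG v a p e)) (x * y) ∈ H := by
  by_cases hv : v ∈ l
  · have h1 := P.base3 ha hx y hk0 l hl hlen hv
    rw [AddSubgroup.mem_bot] at h1
    rw [h1]
    exact zero_mem _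
  by_cases hn : l.Nodup
  · have hperm : l.Perm (List.range v).reverse := by
      refine (List.perm_ext_iff_of_nodup hn
        (List.nodup_reverse.2 List.nodup_range)).2 fun i => ?_
      rw [Lll_finset hn (S := Finset.range v) (fun i hi => Finset.mem_range.2 (by
          have h1 := hl i hi
          have h2 : i ≠ v := fun h => hv (h ▸ hi)
          omega))
        (by rw [Finset.card_range]; omega)]
      simp
    refine P.perm' (P.gLo ha) hperm hx y H k ?_
    rw [← Lll_pll, Lll_pllc (LllG v a p e) a (x * y) v fun i hi => if_pos hi]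
    exact hk
  · rw [P.dup (P.gLo ha) hn hx]
    exact zero_mem _

theorem expL {ax ay k s v : ℕ} (hax : ax % N ≠ 0) {a : ℕ → R} (ha : ∀ i, i < v → Lo t (a i))
    (ih : ∀ (L : List R) (x' y' : R), L.length = s + 1 → (∀ c ∈ L, Lo t c) → Nl x' →
      x' * t = pw t ax * x' → Nl y' → y' * t = pw t ay * y' → p ^ k • LllFo L (x' * y') = 0)
    (red : ∀ c, Lo t c → c ∈ AddSubgroup.closure
      ({z | ∃ u ∈ NonUnitalSubring.closure ({t} : Set R), ∃ j, j < v + 1 ∧
        z = u * LllG v a p e j} ∪
      {z | ∃ c d, Hx t c ∧ Hx t d ∧ z = c * d ∧ z * t = pw t 0 * z}))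
    {x y : R} (hx : Nl x) (hxt : x * t = pw t ax * x) (hy : Nl y) (hyt : y * t = pw t ay * y)
    (H' : AddSubgroup R) (hH' : ∀ r : R, ∀ h ∈ H', r * h ∈ H') (L : List R) :
    ∀ l : List ℕ, (∀ c ∈ L, Lo t c) → (∀ i ∈ l, i < v + 1) → l.length + L.length = s →
      (∀ l2 : List ℕ, (∀ i ∈ l2, i < v + 1) → l2.length = L.length →
        p ^ k • LllFo ((l ++ l2).map (LllG v a p e)) (x * y) ∈ H') →
      p ^ k • LllFo (l.map (LllG v a p e) ++ L) (x * y) ∈ H' := by
  induction L with
  | nil =>
    intro l _ _ _ hb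
    have := hb [] (by simp) rfl
    simpa using this
  | cons c L ihL =>
    intro l hL hl hs hb
    have hcLo := hL c List.mem_cons_self
    have hc := red c hcLo
    clear hcLo
    have hL' : ∀ d ∈ L, Lo t d := fun d hd => hL d (List.mem_cons_of_mem c hd)
    have hs' : l.length + L.length + 1 = s := by
      rw [List.length_cons] at hs
      omega
    clear hL hs
    induction hc using AddSubgroup.closure_induction with
    | mem z hz =>
      rcases hz with ⟨u, hu, j, hj, rfl⟩ | hz
      · have h1 := ihL (l ++ [j]) hL' (by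
          intro i hi
          rcases List.mem_append.1 hi with hi | hi
          · exact hl i hi
          · rw [List.mem_singleton.1 hi]; exact hj) (by
          rw [List.length_append, List.length_singleton]
          omega) (by
          intro l2 hl2 hlen
          have := hb (j :: l2) (by
            intro i hi
            rcases List.mem_cons.1 hi with hi | hi
            · rw [hi]; exact hj
            · exact hl2 i hi) (by rw [List.length_cons, List.length_cons, hlen])
          rwa [List.append_assoc, List.singleton_append])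
        rw [Lll_app, List.map_append, Lll_app, List.map_singleton, Lll_cons, Lll_nil] at h1
        rw [Lll_app, Lll_cons, mul_assoc, Lll_comm u _ _ fun c hc =>
          Lll_W (P.mLo ha l c hc).2 hu, ← mul_smul_comm]
        exact hH' _ _ h1
      · have h1 := P.clL hax ih (l.map (LllG v a p e)) L (by rw [List.length_map]; omega)
          (P.mLo ha l) hL' hx hxt hy hyt (AddSubgroup.subset_closure hz)
        rw [h1]
        exact zero_mem _
    | zero =>
      rw [Lll_app, Lll_cons, zero_mul, Lll_zero, smul_zero]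
      exact zero_mem _
    | add b d _ _ hb' hd' =>
      have h1 := hb' hb
      have h2 := hd' hb
      rw [Lll_app, Lll_cons] at h1 h2
      rw [Lll_app, Lll_cons, add_mul, Lll_add, smul_add]
      exact add_mem h1 h2
    | neg b _ hb' =>
      have h1 := hb' hb
      rw [Lll_app, Lll_cons] at h1
      rw [Lll_app, Lll_cons, neg_mul, Lll_neg, smul_neg]
      exact neg_mem h1

theorem redXY {ax ay k s : ℕ} (hax : ax % N ≠ 0) (hay : ay % N ≠ 0)
    (ih : ∀ (L : List R) (x' y' : R), L.length = s + 1 → (∀ c ∈ L, Lo t c) → Nl x' →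
      x' * t = pw t ax * x' → Nl y' → y' * t = pw t ay * y' → p ^ k • LllFo L (x' * y') = 0)
    {x y : R} (hx : Nl x) (hxt : x * t = pw t ax * x)
    (rx : ∀ x', Nl x' → x' * t = pw t ax * x' →
      ∃ U ∈ NonUnitalSubring.closure ({t} : Set R), x' - U * x ∈ AddSubgroup.closure
        {z | ∃ c d, Hx t c ∧ Hx t d ∧ z = c * d ∧ z * t = pw t ax * z})
    (ry : ∀ y', Nl y' → y' * t = pw t ay * y' →
      ∃ U ∈ NonUnitalSubring.closure ({t} : Set R), y' - U * y ∈ AddSubgroup.closure
        {z | ∃ c d, Hx t c ∧ Hx t d ∧ z = c * d ∧ z * t = pw t ay * z})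
    (L : List R) (hL : L.length = s) (hLo : ∀ c ∈ L, Lo t c) {x' y' : R} (hx' : Nl x')
    (hxt' : x' * t = pw t ax * x') (hy' : Nl y') (hyt' : y' * t = pw t ay * y') :
    ∃ U : R, p ^ k • LllFo L (x' * y') = U * (p ^ k • LllFo L (x * y)) := by
  obtain ⟨U, hU, h1⟩ := rx x' hx' hxt'
  obtain ⟨V, hV, h2⟩ := ry y' hy' hyt'
  obtain ⟨V', hV', h3⟩ := Lll_xW hxt hV
  refine ⟨U * V', ?_⟩
  have e1 := P.clX hax hay ih L hL hLo hy' hyt' h1
  have e2 := P.clY hax hay ih L hL hLo hx hxt h2
  have e3 : x' * y' = (x' - U * x) * y' + U * (x * (y' - V * y)) + U * V' * (x * y) := by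
    have h4 : U * V' * (x * y) = U * (x * (V * y)) := by
      rw [mul_assoc, ← mul_assoc V', ← h3, mul_assoc x V y]
    rw [h4, sub_mul, mul_sub, mul_sub, mul_assoc U x y']
    abel
  have hUV := mul_mem hU hV'
  rw [e3, Lll_add, Lll_add, smul_add, smul_add, e1,
    Lll_comm U L _ fun c hc => Lll_W (hLo c hc).2 hU, ← mul_smul_comm, e2, mul_zero, zero_add,
    zero_add, Lll_comm (U * V') L _ fun c hc => Lll_W (hLo c hc).2 hUV, ← mul_smul_comm]

end LllP

theorem Lll_prn_ge {f : ℕ → R} {m k : ℕ} (h : prn f m = 0) (hk : m ≤ k) : prn f k = 0 := by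
  induction k, hk using Nat.le_induction with
  | base => exact h
  | succ k _ ih =>
    change prn f k * f (k + 1) = 0
    rw [ih, zero_mul]

theorem Lll_prn_congr {f f' : ℕ → R} {k : ℕ} (h : ∀ i, i ≤ k → f i = f' i) :
    prn f k = prn f' k := by
  induction k with
  | zero => exact h 0 le_rfl
  | succ k ih =>
    change prn f k * f (k + 1) = prn f' k * f' (k + 1)
    rw [ih fun i hi => h i (Nat.le_succ_of_le hi), h (k + 1) le_rfl]

theorem Lll_nilp {J : AddSubgroup R} {m : ℕ}
    (hm : ∀ x : ℕ → R, (∀ i, x i ∈ J) → prn x m = 0) (L : List R) :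
    ∀ (f : ℕ → R) (k : ℕ) (z : R), (∀ i, f i ∈ J) → (∀ c ∈ L, c ∈ J) → m ≤ k + L.length →
      prn f k * LllFo L z = 0 := by
  induction L with
  | nil =>
    intro f k z hf _ hk
    rw [Lll_prn_ge (hm f hf) (by simpa using hk), zero_mul]
  | cons c L ih =>
    intro f k z hf hL hk
    rw [Lll_cons, ← mul_assoc]
    have h1 : prn f k * c = prn (Function.update f (k + 1) c) (k + 1) := by
      change _ = prn (Function.update f (k + 1) c) k * Function.update f (k + 1) c (k + 1)
      rw [Function.update_self, Lll_prn_congr (f := Function.update f (k + 1) c) (f' := f)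
        fun i hi => Function.update_of_ne (by omega) _ _]
    rw [h1]
    refine ih _ _ z (fun i => ?_) (fun d hd => hL d (List.mem_cons_of_mem c hd)) (by
      rw [List.length_cons] at hk
      omega)
    by_cases h2 : i = k + 1
    · rw [h2, Function.update_self]
      exact hL c List.mem_cons_self
    · rw [Function.update_of_ne h2]
      exact hf i

theorem Lll_nilp' {J : AddSubgroup R} {m : ℕ}
    (hm : ∀ x : ℕ → R, (∀ i, x i ∈ J) → prn x m = 0) (L : List R) (hL : ∀ c ∈ L, c ∈ J)
    (hlen : m + 1 ≤ L.length) (z : R) : LllFo L z = 0 := by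
  cases L with
  | nil => simp at hlen
  | cons c L =>
    exact Lll_nilp hm L (fun _ => c) 0 z (fun _ => hL c List.mem_cons_self)
      (fun d hd => hL d (List.mem_cons_of_mem c hd)) (by
        rw [List.length_cons] at hlen
        omega)

/-- The types of the generators. -/
def LllA (v ax ay : ℕ) (i : Fin (v + 2)) : ℕ := if i.1 < v then 0 else if i.1 = v then ax else ay

/-- The generators. -/
def LllX (v : ℕ) (a : ℕ → R) (x y : R) (i : Fin (v + 2)) : R :=
  if i.1 < v then a i else if i.1 = v then x else y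

theorem LllA_0 (v ax ay : ℕ) (i : Fin v) : LllA v ax ay i.castSucc.castSucc = 0 := if_pos i.2

theorem LllA_1 (v ax ay : ℕ) : LllA v ax ay (Fin.last v).castSucc = ax := by
  simp [LllA]

theorem LllA_2 (v ax ay : ℕ) : LllA v ax ay (Fin.last (v + 1)) = ay := by
  simp [LllA]

omit [NonUnitalRing R] in
theorem LllX_0 (v : ℕ) (a : ℕ → R) (x y : R) (i : Fin v) :
    LllX v a x y i.castSucc.castSucc = a i := if_pos i.2

omit [NonUnitalRing R] in
theorem LllX_1 (v : ℕ) (a : ℕ → R) (x y : R) : LllX v a x y (Fin.last v).castSucc = x := by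
  simp [LllX]

omit [NonUnitalRing R] in
theorem LllX_2 (v : ℕ) (a : ℕ → R) (x y : R) : LllX v a x y (Fin.last (v + 1)) = y := by
  simp [LllX]

theorem LllX_sum (v : ℕ) (a : ℕ → R) (x y : R) (u : Fin (v + 2) → R) :
    ∑ i, u i * LllX v a x y i = (∑ i : Fin v, u i.castSucc.castSucc * a i) +
      u (Fin.last v).castSucc * x + u (Fin.last (v + 1)) * y := by
  rw [Fin.sum_univ_castSucc, Fin.sum_univ_castSucc]
  simp only [LllX_0, LllX_1, LllX_2]

theorem Lll_P (hTyp : St_Typ) (hRlz : St_Rlz) (hRlv : St_Rlv) (hZth : St_Zth) [Finite R]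
    {n p N : ℕ} {e t : R} {v : ℕ} {a : ℕ → R} {x y : R} (h : Gx n p N e t v a x y) :
    LllP N p e t := by
  obtain ⟨-, -, t3, t4, -, t6, -, t8, -⟩ := hTyp n p N R e t h.fr
  obtain ⟨r1, -, r3, -, -, r6, -, -⟩ := hRlz n p N R e t h.fr
  obtain ⟨v1, v2, -, -, v5, -⟩ := hRlv n p N R e t h.fr
  have hZ := hZth n p N R e t v a x y h
  refine ⟨?_, ?_, ?_, ?_, ?_, v2, v5.1, ?_, ?_, ?_, fun z => (h.fr.one z).1, t3, t4, t6, ?_, ?_⟩
  · rintro X c Y (rfl | hX) hc hY
    · rw [zero_mul, zero_mul]
    · rcases hY with rfl | hY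
      · rw [mul_zero]
      · exact r1 X c Y hX hc hY
  · rintro c d X hc hd (rfl | hX)
    · rw [mul_zero, mul_zero, add_zero]
    · exact (r3 c d X hc hd hX).1
  · rintro c X hc (rfl | hX)
    · rw [mul_zero]
    · exact (r3 c c X hc hc hX).2
  · rintro X Y c (rfl | hX) hY hc
    · left; rw [zero_mul, zero_mul]
    · rcases hY with rfl | hY
      · left; rw [mul_zero, zero_mul]
      · rcases r6 X Y c hX hY hc with h1 | h1
        · exact Or.inl h1
        · exact Or.inr h1.2
  · rintro c X hc (rfl | hX)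
    · exact ⟨Or.inl (mul_zero c), Or.inl (zero_mul c)⟩
    · exact ⟨(v1 c X hc hX).1, (v1 c X hc hX).2.1⟩
  · rintro X (rfl | hX)
    · rw [smul_zero, smul_zero]
    · exact v5.2 X hX
  · exact fun c d hc hd => (t8 c d hc hd).1
  · rintro X Y Z (rfl | hX) hY hZ'
    · rw [zero_mul, zero_mul]
    · rcases hY with rfl | hY
      · rw [mul_zero, zero_mul]
      · rcases hZ' with rfl | hZ'
        · rw [mul_zero]
        · exact hZ X Y Z hX hY hZ'
  · intro c d b hc hd h0 hb
    obtain ⟨a', h1, h2⟩ := (v1 c d hc hd).2.2.1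
    rw [← t3 a' b (t4 (c * d) a' b h2 hb h0)]
    exact h1
  · intro c d b hc hd h0 hb
    obtain ⟨a', h1, h2⟩ := (v1 d c hd hc).2.2.2
    rw [← t3 a' b (t4 (c * d) a' b h2 hb h0)]
    exact h1

/-- The decompositions of the elements of the types of `x`, `y` and of loops. -/
theorem Lll_dec (hDcp : St_Dcp) [Finite R]
    {n p N : ℕ} {e t : R} {v : ℕ} {a : ℕ → R} {x y : R} (h : Gx n p N e t v a x y)
    (P : LllP N p e t) {ax ay : ℕ} (hxt : x * t = pw t ax * x) (hyt : y * t = pw t ay * y)
    (hax : ax % N ≠ 0) (hay : ay % N ≠ 0) :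
    (∀ x', Nl x' → x' * t = pw t ax * x' →
      ∃ U ∈ NonUnitalSubring.closure ({t} : Set R), x' - U * x ∈ AddSubgroup.closure
        {z | ∃ c d, Hx t c ∧ Hx t d ∧ z = c * d ∧ z * t = pw t ax * z}) ∧
    (∀ y', Nl y' → y' * t = pw t ay * y' →
      ∃ U ∈ NonUnitalSubring.closure ({t} : Set R), y' - U * y ∈ AddSubgroup.closure
        {z | ∃ c d, Hx t c ∧ Hx t d ∧ z = c * d ∧ z * t = pw t ay * z}) ∧
    ∀ c, Lo t c → c ∈ AddSubgroup.closure
      ({z | ∃ u ∈ NonUnitalSubring.closure ({t} : Set R), ∃ j, j < v + 1 ∧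
        z = u * LllG v a p e j} ∪
      {z | ∃ c d, Hx t c ∧ Hx t d ∧ z = c * d ∧ z * t = pw t 0 * z}) := by
  have hTy : Ty n (LllA v ax ay) t (LllX v a x y) := by
    refine ⟨h.fr.fr, fun i => ?_⟩
    unfold LllA LllX
    split_ifs with h1 h2
    · exact h.lo i h1
    · exact ⟨h.tx.1, hxt⟩
    · exact ⟨h.ty.1, hyt⟩
  have hgen : NonUnitalSubring.closure ({t} ∪ Set.range (LllX v a x y)) = ⊤ := by
    rw [eq_top_iff, ← h.gen]
    refine NonUnitalSubring.closure_mono ?_
    rintro z ((hz | ⟨i, hi, rfl⟩) | hz)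
    · exact Or.inl hz
    · exact Or.inr ⟨(⟨i, hi⟩ : Fin v).castSucc.castSucc, LllX_0 v a x y ⟨i, hi⟩⟩
    · rcases hz with rfl | hz
      · exact Or.inr ⟨(Fin.last v).castSucc, LllX_1 v a z y⟩
      · rw [Set.mem_singleton_iff.1 hz]
        exact Or.inr ⟨Fin.last (v + 1), LllX_2 v a x y⟩
  have hD := hDcp n p N R e t h.fr (v + 2) (LllA v ax ay) (LllX v a x y) hTy hgen
  have hxy : y = x ∨ ax % N ≠ ay % N := by
    rcases h.xy with h1 | h1
    · exact Or.inl h1
    · right
      intro h2
      refine h1 ⟨ax, hxt, ?_⟩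
      rw [P.ty3 ax ay h2]
      exact hyt
  have h0N : (0 : ℕ) % N = 0 := Nat.zero_mod N
  refine ⟨?_, ?_, ?_⟩
  · intro x' hx' hxt'
    obtain ⟨u, w, hu, hw, hw0, hcl⟩ := hD x' ax hx' hxt'
    have hz : ∀ i : Fin v, u i.castSucc.castSucc = 0 := by
      intro i
      refine (hu _).2 ?_
      rw [LllA_0, h0N]
      exact Ne.symm hax
    rw [LllX_sum, hw0 hax, zero_mul, sub_zero] at hcl
    simp only [hz, zero_mul, Finset.sum_const_zero, zero_add] at hcl
    rcases hxy with h1 | h1
    · refine ⟨u (Fin.last v).castSucc + u (Fin.last (v + 1)), add_mem (hu _).1 (hu _).1, ?_⟩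
      rw [h1] at hcl
      rw [add_mul]
      exact hcl
    · refine ⟨u (Fin.last v).castSucc, (hu _).1, ?_⟩
      have h2 : u (Fin.last (v + 1)) = 0 := by
        refine (hu _).2 ?_
        rw [LllA_2]
        exact Ne.symm h1
      rw [h2, zero_mul, add_zero] at hcl
      exact hcl
  · intro y' hy' hyt'
    obtain ⟨u, w, hu, hw, hw0, hcl⟩ := hD y' ay hy' hyt'
    have hz : ∀ i : Fin v, u i.castSucc.castSucc = 0 := by
      intro i
      refine (hu _).2 ?_
      rw [LllA_0, h0N]
      exact Ne.symm hay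
    rw [LllX_sum, hw0 hay, zero_mul, sub_zero] at hcl
    simp only [hz, zero_mul, Finset.sum_const_zero, zero_add] at hcl
    rcases hxy with h1 | h1
    · refine ⟨u (Fin.last v).castSucc + u (Fin.last (v + 1)), add_mem (hu _).1 (hu _).1, ?_⟩
      rw [h1] at hcl ⊢
      rw [add_mul]
      exact hcl
    · refine ⟨u (Fin.last (v + 1)), (hu _).1, ?_⟩
      have h2 : u (Fin.last v).castSucc = 0 := by
        refine (hu _).2 ?_
        rw [LllA_1]
        exact h1
      rw [h2, zero_mul, zero_add] at hcl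
      exact hcl
  · intro c hc
    obtain ⟨u, w, hu, hw, hw0, hcl⟩ := hD c 0 hc.1 hc.2
    have h1 : u (Fin.last v).castSucc = 0 := by
      refine (hu _).2 ?_
      rw [LllA_1, h0N]
      exact hax
    have h2 : u (Fin.last (v + 1)) = 0 := by
      refine (hu _).2 ?_
      rw [LllA_2, h0N]
      exact hay
    rw [LllX_sum, h1, h2, zero_mul, zero_mul, add_zero, add_zero] at hcl
    have h3 : c = (c - ∑ i : Fin v, u i.castSucc.castSucc * a i - w * p • e) +
        (∑ i : Fin v, u i.castSucc.castSucc * a i) + w * p • e := by abel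
    rw [h3]
    refine add_mem (add_mem ?_ (sum_mem fun i _ => ?_)) ?_
    · exact AddSubgroup.closure_mono Set.subset_union_right hcl
    · exact AddSubgroup.subset_closure (Or.inl ⟨_, (hu _).1, i.1, by omega, by
        rw [LllG, if_pos i.2]⟩)
    · exact AddSubgroup.subset_closure (Or.inl ⟨w, hw, v, by omega, by
        rw [LllG, if_neg (lt_irrefl v)]⟩)

end Lll

theorem thm_Lll (hTyp : St_Typ) (hRlz : St_Rlz) (hRlv : St_Rlv) (hKdc : St_Kdc) (hDcp : St_Dcp)
    (hZth : St_Zth) : St_Lll := by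
  intro n p N R _ _ e t v k a x y hG H hH hk hk0 s c x' y' hc hx' hsx hy' hsy
  have P := Lll_P hTyp hRlz hRlv hZth hG
  obtain ⟨ax, hxt⟩ := hG.tx.2.1
  obtain ⟨ay, hyt⟩ := hG.ty.2.1
  have hx0 : x ≠ 0 := fun h => hG.tx.2.2 (by rw [h, zero_mul, mul_zero])
  have hy0 : y ≠ 0 := fun h => hG.ty.2.2 (by rw [h, zero_mul, mul_zero])
  have hax : ax % N ≠ 0 := fun h => hG.tx.2.2 ((P.ty6 x ax hxt hx0).2 h)
  have hay : ay % N ≠ 0 := fun h => hG.ty.2.2 ((P.ty6 y ay hyt hy0).2 h)
  have hxt' : x' * t = pw t ax * x' := by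
    obtain ⟨b, h1, h2⟩ := hsx
    rw [← P.ty3 b ax (P.ty4 x b ax h1 hxt hx0)]
    exact h2
  have hyt' : y' * t = pw t ay * y' := by
    obtain ⟨b, h1, h2⟩ := hsy
    rw [← P.ty3 b ay (P.ty4 y b ay h1 hyt hy0)]
    exact h2
  obtain ⟨rx, ry, red⟩ := Lll_dec hDcp hG P hxt hyt hax hay
  have hX : LllT t x := Or.inr hG.tx
  obtain ⟨r, hr⟩ := hG.fr.cy.pr
  have hph : ∀ h ∈ H, p • h = 0 := by
    intro h hh
    have := thm_Phz R H hH p r hr h hh
    rwa [natCast_zsmul] at this
  obtain ⟨J, hJI, hJ⟩ := jil n hG.fr.cy.n4 R hG.fr.cy.inM hG.fr.cy.nt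
  obtain ⟨m, hm⟩ := thm_Jnl R J hJI fun x hx => (hJ x).1 hx
  have claim1 : ∀ j s : ℕ, v < s → m + 1 ≤ s + j → ∀ (L : List R) (x' y' : R),
      L.length = s → (∀ c ∈ L, Lo t c) → Nl x' → x' * t = pw t ax * x' → Nl y' →
      y' * t = pw t ay * y' → p ^ k • LllFo L (x' * y') = 0 := by
    intro j
    induction j with
    | zero =>
      intro s _ hs L x' y' hL hLo _ _ _ _
      rw [Lll_nilp' hm L (fun c hc => (hJ c).2 (hLo c hc).1) (by omega), smul_zero]
    | succ j ihj =>
      intro s hvs hs L x' y' hL hLo hx' hxt' hy' hyt'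
      have ih := ihj (s + 1) (by omega) (by omega)
      obtain ⟨U, hU⟩ := P.redXY hax hay ih hG.tx.1 hxt rx ry L hL hLo hx' hxt' hy' hyt'
      have h1 := P.expL hax hG.lo ih red hG.tx.1 hxt hG.ty.1 hyt ⊥ (by
        intro r h hh
        rw [AddSubgroup.mem_bot] at hh ⊢
        rw [hh, mul_zero]) L [] hLo (by simp) (by simpa using hL) (by
        intro l2 hl2 hlen
        rw [List.nil_append]
        exact P.base1 hG.lo hX y hph hk l2 hl2 (by omega))
      rw [List.map_nil, List.nil_append, AddSubgroup.mem_bot] at h1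
      rw [hU, h1, mul_zero]
  have claim1' : ∀ s : ℕ, v < s → ∀ (L : List R) (x' y' : R),
      L.length = s → (∀ c ∈ L, Lo t c) → Nl x' → x' * t = pw t ax * x' → Nl y' →
      y' * t = pw t ay * y' → p ^ k • LllFo L (x' * y') = 0 :=
    fun s hs => claim1 (m + 1) s hs (by omega)
  have ih := claim1' (v + 1) (by omega)
  have hLo : ∀ b ∈ (List.range s).reverse.map c, Lo t b := by
    intro b hb
    obtain ⟨i, hi, rfl⟩ := List.mem_map.1 hb
    exact hc i (by simpa using hi)
  have hlen : ((List.range s).reverse.map c).length = s := by simp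
  rw [Lll_pll]
  refine ⟨fun hvs => claim1' s hvs _ x' y' hlen hLo hx' hxt' hy' hyt', ?_, ?_⟩
  · rintro rfl
    obtain ⟨U, hU⟩ := P.redXY hax hay ih hG.tx.1 hxt rx ry _ hlen hLo hx' hxt' hy' hyt'
    have h1 := P.expL hax hG.lo ih red hG.tx.1 hxt hG.ty.1 hyt H
      (fun r h hh => (hH.1 r h hh).1) _ [] hLo (by simp) (by simp) (by
        intro l2 hl2 hlen2
        rw [List.nil_append]
        exact P.base2 hG.lo hX y hk hk0 l2 hl2 (hlen2.trans hlen))
    rw [List.map_nil, List.nil_append] at h1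
    rw [hU]
    exact (hH.1 U _ h1).1
  · rintro rfl (⟨i, hi, hci⟩ | hK | hK)
    · have hmem : c i ∈ (List.range s).reverse.map c :=
        List.mem_map.2 ⟨i, by simpa using hi, rfl⟩
      obtain ⟨L1, L2, hL⟩ := List.append_of_mem hmem
      obtain ⟨U, hU⟩ := P.redXY hax hay ih hG.tx.1 hxt rx ry _ hlen hLo hx' hxt' hy' hyt'
      rw [hU]
      obtain ⟨w, hw, -, hcl⟩ := hKdc n p N R e t hG.fr (c i) 0 hci (hc i hi).2
      rw [hL] at hLo hlen ⊢
      have hLo1 : ∀ b ∈ L1, Lo t b := fun b hb => hLo b (List.mem_append_left _ hb)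
      have hLo2 : ∀ b ∈ L2, Lo t b := fun b hb =>
        hLo b (List.mem_append_right _ (List.mem_cons_of_mem _ hb))
      have hlen' : L1.length + L2.length + 1 = s := by
        rw [List.length_append, List.length_cons] at hlen
        omega
      have h1 := P.clL hax ih L1 L2 hlen' hLo1 hLo2 hG.tx.1 hxt hG.ty.1 hyt hcl
      have h2 : p ^ k • LllFo ([s].map (LllG s a p e) ++ (L1 ++ L2)) (x * y) ∈
          (⊥ : AddSubgroup R) := by
        refine P.expL hax hG.lo ih red hG.tx.1 hxt hG.ty.1 hyt ⊥ ?_ (L1 ++ L2) [s] ?_ ?_ ?_ ?_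
        · intro r h hh
          rw [AddSubgroup.mem_bot] at hh ⊢
          rw [hh, mul_zero]
        · intro b hb
          rcases List.mem_append.1 hb with hb | hb
          · exact hLo1 b hb
          · exact hLo2 b hb
        · intro j hj
          rw [List.mem_singleton.1 hj]
          omega
        · rw [List.length_singleton, List.length_append]
          omega
        · intro l2 hl2 hlen2
          refine P.base3 hG.lo hX y hk0 _ ?_ ?_ ?_
          · intro j hj
            rcases List.mem_append.1 hj with hj | hj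
            · rw [List.mem_singleton.1 hj]
              omega
            · exact hl2 j hj
          · rw [List.length_append, List.length_singleton, hlen2, List.length_append]
            omega
          · exact List.mem_append_left _ List.mem_cons_self
      have hgs : LllG s a p e s = p • e := if_neg (lt_irrefl s)
      rw [AddSubgroup.mem_bot, List.map_singleton, hgs, List.singleton_append, Lll_cons,
        P.pem, Lll_app] at h2
      have h3 : p ^ k • LllFo (L1 ++ (w * p • e) :: L2) (x * y) = 0 := by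
        rw [Lll_app, Lll_cons, mul_assoc, P.pem,
          Lll_comm w L1 _ fun c hc => Lll_W (hLo1 c hc).2 hw, Lll_smul, ← mul_smul_comm, h2,
          mul_zero]
      have h4 : c i = (c i - w * p • e) + w * p • e := by abel
      rw [h4, Lll_app, Lll_cons, add_mul, Lll_add, smul_add]
      rw [Lll_app, Lll_cons] at h1 h3
      rw [h1, h3, add_zero, mul_zero]
    · obtain ⟨w, hw, hw0, hcl⟩ := hKdc n p N R e t hG.fr x' ax hK hxt'
      rw [hw0 hax, zero_mul, sub_zero] at hcl
      exact P.clX hax hay ih _ hlen hLo hy' hyt' hcl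
    · obtain ⟨w, hw, hw0, hcl⟩ := hKdc n p N R e t hG.fr y' ay hK hyt'
      rw [hw0 hay, zero_mul, sub_zero] at hcl
      exact P.clY hax hay ih _ hlen hLo hx' hxt' hcl

end Pool.Agent.CRP
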