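import Pool.Agent.CRP.St
import Pool.Agent.CRL.All
import Pool.Agent.CRK.Phz
import Pool.Agent.CRN.Fwb

/-!
Campaign CRP, module Llt: the products of loops before a twisted element.
-/

set_option autoImplicit false

namespace Pool.Agent.CRP

open Pool.Agent.CRR Pool.Agent.CRN Pool.Agent.CRK Pool.Agent.CRL Pool.Agent.CRM

/-! ### Lists -/

section lists

variable {R : Type} [NonUnitalRing R]

/-- `l_0 l_1 ... w`. -/
def LltP (l : List R) (w : R) : R := l.foldr (fun u v => u * v) w

/-- `w l_0 l_1 ...`. -/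
def LltR (w : R) (l : List R) : R := l.foldl (fun u v => u * v) w

theorem Llt_cons (x : R) (l : List R) (w : R) : LltP (x :: l) w = x * LltP l w := rfl

theorem Llt_append (l l' : List R) (w : R) : LltP (l ++ l') w = LltP l (LltP l' w) :=
  List.foldr_append

theorem Llt_snoc (l : List R) (c w : R) : LltP (l ++ [c]) w = LltP l (c * w) := Llt_append l [c] w

/-- `LltP l` as a homomorphism. -/
def LltH (l : List R) : R →+ R where
  toFun := LltP l
  map_zero' := by
    induction l with
    | nil => rfl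
    | cons x l ih => rw [Llt_cons, ih, mul_zero]
  map_add' := fun a b => by
    induction l with
    | nil => rfl
    | cons x l ih => rw [Llt_cons, ih, mul_add]; rfl

theorem LltH_apply (l : List R) (w : R) : LltH l w = LltP l w := rfl

theorem Llt_zero (l : List R) : LltP l (0 : R) = 0 := map_zero (LltH l)

theorem Llt_neg (l : List R) (w : R) : LltP l (-w) = -(LltP l w) := map_neg (LltH l) w

theorem Llt_add (l : List R) (w w' : R) : LltP l (w + w') = LltP l w + LltP l w' :=
  map_add (LltH l) w w'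

theorem Llt_smul (l : List R) (m : ℕ) (w : R) : LltP l (m • w) = m • LltP l w :=
  map_nsmul (LltH l) m w

theorem Llt_pll (y : ℕ → R) (w : R) (s : ℕ) :
    LltP ((List.range s).reverse.map y) w = pll y w s := by
  induction s with
  | zero => rfl
  | succ s ih =>
    rw [List.range_succ, List.reverse_append, List.reverse_singleton, List.singleton_append,
      List.map_cons, Llt_cons, ih]
    rfl

/-- an element which commutes with `t` commutes with the subring generated by `t` -/
theorem Llt_comm {t x u : R} (hx : x * t = t * x)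
    (hu : u ∈ NonUnitalSubring.closure ({t} : Set R)) : x * u = u * x := by
  induction hu using NonUnitalSubring.closure_induction with
  | mem y hy =>
    rw [Set.mem_singleton_iff] at hy
    rw [hy, hx]
  | zero => rw [zero_mul, mul_zero]
  | add a b _ _ ha hb => rw [add_mul, mul_add, ha, hb]
  | neg a _ ha => rw [neg_mul, mul_neg, ha]
  | mul a b _ _ ha hb => rw [← mul_assoc, ha, mul_assoc, hb, ← mul_assoc]

theorem Llt_W {t : R} (l : List R) (hl : ∀ x ∈ l, Lo t x) {u : R}
    (hu : u ∈ NonUnitalSubring.closure ({t} : Set R)) (w : R) :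
    LltP l (u * w) = u * LltP l w := by
  induction l with
  | nil => rfl
  | cons x l ih =>
    rw [Llt_cons, Llt_cons, ih fun y hy => hl y (List.mem_cons_of_mem _ hy), ← mul_assoc,
      Llt_comm (hl x List.mem_cons_self).2 hu, mul_assoc]

/-- products of loops and a twisted element are twisted or zero -/
theorem Llt_tz {t : R} (hB : ∀ c x, Lo t c → Tt t x → c * x = 0 ∨ Tt t (c * x)) (l : List R)
    (hl : ∀ x ∈ l, Lo t x) {w : R} (hw : w = 0 ∨ Tt t w) : LltP l w = 0 ∨ Tt t (LltP l w) := by
  induction l with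
  | nil => exact hw
  | cons x l ih =>
    rw [Llt_cons]
    rcases ih fun y hy => hl y (List.mem_cons_of_mem _ hy) with h | h
    · left
      rw [h, mul_zero]
    · exact hB x _ (hl x List.mem_cons_self) h

/-- loops anticommute before a twisted element -/
theorem Llt_perm {t : R} (hB : ∀ c x, Lo t c → Tt t x → c * x = 0 ∨ Tt t (c * x))
    (hA : ∀ x y z, Lo t x → Lo t y → Tt t z → x * y * z + y * x * z = 0 ∧ x * x * z = 0)
    {l l' : List R} (h : l.Perm l') (hl : ∀ x ∈ l, Lo t x) {w : R} (hw : w = 0 ∨ Tt t w) :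
    LltP l w = LltP l' w ∨ LltP l w = -(LltP l' w) := by
  induction h with
  | nil => exact Or.inl rfl
  | cons x _ ih =>
    rcases ih fun y hy => hl y (List.mem_cons_of_mem _ hy) with h | h
    · left
      rw [Llt_cons, Llt_cons, h]
    · right
      rw [Llt_cons, Llt_cons, h, mul_neg]
  | swap x y l =>
    have h1 := Llt_tz hB l (fun z hz => hl z (List.mem_cons_of_mem _ (List.mem_cons_of_mem _ hz)))
      hw
    rw [Llt_cons, Llt_cons, Llt_cons, Llt_cons]
    rcases h1 with h1 | h1
    · left
      simp only [h1, mul_zero]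
    · right
      have h2 := (hA y x _ (hl y List.mem_cons_self)
        (hl x (List.mem_cons_of_mem _ List.mem_cons_self)) h1).1
      rw [mul_assoc, mul_assoc] at h2
      exact eq_neg_of_add_eq_zero_left h2
  | trans h1 h2 ih1 ih2 =>
    rcases ih1 hl with h3 | h3
    · rw [h3]
      exact ih2 fun x hx => hl x (h1.mem_iff.2 hx)
    · rw [h3]
      rcases ih2 fun x hx => hl x (h1.mem_iff.2 hx) with h4 | h4
      · right
        rw [h4]
      · left
        rw [h4, neg_neg]

/-- a repeated loop gives zero -/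
theorem Llt_dup {t : R} (hB : ∀ c x, Lo t c → Tt t x → c * x = 0 ∨ Tt t (c * x))
    (hA : ∀ x y z, Lo t x → Lo t y → Tt t z → x * y * z + y * x * z = 0 ∧ x * x * z = 0)
    {g : ℕ → R} {r : List ℕ} (hr : ∀ i ∈ r, Lo t (g i)) (hd : ¬ r.Nodup) {w : R}
    (hw : w = 0 ∨ Tt t w) : LltP (r.map g) w = 0 := by
  obtain ⟨x, hx⟩ := List.exists_duplicate_iff_not_nodup.2 hd
  obtain ⟨l, hl⟩ := (List.duplicate_iff_sublist.1 hx).exists_perm_append
  have hr' : ∀ y ∈ r.map g, Lo t y := by
    intro y hy
    obtain ⟨i, hi, rfl⟩ := List.mem_map.1 hy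
    exact hr i hi
  have hlr : ∀ i ∈ l, Lo t (g i) := fun i hi =>
    hr i (hl.mem_iff.2 (List.mem_append_right _ hi))
  have hl2 : ∀ y ∈ l.map g, Lo t y := by
    intro y hy
    obtain ⟨i, hi, rfl⟩ := List.mem_map.1 hy
    exact hlr i hi
  have hx2 : Lo t (g x) := hr x (hl.mem_iff.2 (by simp))
  have h0 : LltP (([x, x] ++ l).map g) w = 0 := by
    show g x * (g x * LltP (l.map g) w) = 0
    rcases Llt_tz hB (l.map g) hl2 hw with h | h
    · rw [h, mul_zero, mul_zero]
    · rw [← mul_assoc]
      exact (hA (g x) (g x) _ hx2 hx2 h).2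
  rcases Llt_perm hB hA (hl.map g) hr' hw with h | h
  · rw [h, h0]
  · rw [h, h0, neg_zero]

theorem Llt_wpP (l : List R) (w : R) : LltP l w = wp (l ++ [w]) := by
  rw [Fwb_wp_append l (List.cons_ne_nil w [])]
  rfl

theorem Llt_wpPR (l l' : List R) (w : R) : LltP l (LltR w l') = wp (l ++ w :: l') := by
  rw [Fwb_wp_append l (List.cons_ne_nil w l'), Fwb_wp_foldl]
  rfl

theorem Llt_R_mul (l : List R) (x y : R) : LltR (x * y) l = x * LltR y l := Fwb_foldl_mul l x y

theorem Llt_R_zero (l : List R) : LltR (0 : R) l = 0 := by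
  induction l with
  | nil => rfl
  | cons x l ih =>
    show LltR (0 * x) l = 0
    rw [zero_mul, ih]

theorem Llt_R_add (l : List R) : ∀ x y : R, LltR (x + y) l = LltR x l + LltR y l := by
  induction l with
  | nil => intro x y; rfl
  | cons z l ih =>
    intro x y
    show LltR ((x + y) * z) l = LltR (x * z) l + LltR (y * z) l
    rw [add_mul, ih]

end lists

/-! ### The least ideal -/

section least

variable {R : Type} [NonUnitalRing R]

/-- the least ideal is killed by nil elements -/
theorem Llt_HJ [Finite R] {n p : ℕ} (hcy : Cy R n p) {H : AddSubgroup R} (hH : Lst R H) :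
    ∀ h ∈ H, ∀ x, Nl x → x * h = 0 ∧ h * x = 0 := by
  obtain ⟨J, hJI, hJ⟩ := jil n hcy.n4 R hcy.inM hcy.nt
  obtain ⟨M, _, hM⟩ := bnd n p R hcy
  obtain ⟨hHI, hHn, hHm⟩ := hH
  obtain ⟨h0, hh0, hne⟩ : ∃ h ∈ H, h ≠ 0 := by
    by_contra hc
    push Not at hc
    exact hHn ((AddSubgroup.eq_bot_iff_forall H).2 hc)
  have hl : ∀ h ∈ H, ∀ x, Nl x → x * h = 0 := by
    obtain ⟨K, hK⟩ : ∃ K : AddSubgroup R, ∀ h, h ∈ K ↔ h ∈ H ∧ ∀ x, Nl x → x * h = 0 :=
      ⟨{ carrier := {h | h ∈ H ∧ ∀ x, Nl x → x * h = 0}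
         zero_mem' := ⟨zero_mem _, fun x _ => mul_zero x⟩
         add_mem' := fun {a b} ha hb => ⟨add_mem ha.1 hb.1, fun x hx => by
           rw [mul_add, ha.2 x hx, hb.2 x hx, add_zero]⟩
         neg_mem' := fun {a} ha => ⟨neg_mem ha.1, fun x hx => by
           rw [mul_neg, ha.2 x hx, neg_zero]⟩ }, fun _ => Iff.rfl⟩
    have hKI : Idl R K := by
      intro r x hx
      rw [hK] at hx
      rw [hK, hK]
      refine ⟨⟨(hHI r x hx.1).1, fun y hy => ?_⟩, ⟨(hHI r x hx.1).2, fun y hy => ?_⟩⟩
      · rw [← mul_assoc]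
        exact hx.2 _ ((hJ _).1 (hJI r y ((hJ y).2 hy)).2)
      · rw [← mul_assoc, hx.2 y hy, zero_mul]
    have hKn : K ≠ ⊥ := by
      intro hKb
      have h1 : ∀ h ∈ H, h ≠ 0 → ∃ x, Nl x ∧ x * h ≠ 0 := by
        intro h hh hn
        by_contra hc
        push Not at hc
        have h2 : h ∈ K := (hK h).2 ⟨hh, hc⟩
        rw [hKb, AddSubgroup.mem_bot] at h2
        exact hn h2
      have h2 : ∀ m : ℕ, ∃ l : List R, (∀ x ∈ l, Nl x) ∧ l.length = m ∧ LltP l h0 ∈ H ∧
          LltP l h0 ≠ 0 := by
        intro m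
        induction m with
        | zero => exact ⟨[], fun x hx => absurd hx List.not_mem_nil, rfl, hh0, hne⟩
        | succ m ih =>
          obtain ⟨l, hl, hlm, hlH, hl0⟩ := ih
          obtain ⟨x, hx, hx0⟩ := h1 _ hlH hl0
          refine ⟨x :: l, ?_, by rw [List.length_cons, hlm], (hHI x _ hlH).1, hx0⟩
          intro y hy
          rcases List.mem_cons.1 hy with rfl | hy
          · exact hx
          · exact hl y hy
      obtain ⟨l, hl, hlm, _, hl0⟩ := h2 (M + 1)
      apply hl0
      rw [Llt_wpP]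
      exact hM l _ (List.sublist_append_left l [h0]) hl (by omega)
    intro h hh x hx
    exact ((hK h).1 (hHm K hKI hKn hh)).2 x hx
  have hr : ∀ h ∈ H, ∀ x, Nl x → h * x = 0 := by
    obtain ⟨K, hK⟩ : ∃ K : AddSubgroup R, ∀ h, h ∈ K ↔ h ∈ H ∧ ∀ x, Nl x → h * x = 0 :=
      ⟨{ carrier := {h | h ∈ H ∧ ∀ x, Nl x → h * x = 0}
         zero_mem' := ⟨zero_mem _, fun x _ => zero_mul x⟩
         add_mem' := fun {a b} ha hb => ⟨add_mem ha.1 hb.1, fun x hx => by
           rw [add_mul, ha.2 x hx, hb.2 x hx, add_zero]⟩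
         neg_mem' := fun {a} ha => ⟨neg_mem ha.1, fun x hx => by
           rw [neg_mul, ha.2 x hx, neg_zero]⟩ }, fun _ => Iff.rfl⟩
    have hKI : Idl R K := by
      intro r x hx
      rw [hK] at hx
      rw [hK, hK]
      refine ⟨⟨(hHI r x hx.1).1, fun y hy => ?_⟩, ⟨(hHI r x hx.1).2, fun y hy => ?_⟩⟩
      · rw [mul_assoc, hx.2 y hy, mul_zero]
      · rw [mul_assoc]
        exact hx.2 _ ((hJ _).1 (hJI r y ((hJ y).2 hy)).1)
    have hKn : K ≠ ⊥ := by
      intro hKb
      have h1 : ∀ h ∈ H, h ≠ 0 → ∃ x, Nl x ∧ h * x ≠ 0 := by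
        intro h hh hn
        by_contra hc
        push Not at hc
        have h2 : h ∈ K := (hK h).2 ⟨hh, hc⟩
        rw [hKb, AddSubgroup.mem_bot] at h2
        exact hn h2
      have h2 : ∀ m : ℕ, ∃ l : List R, (∀ x ∈ l, Nl x) ∧ l.length = m ∧ LltR h0 l ∈ H ∧
          LltR h0 l ≠ 0 := by
        intro m
        induction m with
        | zero => exact ⟨[], fun x hx => absurd hx List.not_mem_nil, rfl, hh0, hne⟩
        | succ m ih =>
          obtain ⟨l, hl, hlm, hlH, hl0⟩ := ih
          obtain ⟨x, hx, hx0⟩ := h1 _ hlH hl0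
          have e : LltR h0 (l ++ [x]) = LltR h0 l * x := by
            unfold LltR
            rw [List.foldl_append]
            rfl
          refine ⟨l ++ [x], ?_, by rw [List.length_append, hlm]; rfl, ?_, ?_⟩
          · intro y hy
            rcases List.mem_append.1 hy with hy | hy
            · exact hl y hy
            · rw [List.mem_singleton] at hy
              rw [hy]
              exact hx
          · rw [e]
            exact (hHI x _ hlH).2
          · rw [e]
            exact hx0
      obtain ⟨l, hl, hlm, _, hl0⟩ := h2 (M + 1)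
      apply hl0
      have e : LltR h0 l = wp ([] ++ h0 :: l) := Llt_wpPR [] l h0
      rw [e, List.nil_append]
      exact hM l _ (List.sublist_cons_self h0 l) hl (by omega)
    intro h hh x hx
    exact ((hK h).1 (hHm K hKI hKn hh)).2 x hx
  exact fun h hh x hx => ⟨hl h hh x hx, hr h hh x hx⟩

theorem Llt_pH {p : ℕ} {H : AddSubgroup R} (hH : Lst R H) (hp : ∃ r : ℕ, ∀ x : R, (p ^ r) • x = 0) :
    ∀ h ∈ H, p • h = 0 := by
  obtain ⟨r, hr⟩ := hp
  intro h hh
  have h1 := thm_Phz R H hH p r hr h hh
  rwa [natCast_zsmul] at h1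

end least

/-! ### Types -/

section types

variable {n p N : ℕ} {R : Type} [NonUnitalRing R] [Finite R] {e t : R}

theorem Llt_ty (hTyp : St_Typ) (hL : Lfr n p N e t) {b : ℕ} (hb : b % N ≠ 0) {w : R}
    (hw : Nl w) (hwt : w * t = pw t b * w) : w = 0 ∨ Tt t w := by
  obtain ⟨_, _, _, _, _, h6, _, _, _⟩ := hTyp n p N R e t hL
  by_cases h0 : w = 0
  · exact Or.inl h0
  · exact Or.inr ⟨hw, ⟨b, hwt⟩, fun h => hb ((h6 w b hwt h0).1 h)⟩

theorem Llt_b (hTyp : St_Typ) (hL : Lfr n p N e t) {z : R} (hz : Tt t z) :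
    ∃ b, z * t = pw t b * z ∧ b % N ≠ 0 ∧ ∀ w, Sm t z w → w * t = pw t b * w := by
  obtain ⟨_, _, h3, h4, _, h6, _, _, _⟩ := hTyp n p N R e t hL
  obtain ⟨hzn, ⟨b, hb⟩, hzt⟩ := hz
  have hz0 : z ≠ 0 := by
    rintro rfl
    exact hzt (by rw [zero_mul, mul_zero])
  refine ⟨b, hb, fun h => hzt ((h6 z b hb hz0).2 h), ?_⟩
  rintro w ⟨a, ha, haw⟩
  rw [haw, h3 a b (h4 z a b ha hb hz0)]

theorem Llt_cd (hTyp : St_Typ) (hRlv : St_Rlv) (hL : Lfr n p N e t) {b : ℕ} (hb : b % N ≠ 0)
    {c d : R} (hc : Hx t c) (hd : Hx t d) (hcd : c * d * t = pw t b * (c * d)) :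
    c * d = 0 ∨ (Lo t c ∧ Tt t d ∧ d * t = pw t b * d) ∨ (Tt t c ∧ Lo t d) ∨
      (Tt t c ∧ Tt t d) := by
  obtain ⟨_, _, h3, h4, _, h6, _, h8, _⟩ := hTyp n p N R e t hL
  obtain ⟨r1, r2, _, _, _, _⟩ := hRlv n p N R e t hL
  by_cases h0 : c * d = 0
  · exact Or.inl h0
  right
  rcases r2 c hc with hc | hc | hc
  · exact absurd (by rw [hc, zero_mul]) h0
  · rcases r2 d hd with hd | hd | hd
    · exact absurd (by rw [hd, mul_zero]) h0
    · exact absurd ((h6 _ b hcd h0).1 (h8 c d hc hd).1.2) hb
    · refine Or.inl ⟨hc, hd, ?_⟩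
      obtain ⟨_, _, ⟨a, ha, hac⟩, _⟩ := r1 c d hc hd
      rw [ha, h3 a b (h4 _ a b hac hcd h0)]
  · rcases r2 d hd with hd | hd | hd
    · exact absurd (by rw [hd, mul_zero]) h0
    · exact Or.inr (Or.inl ⟨hc, hd⟩)
    · exact Or.inr (Or.inr ⟨hc, hd⟩)

theorem Llt_cl (hTyp : St_Typ) (hRlv : St_Rlv) (hL : Lfr n p N e t)
    {c d : R} (hc : Hx t c) (hd : Hx t d) (hcd : c * d * t = t * (c * d)) :
    c * d = 0 ∨ (Lo t c ∧ Lo t d) ∨ (Tt t c ∧ Tt t d ∧ Lo t (c * d)) := by
  obtain ⟨_, _, _, _, _, _, _, _, h9⟩ := hTyp n p N R e t hL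
  obtain ⟨r1, r2, _, _, _, _⟩ := hRlv n p N R e t hL
  have hn : Nl (c * d) := (h9 c d hc hd).1
  rcases r2 c hc with hc | hc | hc
  · left
    rw [hc, zero_mul]
  · rcases r2 d hd with hd | hd | hd
    · left
      rw [hd, mul_zero]
    · exact Or.inr (Or.inl ⟨hc, hd⟩)
    · rcases (r1 c d hc hd).1 with h | h
      · exact Or.inl h
      · exact absurd hcd h.2.2
  · rcases r2 d hd with hd | hd | hd
    · left
      rw [hd, mul_zero]
    · rcases (r1 d c hd hc).2.1 with h | h
      · exact Or.inl h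
      · exact absurd hcd h.2.2
    · exact Or.inr (Or.inr ⟨hc, hd, hn, hcd⟩)

/-- the decomposition of twisted elements -/
theorem Llt_dt (hDcp : St_Dcp) {v : ℕ} {a : ℕ → R} {z : R} (hG : Gx n p N e t v a z z) {b : ℕ}
    (hz : z * t = pw t b * z) {b' : ℕ} (hb' : b' % N ≠ 0) {w : R} (hw : Nl w)
    (hwt : w * t = pw t b' * w) : ∃ u ∈ NonUnitalSubring.closure ({t} : Set R),
      (b % N ≠ b' % N → u = 0) ∧ w - u * z ∈ AddSubgroup.closure
        {x | ∃ c d, Hx t c ∧ Hx t d ∧ x = c * d ∧ x * t = pw t b' * x} := by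
  have hN : 0 % N ≠ b' % N := by
    rw [Nat.zero_mod]
    exact fun h => hb' h.symm
  obtain ⟨u, w', hu, hw', hw0, hm⟩ := hDcp n p N R e t hG.fr (v + 1)
    (fun i => if (i : ℕ) < v then 0 else b) (fun i => if (i : ℕ) < v then a i else z)
    (by
      refine ⟨hG.fr.fr, fun i => ?_⟩
      by_cases hi : (i : ℕ) < v
      · simp only [hi, if_true]
        exact hG.lo i hi
      · simp only [hi, if_false]
        exact ⟨hG.tx.1, hz⟩)
    (by
      rw [← hG.gen]
      congr 1
      ext x
      constructor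
      · rintro (hx | ⟨i, rfl⟩)
        · exact Or.inl (Or.inl hx)
        · by_cases hi : (i : ℕ) < v
          · simp only [hi, if_true]
            exact Or.inl (Or.inr ⟨i, hi, rfl⟩)
          · simp only [hi, if_false]
            exact Or.inr (Or.inl rfl)
      · rintro ((hx | ⟨i, hi, rfl⟩) | hx)
        · exact Or.inl hx
        · refine Or.inr ⟨⟨i, by omega⟩, ?_⟩
          simp only [hi, if_true]
        · refine Or.inr ⟨⟨v, by omega⟩, ?_⟩
          simp only [lt_irrefl, if_false]
          rcases hx with hx | hx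
          · exact hx.symm
          · exact (Set.mem_singleton_iff.1 hx).symm) w b' hw hwt
  refine ⟨u (Fin.last v), (hu _).1, ?_, ?_⟩
  · intro h
    refine (hu (Fin.last v)).2 ?_
    simp only [Fin.val_last, lt_irrefl, if_false]
    exact h
  · have e1 : ∑ i : Fin (v + 1), u i * (if (i : ℕ) < v then a i else z) = u (Fin.last v) * z := by
      rw [Fin.sum_univ_castSucc]
      have e2 : ∑ i : Fin v, u i.castSucc *
          (if ((i.castSucc : Fin (v + 1)) : ℕ) < v then a (i.castSucc : Fin (v + 1)) else z) =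
          0 := by
        refine Finset.sum_eq_zero fun i _ => ?_
        have h1 : u i.castSucc = 0 := by
          refine (hu i.castSucc).2 ?_
          simp only [Fin.val_castSucc, i.2, if_true]
          exact hN
        rw [h1, zero_mul]
      rw [e2, zero_add]
      simp only [Fin.val_last, lt_irrefl, if_false]
    rw [e1, hw0 hb', zero_mul, sub_zero] at hm
    exact hm

/-- the decomposition of loops -/
theorem Llt_dl (hDcp : St_Dcp) {v : ℕ} {a : ℕ → R} {z : R} (hG : Gx n p N e t v a z z) {b : ℕ}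
    (hz : z * t = pw t b * z) (hb : b % N ≠ 0) {y : R} (hy : Lo t y) :
    ∃ u : ℕ → R, (∀ i, u i ∈ NonUnitalSubring.closure ({t} : Set R)) ∧
      y - ∑ i ∈ Finset.range (v + 1), u i * (if i < v then a i else p • e) ∈ AddSubgroup.closure
        {x | ∃ c d, Hx t c ∧ Hx t d ∧ x = c * d ∧ x * t = t * x} := by
  obtain ⟨u, w', hu, hw', hw0, hm⟩ := hDcp n p N R e t hG.fr (v + 1)
    (fun i => if (i : ℕ) < v then 0 else b) (fun i => if (i : ℕ) < v then a i else z)
    (by
      refine ⟨hG.fr.fr, fun i => ?_⟩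
      by_cases hi : (i : ℕ) < v
      · simp only [hi, if_true]
        exact hG.lo i hi
      · simp only [hi, if_false]
        exact ⟨hG.tx.1, hz⟩)
    (by
      rw [← hG.gen]
      congr 1
      ext x
      constructor
      · rintro (hx | ⟨i, rfl⟩)
        · exact Or.inl (Or.inl hx)
        · by_cases hi : (i : ℕ) < v
          · simp only [hi, if_true]
            exact Or.inl (Or.inr ⟨i, hi, rfl⟩)
          · simp only [hi, if_false]
            exact Or.inr (Or.inl rfl)
      · rintro ((hx | ⟨i, hi, rfl⟩) | hx)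
        · exact Or.inl hx
        · refine Or.inr ⟨⟨i, by omega⟩, ?_⟩
          simp only [hi, if_true]
        · refine Or.inr ⟨⟨v, by omega⟩, ?_⟩
          simp only [lt_irrefl, if_false]
          rcases hx with hx | hx
          · exact hx.symm
          · exact (Set.mem_singleton_iff.1 hx).symm) y 0 hy.1 hy.2
  refine ⟨fun i => if h : i < v then u ⟨i, by omega⟩ else w', fun i => ?_, ?_⟩
  · by_cases hi : i < v
    · simp only [hi, dif_pos]
      exact (hu _).1
    · simp only [hi, dif_neg, not_false_eq_true]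
      exact hw'
  · have h1 : u (Fin.last v) = 0 := by
      refine (hu (Fin.last v)).2 ?_
      simp only [Fin.val_last, lt_irrefl, if_false]
      rw [Nat.zero_mod]
      exact hb
    have e1 : ∑ i : Fin (v + 1), u i * (if (i : ℕ) < v then a i else z) + w' * (p • e) =
        ∑ i ∈ Finset.range (v + 1), (if h : i < v then u ⟨i, by omega⟩ else w') *
          (if i < v then a i else p • e) := by
      rw [Fin.sum_univ_castSucc, h1, zero_mul, add_zero, Finset.sum_range_succ,
        Finset.sum_range]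
      simp only [lt_irrefl, if_false, dif_neg, not_false_eq_true]
      congr 1
      refine Finset.sum_congr rfl fun i _ => ?_
      simp only [Fin.val_castSucc, i.2, if_true, dif_pos]
      rfl
    rw [sub_sub, e1] at hm
    exact hm

end types

/-! ### The main part -/

section main

variable {n p N : ℕ} {R : Type} [NonUnitalRing R] [Finite R] {e t : R}

/-- The letters `a_i`, `i < v`, and `p e`. -/
def Lltg (p : ℕ) (e : R) (v : ℕ) (a : ℕ → R) (i : ℕ) : R := if i < v then a i else p • e

theorem Llt_tw (hTyp : St_Typ) (hRlz : St_Rlz) (hRlv : St_Rlv) (hL : Lfr n p N e t) {b : ℕ}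
    (hb : b % N ≠ 0) {k : ℕ} {l : List R} (hl : ∀ x ∈ l, Lo t x) (hne : l ≠ [])
    (hnext : ∀ l' d', (∀ x ∈ l', Lo t x) → l'.length = l.length + 1 → Nl d' →
      d' * t = pw t b * d' → p ^ k • LltP l' d' = 0)
    {c d : R} (hc : Hx t c) (hd : Hx t d) (hcd : c * d * t = pw t b * (c * d)) :
    p ^ k • LltP l (c * d) = 0 := by
  obtain ⟨_, _, _, _, _, h6, _, _, _⟩ := hTyp n p N R e t hL
  obtain ⟨_, z2, _, _, z5, _, _, _⟩ := hRlz n p N R e t hL
  rcases Llt_cd hTyp hRlv hL hb hc hd hcd with h | ⟨h1, h2, h3⟩ | ⟨h1, h2⟩ | ⟨h1, h2⟩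
  · rw [h, Llt_zero, smul_zero]
  · rw [← Llt_snoc]
    refine hnext _ _ ?_ (by rw [List.length_append]; rfl) h2.1 h3
    intro x hx
    rcases List.mem_append.1 hx with hx | hx
    · exact hl x hx
    · rw [List.mem_singleton.1 hx]
      exact h1
  · obtain ⟨l0, y0, rfl⟩ := (List.eq_nil_or_concat' l).resolve_left hne
    rw [Llt_snoc, ← mul_assoc, z2 y0 c d (hl y0 (by simp)) h1 h2, Llt_zero, smul_zero]
  · obtain ⟨l0, y0, rfl⟩ := (List.eq_nil_or_concat' l).resolve_left hne
    rw [Llt_snoc]
    rcases z5 y0 c d (hl y0 (by simp)) h1 h2 with h | ⟨h, _⟩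
    · rw [← mul_assoc, h, Llt_zero, smul_zero]
    · by_cases h0 : c * d = 0
      · rw [h0, mul_zero, Llt_zero, smul_zero]
      · exact absurd ((h6 _ b hcd h0).1 h.2) hb

omit [Finite R] in
theorem Llt_wk {b k : ℕ} {l : List R}
    (hcd : ∀ c d, Hx t c → Hx t d → c * d * t = pw t b * (c * d) → p ^ k • LltP l (c * d) = 0)
    {w : R} (hw : w ∈ AddSubgroup.closure
        {x | ∃ c d, Hx t c ∧ Hx t d ∧ x = c * d ∧ x * t = pw t b * x}) :
    p ^ k • LltP l w = 0 := by
  have h1 : AddSubgroup.closure {x | ∃ c d, Hx t c ∧ Hx t d ∧ x = c * d ∧ x * t = pw t b * x} ≤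
      (p ^ k • LltH l).ker := by
    refine (AddSubgroup.closure_le _).2 ?_
    rintro x ⟨c, d, hc, hd, rfl, hx⟩
    exact hcd c d hc hd hx
  exact h1 hw

theorem Llt_wz (hDcp : St_Dcp) {v : ℕ} {a : ℕ → R} {z : R} (hG : Gx n p N e t v a z z) {b : ℕ}
    (hz : z * t = pw t b * z) (hb : b % N ≠ 0) {k : ℕ} {l : List R} (hl : ∀ x ∈ l, Lo t x)
    (hcd : ∀ c d, Hx t c → Hx t d → c * d * t = pw t b * (c * d) → p ^ k • LltP l (c * d) = 0)
    {w : R} (hw : Nl w) (hwt : w * t = pw t b * w) :
    ∃ u ∈ NonUnitalSubring.closure ({t} : Set R),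
      p ^ k • LltP l w = u * (p ^ k • LltP l z) := by
  obtain ⟨u, hu, _, hκ⟩ := Llt_dt hDcp hG hz hb hw hwt
  refine ⟨u, hu, ?_⟩
  have h1 := Llt_wk hcd hκ
  have h2 : LltP l (w - u * z) = LltP l w - LltP l (u * z) := map_sub (LltH l) _ _
  rw [h2, smul_sub, sub_eq_zero, Llt_W l hl hu] at h1
  rw [h1, mul_smul_comm]

theorem Llt_log (hRlv : St_Rlv) {v : ℕ} {a : ℕ → R} {z : R} (hG : Gx n p N e t v a z z) (i : ℕ) :
    Lo t (Lltg p e v a i) := by
  unfold Lltg
  by_cases hi : i < v
  · rw [if_pos hi]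
    exact hG.lo i hi
  · rw [if_neg hi]
    exact (hRlv n p N R e t hG.fr).2.2.2.2.1.1

theorem Llt_logm (hRlv : St_Rlv) {v : ℕ} {a : ℕ → R} {z : R} (hG : Gx n p N e t v a z z)
    (r : List ℕ) : ∀ x ∈ r.map (Lltg p e v a), Lo t x := by
  intro x hx
  obtain ⟨i, _, rfl⟩ := List.mem_map.1 hx
  exact Llt_log hRlv hG i

theorem Llt_ex (hTyp : St_Typ) (hRlz : St_Rlz) (hRlv : St_Rlv) (hDcp : St_Dcp) (hZth : St_Zth)
    {v : ℕ} {a : ℕ → R} {z : R} (hG : Gx n p N e t v a z z) {b : ℕ}
    (hz : z * t = pw t b * z) (hb : b % N ≠ 0) {k s : ℕ} (K : AddSubgroup R)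
    (hK : ∀ u ∈ NonUnitalSubring.closure ({t} : Set R), ∀ x ∈ K, u * x ∈ K)
    (hnext : ∀ l' : List R, (∀ x ∈ l', Lo t x) → l'.length = s + 1 → p ^ k • LltP l' z ∈ K)
    (r0 : List ℕ) (hbase : ∀ r : List ℕ, (∀ i ∈ r, i ≤ v) → r.length + r0.length = s →
      p ^ k • LltP ((r ++ r0).map (Lltg p e v a)) z ∈ K) :
    ∀ l : List R, (∀ x ∈ l, Lo t x) → ∀ r : List ℕ, (∀ i ∈ r, i ≤ v) →
      l.length + r.length + r0.length = s →
      p ^ k • LltP (l ++ (r ++ r0).map (Lltg p e v a)) z ∈ K := by
  obtain ⟨r1, _, _, _, _, _⟩ := hRlv n p N R e t hG.fr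
  obtain ⟨_, _, z3, _, _, _, _, _⟩ := hRlz n p N R e t hG.fr
  have hB : ∀ c x, Lo t c → Tt t x → c * x = 0 ∨ Tt t (c * x) := fun c x hc hx => (r1 c x hc hx).1
  intro l
  induction l with
  | nil =>
    intro _ r hr hlen
    rw [List.nil_append]
    exact hbase r hr (by rw [List.length_nil] at hlen; omega)
  | cons y l ih =>
    intro hl r hr hlen
    rw [List.length_cons] at hlen
    have hl' : ∀ x ∈ l, Lo t x := fun x hx => hl x (List.mem_cons_of_mem _ hx)
    obtain ⟨L, hLd⟩ : ∃ L, L = l ++ (r ++ r0).map (Lltg p e v a) := ⟨_, rfl⟩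
    have hLL : ∀ x ∈ L, Lo t x := by
      intro x hx
      rw [hLd] at hx
      rcases List.mem_append.1 hx with hx | hx
      · exact hl' x hx
      · exact Llt_logm hRlv hG _ x hx
    have hLlen : L.length + 1 = s := by
      rw [hLd, List.length_append, List.length_map, List.length_append]
      omega
    rw [List.cons_append, ← hLd, Llt_cons]
    obtain ⟨f, hf⟩ : ∃ f : R →+ R, ∀ x, f x = p ^ k • (x * LltP L z) :=
      ⟨p ^ k • AddMonoidHom.mulRight (LltP L z), fun _ => rfl⟩
    rw [← hf]
    obtain ⟨u, hu, hκ⟩ := Llt_dl hDcp hG hz hb (hl y List.mem_cons_self)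
    have e1 : y = ∑ i ∈ Finset.range (v + 1), u i * (if i < v then a i else p • e) +
        (y - ∑ i ∈ Finset.range (v + 1), u i * (if i < v then a i else p • e)) := by
      rw [add_sub_cancel]
    rw [e1, map_add, map_sum]
    refine add_mem (sum_mem fun i hi => ?_) ?_
    · have h1 : f (u i * (if i < v then a i else p • e)) =
          u i * (p ^ k • LltP (Lltg p e v a i :: L) z) := by
        rw [hf, Llt_cons, mul_assoc, mul_smul_comm]
        rfl
      rw [h1]
      refine hK _ (hu i) _ ?_
      have h2 := ih hl' (i :: r) (by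
        intro j hj
        rcases List.mem_cons.1 hj with rfl | hj
        · have := Finset.mem_range.1 hi
          omega
        · exact hr j hj) (by rw [List.length_cons]; omega)
      have h3 : (Lltg p e v a i :: L).Perm (l ++ (i :: r ++ r0).map (Lltg p e v a)) := by
        rw [hLd, List.cons_append, List.map_cons]
        exact List.perm_middle.symm
      have h4 : ∀ x ∈ Lltg p e v a i :: L, Lo t x := by
        intro x hx
        rcases List.mem_cons.1 hx with rfl | hx
        · exact Llt_log hRlv hG i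
        · exact hLL x hx
      rcases Llt_perm hB z3 h3 h4 (Or.inr hG.tx) with h5 | h5
      · rw [h5]
        exact h2
      · rw [h5, smul_neg]
        exact neg_mem h2
    · have h1 : AddSubgroup.closure
          {x | ∃ c d, Hx t c ∧ Hx t d ∧ x = c * d ∧ x * t = t * x} ≤ K.comap f := by
        refine (AddSubgroup.closure_le _).2 ?_
        rintro x ⟨c, d, hc, hd, rfl, hx⟩
        show f (c * d) ∈ K
        rcases Llt_cl hTyp hRlv hG.fr hc hd hx with h | ⟨h1, h2⟩ | ⟨h1, h2, h3⟩
        · rw [h, map_zero]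
          exact zero_mem _
        · rw [hf, mul_assoc]
          refine hnext (c :: d :: L) ?_ (by
            rw [List.length_cons, List.length_cons]
            omega)
          intro x hx
          rcases List.mem_cons.1 hx with rfl | hx
          · exact h1
          · rcases List.mem_cons.1 hx with rfl | hx
            · exact h2
            · exact hLL x hx
        · have h4 : ∀ x ∈ c * d :: L, Lo t x := by
            intro x hx
            rcases List.mem_cons.1 hx with rfl | hx
            · exact h3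
            · exact hLL x hx
          have h5 : LltP (L ++ [c * d]) z = 0 := by
            rw [Llt_snoc, hZth n p N R e t v a z z hG c d z h1 h2 hG.tx, Llt_zero]
          have h6 : c * d * LltP L z = 0 := by
            rcases Llt_perm hB z3 (List.perm_append_singleton (c * d) L).symm h4
              (Or.inr hG.tx) with h7 | h7
            · rw [Llt_cons] at h7
              rw [h7, h5]
            · rw [Llt_cons] at h7
              rw [h7, h5, neg_zero]
          rw [hf, h6, smul_zero]
          exact zero_mem _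
      exact h1 hκ

omit [Finite R] in
theorem Llt_ga {v : ℕ} {a : ℕ → R} (z : R) :
    LltP ((List.range v).reverse.map (Lltg p e v a)) z = pll a z v := by
  rw [← Llt_pll]
  congr 1
  refine List.map_congr_left fun i hi => ?_
  have : i < v := by simpa using hi
  unfold Lltg
  rw [if_pos this]

theorem Llt_B1 (hRlz : St_Rlz) (hRlv : St_Rlv)
    {v : ℕ} {a : ℕ → R} {z : R} (hG : Gx n p N e t v a z z) {k : ℕ}
    (hpH : p • (p ^ k • pll a z v) = 0) (r : List ℕ) (hr : ∀ i ∈ r, i ≤ v)
    (hlen : v < r.length) : p ^ k • LltP (r.map (Lltg p e v a)) z = 0 := by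
  obtain ⟨r1, _, _, _, _, _⟩ := hRlv n p N R e t hG.fr
  obtain ⟨_, _, z3, _, _, _, _, _⟩ := hRlz n p N R e t hG.fr
  have hB : ∀ c x, Lo t c → Tt t x → c * x = 0 ∨ Tt t (c * x) := fun c x hc hx => (r1 c x hc hx).1
  by_cases hd : r.Nodup
  · have h1 : r.Subperm (v :: (List.range v).reverse) := by
      refine List.subperm_of_subset hd fun i hi => ?_
      have := hr i hi
      rw [List.mem_cons, List.mem_reverse, List.mem_range]
      omega
    have h2 : r.Perm (v :: (List.range v).reverse) :=
      h1.perm_of_length_le (by simp; omega)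
    have h3 : LltP ((v :: (List.range v).reverse).map (Lltg p e v a)) z =
        p • pll a z v := by
      rw [List.map_cons, Llt_cons, Llt_ga]
      unfold Lltg
      rw [if_neg (lt_irrefl v), smul_mul_assoc, (hG.fr.one _).1]
    have h4 : p ^ k • (p • pll a z v) = 0 := by
      rw [smul_comm]
      exact hpH
    rcases Llt_perm hB z3 (h2.map (Lltg p e v a)) (Llt_logm hRlv hG r) (Or.inr hG.tx) with h | h
    · rw [h, h3, h4]
    · rw [h, h3, smul_neg, h4, neg_zero]
  · rw [Llt_dup hB z3 (fun i _ => Llt_log hRlv hG i) hd (Or.inr hG.tx), smul_zero]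

theorem Llt_B3 (hRlz : St_Rlz) (hRlv : St_Rlv)
    {v : ℕ} {a : ℕ → R} {z : R} (hG : Gx n p N e t v a z z) {k : ℕ}
    (h0 : k = 0 → ∀ i, i < v → pll (Function.update a i (p • e)) z v = 0)
    (r : List ℕ) (hr : ∀ i ∈ r, i ≤ v) (hlen : r.length = v) (hv : v ∈ r) :
    p ^ k • LltP (r.map (Lltg p e v a)) z = 0 := by
  obtain ⟨r1, _, _, _, r5, _⟩ := hRlv n p N R e t hG.fr
  obtain ⟨_, _, z3, _, _, _, _, _⟩ := hRlz n p N R e t hG.fr
  have hB : ∀ c x, Lo t c → Tt t x → c * x = 0 ∨ Tt t (c * x) := fun c x hc hx => (r1 c x hc hx).1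
  by_cases hd : r.Nodup
  · rcases Nat.eq_zero_or_pos k with hk | hk
    · obtain ⟨m, hm, hmr⟩ : ∃ m, m < v ∧ m ∉ r := by
        by_contra hc
        push Not at hc
        have h1 : (v :: (List.range v).reverse).Subperm r := by
          refine List.subperm_of_subset ?_ fun i hi => ?_
          · rw [List.nodup_cons]
            exact ⟨by simp, List.nodup_reverse.2 List.nodup_range⟩
          · rcases List.mem_cons.1 hi with rfl | hi
            · exact hv
            · exact hc i (by simpa using hi)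
        have h2 := h1.length_le
        rw [List.length_cons, List.length_reverse, List.length_range] at h2
        omega
      have h1 : r.Perm ((List.range v).reverse.map fun i => if i = m then v else i) := by
        refine (List.subperm_of_subset hd fun i hi => ?_).perm_of_length_le (by simp; omega)
        rw [List.mem_map]
        by_cases hiv : i = v
        · exact ⟨m, by simpa using hm, by rw [if_pos rfl, hiv]⟩
        · have h2 := hr i hi
          refine ⟨i, by simp; omega, ?_⟩
          rw [if_neg]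
          rintro rfl
          exact hmr hi
      have h2 : ((List.range v).reverse.map fun i => if i = m then v else i).map
          (Lltg p e v a) = (List.range v).reverse.map (Function.update a m (p • e)) := by
        rw [List.map_map]
        refine List.map_congr_left fun i hi => ?_
        have hi' : i < v := by simpa using hi
        show Lltg p e v a (if i = m then v else i) = Function.update a m (p • e) i
        unfold Lltg
        by_cases him : i = m
        · rw [if_pos him, if_neg (lt_irrefl v), him, Function.update_self]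
        · rw [if_neg him, if_pos hi', Function.update_of_ne him]
      have h3 : LltP (((List.range v).reverse.map fun i => if i = m then v else i).map
          (Lltg p e v a)) z = 0 := by
        rw [h2, Llt_pll]
        exact h0 hk m hm
      rcases Llt_perm hB z3 (h1.map (Lltg p e v a)) (Llt_logm hRlv hG r) (Or.inr hG.tx)
        with h | h
      · rw [h, h3, smul_zero]
      · rw [h, h3, neg_zero, smul_zero]
    · have h1 : r.Perm (v :: r.erase v) := List.perm_cons_erase hv
      have h2 : p ^ k • LltP ((v :: r.erase v).map (Lltg p e v a)) z = 0 := by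
        rw [List.map_cons, Llt_cons]
        have e1 : Lltg p e v a v = p • e := by
          unfold Lltg
          rw [if_neg (lt_irrefl v)]
        rw [e1, smul_mul_assoc, (hG.fr.one _).1]
        rcases Llt_tz hB _ (Llt_logm hRlv hG (r.erase v)) (Or.inr hG.tx) with h | h
        · rw [h, smul_zero, smul_zero]
        · obtain ⟨j, rfl⟩ : ∃ j, k = j + 1 := ⟨k - 1, by omega⟩
          rw [pow_succ, mul_smul, r5.2 _ h, smul_zero]
      rcases Llt_perm hB z3 (h1.map (Lltg p e v a)) (Llt_logm hRlv hG r) (Or.inr hG.tx)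
        with h | h
      · rw [h, h2]
      · rw [h, smul_neg, h2, neg_zero]
  · rw [Llt_dup hB z3 (fun i _ => Llt_log hRlv hG i) hd (Or.inr hG.tx), smul_zero]

theorem Llt_B2 (hRlz : St_Rlz) (hRlv : St_Rlv)
    {v : ℕ} {a : ℕ → R} {z : R} (hG : Gx n p N e t v a z z) {k : ℕ} {H : AddSubgroup R}
    (hH : p ^ k • pll a z v ∈ H)
    (h0 : k = 0 → ∀ i, i < v → pll (Function.update a i (p • e)) z v = 0)
    (r : List ℕ) (hr : ∀ i ∈ r, i ≤ v) (hlen : r.length = v) :
    p ^ k • LltP (r.map (Lltg p e v a)) z ∈ H := by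
  obtain ⟨r1, _, _, _, r5, _⟩ := hRlv n p N R e t hG.fr
  obtain ⟨_, _, z3, _, _, _, _, _⟩ := hRlz n p N R e t hG.fr
  have hB : ∀ c x, Lo t c → Tt t x → c * x = 0 ∨ Tt t (c * x) := fun c x hc hx => (r1 c x hc hx).1
  by_cases hv : v ∈ r
  · rw [Llt_B3 hRlz hRlv hG h0 r hr hlen hv]
    exact zero_mem _
  by_cases hd : r.Nodup
  · have h1 : r.Perm (List.range v).reverse := by
      refine (List.subperm_of_subset hd fun i hi => ?_).perm_of_length_le (by simp; omega)
      have h1 := hr i hi
      have h2 : i ≠ v := by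
        rintro rfl
        exact hv hi
      rw [List.mem_reverse, List.mem_range]
      omega
    rcases Llt_perm hB z3 (h1.map (Lltg p e v a)) (Llt_logm hRlv hG r) (Or.inr hG.tx)
      with h | h
    · rw [h, Llt_ga]
      exact hH
    · rw [h, Llt_ga, smul_neg]
      exact neg_mem hH
  · rw [Llt_dup hB z3 (fun i _ => Llt_log hRlv hG i) hd (Or.inr hG.tx), smul_zero]
    exact zero_mem _

theorem Llt_kl (hTyp : St_Typ) (hRlz : St_Rlz) (hRlv : St_Rlv) (hZth : St_Zth)
    {v : ℕ} {a : ℕ → R} {z : R} (hG : Gx n p N e t v a z z) {k : ℕ} {L : List R}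
    (hLL : ∀ x ∈ L, Lo t x)
    (hnext : ∀ c d, Lo t c → Lo t d → p ^ k • LltP (c :: d :: L) z = 0) {κ : R}
    (hκ : κ ∈ AddSubgroup.closure {x | ∃ c d, Hx t c ∧ Hx t d ∧ x = c * d ∧ x * t = t * x}) :
    p ^ k • (κ * LltP L z) = 0 := by
  obtain ⟨r1, _, _, _, _, _⟩ := hRlv n p N R e t hG.fr
  obtain ⟨_, _, z3, _, _, _, _, _⟩ := hRlz n p N R e t hG.fr
  have hB : ∀ c x, Lo t c → Tt t x → c * x = 0 ∨ Tt t (c * x) := fun c x hc hx => (r1 c x hc hx).1
  have h1 : AddSubgroup.closure
      {x | ∃ c d, Hx t c ∧ Hx t d ∧ x = c * d ∧ x * t = t * x} ≤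
      (p ^ k • AddMonoidHom.mulRight (LltP L z)).ker := by
    refine (AddSubgroup.closure_le _).2 ?_
    rintro x ⟨c, d, hc, hd, rfl, hx⟩
    show p ^ k • (c * d * LltP L z) = 0
    rcases Llt_cl hTyp hRlv hG.fr hc hd hx with h | ⟨h1, h2⟩ | ⟨h1, h2, h3⟩
    · rw [h, zero_mul, smul_zero]
    · rw [mul_assoc]
      exact hnext c d h1 h2
    · have h4 : ∀ x ∈ c * d :: L, Lo t x := by
        intro x hx
        rcases List.mem_cons.1 hx with rfl | hx
        · exact h3
        · exact hLL x hx
      have h5 : LltP (L ++ [c * d]) z = 0 := by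
        rw [Llt_snoc, hZth n p N R e t v a z z hG c d z h1 h2 hG.tx, Llt_zero]
      have h6 : c * d * LltP L z = 0 := by
        rcases Llt_perm hB z3 (List.perm_append_singleton (c * d) L).symm h4
          (Or.inr hG.tx) with h7 | h7
        · rw [Llt_cons] at h7
          rw [h7, h5]
        · rw [Llt_cons] at h7
          rw [h7, h5, neg_zero]
      rw [h6, smul_zero]
  exact h1 hκ

omit [Finite R] in
theorem Llt_h0 {H : AddSubgroup R} (hHJ : ∀ h ∈ H, ∀ x, Nl x → x * h = 0 ∧ h * x = 0) {h : R}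
    (hh : h ∈ H) (l1 l2 : List R) (h1 : ∀ x ∈ l1, Nl x) (h2 : ∀ x ∈ l2, Nl x)
    (hlen : 1 ≤ l1.length + l2.length) : LltP l1 (LltR h l2) = 0 := by
  cases l2 with
  | nil =>
    have hne : l1 ≠ [] := by
      rintro rfl
      simp at hlen
    obtain ⟨l, y, rfl⟩ := (List.eq_nil_or_concat' l1).resolve_left hne
    show LltP (l ++ [y]) h = 0
    rw [Llt_snoc, (hHJ h hh y (h1 y (by simp))).1, Llt_zero]
  | cons y l2 =>
    show LltP l1 (LltR (h * y) l2) = 0
    rw [(hHJ h hh y (h2 y List.mem_cons_self)).2, Llt_R_zero, Llt_zero]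

theorem Llt_zz (hTyp : St_Typ) (hRlv : St_Rlv) (hDcp : St_Dcp) {a : ℕ → R} {z : R}
    (hG : Gx n p N e t 0 a z z) {b : ℕ} (hz : z * t = pw t b * z) {k : ℕ}
    {H : AddSubgroup R} (hHI : Idl R H) (hHJ : ∀ h ∈ H, ∀ x, Nl x → x * h = 0 ∧ h * x = 0)
    (hH : p ^ k • z ∈ H) {M : ℕ} (hM : ∀ l1 l : List R, l1.Sublist l → (∀ x ∈ l1, Nl x) →
      M < l1.length → wp l = 0) : ∀ (i : ℕ) (l1 l2 : List R), (∀ x ∈ l1, Hx t x) →
      (∀ x ∈ l2, Hx t x) → 1 ≤ l1.length + l2.length → M < l1.length + l2.length + 1 + i →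
      ∀ x, Tt t x → p ^ k • LltP l1 (LltR x l2) = 0 := by
  intro i
  induction i with
  | zero =>
    intro l1 l2 h1 h2 _ hlen x hx
    rw [Llt_wpPR, hM _ _ (List.Sublist.refl _), smul_zero]
    · intro y hy
      rcases List.mem_append.1 hy with hy | hy
      · exact (h1 y hy).1
      · rcases List.mem_cons.1 hy with rfl | hy
        · exact hx.1
        · exact (h2 y hy).1
    · rw [List.length_append, List.length_cons]
      omega
  | succ i ih =>
    intro l1 l2 h1 h2 hlen1 hlen x hx
    obtain ⟨b', hxt, hb', _⟩ := Llt_b hTyp hG.fr hx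
    obtain ⟨u, _, _, hκ⟩ := Llt_dt hDcp hG hz hb' hx.1 hxt
    obtain ⟨f, hf⟩ : ∃ f : R →+ R, ∀ x, f x = p ^ k • LltP l1 (LltR x l2) :=
      ⟨AddMonoidHom.mk' (fun x => p ^ k • LltP l1 (LltR x l2)) (fun x y => by
        rw [Llt_R_add, Llt_add, smul_add]), fun _ => rfl⟩
    have h3 : f (u * z) = 0 := by
      have e1 : f (u * z) = LltP l1 (LltR (p ^ k • (u * z)) l2) := by
        rw [hf, ← Llt_smul]
        congr 1
        obtain ⟨f', hf'⟩ : ∃ f' : R →+ R, ∀ x, f' x = LltR x l2 :=
          ⟨AddMonoidHom.mk' (fun x => LltR x l2) (fun x y => Llt_R_add l2 x y), fun _ => rfl⟩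
        rw [← hf', ← hf', map_nsmul]
      rw [e1]
      refine Llt_h0 hHJ ?_ l1 l2 (fun x hx => (h1 x hx).1) (fun x hx => (h2 x hx).1) hlen1
      rw [← mul_smul_comm]
      exact (hHI u _ hH).1
    have h4 : AddSubgroup.closure
        {x | ∃ c d, Hx t c ∧ Hx t d ∧ x = c * d ∧ x * t = pw t b' * x} ≤ f.ker := by
      refine (AddSubgroup.closure_le _).2 ?_
      rintro y ⟨c, d, hc, hd, rfl, hy⟩
      show f (c * d) = 0
      have hA : Tt t d → f (c * d) = 0 := by
        intro hd'
        rw [hf, Llt_R_mul, ← Llt_snoc]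
        refine ih (l1 ++ [c]) l2 ?_ h2 (by rw [List.length_append, List.length_singleton]; omega)
          (by rw [List.length_append, List.length_singleton]; omega) d hd'
        intro x hx
        rcases List.mem_append.1 hx with hx | hx
        · exact h1 x hx
        · rw [List.mem_singleton.1 hx]
          exact hc
      rcases Llt_cd hTyp hRlv hG.fr hb' hc hd hy with h | ⟨_, h, _⟩ | ⟨h, _⟩ | ⟨_, h⟩
      · rw [h, map_zero]
      · exact hA h
      · rw [hf]
        refine ih l1 (d :: l2) h1 ?_ (by rw [List.length_cons]; omega)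
          (by rw [List.length_cons]; omega) c h
        intro x hx
        rcases List.mem_cons.1 hx with rfl | hx
        · exact hd
        · exact h2 x hx
      · exact hA h
    have h5 : f (x - u * z) = 0 := h4 hκ
    rw [map_sub, h3, sub_zero, hf] at h5
    exact h5

theorem Llt_one (hTyp : St_Typ) (hRlz : St_Rlz) (hRlv : St_Rlv) (hDcp : St_Dcp) (hZth : St_Zth)
    {v : ℕ} {a : ℕ → R} {z : R} (hG : Gx n p N e t v a z z) {b : ℕ}
    (hz : z * t = pw t b * z) (hb : b % N ≠ 0) {k : ℕ} (hpH : p • (p ^ k • pll a z v) = 0)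
    {M : ℕ} (hM : ∀ l1 l : List R, l1.Sublist l → (∀ x ∈ l1, Nl x) →
      M < l1.length → wp l = 0) : ∀ (i : ℕ) (l : List R) (w : R), (∀ x ∈ l, Lo t x) → Nl w →
      w * t = pw t b * w → v < l.length → M < l.length + i → p ^ k • LltP l w = 0 := by
  intro i
  induction i with
  | zero =>
    intro l w hl hw hwt _ hlen
    rw [Llt_wpP, hM l _ (List.sublist_append_left l [w]) (fun x hx => (hl x hx).1) (by omega),
      smul_zero]
  | succ i ih =>
    intro l w hl hw hwt hv hlen
    have hne : l ≠ [] := by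
      rintro rfl
      simp at hv
    have hcd : ∀ c d, Hx t c → Hx t d → c * d * t = pw t b * (c * d) →
        p ^ k • LltP l (c * d) = 0 := fun c d hc hd h =>
      Llt_tw hTyp hRlz hRlv hG.fr hb hl hne
        (fun l' d' hl' hlen' hd' hdt => ih l' d' hl' hd' hdt (by omega) (by omega)) hc hd h
    obtain ⟨u, _, e1⟩ := Llt_wz hDcp hG hz hb hl hcd hw hwt
    have h1 : p ^ k • LltP l z = 0 := by
      have h2 := Llt_ex hTyp hRlz hRlv hDcp hZth hG hz hb (k := k) (s := l.length) ⊥
        (fun u _ x hx => by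
          rw [AddSubgroup.mem_bot] at hx ⊢
          rw [hx, mul_zero])
        (fun l' hl' hlen' => by
          rw [AddSubgroup.mem_bot]
          exact ih l' z hl' hG.tx.1 hz (by omega) (by omega)) []
        (fun r hr hlen' => by
          rw [AddSubgroup.mem_bot, List.append_nil]
          refine Llt_B1 hRlz hRlv hG hpH r hr ?_
          rw [List.length_nil] at hlen'
          omega) l hl [] (fun i hi => absurd hi List.not_mem_nil) (by simp)
      rw [AddSubgroup.mem_bot, List.append_nil, List.map_nil, List.append_nil] at h2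
      exact h2
    rw [e1, h1, mul_zero]

end main

/-- **LLT.** -/
theorem thm_Llt (hTyp : St_Typ) (hRlz : St_Rlz) (hRlv : St_Rlv) (hKdc : St_Kdc) (hDcp : St_Dcp)
    (hZth : St_Zth) : St_Llt := by
  intro n p N R _ _ e t v k a z hG H hH hpz h0 s y w hy hw hSm
  obtain ⟨b, hz, hb, hsm⟩ := Llt_b hTyp hG.fr hG.tx
  have hwt := hsm w hSm
  obtain ⟨M, _, hM⟩ := bnd n p R hG.fr.cy
  have hHJ := Llt_HJ hG.fr.cy hH
  have hpH : p • (p ^ k • pll a z v) = 0 := Llt_pH hH hG.fr.cy.pr _ hpz
  have hone : ∀ (l : List R) (w : R), (∀ x ∈ l, Lo t x) → Nl w → w * t = pw t b * w →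
      v < l.length → p ^ k • LltP l w = 0 := fun l w hl hw hwt hv =>
    Llt_one hTyp hRlz hRlv hDcp hZth hG hz hb hpH hM (M + 1) l w hl hw hwt hv (by omega)
  have hcd : ∀ l : List R, (∀ x ∈ l, Lo t x) → l.length = v → ∀ c d, Hx t c → Hx t d →
      c * d * t = pw t b * (c * d) → p ^ k • LltP l (c * d) = 0 := by
    intro l hl hlen c d hc hd h
    rcases Nat.eq_zero_or_pos v with hv | hv
    · subst hv
      have hl0 : l = [] := List.eq_nil_of_length_eq_zero hlen
      subst hl0
      have hzz := Llt_zz hTyp hRlv hDcp hG hz hH.1 hHJ hpz hM (M + 1)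
      have hn : ∀ x ∈ ([] : List R), Hx t x := fun x hx => absurd hx List.not_mem_nil
      have hA : Tt t c → p ^ k • LltP [] (c * d) = 0 := fun h =>
        hzz [] [d] hn (fun x hx => by rw [List.mem_singleton.1 hx]; exact hd) (by simp)
          (by simp; omega) c h
      rcases Llt_cd hTyp hRlv hG.fr hb hc hd h with h | ⟨_, h, _⟩ | ⟨h, _⟩ | ⟨h, _⟩
      · rw [h, Llt_zero, smul_zero]
      · exact hzz [c] [] (fun x hx => by rw [List.mem_singleton.1 hx]; exact hc) hn (by simp)
          (by simp; omega) d h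
      · exact hA h
      · exact hA h
    · refine Llt_tw hTyp hRlz hRlv hG.fr hb hl ?_ ?_ hc hd h
      · rintro rfl
        simp at hlen
        omega
      · intro l' d' hl' hlen' hd' hdt
        exact hone l' d' hl' hd' hdt (by omega)
  obtain ⟨l, hl⟩ : ∃ l, l = (List.range s).reverse.map y := ⟨_, rfl⟩
  have hLl : ∀ x ∈ l, Lo t x := by
    intro x hx
    rw [hl] at hx
    obtain ⟨i, hi, rfl⟩ := List.mem_map.1 hx
    exact hy i (by simpa using hi)
  have hlen : l.length = s := by
    rw [hl, List.length_map, List.length_reverse, List.length_range]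
  have hpl : pll y w s = LltP l w := by rw [hl, Llt_pll]
  rw [hpl]
  refine ⟨fun hv => hone l w hLl hw hwt (by omega), fun hv => ?_, fun hv hor => ?_⟩
  · obtain ⟨u, _, e1⟩ := Llt_wz hDcp hG hz hb hLl (hcd l hLl (by omega)) hw hwt
    rw [e1]
    refine (hH.1 u _ ?_).1
    have h2 := Llt_ex hTyp hRlz hRlv hDcp hZth hG hz hb (k := k) (s := v) H
      (fun u _ x hx => (hH.1 u x hx).1)
      (fun l' hl' hlen' => by
        rw [hone l' z hl' hG.tx.1 hz (by omega)]
        exact zero_mem _) []
      (fun r hr hlen' => by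
        rw [List.append_nil]
        refine Llt_B2 hRlz hRlv hG hpz h0 r hr ?_
        rw [List.length_nil] at hlen'
        omega) l hLl [] (fun i hi => absurd hi List.not_mem_nil) (by simp; omega)
    rw [List.append_nil, List.map_nil, List.append_nil] at h2
    exact h2
  · rcases hor with ⟨i, hi, hiK⟩ | hwK
    · obtain ⟨u, _, e1⟩ := Llt_wz hDcp hG hz hb hLl (hcd l hLl (by omega)) hw hwt
      obtain ⟨r1, _, _, _, _, _⟩ := hRlv n p N R e t hG.fr
      obtain ⟨_, _, z3, _, _, _, _, _⟩ := hRlz n p N R e t hG.fr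
      have hB : ∀ c x, Lo t c → Tt t x → c * x = 0 ∨ Tt t (c * x) :=
        fun c x hc hx => (r1 c x hc hx).1
      have hmem : i ∈ (List.range s).reverse := by
        rw [List.mem_reverse, List.mem_range]
        omega
      have hperm : l.Perm (y i :: ((List.range s).reverse.erase i).map y) := by
        rw [hl]
        exact (List.perm_cons_erase hmem).map y
      obtain ⟨L, hL⟩ : ∃ L, L = ((List.range s).reverse.erase i).map y := ⟨_, rfl⟩
      rw [← hL] at hperm
      have hLL : ∀ x ∈ L, Lo t x := fun x hx =>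
        hLl x (hperm.mem_iff.2 (List.mem_cons_of_mem _ hx))
      have hLlen : L.length + 1 = v := by
        have h1 := hperm.length_eq
        rw [List.length_cons] at h1
        omega
      have hyL : Lo t (y i) := hy i (by omega)
      obtain ⟨w', hw', _, hκ⟩ := hKdc n p N R e t hG.fr (y i) 0 hiK hyL.2
      have h3 : p ^ k • (y i * LltP L z) = 0 := by
        have h4 : p ^ k • ((y i - w' * (p • e)) * LltP L z) = 0 :=
          Llt_kl hTyp hRlz hRlv hZth hG hLL (fun c d hc hd => by
            refine hone _ z ?_ hG.tx.1 hz (by rw [List.length_cons, List.length_cons]; omega)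
            intro x hx
            rcases List.mem_cons.1 hx with rfl | hx
            · exact hc
            · rcases List.mem_cons.1 hx with rfl | hx
              · exact hd
              · exact hLL x hx) hκ
        have h5 : p ^ k • ((p • e) * LltP L z) = 0 := by
          have h6 := Llt_ex hTyp hRlz hRlv hDcp hZth hG hz hb (k := k) (s := v) ⊥
            (fun u _ x hx => by
              rw [AddSubgroup.mem_bot] at hx ⊢
              rw [hx, mul_zero])
            (fun l' hl' hlen' => by
              rw [AddSubgroup.mem_bot]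
              exact hone l' z hl' hG.tx.1 hz (by omega)) [v]
            (fun r hr hlen' => by
              rw [AddSubgroup.mem_bot]
              refine Llt_B3 hRlz hRlv hG h0 (r ++ [v]) ?_ ?_ (by simp)
              · intro j hj
                rcases List.mem_append.1 hj with hj | hj
                · exact hr j hj
                · rw [List.mem_singleton.1 hj]
              · rw [List.length_append]
                exact hlen') L hLL [] (fun i hi => absurd hi List.not_mem_nil)
            (by simp; omega)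
          rw [AddSubgroup.mem_bot, List.nil_append, List.map_singleton] at h6
          have e2 : Lltg p e v a v = p • e := by
            unfold Lltg
            rw [if_neg (lt_irrefl v)]
          rw [e2] at h6
          have hpe : Lo t (p • e) := (hRlv n p N R e t hG.fr).2.2.2.2.1.1
          have h7 : ∀ x ∈ L ++ [p • e], Lo t x := by
            intro x hx
            rcases List.mem_append.1 hx with hx | hx
            · exact hLL x hx
            · rw [List.mem_singleton.1 hx]
              exact hpe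
          rcases Llt_perm hB z3 (List.perm_append_singleton (p • e) L) h7 (Or.inr hG.tx)
            with h8 | h8
          · rw [h8, Llt_cons] at h6
            exact h6
          · rw [h8, smul_neg, neg_eq_zero, Llt_cons] at h6
            exact h6
        rw [sub_mul, smul_sub, mul_assoc, ← mul_smul_comm (p ^ k) w', h5, mul_zero,
          sub_zero] at h4
        exact h4
      have h9 : p ^ k • LltP l z = 0 := by
        rcases Llt_perm hB z3 hperm hLl (Or.inr hG.tx) with h | h
        · rw [h, Llt_cons, h3]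
        · rw [h, Llt_cons, smul_neg, h3, neg_zero]
      rw [e1, h9, mul_zero]
    · obtain ⟨w', _, hw0, hκ⟩ := hKdc n p N R e t hG.fr w b hwK hwt
      rw [hw0 hb, zero_mul, sub_zero] at hκ
      exact Llt_wk (hcd l hLl (by omega)) hκ

end Pool.Agent.CRP
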