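import Pool.Agent.CRP.St
import Pool.Agent.CRM.All
import Pool.Agent.CRL.All

/-!
Campaign CRP, module Lte: the type `LtE`.
-/

set_option autoImplicit false

namespace Pool.Agent.CRP

open Pool.Agent.CRR Pool.Agent.CRN Pool.Agent.CRK Pool.Agent.CRL Pool.Agent.CRM

section

variable {R : Type} [NonUnitalRing R] [Finite R] {n p N : ℕ} {e t : R}

omit [Finite R] in
/-- the elements of the subring generated by `t` commute with the powers of `t` -/
theorem Lte_com {t u : R} (hu : u ∈ NonUnitalSubring.closure ({t} : Set R)) (k : ℕ) :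
    u * pw t k = pw t k * u := by
  induction hu using NonUnitalSubring.closure_induction with
  | mem x hx =>
    rw [Set.mem_singleton_iff] at hx
    subst hx
    induction k with
    | zero => rfl
    | succ k ih =>
      show x * (pw x k * x) = pw x k * x * x
      rw [← mul_assoc, ih]
  | zero => rw [zero_mul, mul_zero]
  | add x y _ _ hx hy => rw [add_mul, mul_add, hx, hy]
  | neg x _ hx => rw [neg_mul, mul_neg, hx]
  | mul x y _ _ hx hy => rw [mul_assoc, hy, ← mul_assoc, hx, mul_assoc]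

omit [Finite R] in
/-- the type of `u x` -/
theorem Lte_ux {t u x : R} {a : ℕ} (hu : u ∈ NonUnitalSubring.closure ({t} : Set R))
    (hx : x * t = pw t a * x) : u * x * t = pw t a * (u * x) := by
  rw [mul_assoc, hx, ← mul_assoc, ← mul_assoc, Lte_com hu]

/-- an element with a type which is not 1 is zero or twisted -/
theorem Lte_tt (hTyp : St_Typ) (hF : Lfr n p N e t) {x : R} {a : ℕ}
    (hx : Nl x) (hxa : x * t = pw t a * x) (ha : a % N ≠ 0) : x = 0 ∨ Tt t x := by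
  by_cases h0 : x = 0
  · exact Or.inl h0
  · exact Or.inr ⟨hx, ⟨a, hxa⟩, fun hc =>
      ha (((hTyp n p N R e t hF).2.2.2.2.2.1 x a hxa h0).1 hc)⟩

/-- products with a type which is not 1 -/
theorem Lte_cd (hTyp : St_Typ) (hRlz : St_Rlz) (hRlv : St_Rlv) (hF : Lfr n p N e t) {c d : R}
    {a : ℕ} (hc : Hx t c) (hd : Hx t d) (hcd : c * d * t = pw t a * (c * d)) (ha : a % N ≠ 0)
    {x y : R} (hx : x = 0 ∨ Tt t x) (hy : y = 0 ∨ Tt t y) :
    c * d * x * y = 0 ∧ x * (c * d) * y = 0 ∧ x * y * (c * d) = 0 := by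
  by_cases h0 : c * d = 0
  · simp [h0]
  obtain ⟨t1, t2, t3, t4, t5, t6, t7, t8, t9⟩ := hTyp n p N R e t hF
  obtain ⟨r1, r2, r3, r4, r5, r6, r7, r8⟩ := hRlz n p N R e t hF
  obtain ⟨v1, v2, v3, v4, v5, v6⟩ := hRlv n p N R e t hF
  rcases hx with rfl | hx
  · simp
  rcases hy with rfl | hy
  · simp
  rcases v2 c hc with rfl | hc | hc
  · simp
  · rcases v2 d hd with rfl | hd | hd
    · simp
    · exfalso
      exact ha ((t6 _ a hcd h0).1 (t8 c d hc hd).1.2)
    · refine ⟨(v4 c d x y hc hd hx hy).1, ?_, ?_⟩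
      · rw [← mul_assoc x c d, r1 x c d hx hc hd, zero_mul]
      · rw [mul_assoc x y (c * d), ← mul_assoc y c d, r1 y c d hy hc hd, mul_zero]
  · rcases v2 d hd with rfl | hd | hd
    · simp
    · refine ⟨?_, ?_, ?_⟩
      · rw [r1 c d x hc hd hx, zero_mul]
      · rw [mul_assoc x (c * d) y, r1 c d y hc hd hy, mul_zero]
      · rw [← mul_assoc]
        exact (v4 d x y c hd hx hy hc).2
    · refine ⟨v3 c d x y hc hd hx hy, ?_, ?_⟩
      · rw [← mul_assoc x c d]
        exact v3 x c d y hx hc hd hy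
      · rw [← mul_assoc]
        exact v3 x y c d hx hy hc hd

/-- a product of three twisted elements is zero if a factor is in `J^2 + p R` -/
theorem Lte_kj (hTyp : St_Typ) (hRlz : St_Rlz) (hRlv : St_Rlv) (hKdc : St_Kdc)
    (hF : Lfr n p N e t) {κ : R} {a : ℕ} (hκ : κ ∈ KJ R p) (hκt : κ * t = pw t a * κ)
    (ha : a % N ≠ 0) {x y : R} (hx : x = 0 ∨ Tt t x) (hy : y = 0 ∨ Tt t y) :
    κ * x * y = 0 ∧ x * κ * y = 0 ∧ x * y * κ = 0 := by
  obtain ⟨w, -, hw, hcl⟩ := hKdc n p N R e t hF κ a hκ hκt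
  rw [hw ha, zero_mul, sub_zero] at hcl
  clear hκ hκt hw
  induction hcl using AddSubgroup.closure_induction with
  | mem z hz =>
    obtain ⟨c, d, hc, hd, rfl, hz⟩ := hz
    exact Lte_cd hTyp hRlz hRlv hF hc hd hz ha hx hy
  | zero => simp
  | add u v _ _ hu hv =>
    refine ⟨?_, ?_, ?_⟩
    · rw [add_mul, add_mul, hu.1, hv.1, add_zero]
    · rw [mul_add, add_mul, hu.2.1, hv.2.1, add_zero]
    · rw [mul_add, hu.2.2, hv.2.2, add_zero]
  | neg u _ hu =>
    refine ⟨?_, ?_, ?_⟩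
    · rw [neg_mul, neg_mul, hu.1, neg_zero]
    · rw [mul_neg, neg_mul, hu.2.1, neg_zero]
    · rw [mul_neg, hu.2.2, neg_zero]

/-- a product of three twisted elements is in `H` -/
theorem Lte_h (hRlv : St_Rlv) (hF : Lfr n p N e t) {H : AddSubgroup R} (hH : Lst R H)
    {x y z : R} (hx : x = 0 ∨ Tt t x) (hy : y = 0 ∨ Tt t y) (hz : z = 0 ∨ Tt t z) :
    x * y * z ∈ H := by
  rcases hx with rfl | hx
  · rw [zero_mul, zero_mul]
    exact H.zero_mem
  rcases hy with rfl | hy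
  · rw [mul_zero, zero_mul]
    exact H.zero_mem
  rcases hz with rfl | hz
  · rw [mul_zero]
    exact H.zero_mem
  obtain ⟨v1, v2, v3, v4, v5, v6⟩ := hRlv n p N R e t hF
  obtain ⟨M, hM1, hMd, hMp, _, hMall⟩ := thm_Tyn n p R hF.cy e hF.prm hF.one
  have hom : om n t = e := (hMall t hF.fr).1
  obtain ⟨Φ, hΦ, hnl, hadd, _, _⟩ := thm_Foi n p R hF.cy e hF.prm hF.one N hF.n1 hF.np
  have hΦt := hΦ t hF.pn (fun k h1 h2 => (hF.un k h1 h2).imp fun u hu => hu.1)
  refine soc n p R hF.cy H hH 1 (fun _ => t) hF.fr (some 0) (some 0) _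
    ⟨fun i => ?_, fun i => ?_⟩ ?_ (v6 x y z hx hy hz)
  · obtain rfl : i = 0 := Subsingleton.elim _ _
    rw [if_pos rfl]
    show om n t * _ = _
    rw [hom]
    exact (hF.one _).1
  · obtain rfl : i = 0 := Subsingleton.elim _ _
    rw [if_pos rfl]
    show _ * om n t = _
    rw [hom]
    exact (hF.one _).2
  · intro u hu
    have h1 : ∀ j ∈ Finset.range N, Φ j t u * (x * y * z) = 0 ∧ x * y * z * Φ j t u = 0 := by
      intro j hj
      rcases v2 (Φ j t u) ⟨hnl j t u hu, j, (hΦt u).1 j (Finset.mem_range.1 hj)⟩ with h | h | h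
      · rw [h, zero_mul, mul_zero]
        exact ⟨rfl, rfl⟩
      · have h2 := v4 _ x y z h hx hy hz
        exact ⟨by rw [← mul_assoc, ← mul_assoc]; exact h2.1, h2.2⟩
      · exact ⟨by rw [← mul_assoc, ← mul_assoc]; exact v3 _ _ _ _ h hx hy hz,
          v3 _ _ _ _ hx hy hz h⟩
    have e1 := (hΦt u).2.2.2
    constructor
    · rw [e1, Finset.sum_mul]
      exact Finset.sum_eq_zero fun j hj => (h1 j hj).1
    · rw [e1, Finset.mul_sum]
      exact Finset.sum_eq_zero fun j hj => (h1 j hj).2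

/-- an additive function which is zero at the elements of `KJ` with the type of `w j` and at the elements
`u w_i`, `i < j`, of the same type -/
theorem Lte_van (hF : Lfr n p N e t) {b : ℕ} {a : Fin b → ℕ} (haN : ∀ i, a i < N)
    {w : Fin b → R} (hw : Ty n a t w) {j : Fin b} (hj : w j ∈ Mj p t w j) (g : R → R)
    (hg : ∀ x y, g (x + y) = g x + g y)
    (h1 : ∀ κ ∈ KJ R p, κ * t = pw t (a j) * κ → g κ = 0)
    (h2 : ∀ i, i < j → a i = a j → ∀ u ∈ NonUnitalSubring.closure ({t} : Set R),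
      g (u * w i) = 0) : g (w j) = 0 := by
  obtain ⟨J, hJ, hJm⟩ := CRL.jil n hF.cy.n4 R hF.cy.inM hF.cy.nt
  obtain ⟨Φ, hΦ, hnl, hadd, _, hidl⟩ := thm_Foi n p R hF.cy e hF.prm hF.one N hF.n1 hF.np
  have hΦt := hΦ t hF.pn (fun k h1 h2 => (hF.un k h1 h2).imp fun u hu => hu.1)
  obtain ⟨G, hG⟩ : ∃ G : R →+ R, ∀ x, G x = g (Φ (a j) t x) :=
    ⟨AddMonoidHom.mk' (fun x => g (Φ (a j) t x)) (fun x y => by
      show g (Φ (a j) t (x + y)) = _
      rw [hadd, hg]), fun _ => rfl⟩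
  have hker : Mj p t w j ≤ G.ker := by
    refine sup_le ?_ ((AddSubgroup.closure_le _).2 ?_)
    · intro κ hκ
      rw [AddMonoidHom.mem_ker, hG]
      exact h1 _ (hidl _ (Lff_KJ hJ hJm p) (a j) t κ hκ) ((hΦt κ).1 (a j) (haN j))
    · rintro _ ⟨i, hi, u, hu, rfl⟩
      rw [SetLike.mem_coe, AddMonoidHom.mem_ker, hG]
      have h3 : u * w i * t = pw t (a i) * (u * w i) := Lte_ux hu (hw.2 i).2
      by_cases h4 : a i = a j
      · rw [(hΦt _).2.1 (a j) (haN j) (h4 ▸ h3)]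
        exact h2 i hi h4 u hu
      · rw [(hΦt _).2.2.1 (a j) (a i) (haN j) (haN i) (fun h => h4 h.symm) h3]
        have h5 := hg 0 0
        rw [add_zero] at h5
        exact left_eq_add.1 h5
  have h5 := hker hj
  rw [AddMonoidHom.mem_ker, hG, (hΦt _).2.1 (a j) (haN j) (hw.2 j).2] at h5
  exact h5

/-- the criterion -/
theorem Lte_gz (hTyp : St_Typ) (hRlv : St_Rlv) (hC : Cy R n p) (he : Prm R e)
    (h1 : ∀ x : R, e * x = x ∧ x * e = x) {H : AddSubgroup R} (hH : Lst R H)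
    (hall : ∀ t : R, Frame R n 1 (fun _ => t) → Lfr n p N e t) (b : ℕ) (a : Fin b → ℕ)
    (haN : ∀ i, a i < N) (ha0 : ∀ i, a i ≠ 0) (i₁ i₂ i₃ : Fin b)
    (hvan : ∀ (t : R) (w : Fin b → R), Lfr n p N e t → Ty n a t w → ∀ j, w j ∈ Mj p t w j →
      w i₁ * w i₂ * w i₃ = 0)
    (t₀ : R) (w₀ : Fin b → R) (hT₀ : Ty n a t₀ w₀)
    (hgen : NonUnitalSubring.closure ({t₀} ∪ Set.range w₀) = ⊤)
    (hne : w₀ i₁ * w₀ i₂ * w₀ i₃ ≠ 0) : Critical R := by
  obtain ⟨q, -, hq, -⟩ := dmk n p R hC e he h1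
  have hF₀ := hall t₀ hT₀.1
  obtain ⟨Φ, hΦ, hnl, hadd, hsub, htm⟩ := thm_Fou n p R hC e he h1 N hF₀.n1 hF₀.np
  have hΦt : ∀ t, Lfr n p N e t → ∀ x, (∀ j, j < N → Φ j t x * t = pw t j * Φ j t x) ∧
      (∀ j, j < N → x * t = pw t j * x → Φ j t x = x) := by
    intro t hF x
    have h2 := hΦ t hF.pn (fun k h1 h2 => (hF.un k h1 h2).imp fun u hu => hu.1) x
    exact ⟨h2.1, h2.2.1⟩
  have haM : ∀ i, a i % N ≠ 0 := fun i => by
    rw [Nat.mod_eq_of_lt (haN i)]
    exact ha0 i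
  have hvf : ∀ v : ℕ → R, Vec n 1 b v → Frame R n 1 (fun _ => v 0) := by
    intro v hv
    have h2 : (fun i : Fin 1 => v i) = fun _ => v 0 := by
      funext i
      rw [Subsingleton.elim i 0]
      rfl
    rw [← h2]
    exact hv.1
  have hTw : ∀ v : ℕ → R, Vec n 1 b v →
      Ty n a (v 0) (fun i : Fin b => Φ (a i) (v 0) (v (1 + i))) := fun v hv =>
    ⟨hvf v hv, fun i => ⟨hnl _ _ _ (hv.2 i i.2), (hΦt _ (hall _ (hvf v hv)) _).1 _ (haN i)⟩⟩
  refine thm_Bkl n p R hC e he h1 H hH b (fun v => Φ (a i₁) (v 0) (v (1 + i₁)) *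
    Φ (a i₂) (v 0) (v (1 + i₂)) * Φ (a i₃) (v 0) (v (1 + i₃))) ⟨?_, ?_, ?_, ?_, ?_⟩
  · exact ((htm _ _ _ (TmF.var 0) (TmF.var _)).mul (htm _ _ _ (TmF.var 0) (TmF.var _))).mul
      (htm _ _ _ (TmF.var 0) (TmF.var _))
  · intro v v' hv
    have h3 := hv 0 (by omega)
    have h4 : ∀ i : Fin b, v (1 + i) = v' (1 + i) := fun i => hv _ (by have := i.2; omega)
    simp only [h3, h4]
  · intro v hv
    have hF := hall (v 0) (hvf v hv)
    have hT := hTw v hv
    exact Lte_h hRlv hF hH (Lte_tt hTyp hF (hT.2 i₁).1 (hT.2 i₁).2 (haM i₁))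
      (Lte_tt hTyp hF (hT.2 i₂).1 (hT.2 i₂).2 (haM i₂))
      (Lte_tt hTyp hF (hT.2 i₃).1 (hT.2 i₃).2 (haM i₃))
  · intro v hv S hS hvS
    have hF := hall (v 0) (hvf v hv)
    have hT := hTw v hv
    have hex : ∃ j : Fin b, Φ (a j) (v 0) (v (1 + j)) ∈
        Mj p (v 0) (fun i : Fin b => Φ (a i) (v 0) (v (1 + i))) j := by
      by_contra hno
      push Not at hno
      have h5 := ((hq b a _ _ hT).2 hno).2 ((hq b a t₀ w₀ hT₀).1 hgen)
      apply hS
      rw [eq_top_iff, ← h5]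
      refine NonUnitalSubring.closure_le.2 ?_
      have h6 : v 0 ∈ S := hvS 0 (by omega)
      rintro x (hx | ⟨i, rfl⟩)
      · rw [Set.mem_singleton_iff.1 hx]
        exact h6
      · exact hsub S _ _ _ h6 (hvS _ (by have := i.2; omega))
    obtain ⟨j, hj⟩ := hex
    exact hvan _ _ hF hT j hj
  · obtain ⟨v, hv⟩ : ∃ v : ℕ → R, v = fun i => if i = 0 then t₀ else
      if h : i - 1 < b then w₀ ⟨i - 1, h⟩ else 0 := ⟨_, rfl⟩
    have hv0 : v 0 = t₀ := by rw [hv]; rfl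
    have hvi : ∀ i : Fin b, v (1 + i) = w₀ i := by
      intro i
      have h2 : 1 + (i : ℕ) - 1 = i := by omega
      rw [hv]
      simp only [h2]
      rw [if_neg (by omega), dif_pos i.2]
    refine ⟨v, ⟨?_, fun k hk => ?_⟩, ?_⟩
    · have h2 : (fun i : Fin 1 => v i) = fun _ => t₀ := by
        funext i
        rw [Subsingleton.elim i 0]
        exact hv0
      rw [h2]
      exact hT₀.1
    · rw [show v (1 + k) = w₀ ⟨k, hk⟩ from hvi ⟨k, hk⟩]
      exact (hT₀.2 _).1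
    · show Φ (a i₁) (v 0) (v (1 + i₁)) * Φ (a i₂) (v 0) (v (1 + i₂)) *
        Φ (a i₃) (v 0) (v (1 + i₃)) ≠ 0
      rw [hvi, hvi, hvi, hv0, (hΦt t₀ hF₀ _).2 _ (haN i₁) (hT₀.2 i₁).2,
        (hΦt t₀ hF₀ _).2 _ (haN i₂) (hT₀.2 i₂).2, (hΦt t₀ hF₀ _).2 _ (haN i₃) (hT₀.2 i₃).2]
      exact hne

omit [Finite R] in
theorem Lte_cube {x : R} (u : R) (hx : Nl x) : u * x * x * x = 0 := by
  rw [mul_assoc u x x, mul_assoc u (x * x) x, hx, mul_zero]

/-- `x y (u x) = 0` if `x y x = 0` -/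
theorem Lte_xyu (hTyp : St_Typ) (hRlz : St_Rlz) (hF : Lfr n p N e t) {x y : R} {a : ℕ}
    (hx : Nl x) (hxa : x * t = pw t a * x) (ha : a % N ≠ 0) (hy : y = 0 ∨ Tt t y)
    (hxy : x * y * x = 0) {u : R} (hu : u ∈ NonUnitalSubring.closure ({t} : Set R)) :
    x * y * (u * x) = 0 := by
  obtain ⟨J, hJ, hJm⟩ := CRL.jil n hF.cy.n4 R hF.cy.inM hF.cy.nt
  have hux : Nl (u * x) := (hJm _).1 (hJ u x ((hJm _).2 hx)).1
  rcases Lte_tt hTyp hF hux (Lte_ux hu hxa) ha with h | h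
  · rw [h, mul_zero]
  rcases Lte_tt hTyp hF hx hxa ha with h' | h'
  · rw [h', mul_zero, mul_zero]
  rcases hy with rfl | hy
  · rw [mul_zero, zero_mul]
  have h1 := ((hRlz n p N R e t hF).2.2.2.2.2.2.1 x y (u * x) h' hy h).1
  rw [mul_assoc u x y, mul_assoc u (x * y) x, hxy, mul_zero, add_zero] at h1
  exact h1

/-- `x (u x) x = 0` -/
theorem Lte_xux (hTyp : St_Typ) (hRlz : St_Rlz) (hF : Lfr n p N e t) {x : R} {a : ℕ}
    (hx : Nl x) (hxa : x * t = pw t a * x) (ha : a % N ≠ 0) {u : R}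
    (hu : u ∈ NonUnitalSubring.closure ({t} : Set R)) : x * (u * x) * x = 0 := by
  obtain ⟨J, hJ, hJm⟩ := CRL.jil n hF.cy.n4 R hF.cy.inM hF.cy.nt
  have hux : Nl (u * x) := (hJm _).1 (hJ u x ((hJm _).2 hx)).1
  rcases Lte_tt hTyp hF hux (Lte_ux hu hxa) ha with h | h
  · rw [h, mul_zero, zero_mul]
  rcases Lte_tt hTyp hF hx hxa ha with h' | h'
  · rw [h', zero_mul, zero_mul]
  have h1 := ((hRlz n p N R e t hF).2.2.2.2.2.2.2 x (u * x) h' h).1
  have h2 := Lte_xyu hTyp hRlz hF hx hxa ha (Or.inr h') hx hu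
  rw [mul_assoc u x x, mul_assoc u (x * x) (u * x), h2, mul_zero, add_zero] at h1
  exact h1

end

/-- **LTE.** -/
theorem thm_Lte (hLfx : St_Lfx) (hTyp : St_Typ) (hRlz : St_Rlz) (hRlv : St_Rlv)
    (hKdc : St_Kdc) : St_Lte := by
  intro n R _ _ hn hM hT hL
  obtain ⟨p, e, t, H, x, y, z, hX, tx, ty, tz, hxz, hor, hne, hgen⟩ := hL
  have hC : Cy R n p := ⟨hn, hM, hT, hX.pp, hX.pr⟩
  obtain ⟨N, -, hall⟩ := hLfx n p R hC e hX.prm hX.one
  have hF := hall t hX.fr
  obtain ⟨t1, t2, t3, t4, t5, t6, t7, t8, t9⟩ := hTyp n p N R e t hF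
  have h0 : ∀ x, Tt t x → x ≠ 0 := by
    rintro x hx rfl
    exact hx.2.2 (by rw [zero_mul, mul_zero])
  have hred : ∀ x b, Tt t x → x * t = pw t b * x → x * t = pw t (b % N) * x ∧ b % N ≠ 0 := by
    intro x b hx hb
    refine ⟨?_, fun h => hx.2.2 ((t6 x b hb (h0 x hx)).2 h)⟩
    rw [t3 (b % N) b (Nat.mod_mod _ _)]
    exact hb
  obtain ⟨a, hxa, hza⟩ := hxz
  obtain ⟨hxa', ha0⟩ := hred x a tx hxa
  obtain ⟨hza', -⟩ := hred z a tz hza
  have haN : a % N < N := Nat.mod_lt _ hF.n1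
  have haM : a % N % N ≠ 0 := by rw [Nat.mod_mod]; exact ha0
  rcases hor with rfl | rfl | hor
  · -- x x z
    refine Lte_gz hTyp hRlv hC hX.prm hX.one hX.lst hall 2 (fun _ => a % N) (fun _ => haN)
      (fun _ => ha0) 0 0 1 ?_ t ![y, z] ⟨hX.fr, fun i => ?_⟩ ?_ hne
    · intro t w hF hw j hj
      have hT : ∀ i, w i = 0 ∨ Tt t (w i) := fun i => Lte_tt hTyp hF (hw.2 i).1 (hw.2 i).2 haM
      fin_cases j
      · exact Lte_van hF (fun _ => haN) hw hj (fun y => y * w 0 * w 1)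
          (fun x y => by rw [add_mul, add_mul])
          (fun κ hκ hκt => (Lte_kj hTyp hRlz hRlv hKdc hF hκ hκt haM (hT 0) (hT 1)).1)
          (fun i hi => absurd hi (Nat.not_lt_zero _))
      · refine Lte_van hF (fun _ => haN) hw hj (fun y => w 0 * w 0 * y)
          (fun x y => by rw [mul_add])
          (fun κ hκ hκt => (Lte_kj hTyp hRlz hRlv hKdc hF hκ hκt haM (hT 0) (hT 0)).2.2)
          (fun i hi _ u hu => ?_)
        obtain rfl : i = 0 := by
          fin_cases i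
          · rfl
          · exact absurd hi (lt_irrefl _)
        exact Lte_xyu hTyp hRlz hF (hw.2 0).1 (hw.2 0).2 haM (hT 0) (hw.2 0).1 hu
    · fin_cases i
      · exact ⟨tx.1, hxa'⟩
      · exact ⟨tz.1, hza'⟩
    · rw [eq_top_iff, ← hgen]
      refine NonUnitalSubring.closure_mono ?_
      rintro u (hu | hu | hu | hu)
      · exact Or.inl hu
      · exact Or.inr ⟨0, hu.symm⟩
      · exact Or.inr ⟨0, hu.symm⟩
      · exact Or.inr ⟨1, hu.symm⟩
  · -- x y x
    have hyx := (hRlz n p N R e t hF).2.2.2.2.2.2.2 z y tx ty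
    obtain ⟨c, hzc, hyc⟩ := hyx.2.resolve_left hne
    have hca : a % N = c % N := t4 z a c hxa hzc (h0 z tx)
    have hya' : y * t = pw t (a % N) * y := by
      rw [t3 (a % N) c (by rw [Nat.mod_mod, hca])]
      exact hyc
    refine Lte_gz hTyp hRlv hC hX.prm hX.one hX.lst hall 2 (fun _ => a % N) (fun _ => haN)
      (fun _ => ha0) 0 1 0 ?_ t ![z, y] ⟨hX.fr, fun i => ?_⟩ ?_ hne
    · intro t w hF hw j hj
      have hT : ∀ i, w i = 0 ∨ Tt t (w i) := fun i => Lte_tt hTyp hF (hw.2 i).1 (hw.2 i).2 haM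
      fin_cases j
      · exact Lte_van hF (fun _ => haN) hw hj (fun y => y * w 1 * w 0)
          (fun x y => by rw [add_mul, add_mul])
          (fun κ hκ hκt => (Lte_kj hTyp hRlz hRlv hKdc hF hκ hκt haM (hT 1) (hT 0)).1)
          (fun i hi => absurd hi (Nat.not_lt_zero _))
      · refine Lte_van hF (fun _ => haN) hw hj (fun y => w 0 * y * w 0)
          (fun x y => by rw [mul_add, add_mul])
          (fun κ hκ hκt => (Lte_kj hTyp hRlz hRlv hKdc hF hκ hκt haM (hT 0) (hT 0)).2.1)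
          (fun i hi _ u hu => ?_)
        obtain rfl : i = 0 := by
          fin_cases i
          · rfl
          · exact absurd hi (lt_irrefl _)
        exact Lte_xux hTyp hRlz hF (hw.2 0).1 (hw.2 0).2 haM hu
    · fin_cases i
      · exact ⟨tx.1, hxa'⟩
      · exact ⟨ty.1, hya'⟩
    · rw [eq_top_iff, ← hgen]
      refine NonUnitalSubring.closure_mono ?_
      rintro u (hu | hu | hu | hu)
      · exact Or.inl hu
      · exact Or.inr ⟨0, hu.symm⟩
      · exact Or.inr ⟨1, hu.symm⟩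
      · exact Or.inr ⟨0, hu.symm⟩
  · -- x y z, different types
    obtain ⟨b, hyb⟩ := ty.2.1
    obtain ⟨hyb', hb0⟩ := hred y b ty hyb
    have hbN : b % N < N := Nat.mod_lt _ hF.n1
    have hbM : b % N % N ≠ 0 := by rw [Nat.mod_mod]; exact hb0
    have hab : a % N ≠ b % N := by
      intro h
      refine hor ⟨a % N, hxa', ?_⟩
      rw [h]
      exact hyb'
    refine Lte_gz hTyp hRlv hC hX.prm hX.one hX.lst hall 3 ![a % N, a % N, b % N]
      (fun i => ?_) (fun i => ?_) 0 2 1 ?_ t ![x, z, y] ⟨hX.fr, fun i => ?_⟩ ?_ hne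
    · fin_cases i
      · exact haN
      · exact haN
      · exact hbN
    · fin_cases i
      · exact ha0
      · exact ha0
      · exact hb0
    · intro t w hF hw j hj
      have haN' : ∀ i, (![a % N, a % N, b % N] : Fin 3 → ℕ) i < N := by
        intro i
        fin_cases i
        · exact haN
        · exact haN
        · exact hbN
      have w0 : w 0 * t = pw t (a % N) * w 0 := (hw.2 0).2
      have w1 : w 1 * t = pw t (a % N) * w 1 := (hw.2 1).2
      have w2 : w 2 * t = pw t (b % N) * w 2 := (hw.2 2).2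
      have T0 : w 0 = 0 ∨ Tt t (w 0) := Lte_tt hTyp hF (hw.2 0).1 w0 haM
      have T1 : w 1 = 0 ∨ Tt t (w 1) := Lte_tt hTyp hF (hw.2 1).1 w1 haM
      have T2 : w 2 = 0 ∨ Tt t (w 2) := Lte_tt hTyp hF (hw.2 2).1 w2 hbM
      fin_cases j
      · exact Lte_van hF haN' hw hj (fun y => y * w 2 * w 1)
          (fun x y => by rw [add_mul, add_mul])
          (fun κ hκ hκt => (Lte_kj hTyp hRlz hRlv hKdc hF hκ hκt haM T2 T1).1)
          (fun i hi => absurd hi (Nat.not_lt_zero _))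
      · refine Lte_van hF haN' hw hj (fun y => w 0 * w 2 * y)
          (fun x y => by rw [mul_add])
          (fun κ hκ hκt => (Lte_kj hTyp hRlz hRlv hKdc hF hκ hκt haM T0 T2).2.2)
          (fun i hi _ u hu => ?_)
        obtain rfl : i = 0 := by
          fin_cases i
          · rfl
          · exact absurd hi (lt_irrefl _)
          · exact absurd hi (by decide)
        refine Lte_xyu hTyp hRlz hF (hw.2 0).1 w0 haM T2 ?_ hu
        by_cases h3 : w 0 * w 2 * w 0 = 0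
        · exact h3
        exfalso
        rcases T0 with h4 | h4
        · exact h3 (by rw [h4, zero_mul, zero_mul])
        rcases T2 with h5 | h5
        · exact h3 (by rw [h5, mul_zero, zero_mul])
        obtain ⟨c, hc, hc'⟩ :=
          ((hRlz n p N R e t hF).2.2.2.2.2.2.2 (w 0) (w 2) h4 h5).2.resolve_left h3
        obtain ⟨s1, s2, s3, s4, s5, s6, s7, s8, s9⟩ := hTyp n p N R e t hF
        have h6 : w 0 ≠ 0 := fun h => h3 (by rw [h, zero_mul, zero_mul])
        have h7 : w 2 ≠ 0 := fun h => h3 (by rw [h, mul_zero, zero_mul])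
        have h8 := s4 _ _ _ w0 hc h6
        have h9 := s4 _ _ _ w2 hc' h7
        rw [Nat.mod_mod] at h8 h9
        exact hab (h8.trans h9.symm)
      · refine Lte_van hF haN' hw hj (fun y => w 0 * y * w 1)
          (fun x y => by rw [mul_add, add_mul])
          (fun κ hκ hκt => (Lte_kj hTyp hRlz hRlv hKdc hF hκ hκt hbM T0 T1).2.1)
          (fun i hi hi' u hu => ?_)
        exfalso
        fin_cases i
        · exact hab hi'
        · exact hab hi'
        · exact absurd hi (lt_irrefl _)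
    · fin_cases i
      · exact ⟨tx.1, hxa'⟩
      · exact ⟨tz.1, hza'⟩
      · exact ⟨ty.1, hyb'⟩
    · rw [eq_top_iff, ← hgen]
      refine NonUnitalSubring.closure_mono ?_
      rintro u (hu | hu | hu | hu)
      · exact Or.inl hu
      · exact Or.inr ⟨0, hu.symm⟩
      · exact Or.inr ⟨2, hu.symm⟩
      · exact Or.inr ⟨1, hu.symm⟩

end Pool.Agent.CRP
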