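import Pool.Agent.CRP.Rlv
import Pool.Agent.CRP.Dcp
import Pool.Agent.CRM.Fou
import Pool.Agent.CRM.Bkl
import Pool.Agent.CRM.Dmk
import Pool.Agent.CRK.Cvm
import Pool.Agent.CRN.Cdd
import Pool.Agent.CRN.Pws

/-!
Campaign CRP, module Ltl: the rings of the type `LtL` are critical.
-/

set_option autoImplicit false

namespace Pool.Agent.CRP

open Pool.Agent.CRR Pool.Agent.CRN Pool.Agent.CRK Pool.Agent.CRL Pool.Agent.CRM

section

variable {R : Type} [NonUnitalRing R]

theorem Ltl_pwm (x : R) (a k : ℕ) : pw (pw x a) k = pw x ((a + 1) * (k + 1) - 1) := by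
  induction k with
  | zero =>
    show pw x a = _
    congr 1
    omega
  | succ k ih =>
    show pw (pw x a) k * pw x a = _
    rw [ih, Pws_mul]
    congr 1
    have h1 : (a + 1) * (k + 1 + 1) = (a + 1) * (k + 1) + (a + 1) := by ring
    have h2 : 0 < (a + 1) * (k + 1) := Nat.mul_pos (by omega) (by omega)
    omega

theorem Ltl_swap (x : R) (a k : ℕ) : pw (pw x a) k = pw (pw x k) a := by
  rw [Ltl_pwm, Ltl_pwm, Nat.mul_comm]

theorem Ltl_tp {t x : R} {a : ℕ} (h : x * t = pw t a * x) (k : ℕ) :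
    x * pw t k = pw (pw t k) a * x := by
  have h1 : ∀ k, x * pw t k = pw (pw t a) k * x := by
    intro k
    induction k with
    | zero => exact h
    | succ k ih =>
      show x * (pw t k * t) = pw (pw t a) k * pw t a * x
      rw [← mul_assoc, ih, mul_assoc, h, mul_assoc]
  rw [h1, Ltl_swap]

theorem Ltl_Lo {t x : R} (h : Lo t x) (k : ℕ) : Lo (pw t k) x :=
  ⟨h.1, Ltl_tp (a := 0) h.2 k⟩

theorem Ltl_Sm {t x y : R} (h : Sm t x y) (k : ℕ) : Sm (pw t k) x y := by
  obtain ⟨a, h1, h2⟩ := h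
  exact ⟨a, Ltl_tp h1 k, Ltl_tp h2 k⟩

theorem Ltl_Tt {t t' x : R} (h : Tt t x) {k l : ℕ} (h1 : t' = pw t k) (h2 : t = pw t' l) :
    Tt t' x := by
  obtain ⟨hx, ⟨a, ha⟩, hne⟩ := h
  refine ⟨hx, ⟨a, by rw [h1]; exact Ltl_tp ha k⟩, fun h3 => hne ?_⟩
  have h4 : x * pw t' l = pw t' l * x := Ltl_tp (a := 0) h3 l
  rw [← h2] at h4
  exact h4

theorem Ltl_Gx {n p N : ℕ} {e t t' : R} {v : ℕ} {a : ℕ → R} {x y : R}
    (h : Gx n p N e t v a x y) {k l : ℕ} (h1 : t' = pw t k) (h2 : t = pw t' l)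
    (hF : Lfr n p N e t') : Gx n p N e t' v a x y := by
  have hxy : y = x ∨ ¬ Sm t' x y := by
    refine h.xy.imp id fun h3 h4 => h3 ?_
    have h5 := Ltl_Sm h4 l
    rw [← h2] at h5
    exact h5
  refine ⟨hF, fun i hi => by rw [h1]; exact Ltl_Lo (h.lo i hi) k, Ltl_Tt h.tx h1 h2,
    Ltl_Tt h.ty h1 h2, hxy, ?_⟩
  rw [eq_top_iff, ← h.gen, NonUnitalSubring.closure_le]
  rintro z ((hz | hz) | hz)
  · rw [Set.mem_singleton_iff.1 hz]
    have h5 := Dmk_pw _ (NonUnitalSubring.subset_closure (s := {t'} ∪ {u | ∃ i, i < v ∧ u = a i}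
      ∪ {x, y}) (Or.inl (Or.inl (Set.mem_singleton t')))) l
    rw [← h2] at h5
    exact h5
  · exact NonUnitalSubring.subset_closure (Or.inl (Or.inr hz))
  · exact NonUnitalSubring.subset_closure (Or.inr hz)

theorem Ltl_upd (c : ℕ → R) (j : ℕ) (u v z : R) (l : ℕ) (hj : j < l) :
    pll (Function.update c j (u + v)) z l =
      pll (Function.update c j u) z l + pll (Function.update c j v) z l := by
  induction l with
  | zero => exact absurd hj (Nat.not_lt_zero j)
  | succ l ih =>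
    change Function.update c j (u + v) l * pll (Function.update c j (u + v)) z l =
      Function.update c j u l * pll (Function.update c j u) z l +
        Function.update c j v l * pll (Function.update c j v) z l
    by_cases h : j = l
    · subst h
      have e1 : ∀ w : R, pll (Function.update c j w) z j = pll c z j := fun w =>
        cdd_pll_congr j fun i hi => Function.update_of_ne (ne_of_lt hi) _ _
      rw [e1, e1, e1, Function.update_self, Function.update_self, Function.update_self, add_mul]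
    · rw [ih (by omega), Function.update_of_ne (Ne.symm h), Function.update_of_ne (Ne.symm h),
        Function.update_of_ne (Ne.symm h), mul_add]

theorem Ltl_mulr (c : ℕ → R) (z y : R) (l : ℕ) : pll c (z * y) l = pll c z l * y := by
  induction l with
  | zero => rfl
  | succ l ih =>
    show c l * pll c (z * y) l = c l * pll c z l * y
    rw [ih, mul_assoc]

theorem Ltl_Tt0 {t x : R} (h : Tt t x) : x ≠ 0 := by
  rintro rfl
  exact h.2.2 (by rw [zero_mul, mul_zero])

end

/-- the projections to the elements with a type -/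
theorem Ltl_phi {n p : ℕ} {R : Type} [NonUnitalRing R] [Finite R] (hC : Cy R n p) {e : R}
    (he : Prm R e) (hid : ∀ x, e * x = x ∧ x * e = x) {N : ℕ} (hN : 1 ≤ N) (hNp : N.Coprime p) :
    ∃ Φ : ℕ → R → R → R, (∀ t : R, Lfr n p N e t → ∀ x : R,
      (∀ j, j < N → Φ j t x * t = pw t j * Φ j t x) ∧
      (∀ j, j < N → x * t = pw t j * x → Φ j t x = x) ∧
      (∀ j j', j < N → j' < N → j ≠ j' → x * t = pw t j' * x → Φ j t x = 0) ∧
      ∀ I : AddSubgroup R, Idl R I → ∀ j, j < N → x ∈ I → Φ j t x ∈ I) ∧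
    (∀ j t x, Nl x → Nl (Φ j t x)) ∧ (∀ j t x y, Φ j t (x + y) = Φ j t x + Φ j t y) ∧
    (∀ (S : NonUnitalSubring R) j t x, t ∈ S → x ∈ S → Φ j t x ∈ S) ∧
    ∀ (j : ℕ) (ψ χ : (ℕ → R) → R), TmF ψ → TmF χ → TmF (fun v => Φ j (ψ v) (χ v)) := by
  obtain ⟨Φ, hΦ1, hΦ2, hΦ3, hΦ4, hΦ5⟩ := thm_Fou n p R hC e he hid N hN hNp
  obtain ⟨Ψ, hΨ1, -, hΨ3, -, hΨ5⟩ := thm_Foi n p R hC e he hid N hN hNp
  have hun : ∀ t, Lfr n p N e t → ∀ k, 0 < k → k < N → ∃ u, u * (pw t (k - 1) - e) = e :=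
    fun t ht k h1 h2 => (ht.un k h1 h2).imp fun _ h => h.1
  have hEq : ∀ t, Lfr n p N e t → ∀ j, j < N → ∀ x, Φ j t x = Ψ j t x := by
    intro t ht j hj x
    obtain ⟨a1, a2, a3⟩ := hΦ1 t ht.pn (hun t ht) x
    have h1 : Ψ j t x = ∑ i ∈ Finset.range N, Ψ j t (Φ i t x) := by
      conv_lhs => rw [a3]
      exact map_sum (AddMonoidHom.mk' (Ψ j t) (hΨ3 j t)) _ _
    rw [h1, Finset.sum_eq_single j]
    · exact ((hΨ1 t ht.pn (hun t ht) _).2.1 j hj (a1 j hj)).symm
    · intro i hi hij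
      exact (hΨ1 t ht.pn (hun t ht) _).2.2.1 j i hj (Finset.mem_range.1 hi) (Ne.symm hij)
        (a1 i (Finset.mem_range.1 hi))
    · intro h
      exact absurd (Finset.mem_range.2 hj) h
  refine ⟨Φ, fun t ht x => ⟨(hΦ1 t ht.pn (hun t ht) x).1, (hΦ1 t ht.pn (hun t ht) x).2.1, ?_, ?_⟩,
    hΦ2, hΦ3, hΦ4, hΦ5⟩
  · intro j j' hj hj' hjj' hx
    rw [hEq t ht j hj]
    exact (hΨ1 t ht.pn (hun t ht) x).2.2.1 j j' hj hj' hjj' hx
  · intro I hI j hj hx
    rw [hEq t ht j hj]
    exact hΨ5 I hI j t x hx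

section

variable {n p N : ℕ} {R : Type} [NonUnitalRing R] [Finite R] {e t : R}

theorem Ltl_pll (hTyp : St_Typ) (hRlz : St_Rlz) (hF : Lfr n p N e t) {c : ℕ → R} {v : ℕ}
    (hc : ∀ i, i < v → Lo t (c i)) {z : R} (hz : z = 0 ∨ Tt t z) :
    ∀ l, l ≤ v → pll c z l = 0 ∨ Tt t (pll c z l) := by
  obtain ⟨q1, -⟩ := thm_Rlv hTyp hRlz n p N R e t hF
  intro l
  induction l with
  | zero => exact fun _ => hz
  | succ l ih =>
    intro hl
    show c l * pll c z l = 0 ∨ Tt t (c l * pll c z l)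
    rcases ih (by omega) with h | h
    · left
      rw [h, mul_zero]
    · exact (q1 (c l) _ (hc l (by omega)) h).1

theorem Ltl_alt (hTyp : St_Typ) (hRlz : St_Rlz) (hF : Lfr n p N e t) {c : ℕ → R} {v : ℕ}
    (hc : ∀ i, i < v → Lo t (c i)) {z : R} (hz : z = 0 ∨ Tt t z) {i j : ℕ} (hij : i < j)
    (hj : j < v) {w : R} (hcj : c j = w * c i) : pll c z v = 0 := by
  obtain ⟨-, -, r3, -⟩ := hRlz n p N R e t hF
  have hP := Ltl_pll hTyp hRlz hF hc hz
  have h1 : ∀ l, i + 1 ≤ l → l ≤ v → c j * pll c z l = 0 := by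
    intro l hl
    induction l, hl using Nat.le_induction with
    | base =>
      intro _
      show c j * (c i * pll c z i) = 0
      rcases hP i (by omega) with h | h
      · rw [h, mul_zero, mul_zero]
      · have h2 := (r3 (c i) (c i) _ (hc i (by omega)) (hc i (by omega)) h).2
        rw [hcj, mul_assoc, ← mul_assoc (c i) (c i), h2, mul_zero]
    | succ l hl ih =>
      intro hl'
      show c j * (c l * pll c z l) = 0
      rcases hP l (by omega) with h | h
      · rw [h, mul_zero, mul_zero]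
      · have h2 := (r3 (c j) (c l) _ (hc j hj) (hc l (by omega)) h).1
        rw [mul_assoc, mul_assoc, ih (by omega), mul_zero, add_zero] at h2
        exact h2
  have h2 : ∀ l, j + 1 ≤ l → pll c z l = 0 := by
    intro l hl
    induction l, hl using Nat.le_induction with
    | base => exact h1 j (by omega) (by omega)
    | succ l hl ih =>
      show c l * pll c z l = 0
      rw [ih, mul_zero]
  exact h2 v (by omega)

/-- the restriction to the generators of the same type -/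
theorem Ltl_flt {Φ : ℕ → R → R → R}
    (hΦ : ∀ x : R, (∀ j, j < N → Φ j t x * t = pw t j * Φ j t x) ∧
      (∀ j, j < N → x * t = pw t j * x → Φ j t x = x) ∧
      (∀ j j', j < N → j' < N → j ≠ j' → x * t = pw t j' * x → Φ j t x = 0) ∧
      ∀ I : AddSubgroup R, Idl R I → ∀ j, j < N → x ∈ I → Φ j t x ∈ I)
    (hadd : ∀ j t x y, Φ j t (x + y) = Φ j t x + Φ j t y) (hKI : Idl R (KJ R p))
    {g : ℕ} {a : Fin g → ℕ} (haN : ∀ i, a i < N) {X : Fin g → R}
    (hX : ∀ i, X i * t = pw t (a i) * X i) {j : Fin g} (hj : X j ∈ Mj p t X j) :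
    X j ∈ KJ R p ⊔ AddSubgroup.closure {w | ∃ i, i < j ∧ a i = a j ∧
      ∃ u ∈ NonUnitalSubring.closure ({t} : Set R), w = u * X i} := by
  let F : R →+ R := AddMonoidHom.mk' (Φ (a j) t) (hadd (a j) t)
  have hFx : ∀ z, F z = Φ (a j) t z := fun _ => rfl
  obtain ⟨T, hT⟩ : ∃ T : AddSubgroup R, T = KJ R p ⊔ AddSubgroup.closure {w | ∃ i, i < j ∧
      a i = a j ∧ ∃ u ∈ NonUnitalSubring.closure ({t} : Set R), w = u * X i} := ⟨_, rfl⟩
  rw [← hT]
  have h1 : Mj p t X j ≤ T.comap F := by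
    unfold Mj
    refine sup_le ?_ ?_
    · intro κ hκ
      show F κ ∈ T
      rw [hT]
      exact AddSubgroup.mem_sup_left ((hΦ κ).2.2.2 _ hKI _ (haN j) hκ)
    · rw [AddSubgroup.closure_le]
      rintro w ⟨i, hij, u, hu, rfl⟩
      show F (u * X i) ∈ T
      rw [hT]
      have h4 : u * X i * t = pw t (a i) * (u * X i) := by
        rw [mul_assoc, hX i, ← mul_assoc, Dcp_com hu, mul_assoc]
      by_cases h : a i = a j
      · rw [hFx, (hΦ _).2.1 _ (haN j) (by rw [← h]; exact h4)]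
        exact AddSubgroup.mem_sup_right (AddSubgroup.subset_closure ⟨i, hij, h, u, hu, rfl⟩)
      · rw [hFx, (hΦ _).2.2.1 _ _ (haN j) (haN i) (fun h5 => h h5.symm) h4]
        exact zero_mem _
  have h2 := h1 hj
  have h3 : F (X j) = X j := (hΦ _).2.1 _ (haN j) (hX j)
  rw [← h3]
  exact h2

theorem Ltl_loop (hTyp : St_Typ) (hRlz : St_Rlz) (hLll : St_Lll) {v k : ℕ} {a : ℕ → R} {x y : R}
    (hG : Gx n p N e t v a x y) {H : AddSubgroup R} (hH : Lst R H)
    (hval : p ^ k • pll a (x * y) v ∈ H)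
    (hk0 : k = 0 → ∀ i, i < v → pll (Function.update a i (p • e)) (x * y) v = 0)
    {c : ℕ → R} (hc : ∀ i, i < v → Lo t (c i)) {x' y' : R} (hx' : Nl x') (hxx : Sm t x x')
    (hy' : Nl y') (hyy : Sm t y y') {j : ℕ} (hj : j < v)
    (hs : c j ∈ KJ R p ⊔ AddSubgroup.closure {w | ∃ i, i < j ∧
      ∃ u ∈ NonUnitalSubring.closure ({t} : Set R), w = u * c i}) :
    p ^ k • pll c (x' * y') v = 0 := by
  obtain ⟨-, -, -, -, -, t6, -, t8, -⟩ := hTyp n p N R e t hG.fr
  obtain ⟨J, hJ, hJn⟩ := CRL.jil n hG.fr.cy.n4 R hG.fr.cy.inM hG.fr.cy.nt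
  obtain ⟨κ, hκ, s, hs', hκs⟩ := AddSubgroup.mem_sup.1 hs
  have hz : x' = 0 ∨ Tt t x' := by
    by_cases h0 : x' = 0
    · exact Or.inl h0
    · right
      obtain ⟨m, hm1, hm2⟩ := hxx
      refine ⟨hx', ⟨m, hm2⟩, fun h => ?_⟩
      have h1 := (t6 x' m hm2 h0).1 h
      exact hG.tx.2.2 ((t6 x m hm1 (Ltl_Tt0 hG.tx)).2 h1)
  let F : R →+ R := AddMonoidHom.mk' (fun s => pll (Function.update c j s) (x' * y') v)
    fun u w => Ltl_upd c j u w _ v hj
  have hFx : ∀ s, F s = pll (Function.update c j s) (x' * y') v := fun _ => rfl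
  have hlo : ∀ s, Lo t s → ∀ i, i < v → Lo t (Function.update c j s i) := by
    intro s hs i hi
    by_cases h : i = j
    · rw [h, Function.update_self]
      exact hs
    · rw [Function.update_of_ne h]
      exact hc i hi
  have h1 : Lo t s ∧ F s = 0 := by
    clear hκs hs
    induction hs' using AddSubgroup.closure_induction with
    | mem w hw =>
      obtain ⟨i, hi, u, hu, rfl⟩ := hw
      have hLo : Lo t (u * c i) := by
        refine ⟨(hJn _).1 (hJ u _ ((hJn _).2 (hc i (by omega)).1)).1, ?_⟩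
        have hu0 : u * t = t * u := Dcp_com hu 0
        rw [mul_assoc, (hc i (by omega)).2, ← mul_assoc, hu0, mul_assoc]
      refine ⟨hLo, ?_⟩
      rw [hFx, Ltl_mulr]
      have h2 : pll (Function.update c j (u * c i)) x' v = 0 := by
        refine Ltl_alt hTyp hRlz hG.fr (hlo _ hLo) hz hi hj (w := u) ?_
        rw [Function.update_self, Function.update_of_ne (ne_of_lt hi)]
      rw [h2, zero_mul]
    | zero => exact ⟨⟨(hJn _).1 (zero_mem _), by rw [zero_mul, mul_zero]⟩, map_zero F⟩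
    | add a b _ _ ha hb =>
      exact ⟨(t8 a b ha.1 hb.1).2, by rw [map_add, ha.2, hb.2, add_zero]⟩
    | neg a _ ha =>
      exact ⟨⟨(hJn _).1 (neg_mem ((hJn _).2 ha.1.1)), by rw [neg_mul, mul_neg, ha.1.2]⟩,
        by rw [map_neg, ha.2, neg_zero]⟩
  have hκ' : κ = c j + -s := by
    rw [← hκs]
    abel
  have hκL : Lo t κ := by
    rw [hκ']
    refine (t8 _ _ (hc j hj) ⟨(hJn _).1 (neg_mem ((hJn _).2 h1.1.1)), ?_⟩).2
    rw [neg_mul, mul_neg, h1.1.2]
  have h2 : p ^ k • F κ = 0 := by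
    refine (hLll n p N R e t v k a x y hG H hH hval hk0 v (Function.update c j κ) x' y'
      (hlo κ hκL) hx' hxx hy' hyy).2.2 rfl (Or.inl ⟨j, hj, ?_⟩)
    rw [Function.update_self]
    exact hκ
  have h3 : F (c j) = F κ := by
    rw [← hκs, map_add, h1.2, add_zero]
  have h4 : F (c j) = pll c (x' * y') v := by
    rw [hFx, Function.update_eq_self]
  rw [← h4, h3, h2]

end

theorem Ltl_main (hTyp : St_Typ) (hRlz : St_Rlz) (hCjl : St_Cjl) (hLll : St_Lll) {n p N : ℕ}
    {R : Type} [NonUnitalRing R] [Finite R] {e t : R}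
    (hfr : ∀ t' : R, Frame R n 1 (fun _ => t') → Lfr n p N e t')
    {v k : ℕ} {a : ℕ → R} {x y : R} (hG : Gx n p N e t v a x y) {H : AddSubgroup R}
    (hH : Lst R H) (hval : p ^ k • pll a (x * y) v ∈ H) (hne : p ^ k • pll a (x * y) v ≠ 0)
    (hk0 : k = 0 → ∀ i, i < v → pll (Function.update a i (p • e)) (x * y) v = 0)
    {c d τ : ℕ} (hcN : c < N) (hdN : d < N) (hc0 : c ≠ 0) (hd0 : d ≠ 0)
    (hxc : x * t = pw t c * x) (hyd : y * t = pw t d * y) (hvτ : v ≤ τ) (hτv : τ ≤ v + 1)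
    (h1 : τ = v → d = c ∧ y = x) (h2 : τ ≠ v → d ≠ c) : Critical R := by
  obtain ⟨Φ, hΦ1, hΦ2, hΦ3, hΦ4, hΦ5⟩ :=
    Ltl_phi hG.fr.cy hG.fr.prm hG.fr.one hG.fr.n1 hG.fr.np
  obtain ⟨tp, htp⟩ : ∃ tp : ℕ → ℕ, ∀ i, tp i = if i < v then 0 else if i = v then c else d :=
    ⟨_, fun _ => rfl⟩
  obtain ⟨A, hA⟩ : ∃ A : ℕ → R, ∀ i, A i = if i < v then a i else if i = v then x else y :=
    ⟨_, fun _ => rfl⟩
  have tpv : tp v = c := by rw [htp, if_neg (lt_irrefl v), if_pos rfl]
  have tpt : tp τ = d := by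
    by_cases h : τ = v
    · rw [h, tpv, (h1 h).1]
    · rw [htp, if_neg (by omega), if_neg h]
  have tpl : ∀ i, i < v → tp i = 0 := fun i hi => by rw [htp, if_pos hi]
  have tpN : ∀ i, tp i < N := by
    intro i
    rw [htp]
    have := hG.fr.n1
    split_ifs <;> omega
  have Av : A v = x := by rw [hA, if_neg (lt_irrefl v), if_pos rfl]
  have At : A τ = y := by
    by_cases h : τ = v
    · rw [h, Av, (h1 h).2]
    · rw [hA, if_neg (by omega), if_neg h]
  have Al : ∀ i, i < v → A i = a i := fun i hi => by rw [hA, if_pos hi]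
  have ANl : ∀ i, Nl (A i) := by
    intro i
    rw [hA]
    split_ifs with h3 h4
    · exact (hG.lo i h3).1
    · exact hG.tx.1
    · exact hG.ty.1
  have Atp : ∀ t', (∃ k, t' = pw t k) → ∀ i, A i * t' = pw t' (tp i) * A i := by
    rintro t' ⟨k, rfl⟩ i
    refine Ltl_tp ?_ k
    rw [hA, htp]
    split_ifs with h3 h4
    · exact (hG.lo i h3).2
    · exact hxc
    · exact hyd
  have hsep : ∀ i j, i < j → v ≤ j → j ≤ τ → tp i ≠ tp j := by
    intro i j hij hvj hjt
    rcases Nat.lt_or_ge i v with h3 | h3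
    · rw [tpl i h3]
      rcases Nat.eq_or_lt_of_le hvj with h4 | h4
      · rw [← h4, tpv]
        exact Ne.symm hc0
      · have h5 : j = τ := by omega
        rw [h5, tpt]
        exact Ne.symm hd0
    · have h4 : i = v := by omega
      have h5 : j = τ := by omega
      rw [h4, h5, tpv, tpt]
      exact Ne.symm (h2 (by omega))
  obtain ⟨φ, hφ⟩ : ∃ φ : (ℕ → R) → R, ∀ u, φ u = p ^ k • pll (fun i => Φ 0 (u 0) (u (1 + i)))
      (Φ c (u 0) (u (1 + v)) * Φ d (u 0) (u (1 + τ))) v := ⟨_, fun _ => rfl⟩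
  obtain ⟨J, hJ, hJn⟩ := CRL.jil n hG.fr.cy.n4 R hG.fr.cy.inM hG.fr.cy.nt
  have hKI := Dmk_kj p hJ hJn
  have h0N : 0 < N := hG.fr.n1
  have hvec : ∀ u : ℕ → R, Vec n 1 (τ + 1) u → Frame R n 1 (fun _ => u 0) := by
    intro u hu
    have h3 : (fun i : Fin 1 => u i) = fun _ => u 0 := by
      funext i
      rw [Subsingleton.elim i 0]
      rfl
    have h4 := hu.1
    rwa [h3] at h4
  obtain ⟨q, -, hq, -⟩ := thm_Dmk thm_Tyn (thm_Kjf thm_Tyn) n p R hG.fr.cy e hG.fr.prm hG.fr.one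
  have hGz : Gz n 1 (τ + 1) H φ := by
    refine hCjl n p N R e t hG.fr H hH (τ + 1) φ ?_ ?_ ?_ ?_
    · have h3 : φ = fun u => p ^ k • pll (fun i => Φ 0 (u 0) (u (1 + i)))
          (Φ c (u 0) (u (1 + v)) * Φ d (u 0) (u (1 + τ))) v := funext hφ
      rw [h3]
      exact Cvm_tmf_nsmul (cdd_TmF_pll (x := fun i u => Φ 0 (u 0) (u (1 + i)))
        ((hΦ5 _ _ _ (TmF.var 0) (TmF.var (1 + v))).mul (hΦ5 _ _ _ (TmF.var 0) (TmF.var (1 + τ))))
        (fun l => hΦ5 _ _ _ (TmF.var 0) (TmF.var (1 + l))) v) (p ^ k)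
    · intro u u' huu
      rw [hφ, hφ, huu 0 (by omega), huu (1 + v) (by omega), huu (1 + τ) (by omega)]
      congr 1
      refine cdd_pll_congr v fun l hl => ?_
      rw [huu (1 + l) (by omega)]
    · rintro u hu ⟨k₁, hk₁⟩ ⟨k₂, hk₂⟩
      obtain ⟨t', ht'⟩ : ∃ t', t' = u 0 := ⟨_, rfl⟩
      rw [← ht'] at hk₁ hk₂
      have hF' : Lfr n p N e t' := by
        rw [ht']
        exact hfr _ (hvec u hu)
      have hG' := Ltl_Gx hG hk₁ hk₂ hF'
      obtain ⟨X, hX⟩ : ∃ X : ℕ → R, ∀ i, X i = Φ (tp i) t' (u (1 + i)) := ⟨_, fun _ => rfl⟩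
      have XNl : ∀ i, i ≤ τ → Nl (X i) := by
        intro i hi
        rw [hX]
        exact hΦ2 _ _ _ (hu.2 i (by omega))
      have Xtp : ∀ i, X i * t' = pw t' (tp i) * X i := by
        intro i
        rw [hX]
        exact (hΦ1 t' hF' _).1 _ (tpN i)
      have XLo : ∀ i, i < v → Lo t' (X i) := by
        intro i hi
        have h3 := Xtp i
        rw [tpl i hi] at h3
        exact ⟨XNl i (by omega), h3⟩
      have hx' : x * t' = pw t' c * x := by
        rw [hk₁]
        exact Ltl_tp hxc k₁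
      have hy' : y * t' = pw t' d * y := by
        rw [hk₁]
        exact Ltl_tp hyd k₁
      have hxx : Sm t' x (X v) := ⟨c, hx', by rw [← tpv]; exact Xtp v⟩
      have hyy : Sm t' y (X τ) := ⟨d, hy', by rw [← tpt]; exact Xtp τ⟩
      have hφu : φ u = p ^ k • pll X (X v * X τ) v := by
        rw [hφ, hX v, hX τ, tpv, tpt, ← ht']
        congr 1
        refine cdd_pll_congr v fun l hl => ?_
        rw [hX, tpl l hl]
      obtain ⟨-, l2, l3⟩ := hLll n p N R e t' v k a x y hG' H hH hval hk0 v X (X v) (X τ) XLo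
        (XNl v hvτ) hxx (XNl τ le_rfl) hyy
      refine ⟨by rw [hφu]; exact l2 rfl, ?_⟩
      intro S hS huS
      rw [hφu]
      have hTX : Ty n (fun i : Fin (τ + 1) => tp i) t' (fun i : Fin (τ + 1) => X i) :=
        ⟨hF'.fr, fun i => ⟨XNl i (by omega), Xtp i⟩⟩
      have hTA : Ty n (fun i : Fin (τ + 1) => tp i) t' (fun i : Fin (τ + 1) => A i) :=
        ⟨hF'.fr, fun i => ⟨ANl i, Atp t' ⟨k₁, hk₁⟩ i⟩⟩
      have hgA : NonUnitalSubring.closure ({t'} ∪ Set.range (fun i : Fin (τ + 1) => A i)) = ⊤ := by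
        rw [eq_top_iff, ← hG'.gen, NonUnitalSubring.closure_le]
        have hmem : ∀ i, i ≤ τ → A i ∈ NonUnitalSubring.closure
            ({t'} ∪ Set.range (fun i : Fin (τ + 1) => A i)) := fun i hi =>
          NonUnitalSubring.subset_closure (Or.inr ⟨⟨i, by omega⟩, rfl⟩)
        rintro z ((hz | ⟨i, hi, rfl⟩) | hz)
        · exact NonUnitalSubring.subset_closure (Or.inl hz)
        · have h3 := hmem i (by omega)
          rw [Al i hi] at h3
          exact h3
        · rcases hz with rfl | hz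
          · have h3 := hmem v hvτ
            rw [Av] at h3
            exact h3
          · rw [Set.mem_singleton_iff.1 hz]
            have h3 := hmem τ le_rfl
            rw [At] at h3
            exact h3
      have hcard := (hq (τ + 1) _ t' _ hTA).1 hgA
      have hnt : NonUnitalSubring.closure ({t'} ∪ Set.range (fun i : Fin (τ + 1) => X i)) ≠ ⊤ := by
        intro htop
        apply hS
        rw [eq_top_iff, ← htop, NonUnitalSubring.closure_le]
        have ht0 : t' ∈ S := by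
          rw [ht']
          exact huS 0 (by omega)
        rintro z (hz | ⟨i, rfl⟩)
        · rw [Set.mem_singleton_iff.1 hz]
          exact ht0
        · show X i ∈ S
          rw [hX]
          exact hΦ4 S _ _ _ ht0 (huS _ (by omega))
      obtain ⟨j, hj⟩ : ∃ j : Fin (τ + 1), X j ∈ Mj p t' (fun i : Fin (τ + 1) => X i) j := by
        by_contra hno
        exact hnt (((hq (τ + 1) _ t' _ hTX).2 (not_exists.1 hno)).2 hcard)
      have hj' := Ltl_flt (a := fun i : Fin (τ + 1) => tp i) (hΦ1 t' hF') hΦ3 hKI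
        (fun i => tpN i) (fun i => Xtp i) hj
      rcases Nat.lt_or_ge (j : ℕ) v with hjv | hjv
      · refine Ltl_loop hTyp hRlz hLll hG' hH hval hk0 XLo (XNl v hvτ) hxx (XNl τ le_rfl) hyy
          hjv ?_
        refine (sup_le_sup_left (AddSubgroup.closure_mono ?_) _) hj'
        rintro w ⟨i, hij, -, u, hu, rfl⟩
        exact ⟨i, hij, u, hu, rfl⟩
      · have hKJ : X j ∈ KJ R p := by
          have h3 : {w | ∃ i : Fin (τ + 1), i < j ∧ tp i = tp j ∧
              ∃ u ∈ NonUnitalSubring.closure ({t'} : Set R), w = u * X i} = ∅ := by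
            rw [Set.eq_empty_iff_forall_notMem]
            rintro w ⟨i, hij, htt, -⟩
            exact hsep i j hij hjv (by omega) htt
          rw [h3, AddSubgroup.closure_empty, sup_bot_eq] at hj'
          exact hj'
        have h4 : (j : ℕ) = v ∨ (j : ℕ) = τ := by omega
        refine l3 rfl (Or.inr ?_)
        rcases h4 with h4 | h4
        · left
          rw [← h4]
          exact hKJ
        · right
          rw [← h4]
          exact hKJ
    · refine ⟨fun i => if i = 0 then t else A (i - 1), ⟨?_, ?_⟩, ?_⟩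
      · have h3 : (fun i : Fin 1 => (fun i : ℕ => if i = 0 then t else A (i - 1)) (i : ℕ)) =
            fun _ => t := by
          funext i
          rw [Subsingleton.elim i 0]
          rfl
        rw [h3]
        exact hG.fr.fr
      · intro i _
        show Nl (if 1 + i = 0 then t else A (1 + i - 1))
        rw [if_neg (by omega)]
        exact ANl _
      · have h3 : ∀ i, (fun i : ℕ => if i = 0 then t else A (i - 1)) (1 + i) = A i := by
          intro i
          show (if 1 + i = 0 then t else A (1 + i - 1)) = A i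
          rw [if_neg (by omega)]
          congr 1
          omega
        have h4 : (fun i : ℕ => if i = 0 then t else A (i - 1)) 0 = t := rfl
        have h5 : ∀ i, Φ (tp i) t (A i) = A i := fun i =>
          (hΦ1 t hG.fr _).2.1 _ (tpN i) (Atp t ⟨0, rfl⟩ i)
        rw [hφ]
        have h6 : pll (fun i => Φ 0 ((fun i : ℕ => if i = 0 then t else A (i - 1)) 0)
            ((fun i : ℕ => if i = 0 then t else A (i - 1)) (1 + i)))
            (Φ c ((fun i : ℕ => if i = 0 then t else A (i - 1)) 0)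
              ((fun i : ℕ => if i = 0 then t else A (i - 1)) (1 + v)) *
            Φ d ((fun i : ℕ => if i = 0 then t else A (i - 1)) 0)
              ((fun i : ℕ => if i = 0 then t else A (i - 1)) (1 + τ))) v = pll a (x * y) v := by
          have h7 : Φ c t (A v) = x := by
            have := h5 v
            rw [tpv] at this
            rw [this, Av]
          have h8 : Φ d t (A τ) = y := by
            have := h5 τ
            rw [tpt] at this
            rw [this, At]
          rw [h3 v, h3 τ, h4, h7, h8]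
          refine cdd_pll_congr v fun l hl => ?_
          have := h5 l
          rw [tpl l hl, Al l hl] at this
          rw [h3 l, Al l hl]
          exact this
        rw [h6]
        exact hne
  exact thm_Bkl n p R hG.fr.cy e hG.fr.prm hG.fr.one H hH (τ + 1) φ hGz

/-- **LTL.** -/
theorem thm_Ltl (hLfx : St_Lfx) (hTyp : St_Typ) (hRlz : St_Rlz) (hCjl : St_Cjl)
    (hLll : St_Lll) : St_Ltl := by
  rintro n R _ _ hn hM hT ⟨p, e, t, H, v, k, a, x, y, hL, hlo, htx, hty, hxy, hval, hne, hk0,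
    hgen⟩
  have hC : Cy R n p := ⟨hn, hM, hT, hL.pp, hL.pr⟩
  obtain ⟨N, -, hfr⟩ := hLfx n p R hC e hL.prm hL.one
  have hF := hfr t hL.fr
  obtain ⟨-, -, t3, -⟩ := hTyp n p N R e t hF
  have hG : Gx n p N e t v a x y := ⟨hF, hlo, htx, hty, hxy, hgen⟩
  have htw : ∀ z, Tt t z → ∃ c, c < N ∧ c ≠ 0 ∧ z * t = pw t c * z := by
    rintro z ⟨-, ⟨m, hm⟩, hz⟩
    have h1 : z * t = pw t (m % N) * z := by
      rw [← t3 m (m % N) (Nat.mod_mod _ _).symm]
      exact hm
    refine ⟨m % N, Nat.mod_lt _ hF.n1, fun h0 => hz ?_, h1⟩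
    rw [h0] at h1
    exact h1
  obtain ⟨c, hcN, hc0, hxc⟩ := htw x htx
  rcases hxy with rfl | hxy
  · exact Ltl_main hTyp hRlz hCjl hLll hfr hG hL.lst hval hne hk0 hcN hcN hc0 hc0 hxc hxc
      (le_refl v) (by omega) (fun _ => ⟨rfl, rfl⟩) (fun h => absurd rfl h)
  · obtain ⟨d, hdN, hd0, hyd⟩ := htw y hty
    have hdc : d ≠ c := fun h => hxy ⟨c, hxc, by rw [← h]; exact hyd⟩
    exact Ltl_main hTyp hRlz hCjl hLll hfr hG hL.lst hval hne hk0 hcN hdN hc0 hd0 hxc hyd
      (Nat.le_succ v) (le_refl (v + 1)) (fun h => absurd h (by omega)) (fun _ => hdc)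

end Pool.Agent.CRP
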