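import Pool.Agent.CRP.St
import Pool.Agent.CRM.All
import Pool.Agent.CRL.All
import Pool.Agent.CRN.Cdd
import Pool.Agent.CRN.Pws

/-!
Campaign CRP, module Ltt: the rings of the type `LtT` are critical (problem MP_1bb14d_al).
-/

set_option autoImplicit false

namespace Pool.Agent.CRP

open Pool.Agent.CRR Pool.Agent.CRN Pool.Agent.CRK Pool.Agent.CRL Pool.Agent.CRM

section ltt

variable {R : Type} [NonUnitalRing R]

/-- The Fourier transform: a term function with the properties of `CRM.St_Foi`. -/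
theorem Ltt_phi (n p : ℕ) (R : Type) [NonUnitalRing R] [Finite R] (hC : Cy R n p) (e : R)
    (he : Prm R e) (hid : ∀ x, e * x = x ∧ x * e = x) (N : ℕ) (hN : 1 ≤ N) (hNp : N.Coprime p) :
    ∃ Φ : ℕ → R → R → R, (∀ t : R, pw t (N - 1) = e → (∀ k, 0 < k → k < N →
      ∃ u, u * (pw t (k - 1) - e) = e) → ∀ x : R,
      (∀ j, j < N → Φ j t x * t = pw t j * Φ j t x) ∧
      (∀ j, j < N → x * t = pw t j * x → Φ j t x = x) ∧
      (∀ j j', j < N → j' < N → j ≠ j' → x * t = pw t j' * x → Φ j t x = 0) ∧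
      x = ∑ j ∈ Finset.range N, Φ j t x ∧
      ∀ I : AddSubgroup R, Idl R I → ∀ j, j < N → x ∈ I → Φ j t x ∈ I) ∧
    (∀ j t x, Nl x → Nl (Φ j t x)) ∧ (∀ j t x y, Φ j t (x + y) = Φ j t x + Φ j t y) ∧
    (∀ (S : NonUnitalSubring R) j t x, t ∈ S → x ∈ S → Φ j t x ∈ S) ∧
    ∀ (j : ℕ) (ψ χ : (ℕ → R) → R), TmF ψ → TmF χ → TmF (fun v => Φ j (ψ v) (χ v)) := by
  obtain ⟨Φ, h1, h2, h3, h4, h5⟩ := thm_Fou n p R hC e he hid N hN hNp
  obtain ⟨Ψ, g1, -, g3, -, g5⟩ := thm_Foi n p R hC e he hid N hN hNp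
  have hsum : ∀ (t : R) (j : ℕ) (f : ℕ → R) (s : Finset ℕ),
      Ψ j t (∑ i ∈ s, f i) = ∑ i ∈ s, Ψ j t (f i) := by
    intro t j f s
    exact map_sum (AddMonoidHom.mk' (Ψ j t) (g3 j t)) f s
  have key : ∀ t : R, pw t (N - 1) = e → (∀ k, 0 < k → k < N →
      ∃ u, u * (pw t (k - 1) - e) = e) → ∀ (x : R) (j : ℕ), j < N → Φ j t x = Ψ j t x := by
    intro t ht hu x j hj
    obtain ⟨a1, -, a3⟩ := h1 t ht hu x
    have e1 : Ψ j t x = ∑ i ∈ Finset.range N, Ψ j t (Φ i t x) := by
      conv_lhs => rw [a3]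
      exact hsum t j _ _
    rw [e1, Finset.sum_eq_single_of_mem j (Finset.mem_range.2 hj)]
    · exact ((g1 t ht hu (Φ j t x)).2.1 j hj (a1 j hj)).symm
    · intro i hi hij
      rw [Finset.mem_range] at hi
      exact (g1 t ht hu (Φ i t x)).2.2.1 j i hj hi (Ne.symm hij) (a1 i hi)
  refine ⟨Φ, ?_, h2, h3, h4, h5⟩
  intro t ht hu x
  obtain ⟨a1, a2, a3⟩ := h1 t ht hu x
  refine ⟨a1, a2, ?_, a3, ?_⟩
  · intro j j' hj hj' hne hx
    rw [key t ht hu x j hj]
    exact (g1 t ht hu x).2.2.1 j j' hj hj' hne hx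
  · intro I hI j hj hx
    rw [key t ht hu x j hj]
    exact g5 I hI j t x hx

theorem Ltt_pwmul {x y : R} (h : x * y = y * x) (k : ℕ) : pw (x * y) k = pw x k * pw y k := by
  have h1 : ∀ k, pw y k * x = x * pw y k := by
    intro k
    induction k with
    | zero => exact h.symm
    | succ k ih =>
      show pw y k * y * x = x * (pw y k * y)
      rw [mul_assoc, ← h, ← mul_assoc, ih, mul_assoc]
  induction k with
  | zero => rfl
  | succ k ih =>
    show pw (x * y) k * (x * y) = pw x k * x * (pw y k * y)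
    rw [ih]
    calc pw x k * pw y k * (x * y) = pw x k * (pw y k * x) * y := by simp only [mul_assoc]
      _ = pw x k * x * (pw y k * y) := by rw [h1]; simp only [mul_assoc]

theorem Ltt_pwcomm (t : R) (i j : ℕ) : pw t i * pw t j = pw t j * pw t i := by
  rw [Pws_mul, Pws_mul, Nat.add_comm i j]

/-- The type does not change if `t` is replaced by a power. -/
theorem Ltt_type {t z : R} {c : ℕ} (h : z * t = pw t c * z) (k : ℕ) :
    z * pw t k = pw (pw t k) c * z := by
  induction k with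
  | zero => exact h
  | succ k ih =>
    show z * (pw t k * t) = pw (pw t k * t) c * z
    have h1 : pw t k * t = t * pw t k := Ltt_pwcomm t k 0
    rw [Ltt_pwmul h1, ← mul_assoc, ih, mul_assoc, h, ← mul_assoc]

theorem Ltt_comm {t x : R} (h : x * t = t * x) (k : ℕ) : x * pw t k = pw t k * x := by
  induction k with
  | zero => exact h
  | succ k ih =>
    show x * (pw t k * t) = pw t k * t * x
    rw [← mul_assoc, ih, mul_assoc, h, mul_assoc]

theorem Ltt_lo {t t' x : R} (h : Lo t x) (k : ℕ) (ht : t' = pw t k) : Lo t' x := by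
  refine ⟨h.1, ?_⟩
  rw [ht]
  exact Ltt_comm h.2 k

/-- `pll` is zero if a loop is repeated. -/
theorem Ltt_rep {t : R} {P : R → Prop} (hP : ∀ x w, Lo t x → P w → P (x * w))
    (h1 : ∀ x w, Lo t x → P w → x * (x * w) = 0)
    (h2 : ∀ x y w, Lo t x → Lo t y → P w → x * (y * w) = -(y * (x * w)))
    (y : ℕ → R) (w : R) (hw : P w) : ∀ m : ℕ, (∀ i, i < m → Lo t (y i)) →
    P (pll y w m) ∧ ∀ i, i < m → y i * pll y w m = 0 := by
  intro m
  induction m with
  | zero => exact fun _ => ⟨hw, fun i hi => absurd hi (Nat.not_lt_zero i)⟩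
  | succ m ih =>
    intro hy
    obtain ⟨a1, a2⟩ := ih fun i hi => hy i (by omega)
    refine ⟨hP _ _ (hy m (by omega)) a1, ?_⟩
    intro i hi
    show y i * (y m * pll y w m) = 0
    rcases Nat.lt_succ_iff_lt_or_eq.1 hi with h | h
    · rw [h2 _ _ _ (hy i hi) (hy m (by omega)) a1, a2 i h, mul_zero, neg_zero]
    · rw [h]
      exact h1 _ _ (hy m (by omega)) a1

theorem Ltt_above (y : ℕ → R) (w : R) {m s : ℕ} (hms : m ≤ s) (h : pll y w m = 0) :
    pll y w s = 0 := by
  induction s, hms using Nat.le_induction with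
  | base => exact h
  | succ s _ ih =>
    show y s * pll y w s = 0
    rw [ih, mul_zero]

/-- The types of the loops and of the twisted element. -/
def Ltt_a (v c : ℕ) : Fin (v + 1) → ℕ := fun i => if (i : ℕ) < v then 0 else c

/-- The loops and the twisted element. -/
def Ltt_x (v : ℕ) (y : ℕ → R) (w : R) : Fin (v + 1) → R := fun i => if (i : ℕ) < v then y i else w

omit [NonUnitalRing R] in
theorem Ltt_x_lt {v : ℕ} (y : ℕ → R) (w : R) (i : Fin (v + 1)) (h : (i : ℕ) < v) :
    Ltt_x v y w i = y i := by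
  unfold Ltt_x
  rw [if_pos h]

omit [NonUnitalRing R] in
theorem Ltt_x_ge {v : ℕ} (y : ℕ → R) (w : R) (i : Fin (v + 1)) (h : ¬ (i : ℕ) < v) :
    Ltt_x v y w i = w := by
  unfold Ltt_x
  rw [if_neg h]

theorem Ltt_ty {n v c : ℕ} {t : R} {y : ℕ → R} {w : R} (hF : Frame R n 1 (fun _ => t))
    (hy : ∀ i, i < v → Lo t (y i)) (hw : Nl w) (hw' : w * t = pw t c * w) :
    Ty n (Ltt_a v c) t (Ltt_x v y w) := by
  refine ⟨hF, fun i => ?_⟩
  unfold Ltt_a
  by_cases h : (i : ℕ) < v
  · rw [Ltt_x_lt y w i h, if_pos h]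
    exact hy i h
  · rw [Ltt_x_ge y w i h, if_neg h]
    exact ⟨hw, hw'⟩

/-- One of the elements is in the group of the previous ones. -/
theorem Ltt_mj (n p : ℕ) (R : Type) [NonUnitalRing R] [Finite R] (hC : Cy R n p) (e : R)
    (he : Prm R e) (hid : ∀ x, e * x = x ∧ x * e = x) (g : ℕ) (a a' : Fin g → ℕ) (t t' : R)
    (x x' : Fin g → R) (hx : Ty n a t x) (hx' : Ty n a' t' x')
    (htop : NonUnitalSubring.closure ({t} ∪ Set.range x) = ⊤) (S : NonUnitalSubring R)
    (hS : S ≠ ⊤) (ht' : t' ∈ S) (hxS : ∀ i, x' i ∈ S) : ∃ j, x' j ∈ Mj p t' x' j := by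
  obtain ⟨q, -, hq, -⟩ := dmk n p R hC e he hid
  by_contra hno
  push Not at hno
  apply hS
  rw [eq_top_iff, ← ((hq g a' t' x' hx').2 hno).2 ((hq g a t x hx).1 htop)]
  refine NonUnitalSubring.closure_le.2 ?_
  rintro z (hz | ⟨i, rfl⟩)
  · rw [Set.mem_singleton_iff.1 hz]
    exact ht'
  · exact hxS i

end ltt

/-- **LTT.** -/
theorem thm_Ltt (hLfx : St_Lfx) (hTyp : St_Typ) (hRlz : St_Rlz) (hCjl : St_Cjl)
    (hLlt : St_Llt) : St_Ltt := by
  intro n R _ _ hn hM hT hL
  obtain ⟨p, e, t, H, v, k, a, z, hX, hlo, htz, hH, hne, hk0, hgen⟩ := hL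
  have hC : Cy R n p := ⟨hn, hM, hT, hX.pp, hX.pr⟩
  obtain ⟨N, -, hfr⟩ := hLfx n p R hC e hX.prm hX.one
  have hFt : Lfr n p N e t := hfr t hX.fr
  obtain ⟨J, hJ, hJn⟩ := CRL.jil n hn R hM hT
  have hN : 1 ≤ N := hFt.n1
  obtain ⟨Φ, f1, f2, f3, f4, f5⟩ := Ltt_phi n p R hC e hX.prm hX.one N hN hFt.np
  have hΦ : ∀ t' : R, Lfr n p N e t' → ∀ x : R,
      (∀ j, j < N → Φ j t' x * t' = pw t' j * Φ j t' x) ∧
      (∀ j, j < N → x * t' = pw t' j * x → Φ j t' x = x) ∧
      (∀ j j', j < N → j' < N → j ≠ j' → x * t' = pw t' j' * x → Φ j t' x = 0) ∧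
      x = ∑ j ∈ Finset.range N, Φ j t' x ∧
      ∀ I : AddSubgroup R, Idl R I → ∀ j, j < N → x ∈ I → Φ j t' x ∈ I := by
    intro t' ht' x
    refine f1 t' ht'.pn (fun k hk hkN => ?_) x
    obtain ⟨u, hu, -⟩ := ht'.un k hk hkN
    exact ⟨u, hu⟩
  -- the type of z
  obtain ⟨c₁, hc₁⟩ := htz.2.1
  obtain ⟨c, hcN, hc⟩ : ∃ c, c < N ∧ ∀ t' : R, Lfr n p N e t' → pw t' c₁ = pw t' c :=
    ⟨c₁ % N, Nat.mod_lt _ hN, fun t' ht' =>
      (hTyp n p N R e t' ht').2.2.1 _ _ (Nat.mod_mod _ _).symm⟩
  have hzt : z * t = pw t c * z := by rw [← hc t hFt]; exact hc₁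
  have hc0 : c ≠ 0 := by
    rintro rfl
    exact htz.2.2 hzt
  have hcN0 : ¬ c % N = 0 := by rw [Nat.mod_eq_of_lt hcN]; exact hc0
  obtain ⟨-, hKJ⟩ := kjf n p R hC
  have hKJi : Idl R (KJ R p) := Dmk_kj p hJ hJn
  have hN0 : 0 < N := hN
  obtain ⟨φ, hφ⟩ : ∃ φ : (ℕ → R) → R, φ = fun w => p ^ k •
      pll (fun i => Φ 0 (w 0) (w (1 + i))) (Φ c (w 0) (w (1 + v))) v := ⟨_, rfl⟩
  have hφv : ∀ w : ℕ → R, φ w = p ^ k •
      pll (fun i => Φ 0 (w 0) (w (1 + i))) (Φ c (w 0) (w (1 + v))) v := fun w => by rw [hφ]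
  refine thm_Bkl n p R hC e hX.prm hX.one H hX.lst (v + 1) φ
    (hCjl n p N R e t hFt H hX.lst (v + 1) φ ?_ ?_ ?_ ?_)
  · rw [hφ]
    refine Fou_tm_smul (cdd_TmF_pll (x := fun l w => Φ 0 (w 0) (w (1 + l)))
      (f5 _ _ _ (TmF.var 0) (TmF.var (1 + v))) (fun l => f5 _ _ _ (TmF.var 0) (TmF.var (1 + l))) v) _
  · intro w w' hw
    rw [hφv, hφv, hw 0 (by omega), hw (1 + v) (by omega)]
    congr 1
    refine cdd_pll_congr v fun i hi => ?_
    show Φ 0 (w' 0) (w (1 + i)) = Φ 0 (w' 0) (w' (1 + i))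
    rw [hw (1 + i) (by omega)]
  · intro w hw hk1 hk2
    obtain ⟨k₁, hk₁⟩ := hk1
    obtain ⟨k₂, hk₂⟩ := hk2
    obtain ⟨t', ht'⟩ : ∃ t', t' = w 0 := ⟨_, rfl⟩
    have hfr' : Frame R n 1 (fun _ => t') := by
      have h1 : (fun i : Fin 1 => w i) = fun _ => t' := by
        funext i
        rw [Subsingleton.elim i 0, ht']
        rfl
      have h2 := hw.1
      rwa [h1] at h2
    have hFt' : Lfr n p N e t' := hfr t' hfr'
    rw [← ht'] at hk₁ hk₂
    have hzt' : z * t' = pw t' c * z := by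
      rw [hk₁]
      exact Ltt_type hzt k₁
    have htz' : Tt t' z := by
      refine ⟨htz.1, ⟨c, hzt'⟩, fun h => htz.2.2 ?_⟩
      rw [hk₂]
      exact Ltt_comm h k₂
    have hlo' : ∀ i, i < v → Lo t' (a i) := fun i hi => Ltt_lo (hlo i hi) k₁ hk₁
    have hG : Gx n p N e t' v a z z := by
      refine ⟨hFt', hlo', htz', htz', Or.inl rfl, ?_⟩
      rw [eq_top_iff, ← hgen]
      refine NonUnitalSubring.closure_le.2 ?_
      rintro x ((hx | ⟨i, hi, rfl⟩) | hx)
      · have h1 : t' ∈ NonUnitalSubring.closure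
            ({t'} ∪ {u | ∃ i, i < v ∧ u = a i} ∪ {z, z} : Set R) :=
          NonUnitalSubring.subset_closure (Or.inl (Or.inl rfl))
        rw [Set.mem_singleton_iff.1 hx]
        have h2 := Dmk_pw _ h1 k₂
        rwa [← hk₂] at h2
      · exact NonUnitalSubring.subset_closure (Or.inl (Or.inr ⟨i, hi, rfl⟩))
      · rw [Set.mem_singleton_iff.1 hx]
        exact NonUnitalSubring.subset_closure (Or.inr (Or.inl rfl))
    have hmain := hLlt n p N R e t' v k a z hG H hX.lst hH hk0
    -- the arguments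
    obtain ⟨y, hyd⟩ : ∃ y : ℕ → R, y = fun i => Φ 0 t' (w (1 + i)) := ⟨_, rfl⟩
    obtain ⟨x, hxd⟩ : ∃ x : R, x = Φ c t' (w (1 + v)) := ⟨_, rfl⟩
    have hφw : φ w = p ^ k • pll y x v := by rw [hφv, hyd, hxd, ht']
    have hylo : ∀ i, i < v → Lo t' (y i) := by
      intro i hi
      rw [hyd]
      exact ⟨f2 _ _ _ (hw.2 i (by omega)), (hΦ t' hFt' (w (1 + i))).1 0 hN0⟩
    have hxn : Nl x := by
      rw [hxd]
      exact f2 _ _ _ (hw.2 v (by omega))
    have hxt : x * t' = pw t' c * x := by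
      rw [hxd]
      exact (hΦ t' hFt' (w (1 + v))).1 c hcN
    have hsm : Sm t' z x := ⟨c, hzt', hxt⟩
    refine ⟨?_, ?_⟩
    · rw [hφw]
      exact (hmain v y x hylo hxn hsm).2.1 rfl
    · intro S hS hwS
      have ht'S : t' ∈ S := by rw [ht']; exact hwS 0 (by omega)
      have hyS : ∀ i, i < v → y i ∈ S := by
        intro i hi
        rw [hyd]
        exact f4 S _ _ _ ht'S (hwS (1 + i) (by omega))
      have hxS : x ∈ S := by
        rw [hxd]
        exact f4 S _ _ _ ht'S (hwS (1 + v) (by omega))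
      obtain ⟨j, hj⟩ := Ltt_mj n p R hC e hX.prm hX.one (v + 1) (Ltt_a v c) (Ltt_a v c) t t'
        (Ltt_x v a z) (Ltt_x v y x) (Ltt_ty hX.fr hlo htz.1 hzt) (Ltt_ty hfr' hylo hxn hxt)
        (by
          rw [eq_top_iff, ← hgen]
          refine NonUnitalSubring.closure_le.2 ?_
          rintro r ((hr | ⟨i, hi, rfl⟩) | hr)
          · exact NonUnitalSubring.subset_closure (Or.inl hr)
          · refine NonUnitalSubring.subset_closure (Or.inr ⟨⟨i, by omega⟩, ?_⟩)
            exact Ltt_x_lt a z _ hi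
          · refine NonUnitalSubring.subset_closure (Or.inr ⟨⟨v, by omega⟩, ?_⟩)
            rw [Set.mem_singleton_iff.1 hr]
            exact Ltt_x_ge a z _ (lt_irrefl v))
        S hS ht'S (by
          intro i
          by_cases h : (i : ℕ) < v
          · rw [Ltt_x_lt y x i h]
            exact hyS i h
          · rw [Ltt_x_ge y x i h]
            exact hxS)
      rw [hφw]
      have hWt : ∀ u ∈ NonUnitalSubring.closure ({t'} : Set R), u * t' = t' * u := by
        intro u hu
        induction hu using NonUnitalSubring.closure_induction with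
        | mem r hr => rw [Set.mem_singleton_iff.1 hr]
        | zero => rw [zero_mul, mul_zero]
        | add u u' _ _ h h' => rw [add_mul, mul_add, h, h']
        | neg u _ h => rw [neg_mul, mul_neg, h]
        | mul u u' _ _ h h' => rw [mul_assoc, h', ← mul_assoc, h, mul_assoc]
      by_cases hjv : (j : ℕ) < v
      · -- a loop
        rw [Ltt_x_lt y x j hjv] at hj
        obtain ⟨κ, hκ, s, hs, hsum⟩ := AddSubgroup.mem_sup.1 hj
        obtain ⟨ψ, hψ⟩ : ∃ ψ : R →+ R, ∀ r, ψ r = p ^ k • pll (Function.update y j r) x v := by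
          refine ⟨AddMonoidHom.mk' (fun r => p ^ k • pll (Function.update y j r) x v) ?_,
            fun _ => rfl⟩
          intro r r'
          show p ^ k • pll (Function.update y j (r + r')) x v = _
          rw [Cvl_pll_upd y j r r' x v hjv, smul_add]
        obtain ⟨-, -, -, -, -, t6, -, t8, -⟩ := hTyp n p N R e t' hFt'
        obtain ⟨-, -, r3, -⟩ := hRlz n p N R e t' hFt'
        have hPt : ∀ r : R, (Nl r ∧ r * t' = pw t' c * r) → r = 0 ∨ Tt t' r := by
          intro r hr
          by_cases h0 : r = 0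
          · exact Or.inl h0
          · exact Or.inr ⟨hr.1, ⟨c, hr.2⟩, fun h => hcN0 ((t6 r c hr.2 h0).1 h)⟩
        have hsZ : Lo t' s ∧ ψ s = 0 := by
          clear hsum
          induction hs using AddSubgroup.closure_induction with
          | mem r hr =>
            obtain ⟨i, hij, u, hu, rfl⟩ := hr
            have hij' : (i : ℕ) < j := hij
            have hiv : (i : ℕ) < v := by omega
            rw [Ltt_x_lt y x i hiv]
            refine ⟨⟨(hJn _).1 (hJ u _ ((hJn _).2 (hylo i hiv).1)).1, ?_⟩, ?_⟩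
            · rw [mul_assoc, (hylo i hiv).2, ← mul_assoc, hWt u hu, mul_assoc]
            · rw [hψ]
              have h1 := (Ltt_rep (t := t') (P := fun r => Nl r ∧ r * t' = pw t' c * r)
                (fun l r hl hr => ⟨(hJn _).1 (hJ l _ ((hJn _).2 hr.1)).1, by
                  rw [mul_assoc, hr.2, ← mul_assoc, Ltt_comm hl.2, mul_assoc]⟩)
                (fun l r hl hr => by
                  rcases hPt r hr with h0 | h0
                  · rw [h0, mul_zero, mul_zero]
                  · rw [← mul_assoc]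
                    exact (r3 l l r hl hl h0).2)
                (fun l l' r hl hl' hr => by
                  rcases hPt r hr with h0 | h0
                  · rw [h0]
                    simp
                  · rw [← mul_assoc, ← mul_assoc]
                    exact eq_neg_of_add_eq_zero_left (r3 l l' r hl hl' h0).1)
                y x ⟨hxn, hxt⟩ (j : ℕ) (fun i hi => hylo i (by omega))).2 i hij'
              rw [Ltt_above _ x (m := (j : ℕ) + 1) (s := v) (by omega), smul_zero]
              show Function.update y (j : ℕ) (u * y i) j * pll (Function.update y (j : ℕ) (u * y i)) x j = 0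
              rw [Function.update_self, cdd_pll_congr (a := Function.update y (j : ℕ) (u * y i)) (b := y)
                (j : ℕ) (fun l hl => Function.update_of_ne (ne_of_lt hl) _ _), mul_assoc, h1, mul_zero]
          | zero =>
            refine ⟨⟨?_, by rw [zero_mul, mul_zero]⟩, map_zero ψ⟩
            show (0 : R) * 0 * 0 = 0
            rw [mul_zero]
          | add r r' _ _ h h' =>
            refine ⟨(t8 r r' h.1 h'.1).2, ?_⟩
            rw [map_add, h.2, h'.2, add_zero]
          | neg r _ h =>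
            refine ⟨⟨(hJn _).1 (J.neg_mem ((hJn _).2 h.1.1)), by rw [neg_mul, mul_neg, h.1.2]⟩, ?_⟩
            rw [map_neg, h.2, neg_zero]
        have hκe : κ = y j - s := eq_sub_of_add_eq hsum
        have hκl : Lo t' κ := by
          rw [hκe]
          refine ⟨(hJn _).1 (J.sub_mem ((hJn _).2 (hylo j hjv).1) ((hJn _).2 hsZ.1.1)), ?_⟩
          rw [sub_mul, mul_sub, (hylo j hjv).2, hsZ.1.2]
        have hκ0 : ψ κ = 0 := by
          rw [hψ]
          refine (hmain v (Function.update y j κ) x ?_ hxn hsm).2.2 rfl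
            (Or.inl ⟨j, hjv, by rw [Function.update_self]; exact hκ⟩)
          intro i hi
          by_cases hij : i = j
          · rw [hij, Function.update_self]
            exact hκl
          · rw [Function.update_of_ne hij]
            exact hylo i hi
        have h2 : ψ (y j) = 0 := by rw [← hsum, map_add, hκ0, hsZ.2, add_zero]
        rw [hψ, Function.update_eq_self] at h2
        exact h2
      · -- the twisted element
        rw [Ltt_x_ge y x j hjv] at hj
        have hxK : x ∈ KJ R p := by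
          have h1 : Mj p t' (Ltt_x v y x) j ≤
              (KJ R p).comap (AddMonoidHom.mk' (Φ c t') (f3 c t')) := by
            refine sup_le ?_ ?_
            · intro r hr
              show Φ c t' r ∈ KJ R p
              exact (hΦ t' hFt' r).2.2.2.2 (KJ R p) hKJi c hcN hr
            · rw [AddSubgroup.closure_le]
              rintro r ⟨i, hij, u, hu, rfl⟩
              have hij' : (i : ℕ) < j := hij
              have hiv : (i : ℕ) < v := by omega
              show Φ c t' (u * Ltt_x v y x i) ∈ KJ R p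
              rw [Ltt_x_lt y x i hiv]
              rw [(hΦ t' hFt' (u * y i)).2.2.1 c 0 hcN hN0 hc0]
              · exact zero_mem _
              · show u * y i * t' = t' * (u * y i)
                rw [mul_assoc, (hylo i hiv).2, ← mul_assoc, hWt u hu, mul_assoc]
          have h2 : Φ c t' x ∈ KJ R p := h1 hj
          rwa [(hΦ t' hFt' x).2.1 c hcN hxt] at h2
        exact (hmain v y x hylo hxn hsm).2.2 rfl (Or.inr hxK)
  · refine ⟨fun l => if l = 0 then t else if l - 1 < v then a (l - 1) else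
      if l - 1 = v then z else 0, ⟨?_, ?_⟩, ?_⟩
    · have h1 : (fun i : Fin 1 => (fun l : ℕ => if l = 0 then t else if l - 1 < v then a (l - 1) else
          if l - 1 = v then z else 0) (i : ℕ)) = fun _ => t := by
        funext i
        rw [Subsingleton.elim i 0]
        simp
      rw [h1]
      exact hX.fr
    · intro l hl
      have h2 : 1 + l ≠ 0 := by omega
      have h3 : 1 + l - 1 = l := by omega
      simp only [h2, if_false, h3]
      by_cases h4 : l < v
      · simp only [h4, if_true]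
        exact (hlo l h4).1
      · have h5 : l = v := by omega
        simp only [h5, lt_irrefl, if_false, if_true]
        exact htz.1
    · rw [hφv]
      have h2 : ∀ l, 1 + l ≠ 0 := by intro l; omega
      have h3 : ∀ l, 1 + l - 1 = l := by intro l; omega
      simp only [h2, if_false, h3, lt_irrefl, if_true]
      rw [(hΦ t hFt z).2.1 c hcN hzt]
      rw [cdd_pll_congr (b := a)]
      · exact hne
      · intro l hl
        simp only [hl, if_true]
        exact (hΦ t hFt (a l)).2.1 0 hN0 (hlo l hl).2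

end Pool.Agent.CRP
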