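import Pool.Agent.CRP.St

/-!
# CRP: separation of the types
-/

set_option autoImplicit false

namespace Pool.Agent.CRP

open Pool.Agent.CRR Pool.Agent.CRN Pool.Agent.CRK Pool.Agent.CRL Pool.Agent.CRM

section sep

variable {R : Type} [NonUnitalRing R]

theorem Sep_te_add {e t : R} (h1 : ∀ x : R, e * x = x ∧ x * e = x) (a b : ℕ) :
    te e t (a + b) = te e t a * te e t b := by
  induction a with
  | zero => rw [zero_add, te, (h1 _).1]
  | succ a ih => rw [Nat.succ_add, te, te, ih, mul_assoc]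

theorem Sep_te_one {e t : R} (h1 : ∀ x : R, e * x = x ∧ x * e = x) : te e t 1 = t := by
  rw [te, te, (h1 t).2]

theorem Sep_te_pw {e t : R} (h1 : ∀ x : R, e * x = x ∧ x * e = x) (k : ℕ) :
    te e t (k + 1) = pw t k := by
  induction k with
  | zero => rw [zero_add, Sep_te_one h1, pw]
  | succ k ih => rw [pw, ← ih, Sep_te_add h1 (k + 1) 1, Sep_te_one h1]

theorem Sep_te_mul {n p N : ℕ} {e t : R} (h : Lfr n p N e t) (k : ℕ) : te e t (N * k) = e := by
  have hN : te e t N = e := by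
    have := Sep_te_pw h.one (N - 1) (t := t)
    rw [Nat.sub_add_cancel h.n1, h.pn] at this
    exact this
  induction k with
  | zero => rw [mul_zero, te]
  | succ k ih => rw [Nat.mul_succ, Sep_te_add h.one, ih, hN, (h.one e).1]

theorem Sep_te_mod {n p N : ℕ} {e t : R} (h : Lfr n p N e t) (k : ℕ) :
    te e t (k % N) = te e t k := by
  conv_rhs => rw [← Nat.div_add_mod k N, Sep_te_add h.one, Sep_te_mul h, (h.one _).1]

theorem Sep_te_zmod {n p N : ℕ} {e t : R} (h : Lfr n p N e t) {a b : ℕ}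
    (hab : (a : ZMod N) = b) : te e t a = te e t b := by
  rw [← Sep_te_mod h a, ← Sep_te_mod h b, (ZMod.natCast_eq_natCast_iff' a b N).mp hab]

/-- a power different from the identity can be cancelled -/
theorem Sep_cancel {n p N : ℕ} {e t : R} (h : Lfr n p N e t) {k : ℕ} (hk : ¬ N ∣ k) {x : R}
    (hx : te e t k * x = x) : x = 0 := by
  have hk0 : k % N ≠ 0 := fun h0 => hk (Nat.dvd_of_mod_eq_zero h0)
  have hlt : k % N < N := Nat.mod_lt _ h.n1
  obtain ⟨u, hu, -⟩ := h.un (k % N) (Nat.pos_of_ne_zero hk0) hlt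
  have e1 : te e t k = pw t (k % N - 1) := by
    rw [← Sep_te_mod h k, ← Sep_te_pw h.one, Nat.sub_add_cancel (Nat.pos_of_ne_zero hk0)]
  rw [e1] at hx
  have h2 : (pw t (k % N - 1) - e) * x = 0 := by rw [sub_mul, hx, (h.one x).1, sub_self]
  calc x = e * x := (h.one x).1.symm
    _ = u * ((pw t (k % N - 1) - e) * x) := by rw [← mul_assoc, hu]
    _ = 0 := by rw [h2, mul_zero]

/-- the sum of the powers -/
theorem Sep_sum {n p N : ℕ} [NeZero N] {e t : R} (h : Lfr n p N e t) (r : ℕ) (d : Fin r → ℕ) :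
    ∑ σ : Fin r → ZMod N, te e t (∑ i, d i * (σ i).val) =
      if ∀ i, N ∣ d i then (N ^ r) • e else 0 := by
  split_ifs with hd
  · have h1 : ∀ σ : Fin r → ZMod N, te e t (∑ i, d i * (σ i).val) = e := by
      intro σ
      obtain ⟨c, hc⟩ : N ∣ ∑ i, d i * (σ i).val :=
        Finset.dvd_sum fun i _ => (hd i).mul_right _
      rw [hc, Sep_te_mul h]
    rw [Finset.sum_congr rfl fun σ _ => h1 σ, Finset.sum_const, Finset.card_univ, Fintype.card_fun,
      ZMod.card, Fintype.card_fin]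
  · obtain ⟨i₀, hi⟩ := not_forall.mp hd
    apply Sep_cancel h hi
    rw [Finset.mul_sum]
    conv_rhs => rw [← Equiv.sum_comp (Equiv.addRight (Pi.single i₀ (1 : ZMod N)))]
    refine Finset.sum_congr rfl fun σ _ => ?_
    rw [← Sep_te_add h.one]
    apply Sep_te_zmod h
    push_cast
    simp only [ZMod.natCast_val, ZMod.cast_id', id, Equiv.coe_addRight, Pi.add_apply, mul_add,
      Finset.sum_add_distrib]
    rw [add_comm]
    congr 1
    rw [Finset.sum_eq_single i₀]
    · simp
    · intro j _ hj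
      simp [Pi.single_eq_of_ne hj]
    · simp

end sep

theorem thm_Sep : St_Sep := by
  intro n p N R _ _ e t h r m χ w hw l₀
  have : NeZero N := ⟨by have := h.n1; omega⟩
  -- the equation for every tuple
  set D : Fin r → ℕ := fun i => N - χ l₀ i % N with hD
  have h1 : ∀ σ : Fin r → ZMod N,
      ∑ l, te e t (∑ i, (D i + χ l i) * (σ i).val) * w l = 0 := by
    intro σ
    have h2 := congrArg (fun x => te e t (∑ i, D i * (σ i).val) * x) (hw fun i => (σ i).val)
    simp only [mul_zero, Finset.mul_sum] at h2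
    rw [← h2]
    refine Finset.sum_congr rfl fun l _ => ?_
    rw [← mul_assoc, ← Sep_te_add h.one, ← Finset.sum_add_distrib]
    simp only [add_mul]
  have h2 : ∑ l, (∑ σ : Fin r → ZMod N, te e t (∑ i, (D i + χ l i) * (σ i).val)) * w l = 0 := by
    simp only [Finset.sum_mul]
    rw [Finset.sum_comm]
    exact Finset.sum_eq_zero fun σ _ => h1 σ
  have h3 : ∀ l, (∀ i, N ∣ D i + χ l i) ↔ ∀ i, χ l i % N = χ l₀ i % N := by
    intro l
    refine forall_congr' fun i => ?_
    have hlt : χ l₀ i % N < N := Nat.mod_lt _ h.n1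
    rw [← ZMod.natCast_eq_natCast_iff', ← ZMod.natCast_eq_zero_iff, hD]
    simp only
    rw [Nat.cast_add, Nat.cast_sub hlt.le]
    simp only [CharP.cast_eq_zero, ZMod.natCast_mod, zero_sub]
    rw [neg_add_eq_zero]
    exact eq_comm
  have h4 : (N ^ r) • (∑ l, if ∀ i, χ l i % N = χ l₀ i % N then w l else 0) = 0 := by
    refine Eq.trans ?_ h2
    rw [Finset.smul_sum]
    refine Finset.sum_congr rfl fun l _ => ?_
    rw [Sep_sum h]
    by_cases hl : ∀ i, N ∣ D i + χ l i
    · rw [if_pos hl, if_pos ((h3 l).mp hl), smul_mul_assoc, (h.one _).1]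
    · rw [if_neg hl, if_neg fun h5 => hl ((h3 l).mpr h5), zero_mul, smul_zero]
  obtain ⟨k, hk⟩ := h.cy.pr
  set X := ∑ l, if ∀ i, χ l i % N = χ l₀ i % N then w l else 0 with hX
  have hc : (N ^ r).Coprime (p ^ k) := Nat.Coprime.pow _ _ h.np
  have h5 : addOrderOf X ∣ Nat.gcd (N ^ r) (p ^ k) :=
    Nat.dvd_gcd (addOrderOf_dvd_of_nsmul_eq_zero h4) (addOrderOf_dvd_of_nsmul_eq_zero (hk X))
  rw [hc] at h5
  exact AddMonoid.addOrderOf_eq_one_iff.mp (Nat.dvd_one.mp h5)

end Pool.Agent.CRP
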