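import Pool.Agent.CRP.St
import Pool.Agent.CRP.Sep
import Pool.Agent.CRL.All
import Pool.Agent.CRM.Tyn
import Pool.Agent.CRM.Kjf
import Pool.Agent.CRM.Dmk
import Pool.Agent.CRM.Fop

/-!
# CRP, module LTW: the types of the local rings with a frame which is not central
-/

set_option autoImplicit false

namespace Pool.Agent.CRP

open Pool.Agent.CRR Pool.Agent.CRN Pool.Agent.CRK Pool.Agent.CRL Pool.Agent.CRM MulOpposite

section ltw

variable {R : Type} [NonUnitalRing R]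

/-- products, with the identity for the empty product -/
def Ltw_w (e : R) : List R → R
  | [] => e
  | x :: l => x * Ltw_w e l

theorem Ltw_app {e : R} (h1 : ∀ x : R, e * x = x ∧ x * e = x) (l m : List R) :
    Ltw_w e (l ++ m) = Ltw_w e l * Ltw_w e m := by
  induction l with
  | nil => rw [List.nil_append, Ltw_w, (h1 _).1]
  | cons x l ih => rw [List.cons_append, Ltw_w, ih, Ltw_w, mul_assoc]

theorem Ltw_wp {e : R} (h1 : ∀ x : R, e * x = x ∧ x * e = x) :
    ∀ l : List R, l ≠ [] → wp l = Ltw_w e l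
  | [], h => absurd rfl h
  | [x], _ => by rw [wp, Ltw_w, Ltw_w, (h1 x).2]
  | x :: y :: l, _ => by rw [wp, Ltw_wp h1 (y :: l) (by simp)]; rfl

/-- the letters of a word from the right to the left -/
def Ltw_sq (f : ℕ → R) : List ℕ → ℕ → R
  | [] => fun _ => 0
  | l :: r => fun i => if i = r.length then f l else Ltw_sq f r i

theorem Ltw_pll_congr {a b : ℕ → R} {y : R} {k : ℕ} (h : ∀ i, i < k → a i = b i) :
    pll a y k = pll b y k := by
  induction k with
  | zero => rfl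
  | succ k ih => rw [pll, pll, h k (Nat.lt_succ_self k), ih fun i hi => h i (by omega)]

theorem Ltw_pll {e : R} (h1 : ∀ x : R, e * x = x ∧ x * e = x) (f : ℕ → R) (L : List ℕ) (y : R) :
    pll (Ltw_sq f L) y L.length = Ltw_w e (L.map f) * y := by
  induction L with
  | nil => rw [List.length_nil, pll, List.map_nil, Ltw_w, (h1 y).1]
  | cons l r ih =>
    rw [List.length_cons, pll, List.map_cons, Ltw_w, mul_assoc, ← ih]
    congr 1
    · simp [Ltw_sq]
    · exact Ltw_pll_congr fun i hi => by simp [Ltw_sq, hi.ne]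

theorem Ltw_sq_congr {f f' : ℕ → R} {L : List ℕ} (h : ∀ l ∈ L, f l = f' l) (i : ℕ) :
    Ltw_sq f L i = Ltw_sq f' L i := by
  induction L with
  | nil => rfl
  | cons l r ih =>
    simp only [Ltw_sq]
    rw [h l (by simp), ih fun l' hl' => h l' (by simp [hl'])]

theorem Ltw_sq_ex (f : ℕ → R) (L : List ℕ) (l : ℕ) (hl : l ∈ L) :
    ∃ i, i < L.length ∧ Ltw_sq f L i = f l := by
  induction L with
  | nil => simp at hl
  | cons l' r ih =>
    rcases List.mem_cons.mp hl with rfl | h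
    · exact ⟨r.length, by simp, by simp [Ltw_sq]⟩
    · obtain ⟨i, hi, h2⟩ := ih h
      exact ⟨i, by simp; omega, by simp [Ltw_sq, hi.ne, h2]⟩

theorem Ltw_sq_mem (f : ℕ → R) (L : List ℕ) (i : ℕ) (hi : i < L.length) (hn : L.Nodup) :
    ∃ l ∈ L, Ltw_sq f L i = f l ∧ ∀ c : R, ∀ j, j < L.length →
      Function.update (Ltw_sq f L) i c j = Ltw_sq (Function.update f l c) L j := by
  induction L with
  | nil => simp at hi
  | cons l' r ih =>
    obtain ⟨hn1, hn2⟩ := List.nodup_cons.mp hn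
    rw [List.length_cons] at hi
    by_cases hir : i = r.length
    · refine ⟨l', by simp, by simp [Ltw_sq, hir], fun c j hj => ?_⟩
      by_cases hj2 : j = r.length
      · rw [hir, hj2]
        simp [Ltw_sq]
      · rw [hir, Function.update_of_ne hj2]
        simp only [Ltw_sq, hj2, if_false]
        refine Ltw_sq_congr (fun l hl => ?_) j
        have hne : l ≠ l' := by rintro rfl; exact hn1 hl
        rw [Function.update_of_ne hne]
    · obtain ⟨l, hl, h1, h2⟩ := ih (by omega) hn2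
      refine ⟨l, by simp [hl], by simp [Ltw_sq, hir, h1], fun c j hj => ?_⟩
      have hne : l' ≠ l := fun h => hn1 (h ▸ hl)
      rw [List.length_cons] at hj
      by_cases hj2 : j = r.length
      · rw [Function.update_of_ne (by omega)]
        simp [Ltw_sq, hj2, Function.update_of_ne hne]
      · have h3 := h2 c j (by omega)
        simp only [Ltw_sq, hj2, if_false]
        rw [← h3]
        by_cases hij : j = i
        · rw [hij, Function.update_self, Function.update_self]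
        · rw [Function.update_of_ne hij, Function.update_of_ne hij]
          simp [hj2]

theorem Ltw_mkT {n p : ℕ} {e t : R} {H : AddSubgroup R} (hcx : Lcx R n p e t H) (f : ℕ → R)
    (L : List ℕ) (hn : L.Nodup) (hLo : ∀ l ∈ L, Lo t (f l)) {Z : R} (hZ : Tt t Z) (k : ℕ)
    (hm : p ^ k • (Ltw_w e (L.map f) * Z) ∈ H) (hne : p ^ k • (Ltw_w e (L.map f) * Z) ≠ 0)
    (h0 : k = 0 → ∀ l ∈ L, Ltw_w e (L.map (Function.update f l (p • e))) * Z = 0)
    (hg : NonUnitalSubring.closure ({t} ∪ {u | ∃ l ∈ L, u = f l} ∪ {Z}) = ⊤) : LtT R n := by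
  refine ⟨p, e, t, H, L.length, k, Ltw_sq f L, Z, hcx, ?_, hZ, ?_, ?_, ?_, ?_⟩
  · intro i hi
    obtain ⟨l, hl, h, -⟩ := Ltw_sq_mem f L i hi hn
    rw [h]
    exact hLo l hl
  · rw [Ltw_pll hcx.one]
    exact hm
  · rw [Ltw_pll hcx.one]
    exact hne
  · intro hk i hi
    obtain ⟨l, hl, -, h⟩ := Ltw_sq_mem f L i hi hn
    rw [Ltw_pll_congr (h (p • e)), Ltw_pll hcx.one]
    exact h0 hk l hl
  · rw [eq_top_iff, ← hg]
    apply NonUnitalSubring.closure_mono
    rintro u ((hu | ⟨l, hl, rfl⟩) | hu)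
    · exact Or.inl (Or.inl hu)
    · obtain ⟨i, hi, h⟩ := Ltw_sq_ex f L l hl
      exact Or.inl (Or.inr ⟨i, hi, h.symm⟩)
    · exact Or.inr hu

theorem Ltw_mkL {n p : ℕ} {e t : R} {H : AddSubgroup R} (hcx : Lcx R n p e t H) (f : ℕ → R)
    (L : List ℕ) (hn : L.Nodup) (hLo : ∀ l ∈ L, Lo t (f l)) {X Y : R} (hX : Tt t X) (hY : Tt t Y)
    (hXY : Y = X ∨ ¬ Sm t X Y) (k : ℕ)
    (hm : p ^ k • (Ltw_w e (L.map f) * (X * Y)) ∈ H)
    (hne : p ^ k • (Ltw_w e (L.map f) * (X * Y)) ≠ 0)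
    (h0 : k = 0 → ∀ l ∈ L, Ltw_w e (L.map (Function.update f l (p • e))) * (X * Y) = 0)
    (hg : NonUnitalSubring.closure ({t} ∪ {u | ∃ l ∈ L, u = f l} ∪ {X, Y}) = ⊤) : LtL R n := by
  refine ⟨p, e, t, H, L.length, k, Ltw_sq f L, X, Y, hcx, ?_, hX, hY, hXY, ?_, ?_, ?_, ?_⟩
  · intro i hi
    obtain ⟨l, hl, h, -⟩ := Ltw_sq_mem f L i hi hn
    rw [h]
    exact hLo l hl
  · rw [Ltw_pll hcx.one]
    exact hm
  · rw [Ltw_pll hcx.one]
    exact hne
  · intro hk i hi
    obtain ⟨l, hl, -, h⟩ := Ltw_sq_mem f L i hi hn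
    rw [Ltw_pll_congr (h (p • e)), Ltw_pll hcx.one]
    exact h0 hk l hl
  · rw [eq_top_iff, ← hg]
    apply NonUnitalSubring.closure_mono
    rintro u ((hu | ⟨l, hl, rfl⟩) | hu)
    · exact Or.inl (Or.inl hu)
    · obtain ⟨i, hi, h⟩ := Ltw_sq_ex f L l hl
      exact Or.inl (Or.inr ⟨i, hi, h.symm⟩)
    · exact Or.inr hu

/-! ### The opposite ring -/

theorem Ltw_wop {e : R} (h1 : ∀ x : R, e * x = x ∧ x * e = x) (f : ℕ → R) (L : List ℕ) :
    Ltw_w (op e) (L.reverse.map fun l => op (f l)) = op (Ltw_w e (L.map f)) := by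
  have h1' : ∀ x : Rᵐᵒᵖ, op e * x = x ∧ x * op e = x := fun x =>
    ⟨unop_injective (h1 (unop x)).2, unop_injective (h1 (unop x)).1⟩
  induction L with
  | nil => rfl
  | cons l r ih =>
    rw [List.reverse_cons, List.map_append, Ltw_app h1', ih, List.map_cons, List.map_cons,
      List.map_nil, Ltw_w, Ltw_w, Ltw_w, (h1' _).2, op_mul]

theorem Ltw_lcx [Finite R] {n p : ℕ} {e t : R} {H : AddSubgroup R} (hcy : Cy R n p)
    (h : Lcx R n p e t H) : Lcx Rᵐᵒᵖ n p (op e) (op t)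
      (H.comap (opAddEquiv (α := R)).symm.toAddMonoidHom) where
  pp := h.pp
  pr := (Fop_cy n p hcy).pr
  lst := Opp_lst H h.lst
  prm := by
    obtain ⟨h1, h2, h3⟩ := h.prm
    refine ⟨?_, ?_, ?_⟩
    · rw [← op_mul, h1]
    · exact fun h0 => h2 (op_injective h0)
    · intro g hg hg1 hg2
      rcases h3 (unop g) (congrArg unop hg) (congrArg unop hg2) (congrArg unop hg1) with h4 | h4
      · exact Or.inl (unop_injective h4)
      · exact Or.inr (unop_injective h4)
  one x := ⟨unop_injective (h.one (unop x)).2, unop_injective (h.one (unop x)).1⟩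
  fr := Fop_frame n 1 (fun _ => t) h.fr

theorem Ltw_mkTop [Finite R] {n p : ℕ} {e t : R} {H : AddSubgroup R} (hcy : Cy R n p)
    (hcx : Lcx R n p e t H) (f : ℕ → R)
    (L : List ℕ) (hn : L.Nodup) (hLo : ∀ l ∈ L, Lo t (f l)) {Z : R} (hZ : Tt t Z)
    (hZ2 : ∃ b, t * Z = Z * pw t b) (k : ℕ)
    (hm : p ^ k • (Z * Ltw_w e (L.map f)) ∈ H) (hne : p ^ k • (Z * Ltw_w e (L.map f)) ≠ 0)
    (h0 : k = 0 → ∀ l ∈ L, Z * Ltw_w e (L.map (Function.update f l (p • e))) = 0)
    (hg : NonUnitalSubring.closure ({t} ∪ {u | ∃ l ∈ L, u = f l} ∪ {Z}) = ⊤) : LtT Rᵐᵒᵖ n := by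
  refine Ltw_mkT (Ltw_lcx hcy hcx) (fun l => op (f l)) L.reverse (List.nodup_reverse.mpr hn) ?_
    (Z := op Z) ?_ k ?_ ?_ ?_ ?_
  · intro l hl
    obtain ⟨h1, h2⟩ := hLo l (List.mem_reverse.mp hl)
    exact ⟨(Fop_nl _).2 h1, by rw [← op_mul, ← op_mul, h2]⟩
  · obtain ⟨h1, -, h3⟩ := hZ
    obtain ⟨b, hb⟩ := hZ2
    refine ⟨(Fop_nl _).2 h1, ⟨b, ?_⟩, fun h => h3 (op_injective h).symm⟩
    rw [Opp_pw, unop_op, ← op_mul, ← op_mul, hb]
  · rw [Ltw_wop hcx.one, ← op_mul, ← op_smul]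
    exact hm
  · rw [Ltw_wop hcx.one, ← op_mul, ← op_smul]
    exact fun h => hne (op_injective h)
  · intro hk l hl
    have e1 : Function.update (fun l => op (f l)) l (p • op e) =
        fun j => op (Function.update f l (p • e) j) := by
      funext j
      by_cases hj : j = l
      · rw [hj, Function.update_self, Function.update_self, op_smul]
      · rw [Function.update_of_ne hj, Function.update_of_ne hj]
    rw [e1, Ltw_wop hcx.one, ← op_mul, h0 hk l (List.mem_reverse.mp hl), op_zero]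
  · by_contra hS
    refine Fop_sub_ne _ hS ?_
    rw [eq_top_iff, ← hg, NonUnitalSubring.closure_le]
    rintro u ((rfl | ⟨l, hl, rfl⟩) | rfl)
    · exact NonUnitalSubring.subset_closure (Or.inl (Or.inl rfl))
    · exact NonUnitalSubring.subset_closure
        (Or.inl (Or.inr ⟨l, List.mem_reverse.mpr hl, rfl⟩))
    · exact NonUnitalSubring.subset_closure (Or.inr rfl)

/-! ### Equal types -/

theorem Ltw_xs {g : ℕ} (x : Fin g → R) (i : Fin g) (c : R) :
    xs (Function.update x i c) = Function.update (xs x) (i : ℕ) c := by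
  funext j
  by_cases hj : j = (i : ℕ)
  · rw [hj, Function.update_self]
    simp [xs]
  · rw [Function.update_of_ne hj]
    unfold xs
    split_ifs with h
    · exact Function.update_of_ne (fun h2 => hj (congrArg Fin.val h2)) _ _
    · rfl

omit [NonUnitalRing R] in
theorem Ltw_map {f : ℕ → R} {L : List ℕ} {l : ℕ} (h : l ∉ L) (c : R) :
    L.map (Function.update f l c) = L.map f := by
  refine List.map_congr_left fun j hj => Function.update_of_ne ?_ _ _
  rintro rfl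
  exact h hj

theorem Ltw_te_comm {e t : R} (h1 : ∀ x : R, e * x = x ∧ x * e = x) (k : ℕ) :
    te e t k * t = t * te e t k := by
  have := Sep_te_add h1 k 1 (t := t)
  rw [Sep_te_one h1, add_comm, Sep_te_add h1, Sep_te_one h1] at this
  exact this.symm

theorem Ltw_cv_comm {e t : R} (h1 : ∀ x : R, e * x = x ∧ x * e = x) (C : List (ℤ × ℕ)) :
    Cv C e t * t = t * Cv C e t := by
  unfold Cv
  induction C with
  | nil => simp
  | cons c C ih =>
    rw [List.map_cons, List.sum_cons, add_mul, mul_add, ih, smul_mul_assoc, mul_smul_comm,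
      Ltw_te_comm h1]

theorem Ltw_w_comm {e t : R} (h1 : ∀ x : R, e * x = x ∧ x * e = x) (L : List R)
    (h : ∀ l ∈ L, l * t = t * l) : Ltw_w e L * t = t * Ltw_w e L := by
  induction L with
  | nil => rw [Ltw_w, (h1 t).1, (h1 t).2]
  | cons l r ih =>
    rw [Ltw_w, mul_assoc, ih fun j hj => h j (by simp [hj]), ← mul_assoc, h l (by simp), mul_assoc]

theorem Ltw_e_mem {n p N : ℕ} {e t : R} (h : Lfr n p N e t) :
    e ∈ NonUnitalSubring.closure ({t} : Set R) := by
  have ht : t ∈ NonUnitalSubring.closure ({t} : Set R) :=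
    NonUnitalSubring.subset_closure rfl
  have h2 := Dmk_pw _ ht (N - 1)
  rw [h.pn] at h2
  exact h2

theorem Ltw_cv_mem {n p N : ℕ} {e t : R} (h : Lfr n p N e t) (C : List (ℤ × ℕ)) :
    Cv C e t ∈ NonUnitalSubring.closure ({t} : Set R) := by
  have ht : t ∈ NonUnitalSubring.closure ({t} : Set R) :=
    NonUnitalSubring.subset_closure rfl
  have he : e ∈ NonUnitalSubring.closure ({t} : Set R) := Ltw_e_mem h
  have hte : ∀ k, te e t k ∈ NonUnitalSubring.closure ({t} : Set R) := by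
    intro k
    induction k with
    | zero => exact he
    | succ k ih => exact mul_mem ht ih
  unfold Cv
  apply list_sum_mem
  intro c hc
  obtain ⟨q, -, rfl⟩ := List.mem_map.mp hc
  exact zsmul_mem (hte _) _

theorem Ltw_mem_Mj {p g : ℕ} {t e : R} {y : Fin g → R} {i j : Fin g}
    (he : e ∈ NonUnitalSubring.closure ({t} : Set R)) (hij : i < j) (h : y j = e * y i) :
    y j ∈ Mj p t y j := by
  unfold Mj
  exact AddSubgroup.mem_sup_right (AddSubgroup.subset_closure ⟨i, hij, e, he, h⟩)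

theorem Ltw_same [Finite R] (hTyp : St_Typ) {n p N : ℕ} {e t : R} (hL : Lfr n p N e t) {g : ℕ}
    {a : Fin g → ℕ} {C : List (ℤ × ℕ)} {ν : List ℕ} {x : Fin g → R} (hTy : Ty n a t x)
    (hF : ∀ y : Fin g → R, Ty n a t y → ∀ j, y j ∈ Mj p t y j →
      Cv C e t * wp (ν.map (xs y)) = 0)
    {L M : List ℕ} {u v : Fin g} (hν : ν = L ++ ((u : ℕ) :: (v : ℕ) :: M))
    (hLo : ∀ l ∈ L, Lo t (xs x l)) (huv : u ≠ v) (huL : (u : ℕ) ∉ L) (hvL : (v : ℕ) ∉ L)
    (huM : (u : ℕ) ∉ M) (hvM : (v : ℕ) ∉ M) (hab : a u % N = a v % N) (hne : a v % N ≠ 0) :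
    Cv C e t * wp (ν.map (xs x)) = 0 := by
  have h1 := hL.one
  obtain ⟨T1, T2, T3, T4, T5, T6, T7, T8, T9⟩ := hTyp n p N R e t hL
  obtain ⟨J, hJ, hJn⟩ := CRL.jil n hL.cy.n4 R hL.cy.inM hL.cy.nt
  have hνn : ∀ f : ℕ → R, ν.map f ≠ [] := by
    intro f
    rw [hν]
    simp
  set c := Cv C e t with hc
  set A := Ltw_w e (L.map (xs x)) with hA
  set D := Ltw_w e (M.map (xs x)) with hD
  have hpw : pw t (a u) = pw t (a v) := T3 _ _ hab
  have hval : ∀ P Q : R, wp (ν.map (xs (Function.update (Function.update x u P) v Q))) =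
      A * (P * (Q * D)) := by
    intro P Q
    have huv' : (u : ℕ) ≠ (v : ℕ) := fun h => huv (Fin.ext h)
    rw [Ltw_wp h1 _ (hνn _), hν, Ltw_xs, Ltw_xs, List.map_append, Ltw_app h1, List.map_cons,
      List.map_cons, Ltw_map hvL, Ltw_map huL, Ltw_map hvM, Ltw_map huM, Ltw_w, Ltw_w,
      Function.update_self, Function.update_of_ne huv', Function.update_self]
  have htype : ∀ P Q : R, Nl P → Nl Q → P * t = pw t (a v) * P → Q * t = pw t (a v) * Q →
      Ty n a t (Function.update (Function.update x u P) v Q) := by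
    intro P Q hP hQ hP2 hQ2
    refine ⟨hTy.1, fun i => ?_⟩
    by_cases hi : i = v
    · rw [hi, Function.update_self]
      exact ⟨hQ, hQ2⟩
    · rw [Function.update_of_ne hi]
      by_cases hi2 : i = u
      · rw [hi2, Function.update_self, hpw]
        exact ⟨hP, hP2⟩
      · rw [Function.update_of_ne hi2]
        exact hTy.2 i
  have heW : e ∈ NonUnitalSubring.closure ({t} : Set R) := Ltw_e_mem hL
  have hBB : ∀ P : R, Nl P → P * t = pw t (a v) * P → c * (A * (P * (P * D))) = 0 := by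
    intro P hP hP2
    rw [← hval P P]
    have b1 : Function.update (Function.update x u P) v P u = P := by
      rw [Function.update_of_ne huv, Function.update_self]
    have b2 : Function.update (Function.update x u P) v P v = P := Function.update_self _ _ _
    have b3 : e * P = P := (h1 P).1
    rcases lt_or_gt_of_ne huv with h | h
    · exact hF _ (htype P P hP hP hP2 hP2) v (Ltw_mem_Mj heW h (by rw [b1, b2, b3]))
    · exact hF _ (htype P P hP hP hP2 hP2) u (Ltw_mem_Mj heW h (by rw [b1, b2, b3]))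
  have hnadd : ∀ P Q : R, Nl P → Nl Q → Nl (P + Q) := fun P Q hP hQ =>
    (hJn _).1 (J.add_mem ((hJn P).2 hP) ((hJn Q).2 hQ))
  have hpol : ∀ P Q : R, Nl P → Nl Q → P * t = pw t (a v) * P → Q * t = pw t (a v) * Q →
      c * (A * (P * (Q * D))) + c * (A * (Q * (P * D))) = 0 := by
    intro P Q hP hQ hP2 hQ2
    have e1 := hBB (P + Q) (hnadd P Q hP hQ) (by rw [add_mul, hP2, hQ2, mul_add])
    have e2 := hBB P hP hP2
    have e3 := hBB Q hQ hQ2
    simp only [add_mul, mul_add] at e1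
    rw [e2, e3, zero_add, add_zero] at e1
    rw [← e1]
    abel
  set X := x u with hX
  set Y := x v with hY
  have hXn : Nl X := (hTy.2 u).1
  have hYn : Nl Y := (hTy.2 v).1
  have hXt : X * t = pw t (a v) * X := by rw [← hpw]; exact (hTy.2 u).2
  have hYt : Y * t = pw t (a v) * Y := (hTy.2 v).2
  have hx0 : Function.update (Function.update x u X) v Y = x := by
    rw [hX, Function.update_eq_self, hY, Function.update_eq_self]
  have hcx : c * wp (ν.map (xs x)) = c * (A * (X * (Y * D))) := by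
    have := hval X Y
    rw [hx0] at this
    rw [this]
  set h := c * (A * (X * (Y * D))) with hh
  have hAt : A * t = t * A := by
    apply Ltw_w_comm h1
    intro l hl
    obtain ⟨j, hj, rfl⟩ := List.mem_map.mp hl
    exact (hLo j hj).2
  have hct : c * t = t * c := Ltw_cv_comm h1 C
  have hpwt : pw t (a v) * t = t * pw t (a v) := (Opp_pwc t (a v)).symm
  have hpc : ∀ z : R, z * t = t * z → z * pw t (a v) = pw t (a v) * z := by
    intro z hz
    have : ∀ k, z * pw t k = pw t k * z := by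
      intro k
      induction k with
      | zero => exact hz
      | succ k ih => rw [pw, ← mul_assoc, ih, mul_assoc, hz, mul_assoc]
    exact this _
  have f1 := hpol X Y hXn hYn hXt hYt
  have f2 := hpol (t * X) Y ((hJn _).1 (hJ t X ((hJn X).2 hXn)).1) hYn
    (by rw [mul_assoc, hXt, ← mul_assoc, ← hpwt, mul_assoc]) hYt
  have g1 : c * (A * (t * X * (Y * D))) = t * h := by
    rw [hh, mul_assoc t X, ← mul_assoc A t, hAt, mul_assoc t A, ← mul_assoc c t, hct,
      mul_assoc t c]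
  have g2 : c * (A * (Y * (t * X * D))) = pw t (a v) * (c * (A * (Y * (X * D)))) := by
    rw [mul_assoc t X, ← mul_assoc Y t, hYt, mul_assoc (pw t (a v)) Y, ← mul_assoc A (pw t (a v)),
      hpc A hAt, mul_assoc (pw t (a v)) A, ← mul_assoc c (pw t (a v)), hpc c hct,
      mul_assoc (pw t (a v)) c]
  rw [g1, g2] at f2
  have f3 : c * (A * (Y * (X * D))) = -h := eq_neg_of_add_eq_zero_right f1
  rw [f3, mul_neg, ← sub_eq_add_neg, sub_eq_zero] at f2
  have f4 : te e t (a v) * (t * h) = t * h := by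
    rw [← mul_assoc, Ltw_te_comm h1, ← te, Sep_te_pw h1, ← f2]
  have f5 := Sep_cancel hL (fun hd => hne (Nat.mod_eq_zero_of_dvd hd)) f4
  rw [hcx]
  exact T7 h 1 (by rw [Sep_te_one h1]; exact f5)

/-! ### The cases -/

theorem Ltw_lt0 {N g : ℕ} {a : Fin g → ℕ} {l : ℕ} :
    l ∈ Lt0 N a ↔ ∃ h : l < g, a ⟨l, h⟩ % N = 0 := by
  unfold Lt0
  rw [List.mem_filter, List.mem_range]
  constructor
  · rintro ⟨h1, h2⟩
    refine ⟨h1, ?_⟩
    simpa [h1] using h2
  · rintro ⟨h1, h2⟩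
    exact ⟨h1, by simp [h1, h2]⟩

theorem Ltw_lt1 {N g : ℕ} {a : Fin g → ℕ} {l : ℕ} :
    l ∈ Lt1 N a ↔ ∃ h : l < g, a ⟨l, h⟩ % N ≠ 0 := by
  unfold Lt1
  rw [List.mem_filter, List.mem_range]
  constructor
  · rintro ⟨h1, h2⟩
    refine ⟨h1, ?_⟩
    simpa [h1] using h2
  · rintro ⟨h1, h2⟩
    exact ⟨h1, by simp [h1, h2]⟩

theorem Ltw_nd0 {N g : ℕ} {a : Fin g → ℕ} : (Lt0 N a).Nodup := List.nodup_range.filter _

theorem Ltw_nd1 {N g : ℕ} {a : Fin g → ℕ} : (Lt1 N a).Nodup := List.nodup_range.filter _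

theorem Ltw_cases {N g : ℕ} {a : Fin g → ℕ} {ν : List ℕ} (h : ν ∈ NW N a) :
    (∃ z, Lt1 N a = [z] ∧
      (ν = Lt0 N a ++ [z] ∨ ν = [z] ++ Lt0 N a ∨ ν = Lt0 N a ++ [z, z])) ∨
    (∃ x y, Lt1 N a = [x, y] ∧ (ν = Lt0 N a ++ [x, y] ∨ ν = Lt0 N a ++ [y, x] ∨
      (Lt0 N a = [] ∧ (ν = [x, x, y] ∨ ν = [x, y, y] ∨ ν = [x, y, x])))) ∨
    (∃ x y z, Lt1 N a = [x, y, z] ∧ Lt0 N a = [] ∧
      (ν = [x, y, z] ∨ ν = [y, x, z] ∨ ν = [x, z, y])) := by
  unfold NW at h
  split at h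
  · rename_i z hz
    left
    refine ⟨z, hz, ?_⟩
    split_ifs at h with h0
    · simp only [List.mem_cons, List.not_mem_nil, or_false] at h
      rw [h0]
      rcases h with h | h
      · exact Or.inl h
      · exact Or.inr (Or.inr h)
    · simp only [List.mem_cons, List.not_mem_nil, or_false] at h
      exact h
  · rename_i x y hz
    right; left
    refine ⟨x, y, hz, ?_⟩
    split_ifs at h with h0
    · simp only [List.mem_cons, List.not_mem_nil, or_false] at h
      rw [h0]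
      rcases h with h | h | h
      · exact Or.inl h
      · exact Or.inr (Or.inl h)
      · exact Or.inr (Or.inr ⟨rfl, h⟩)
    · simp only [List.mem_cons, List.not_mem_nil, or_false] at h
      rcases h with h | h
      · exact Or.inl h
      · exact Or.inr (Or.inl h)
  · rename_i x y z hz
    right; right
    refine ⟨x, y, z, hz, ?_⟩
    split_ifs at h with h0
    · simp only [List.mem_cons, List.not_mem_nil, or_false] at h
      exact ⟨h0, h⟩
    · simp at h
  · simp at h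

/-- the data of a nonzero value -/
structure LtwD (R : Type) [NonUnitalRing R] (n p N : ℕ) (e t : R) (H : AddSubgroup R) (g : ℕ)
    (a : Fin g → ℕ) (x : Fin g → R) (ν : List ℕ) (k : ℕ) : Prop where
  fr : Lfr n p N e t
  cx : Lcx R n p e t H
  x0 : ∀ j, x j ≠ 0
  lo : ∀ l ∈ Lt0 N a, Lo t (xs x l)
  tw : ∀ l ∈ Lt1 N a, Tt t (xs x l)
  ty : ∀ l (h : l < g), xs x l * t = pw t (a ⟨l, h⟩) * xs x l
  nn : ν ≠ []
  mem : p ^ k • Ltw_w e (ν.map (xs x)) ∈ H
  ne : p ^ k • Ltw_w e (ν.map (xs x)) ≠ 0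
  k0 : k = 0 → ∀ l ∈ Lt0 N a, Ltw_w e (ν.map (Function.update (xs x) l (p • e))) = 0
  same : ∀ (L M : List ℕ) (u v : Fin g), ν = L ++ ((u : ℕ) :: (v : ℕ) :: M) →
    (∀ l ∈ L, Lo t (xs x l)) → u ≠ v → (u : ℕ) ∉ L → (v : ℕ) ∉ L → (u : ℕ) ∉ M →
    (v : ℕ) ∉ M → a u % N = a v % N → a v % N ≠ 0 → False
  gen : ∀ T : Set R, t ∈ T → (∀ l ∈ Lt0 N a, xs x l ∈ T) → (∀ l ∈ Lt1 N a, xs x l ∈ T) →
    NonUnitalSubring.closure T = ⊤

theorem Ltw_data [Finite R] (hTyp : St_Typ) (hRlv : St_Rlv) (hWpn : St_Wpn) {n p N : ℕ} {e : R}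
    {H : AddSubgroup R} (hH : Lst R H) (hf : ∃ t, Lfr n p N e t) {g : ℕ} {a : Fin g → ℕ}
    {C : List (ℤ × ℕ)} {ν : List ℕ} (hνn : ν ≠ []) (hF : Fz n p e H a C ν)
    (hg : ∃ (t : R) (x : Fin g → R), Ty n a t x ∧
      NonUnitalSubring.closure ({t} ∪ Set.range x) = ⊤) :
    ∃ (t : R) (x : Fin g → R) (k : ℕ), LtwD R n p N e t H g a x ν k := by
  obtain ⟨t₀, h₀⟩ := hf
  obtain ⟨t₁, x₁, hTy₁, hg₁⟩ := hg
  obtain ⟨hF1, t, x, hTy, hne⟩ := hF
  have h1 := h₀.one
  have he0 : e ≠ 0 := h₀.prm.2.1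
  obtain ⟨N', hN1, -, hNp, -, hfr⟩ := CRM.thm_Tyn n p R h₀.cy e h₀.prm h₀.one
  have hNN : N' = N := by
    obtain ⟨-, q1, q2⟩ := hfr t₀ h₀.fr
    rcases lt_trichotomy N' N with h | h | h
    · obtain ⟨u, hu, -⟩ := h₀.un N' hN1 h
      rw [q1, sub_self, mul_zero] at hu
      exact absurd hu.symm he0
    · exact h
    · obtain ⟨u, hu, -⟩ := q2 N h₀.n1 h
      rw [h₀.pn, sub_self, mul_zero] at hu
      exact absurd hu.symm he0
  subst hNN
  have hL : Lfr n p N' e t := ⟨h₀.cy, h₀.prm, h₀.one, hTy.1, hN1, hNp, (hfr t hTy.1).2.1,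
    fun k q1 q2 => (hfr t hTy.1).2.2 k q1 q2⟩
  obtain ⟨T1, T2, T3, T4, T5, T6, T7, T8, T9⟩ := hTyp n p N' R e t hL
  obtain ⟨q, -, hd, -⟩ :=
    CRM.thm_Dmk CRM.thm_Tyn (CRM.thm_Kjf CRM.thm_Tyn) n p R h₀.cy e h₀.prm h₀.one
  have hxj : ∀ j, x j ∉ Mj p t x j := fun j hj => hne ((hF1 t x hTy).2 j hj)
  have hgen := ((hd g a t x hTy).2 hxj).2 ((hd g a t₁ x₁ hTy₁).1 hg₁)
  have hx0 : ∀ j, x j ≠ 0 := fun j h0 => hxj j (h0 ▸ AddSubgroup.zero_mem _)
  have hCW := Ltw_cv_mem hL C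
  have hC0 : Cv C e t ≠ 0 := fun h0 => hne (by rw [h0, zero_mul])
  obtain ⟨k, u, u', hu, hCu, hu1, hu2⟩ := (hWpn n p N' R e t hL).2 _ hCW hC0
  have hxs : ∀ l (h : l < g), xs x l = x ⟨l, h⟩ := fun l h => by simp [xs, h]
  have hwp : ∀ f : ℕ → R, wp (ν.map f) = Ltw_w e (ν.map f) := fun f =>
    Ltw_wp h1 _ (by simpa using hνn)
  have hcx : Lcx R n p e t H := ⟨hL.cy.pp, hL.cy.pr, hH, hL.prm, hL.one, hL.fr⟩
  refine ⟨t, x, k, hL, hcx, hx0, ?_, ?_, ?_, hνn, ?_, ?_, ?_, ?_, ?_⟩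
  · intro l hl
    obtain ⟨h, h2⟩ := Ltw_lt0.mp hl
    rw [hxs l h]
    refine ⟨(hTy.2 _).1, ?_⟩
    rw [(hTy.2 _).2, T3 _ 0 (by rw [h2, Nat.zero_mod]), pw]
  · intro l hl
    obtain ⟨h, h2⟩ := Ltw_lt1.mp hl
    rw [hxs l h]
    exact ⟨(hTy.2 _).1, ⟨_, (hTy.2 _).2⟩, fun h3 => h2 ((T6 _ _ (hTy.2 _).2 (hx0 _)).mp h3)⟩
  · intro l h
    rw [hxs l h]
    exact (hTy.2 _).2
  · have h2 := (hH.1 u' _ (hF1 t x hTy).1).1
    rw [hwp, hCu, smul_mul_assoc, mul_smul_comm, ← mul_assoc, hu1, (h1 _).1] at h2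
    exact h2
  · intro h2
    apply hne
    rw [hwp, hCu, smul_mul_assoc, ← mul_smul_comm, h2, mul_zero]
  · intro hk l hl
    obtain ⟨h, h2⟩ := Ltw_lt0.mp hl
    obtain ⟨-, -, -, -, ⟨⟨r1, r2⟩, -⟩, -⟩ := hRlv n p N' R e t hL
    have hTy2 : Ty n a t (Function.update x ⟨l, h⟩ (p • e)) := by
      refine ⟨hTy.1, fun i => ?_⟩
      by_cases hi : i = ⟨l, h⟩
      · rw [hi, Function.update_self, T3 _ 0 (by rw [h2, Nat.zero_mod]), pw]
        exact ⟨r1, r2⟩
      · rw [Function.update_of_ne hi]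
        exact hTy.2 i
    have hmem : Function.update x ⟨l, h⟩ (p • e) ⟨l, h⟩ ∈
        Mj p t (Function.update x ⟨l, h⟩ (p • e)) ⟨l, h⟩ := by
      unfold Mj
      refine AddSubgroup.mem_sup_left ?_
      rw [Function.update_self]
      exact AddSubgroup.subset_closure (Or.inr ⟨e, rfl⟩)
    have h3 := (hF1 t _ hTy2).2 _ hmem
    rw [Ltw_xs, hwp, hCu, hk, pow_zero, one_smul] at h3
    have h4 := congrArg (fun y => u' * y) h3
    simp only [mul_zero] at h4
    rw [← mul_assoc, hu1, (h1 _).1] at h4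
    exact h4
  · intro L M u v q1 q2 q3 q4 q5 q6 q7 q8 q9
    exact hne (Ltw_same hTyp hL hTy (fun y hy j hj => (hF1 t y hy).2 j hj) q1 q2 q3 q4 q5 q6 q7
      q8 q9)
  · intro T ht q1 q2
    rw [eq_top_iff, ← hgen]
    apply NonUnitalSubring.closure_mono
    rintro y (hy | ⟨j, rfl⟩)
    · rw [Set.mem_singleton_iff.mp hy]
      exact ht
    · have h3 := hxs j j.2
      rw [← h3]
      by_cases hj : a j % N' = 0
      · exact q1 _ (Ltw_lt0.mpr ⟨j.2, hj⟩)
      · exact q2 _ (Ltw_lt1.mpr ⟨j.2, hj⟩)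

theorem Ltw_E (hRlz : St_Rlz) [Finite R] {n p N : ℕ} {e t : R} {H : AddSubgroup R} {g : ℕ}
    {a : Fin g → ℕ} {x : Fin g → R} {ν : List ℕ} {k : ℕ} (D : LtwD R n p N e t H g a x ν k)
    (h0 : Lt0 N a = []) {X Y Z : R} (hX : Tt t X) (hY : Tt t Y) (hZ : Tt t Z)
    (hne : X * Y * Z ≠ 0) (hc : Y = X ∨ Z = X ∨ ¬ Sm t X Y)
    (hT : ∀ l ∈ Lt1 N a, xs x l ∈ ({t} ∪ {X, Y, Z} : Set R)) : LtE R n := by
  obtain ⟨-, -, -, -, -, -, r7, -⟩ := hRlz n p N R e t D.fr
  refine ⟨p, e, t, H, X, Y, Z, D.cx, hX, hY, hZ, ?_, hc, hne, D.gen _ (Or.inl rfl) ?_ hT⟩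
  · exact ((r7 X Y Z hX hY hZ).2.resolve_left hne).2.2
  · rw [h0]
    simp

theorem Ltw_L (hTyp : St_Typ) [Finite R] {n p N : ℕ} {e t : R} {H : AddSubgroup R} {g : ℕ}
    {a : Fin g → ℕ} {x : Fin g → R} {ν : List ℕ} {k : ℕ} (D : LtwD R n p N e t H g a x ν k)
    {u v : ℕ} (hν : ν = Lt0 N a ++ [u, v]) (hu : u ∈ Lt1 N a) (hv : v ∈ Lt1 N a)
    (hall : ∀ l ∈ Lt1 N a, l = u ∨ l = v) : LtL R n := by
  have h1 := D.fr.one
  obtain ⟨T1, T2, T3, T4, T5, T6, T7, T8, T9⟩ := hTyp n p N R e t D.fr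
  have hdis : ∀ l ∈ Lt1 N a, l ∉ Lt0 N a := by
    intro l q1 q2
    obtain ⟨h2, h3⟩ := Ltw_lt1.mp q1
    obtain ⟨h4, h5⟩ := Ltw_lt0.mp q2
    exact h3 h5
  have hval : ∀ f : ℕ → R, Ltw_w e (ν.map f) = Ltw_w e ((Lt0 N a).map f) * (f u * f v) := by
    intro f
    rw [hν, List.map_append, Ltw_app h1, List.map_cons, List.map_cons, List.map_nil, Ltw_w, Ltw_w,
      Ltw_w, (h1 _).2]
  refine Ltw_mkL D.cx (xs x) (Lt0 N a) Ltw_nd0 D.lo (D.tw u hu) (D.tw v hv) ?_ k ?_ ?_ ?_ ?_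
  · by_cases huv : u = v
    · left
      rw [huv]
    · right
      rintro ⟨b, hb1, hb2⟩
      obtain ⟨q1, q2⟩ := Ltw_lt1.mp hu
      obtain ⟨q3, q4⟩ := Ltw_lt1.mp hv
      have hxs : ∀ l (h : l < g), xs x l = x ⟨l, h⟩ := fun l h => by simp [xs, h]
      have e1 : a ⟨u, q1⟩ % N = b % N := T4 _ _ _ (D.ty u q1) hb1 (by rw [hxs u q1]; exact D.x0 _)
      have e2 : a ⟨v, q3⟩ % N = b % N := T4 _ _ _ (D.ty v q3) hb2 (by rw [hxs v q3]; exact D.x0 _)
      exact D.same (Lt0 N a) [] ⟨u, q1⟩ ⟨v, q3⟩ hν D.lo (fun h => huv (congrArg Fin.val h))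
        (hdis u hu) (hdis v hv) (by simp) (by simp) (e1.trans e2.symm) q4
  · rw [← hval]
    exact D.mem
  · rw [← hval]
    exact D.ne
  · intro hk l hl
    have h2 := D.k0 hk l hl
    have hu' : u ≠ l := by rintro rfl; exact hdis _ hu hl
    have hv' : v ≠ l := by rintro rfl; exact hdis _ hv hl
    rw [hval, Function.update_of_ne hu', Function.update_of_ne hv'] at h2
    exact h2
  · refine D.gen _ (Or.inl (Or.inl rfl)) (fun l hl => Or.inl (Or.inr ⟨l, hl, rfl⟩)) ?_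
    intro l hl
    rcases hall l hl with rfl | rfl
    · exact Or.inr (Or.inl rfl)
    · exact Or.inr (Or.inr rfl)

end ltw

theorem thm_Ltw (hTyp : St_Typ) (hRlz : St_Rlz) (hRlv : St_Rlv) (hWpn : St_Wpn) : St_Ltw := by
  intro n p N R _ _ e H hH hf g a C ν ha hν hF hg
  have hcs := Ltw_cases hν
  have hνn : ν ≠ [] := by
    rcases hcs with ⟨z, -, rfl | rfl | rfl⟩ | ⟨x, y, -, rfl | rfl | ⟨-, rfl | rfl | rfl⟩⟩ |
      ⟨x, y, z, -, -, rfl | rfl | rfl⟩ <;> simp
  obtain ⟨t, x, k, D⟩ := Ltw_data hTyp hRlv hWpn hH hf hνn hF hg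
  have h1 := D.fr.one
  obtain ⟨T1, T2, T3, T4, T5, T6, T7, T8, T9⟩ := hTyp n p N R e t D.fr
  obtain ⟨-, -, -, -, -, -, r7, -⟩ := hRlz n p N R e t D.fr
  have hdis : ∀ l ∈ Lt1 N a, l ∉ Lt0 N a := by
    intro l q1 q2
    obtain ⟨h2, h3⟩ := Ltw_lt1.mp q1
    obtain ⟨h4, h5⟩ := Ltw_lt0.mp q2
    exact h3 h5
  have hxs : ∀ l (h : l < g), xs x l = x ⟨l, h⟩ := fun l h => by simp [xs, h]
  have h3v : ∀ i j l : ℕ, ν = [i, j, l] → xs x i * xs x j * xs x l ≠ 0 := by
    intro i j l h2 h3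
    apply D.ne
    rw [h2, List.map_cons, List.map_cons, List.map_cons, List.map_nil, Ltw_w, Ltw_w, Ltw_w, Ltw_w,
      (h1 _).2, ← mul_assoc, h3, smul_zero]
  rcases hcs with ⟨z, hz, hν2⟩ | ⟨i, j, hz, hν2⟩ | ⟨i, j, l, hz, h0, hν2⟩
  · have hzm : z ∈ Lt1 N a := by rw [hz]; simp
    have hall : ∀ l ∈ Lt1 N a, l = z := by
      intro l hl
      rw [hz] at hl
      simpa using hl
    rcases hν2 with hν2 | hν2 | hν2
    · left
      have hval : ∀ f : ℕ → R, Ltw_w e (ν.map f) = Ltw_w e ((Lt0 N a).map f) * f z := by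
        intro f
        rw [hν2, List.map_append, Ltw_app h1, List.map_cons, List.map_nil, Ltw_w, Ltw_w, (h1 _).2]
      refine Ltw_mkT D.cx (xs x) (Lt0 N a) Ltw_nd0 D.lo (D.tw z hzm) k ?_ ?_ ?_ ?_
      · rw [← hval]
        exact D.mem
      · rw [← hval]
        exact D.ne
      · intro hk l hl
        have h2 := D.k0 hk l hl
        have hz' : z ≠ l := by rintro rfl; exact hdis _ hzm hl
        rw [hval, Function.update_of_ne hz'] at h2
        exact h2
      · refine D.gen _ (Or.inl (Or.inl rfl)) (fun l hl => Or.inl (Or.inr ⟨l, hl, rfl⟩)) ?_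
        intro l hl
        rw [hall l hl]
        exact Or.inr rfl
    · right; left
      have hval : ∀ f : ℕ → R, Ltw_w e (ν.map f) = f z * Ltw_w e ((Lt0 N a).map f) := by
        intro f
        rw [hν2, List.map_append, Ltw_app h1, List.map_cons, List.map_nil, Ltw_w, Ltw_w, (h1 _).2]
      refine Ltw_mkTop D.fr.cy D.cx (xs x) (Lt0 N a) Ltw_nd0 D.lo (D.tw z hzm) ?_ k ?_ ?_ ?_ ?_
      · obtain ⟨q1, q2⟩ := Ltw_lt1.mp hzm
        have hz0 : xs x z ≠ 0 := by rw [hxs z q1]; exact D.x0 _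
        have hN : 1 < N := by
          rcases Nat.lt_or_ge 1 N with h | h
          · exact h
          · exfalso
            have hN1 : N = 1 := le_antisymm h D.fr.n1
            rw [hN1, Nat.mod_one] at q2
            exact q2 rfl
        obtain ⟨m, -, hm⟩ := Nat.exists_mul_mod_eq_one_of_coprime (T5 _ _ (D.ty z q1) hz0) hN
        have hm0 : m ≠ 0 := by
          rintro rfl
          simp at hm
        refine ⟨m - 1, ?_⟩
        have h2 := T1 _ _ m (D.ty z q1)
        rw [mul_comm m, ← Sep_te_mod D.fr ((a ⟨z, q1⟩ + 1) * m), hm, Sep_te_one h1] at h2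
        rw [← h2]
        congr 1
        rw [← Sep_te_pw h1]
        congr 1
        omega
      · rw [← hval]
        exact D.mem
      · rw [← hval]
        exact D.ne
      · intro hk l hl
        have h2 := D.k0 hk l hl
        have hz' : z ≠ l := by rintro rfl; exact hdis _ hzm hl
        rw [hval, Function.update_of_ne hz'] at h2
        exact h2
      · refine D.gen _ (Or.inl (Or.inl rfl)) (fun l hl => Or.inl (Or.inr ⟨l, hl, rfl⟩)) ?_
        intro l hl
        rw [hall l hl]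
        exact Or.inr rfl
    · right; right; left
      exact Ltw_L hTyp D hν2 hzm hzm fun l hl => Or.inl (hall l hl)
  · have him : i ∈ Lt1 N a := by rw [hz]; simp
    have hjm : j ∈ Lt1 N a := by rw [hz]; simp
    have hall : ∀ l ∈ Lt1 N a, l = i ∨ l = j := by
      intro l hl
      rw [hz] at hl
      simpa using hl
    rcases hν2 with hν2 | hν2 | ⟨h0, hν2⟩
    · right; right; left
      exact Ltw_L hTyp D hν2 him hjm hall
    · right; right; left
      exact Ltw_L hTyp D hν2 hjm him fun l hl => (hall l hl).symm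
    · right; right; right
      have ti := D.tw i him
      have tj := D.tw j hjm
      rcases hν2 with hν2 | hν2 | hν2
      · refine Ltw_E hRlz D h0 ti ti tj (h3v _ _ _ hν2) (Or.inl rfl) ?_
        intro l hl
        rcases hall l hl with rfl | rfl
        · exact Or.inr (Or.inl rfl)
        · exact Or.inr (Or.inr (Or.inr rfl))
      · refine Ltw_E hRlz D h0 tj tj ti ?_ (Or.inl rfl) ?_
        · intro h2
          have h3 := (r7 _ _ _ ti tj tj).1
          rw [h2, add_zero] at h3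
          exact h3v _ _ _ hν2 h3
        · intro l hl
          rcases hall l hl with rfl | rfl
          · exact Or.inr (Or.inr (Or.inr rfl))
          · exact Or.inr (Or.inl rfl)
      · refine Ltw_E hRlz D h0 ti tj ti (h3v _ _ _ hν2) (Or.inr (Or.inl rfl)) ?_
        intro l hl
        rcases hall l hl with rfl | rfl
        · exact Or.inr (Or.inl rfl)
        · exact Or.inr (Or.inr (Or.inl rfl))
  · have him : i ∈ Lt1 N a := by rw [hz]; simp
    have hjm : j ∈ Lt1 N a := by rw [hz]; simp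
    have hlm : l ∈ Lt1 N a := by rw [hz]; simp
    have hnd := Ltw_nd1 (N := N) (a := a)
    rw [hz] at hnd
    have hij : i ≠ j := by rintro rfl; simp at hnd
    have hil : i ≠ l := by rintro rfl; simp at hnd
    have hjl : j ≠ l := by rintro rfl; simp at hnd
    have hall : ∀ m ∈ Lt1 N a, m = i ∨ m = j ∨ m = l := by
      intro m hm
      rw [hz] at hm
      simpa using hm
    -- a word of three different letters
    have key : ∀ u v w : ℕ, u ∈ Lt1 N a → v ∈ Lt1 N a → w ∈ Lt1 N a → u ≠ v → u ≠ w → v ≠ w →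
        ν = [u, v, w] → (∀ m ∈ Lt1 N a, m = u ∨ m = v ∨ m = w) → LtE R n := by
      intro u v w hu hv hw huv huw hvw hν3 hal
      refine Ltw_E hRlz D h0 (D.tw u hu) (D.tw v hv) (D.tw w hw) (h3v _ _ _ hν3)
        (Or.inr (Or.inr ?_)) ?_
      · rintro ⟨b, hb1, hb2⟩
        obtain ⟨q1, q2⟩ := Ltw_lt1.mp hu
        obtain ⟨q3, q4⟩ := Ltw_lt1.mp hv
        have e1 : a ⟨u, q1⟩ % N = b % N :=
          T4 _ _ _ (D.ty u q1) hb1 (by rw [hxs u q1]; exact D.x0 _)
        have e2 : a ⟨v, q3⟩ % N = b % N :=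
          T4 _ _ _ (D.ty v q3) hb2 (by rw [hxs v q3]; exact D.x0 _)
        exact D.same [] [w] ⟨u, q1⟩ ⟨v, q3⟩ hν3 (by simp) (fun h => huv (congrArg Fin.val h))
          (by simp) (by simp) (by simpa using huw) (by simpa using hvw) (e1.trans e2.symm) q4
      · intro m hm
        rcases hal m hm with rfl | rfl | rfl
        · exact Or.inr (Or.inl rfl)
        · exact Or.inr (Or.inr (Or.inl rfl))
        · exact Or.inr (Or.inr (Or.inr rfl))
    right; right; right
    rcases hν2 with hν2 | hν2 | hν2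
    · exact key i j l him hjm hlm hij hil hjl hν2 hall
    · refine key j i l hjm him hlm hij.symm hjl hil hν2 fun m hm => ?_
      rcases hall m hm with h | h | h
      · exact Or.inr (Or.inl h)
      · exact Or.inl h
      · exact Or.inr (Or.inr h)
    · refine key i l j him hlm hjm hil hij hjl.symm hν2 fun m hm => ?_
      rcases hall m hm with h | h | h
      · exact Or.inl h
      · exact Or.inr (Or.inr h)
      · exact Or.inr (Or.inl h)

end Pool.Agent.CRP
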