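import Pool.Agent.CRP.St
import Pool.Agent.CRM.All

/-!
Campaign CRP, module Mfp: the theorem from the statements of the other modules.
-/

set_option autoImplicit false

namespace Pool.Agent.CRP

open Pool.Agent.CRR Pool.Agent.CRN Pool.Agent.CRK Pool.Agent.CRL Pool.Agent.CRM

/-- Local critical rings. -/
def St_Lfw : Prop := ∀ (n p : ℕ) (R : Type) [NonUnitalRing R] [Finite R], Cy R n p →
  ∀ e : R, Prm R e → (∀ x, e * x = x ∧ x * e = x) → Critical R → Twl R n ∨ CFl R n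

theorem thm_Lfw (hLfx : St_Lfx) (hSpf : St_Spf) (hLtw : St_Ltw) (hCen : St_Cen) : St_Lfw := by
  intro n p R _ _ hC e he h1 hcr
  obtain ⟨N, ⟨t₀, ht₀⟩, hN⟩ := hLfx n p R hC e he h1
  obtain ⟨-, p', H, hp', hpr', hH, g, a, L, hgk, hgen, hL, hinv, hne⟩ :=
    CRM.lff n p R hC e he h1 hcr
  have hpp : p' = p := by
    obtain ⟨r, hr⟩ := hC.pr
    obtain ⟨r', hr'⟩ := hpr'
    by_contra hne'
    have hcop : Nat.Coprime (p' ^ r') (p ^ r) :=
      Nat.Coprime.pow _ _ ((Nat.coprime_primes hp' hC.pp).2 hne')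
    have he0 : e ≠ 0 := he.2.1
    apply he0
    have h1' := hr e
    have h2' := hr' e
    have h3 : addOrderOf e ∣ 1 := by
      have ha : addOrderOf e ∣ p ^ r := addOrderOf_dvd_of_nsmul_eq_zero h1'
      have hb : addOrderOf e ∣ p' ^ r' := addOrderOf_dvd_of_nsmul_eq_zero h2'
      have := Nat.dvd_gcd hb ha
      rwa [hcop] at this
    have h4 : addOrderOf e = 1 := Nat.dvd_one.1 h3
    exact AddMonoid.addOrderOf_eq_one_iff.1 h4
  subst hpp
  by_cases ha : ∃ i, a i % N ≠ 0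
  · left
    obtain ⟨C, ν, hν, hF⟩ := hSpf n p' N R e t₀ ht₀ H hH g a L ha
      (fun q hq => ⟨(hL q hq).2.1, (hL q hq).2.2.1⟩) hinv hne
    exact hLtw n p' N R e H hH ⟨t₀, ht₀⟩ g a C ν ha hν hF hgen
  · right
    push Not at ha
    exact hCen n p' N R e t₀ ht₀ H hH g a L ha hgen hL hinv hne

/-- The theorem. -/
def St_Mfp : Prop := ∀ n : ℕ, 4 ≤ n → ∀ (R : Type) [NonUnitalRing R] [Finite R], InM n R →
  (Critical R ↔ MatType R 2 ∨ MatType R 3 ∨ TriType R ∨ TriType Rᵐᵒᵖ ∨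
    (¬ Twn R ∧ (PthType R n ∨ PthType Rᵐᵒᵖ n ∨ Twl R n ∨ CFl R n ∨ NFl R)))

theorem thm_Mfp (hLfw : St_Lfw) (hLtt : St_Ltt) (hLtl : St_Ltl) (hLte : St_Lte)
    (hCfb : St_Cfb) : St_Mfp := by
  intro n hn R _ _ hM
  have hfo : Finite Rᵐᵒᵖ := Finite.of_equiv R MulOpposite.opEquiv
  have hcy : ¬ Twn R → ∀ H : AddSubgroup R, Lst R H → ∃ p, Cy R n p := by
    intro hT H hH
    obtain ⟨p, r, hp, hr, -⟩ := CRN.thm_Ppw R H hH
    exact ⟨p, hn, hM, hT, hp, r, hr⟩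
  have hMo : InM n Rᵐᵒᵖ := (CRN.thm_Opp R).2.1 n hM
  constructor
  · intro hc
    by_cases hT : Twn R
    · rcases CRN.twg n hn R hM (CRN.thm_Sir R hc) hT with h | h | h | h
      · exact Or.inl h
      · exact Or.inr (Or.inl h)
      · exact Or.inr (Or.inr (Or.inl h))
      · exact Or.inr (Or.inr (Or.inr (Or.inl h)))
    · obtain ⟨H, hH⟩ := CRN.thm_Sir R hc
      obtain ⟨p, hC⟩ := hcy hT H hH
      refine Or.inr (Or.inr (Or.inr (Or.inr ⟨hT, ?_⟩)))
      rcases CRM.fwp n p R hC hc with h | h | h | ⟨e, he, h1⟩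
      · exact Or.inl h
      · exact Or.inr (Or.inl h)
      · exact Or.inr (Or.inr (Or.inr (Or.inr (CRM.nff n p R hC h hc))))
      · rcases hLfw n p R hC e he h1 hc with h | h
        · exact Or.inr (Or.inr (Or.inl h))
        · exact Or.inr (Or.inr (Or.inr (Or.inl h)))
  · rintro (h | h | h | h | ⟨hT, h | h | h | h | h⟩)
    · exact CRN.cm2 n hn R hM h
    · exact CRN.cm3 n hn R hM h
    · exact CRN.ctr n hn R hM h
    · exact (CRN.thm_Opp R).1 (CRN.ctr n hn Rᵐᵒᵖ hMo h)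
    · exact CRM.cvp n R hn hM hT h
    · exact (CRN.thm_Opp R).1 (CRM.cvp n Rᵐᵒᵖ hn hMo
        (fun h' => hT ((CRN.thm_Opp R).2.2.1 h')) h)
    · rcases h with h | h | h | h
      · exact hLtt n R hn hM hT h
      · exact (CRN.thm_Opp R).1 (hLtt n Rᵐᵒᵖ hn hMo
          (fun h' => hT ((CRN.thm_Opp R).2.2.1 h')) h)
      · exact hLtl n R hn hM hT h
      · exact hLte n R hn hM hT h
    · exact hCfb n R hn hM hT h
    · exact CRM.nfb R h

end Pool.Agent.CRP
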