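import Pool.Agent.CRP.St

/-!
Campaign CRP, module Nrm: normal words.
-/

set_option autoImplicit false

namespace Pool.Agent.CRP

open Pool.Agent.CRR Pool.Agent.CRN Pool.Agent.CRK Pool.Agent.CRL Pool.Agent.CRM

section rules

variable {R : Type} [NonUnitalRing R]

/-- the product, `e` for the empty list -/
def Nrm_w (e : R) (l : List R) : R := l.foldr (fun x y => x * y) e

theorem Nrm_w_nil (e : R) : Nrm_w e [] = e := rfl

theorem Nrm_w_cons (e x : R) (l : List R) : Nrm_w e (x :: l) = x * Nrm_w e l := rfl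

theorem Nrm_w_app {e : R} (he : ∀ x, e * x = x) (l l' : List R) :
    Nrm_w e (l ++ l') = Nrm_w e l * Nrm_w e l' := by
  induction l with
  | nil => rw [List.nil_append, Nrm_w_nil, he]
  | cons x l ih => rw [List.cons_append, Nrm_w_cons, Nrm_w_cons, ih, mul_assoc]

theorem Nrm_w_wp {e : R} (he : ∀ x, x * e = x) : ∀ l : List R, l ≠ [] → wp l = Nrm_w e l
  | [], h => absurd rfl h
  | [x], _ => by
    rw [Nrm_w_cons, Nrm_w_nil, he]
    rfl
  | x :: y :: l, _ => by
    rw [Nrm_w_cons, ← Nrm_w_wp he (y :: l) (List.cons_ne_nil _ _)]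
    rfl

/-- zero or twisted -/
def Nrm_T (t x : R) : Prop := x = 0 ∨ Tt t x

/-- the rules -/
structure Nrm_R (e t : R) : Prop where
  one : ∀ x : R, e * x = x ∧ x * e = x
  lo : ∀ x y, Lo t x → Lo t y → Lo t (x * y)
  r1 : ∀ x y z, Nrm_T t x → Lo t y → Nrm_T t z → x * y * z = 0
  r2 : ∀ x y z, Lo t x → Nrm_T t y → Lo t z → x * y * z = 0
  r3 : ∀ x y z, Lo t x → Lo t y → Nrm_T t z → x * y * z = -(y * x * z)
  r3' : ∀ x z, Lo t x → Nrm_T t z → x * x * z = 0
  r4 : ∀ x y z, Nrm_T t x → Lo t y → Lo t z → x * y * z = -(x * z * y)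
  r4' : ∀ x y, Nrm_T t x → Lo t y → x * y * y = 0
  r5 : ∀ c x y, Lo t c → Nrm_T t x → Nrm_T t y → x * y * c = -(c * x * y)
  r7 : ∀ x y z, Nrm_T t x → Nrm_T t y → Nrm_T t z → x * y * z = -(z * y * x)
  r8 : ∀ x y, Nrm_T t x → Nrm_T t y → x * y * x = -(y * x * y)
  v1 : ∀ c x, Lo t c → Nrm_T t x → Nrm_T t (c * x)
  v1' : ∀ c x, Lo t c → Nrm_T t x → Nrm_T t (x * c)
  v3 : ∀ x y z w, Nrm_T t x → Nrm_T t y → Nrm_T t z → Nrm_T t w → x * y * z * w = 0
  v4 : ∀ c x y z, Lo t c → Nrm_T t x → Nrm_T t y → Nrm_T t z → c * x * y * z = 0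
  v4' : ∀ c x y z, Lo t c → Nrm_T t x → Nrm_T t y → Nrm_T t z → x * y * z * c = 0
  cu : ∀ x, Nrm_T t x → x * x * x = 0

theorem Nrm_rules [Finite R] (hT : St_Typ) (hZ : St_Rlz) (hV : St_Rlv) {n p N : ℕ} {e t : R}
    (h : Lfr n p N e t) : Nrm_R e t := by
  obtain ⟨-, -, -, -, -, -, -, hLo, -⟩ := hT n p N R e t h
  obtain ⟨z1, z2, z3, z4, z5, z6, z7, z8⟩ := hZ n p N R e t h
  obtain ⟨v1, -, v3, v4, -, -⟩ := hV n p N R e t h
  refine ⟨h.one, fun x y hx hy => (hLo x y hx hy).1, ?_, ?_, ?_, ?_, ?_, ?_, ?_, ?_, ?_, ?_, ?_,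
    ?_, ?_, ?_, ?_⟩
  · rintro x y z (rfl | hx) hy hz
    · rw [zero_mul, zero_mul]
    · rcases hz with rfl | hz
      · rw [mul_zero]
      · exact z1 x y z hx hy hz
  · rintro x y z hx (rfl | hy) hz
    · rw [mul_zero, zero_mul]
    · exact z2 x y z hx hy hz
  · rintro x y z hx hy (rfl | hz)
    · rw [mul_zero, mul_zero, neg_zero]
    · exact eq_neg_of_add_eq_zero_left (z3 x y z hx hy hz).1
  · rintro x z hx (rfl | hz)
    · rw [mul_zero]
    · exact (z3 x x z hx hx hz).2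
  · rintro x y z (rfl | hx) hy hz
    · simp only [zero_mul, neg_zero]
    · exact eq_neg_of_add_eq_zero_left (z4 x y z hx hy hz).1
  · rintro x y (rfl | hx) hy
    · simp only [zero_mul]
    · exact (z4 x y y hx hy hy).2
  · rintro c x y hc (rfl | hx) hy
    · simp only [zero_mul, mul_zero, neg_zero]
    · rcases hy with rfl | hy
      · simp only [zero_mul, mul_zero, neg_zero]
      · rcases z6 x y c hx hy hc with h6 | h6
        · rcases z5 c x y hc hx hy with h5 | h5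
          · rw [h6, h5, neg_zero]
          · have h7 := h5.2
            rw [h6, add_zero] at h7
            rw [h6, h7, neg_zero]
        · exact eq_neg_of_add_eq_zero_left h6.2
  · rintro x y z (rfl | hx) hy hz
    · simp only [zero_mul, mul_zero, neg_zero]
    · rcases hy with rfl | hy
      · simp only [zero_mul, mul_zero, neg_zero]
      · rcases hz with rfl | hz
        · simp only [zero_mul, mul_zero, neg_zero]
        · exact eq_neg_of_add_eq_zero_left (z7 x y z hx hy hz).1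
  · rintro x y (rfl | hx) hy
    · simp only [zero_mul, mul_zero, neg_zero]
    · rcases hy with rfl | hy
      · simp only [zero_mul, mul_zero, neg_zero]
      · exact eq_neg_of_add_eq_zero_left (z8 x y hx hy).1
  · rintro c x hc (rfl | hx)
    · left
      rw [mul_zero]
    · exact (v1 c x hc hx).1
  · rintro c x hc (rfl | hx)
    · left
      rw [zero_mul]
    · exact (v1 c x hc hx).2.1
  · rintro x y z w (rfl | hx) hy hz hw
    · simp only [zero_mul]
    · rcases hy with rfl | hy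
      · simp only [zero_mul, mul_zero]
      · rcases hz with rfl | hz
        · simp only [zero_mul, mul_zero]
        · rcases hw with rfl | hw
          · simp only [mul_zero]
          · exact v3 x y z w hx hy hz hw
  · rintro c x y z hc (rfl | hx) hy hz
    · simp only [zero_mul, mul_zero]
    · rcases hy with rfl | hy
      · simp only [zero_mul, mul_zero]
      · rcases hz with rfl | hz
        · simp only [mul_zero]
        · exact (v4 c x y z hc hx hy hz).1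
  · rintro c x y z hc (rfl | hx) hy hz
    · simp only [zero_mul]
    · rcases hy with rfl | hy
      · simp only [zero_mul, mul_zero]
      · rcases hz with rfl | hz
        · simp only [zero_mul, mul_zero]
        · exact (v4 c x y z hc hx hy hz).2
  · rintro x (rfl | hx)
    · simp only [mul_zero]
    · exact hx.1

variable {e t : R}

theorem Nrm_lo (h : Nrm_R e t) : ∀ l : List R, l ≠ [] → (∀ x ∈ l, Lo t x) → Lo t (Nrm_w e l)
  | [], h', _ => absurd rfl h'
  | [x], _, hx => by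
    rw [Nrm_w_cons, Nrm_w_nil, (h.one x).2]
    exact hx x (List.mem_singleton.2 rfl)
  | x :: y :: l, _, hx => by
    rw [Nrm_w_cons]
    exact h.lo _ _ (hx x List.mem_cons_self) (Nrm_lo h (y :: l) (List.cons_ne_nil _ _)
      fun z hz => hx z (List.mem_cons_of_mem _ hz))

theorem Nrm_tL (h : Nrm_R e t) {x : R} (hx : Nrm_T t x) : ∀ l : List R, (∀ y ∈ l, Lo t y) →
    Nrm_T t (Nrm_w e l * x)
  | [], _ => by
    rw [Nrm_w_nil, (h.one x).1]
    exact hx
  | y :: l, hl => by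
    rw [Nrm_w_cons, mul_assoc]
    exact h.v1 _ _ (hl y List.mem_cons_self) (Nrm_tL h hx l fun z hz =>
      hl z (List.mem_cons_of_mem _ hz))

end rules

section perm

variable {R : Type} [NonUnitalRing R]

theorem Nrm_permL (e : R) {A B : List ℕ} (hAB : A.Perm B) : ∃ s : ℤ, ∀ (t : R) (Y : ℕ → R),
    Nrm_R e t → (∀ i ∈ A, Lo t (Y i)) → ∀ x, Nrm_T t x →
    Nrm_w e (A.map Y) * x = s • (Nrm_w e (B.map Y) * x) := by
  induction hAB with
  | nil => exact ⟨1, fun t Y _ _ x _ => (one_zsmul _).symm⟩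
  | cons a h ih =>
    obtain ⟨s, hs⟩ := ih
    refine ⟨s, fun t Y hR hlo x hx => ?_⟩
    rw [List.map_cons, List.map_cons, Nrm_w_cons, Nrm_w_cons, mul_assoc, mul_assoc,
      hs t Y hR (fun i hi => hlo i (List.mem_cons_of_mem _ hi)) x hx, mul_smul_comm]
  | swap a b l =>
    refine ⟨-1, fun t Y hR hlo x hx => ?_⟩
    have ha : Lo t (Y a) := hlo a (List.mem_cons_of_mem _ List.mem_cons_self)
    have hb : Lo t (Y b) := hlo b List.mem_cons_self
    have hl : ∀ y ∈ l.map Y, Lo t y := by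
      intro y hy
      obtain ⟨i, hi, rfl⟩ := List.mem_map.1 hy
      exact hlo i (List.mem_cons_of_mem _ (List.mem_cons_of_mem _ hi))
    have h1 := hR.r3 _ _ _ hb ha (Nrm_tL hR hx _ hl)
    simp only [List.map_cons, Nrm_w_cons]
    rw [neg_one_zsmul]
    simp only [mul_assoc] at h1 ⊢
    exact h1
  | trans h1 h2 ih1 ih2 =>
    obtain ⟨s1, hs1⟩ := ih1
    obtain ⟨s2, hs2⟩ := ih2
    refine ⟨s1 * s2, fun t Y hR hlo x hx => ?_⟩
    rw [hs1 t Y hR hlo x hx, hs2 t Y hR (fun i hi => hlo i (h1.mem_iff.2 hi)) x hx, mul_smul]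

theorem Nrm_permR (e : R) {A B : List ℕ} (hAB : A.Perm B) : ∃ s : ℤ, ∀ (t : R) (Y : ℕ → R),
    Nrm_R e t → (∀ i ∈ A, Lo t (Y i)) → ∀ x, Nrm_T t x →
    x * Nrm_w e (A.map Y) = s • (x * Nrm_w e (B.map Y)) := by
  induction hAB with
  | nil => exact ⟨1, fun t Y _ _ x _ => (one_zsmul _).symm⟩
  | cons a h ih =>
    obtain ⟨s, hs⟩ := ih
    refine ⟨s, fun t Y hR hlo x hx => ?_⟩
    rw [List.map_cons, List.map_cons, Nrm_w_cons, Nrm_w_cons, ← mul_assoc, ← mul_assoc,
      hs t Y hR (fun i hi => hlo i (List.mem_cons_of_mem _ hi)) (x * Y a)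
        (hR.v1' _ _ (hlo a List.mem_cons_self) hx)]
  | swap a b l =>
    refine ⟨-1, fun t Y hR hlo x hx => ?_⟩
    have ha : Lo t (Y a) := hlo a (List.mem_cons_of_mem _ List.mem_cons_self)
    have hb : Lo t (Y b) := hlo b List.mem_cons_self
    have h1 := hR.r4 x _ _ hx hb ha
    simp only [List.map_cons, Nrm_w_cons]
    rw [neg_one_zsmul, ← mul_assoc, ← mul_assoc, ← mul_assoc, ← mul_assoc, h1, neg_mul]
  | trans h1 h2 ih1 ih2 =>
    obtain ⟨s1, hs1⟩ := ih1
    obtain ⟨s2, hs2⟩ := ih2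
    refine ⟨s1 * s2, fun t Y hR hlo x hx => ?_⟩
    rw [hs1 t Y hR hlo x hx, hs2 t Y hR (fun i hi => hlo i (h1.mem_iff.2 hi)) x hx, mul_smul]

theorem Nrm_dup {A : List ℕ} (hA : ¬ A.Nodup) : ∃ (c : ℕ) (l : List ℕ), A.Perm (c :: c :: l) := by
  obtain ⟨c, hc⟩ := List.exists_duplicate_iff_not_nodup.2 hA
  obtain ⟨l, hl⟩ := (List.duplicate_iff_sublist.1 hc).exists_perm_append
  exact ⟨c, l, hl⟩

theorem Nrm_dupL {e : R} {A : List ℕ} (hA : ¬ A.Nodup) {t : R} {Y : ℕ → R} (hR : Nrm_R e t)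
    (hlo : ∀ i ∈ A, Lo t (Y i)) {x : R} (hx : Nrm_T t x) : Nrm_w e (A.map Y) * x = 0 := by
  obtain ⟨c, l, hl⟩ := Nrm_dup hA
  obtain ⟨s, hs⟩ := Nrm_permL e hl
  rw [hs t Y hR hlo x hx]
  have hlo' : ∀ i ∈ c :: c :: l, Lo t (Y i) := fun i hi => hlo i (hl.mem_iff.2 hi)
  have hc : Lo t (Y c) := hlo' c List.mem_cons_self
  have hl' : ∀ y ∈ l.map Y, Lo t y := by
    intro y hy
    obtain ⟨i, hi, rfl⟩ := List.mem_map.1 hy
    exact hlo' i (List.mem_cons_of_mem _ (List.mem_cons_of_mem _ hi))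
  have h1 := hR.r3' _ _ hc (Nrm_tL hR hx _ hl')
  simp only [List.map_cons, Nrm_w_cons]
  simp only [mul_assoc] at h1 ⊢
  rw [h1, smul_zero]

theorem Nrm_dupR {e : R} {A : List ℕ} (hA : ¬ A.Nodup) {t : R} {Y : ℕ → R} (hR : Nrm_R e t)
    (hlo : ∀ i ∈ A, Lo t (Y i)) {x : R} (hx : Nrm_T t x) : x * Nrm_w e (A.map Y) = 0 := by
  obtain ⟨c, l, hl⟩ := Nrm_dup hA
  obtain ⟨s, hs⟩ := Nrm_permR e hl
  rw [hs t Y hR hlo x hx]
  have hlo' : ∀ i ∈ c :: c :: l, Lo t (Y i) := fun i hi => hlo i (hl.mem_iff.2 hi)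
  have hc : Lo t (Y c) := hlo' c List.mem_cons_self
  have h1 := hR.r4' _ _ hx hc
  simp only [List.map_cons, Nrm_w_cons]
  rw [← mul_assoc, ← mul_assoc, h1, zero_mul, smul_zero]

end perm

section words

variable {R : Type} [NonUnitalRing R]

/-- the values of the letters: loops for the letters in `L0`, twisted or zero for those in `L1` -/
structure Nrm_G (e : R) (L0 L1 : List ℕ) (t : R) (Y : ℕ → R) : Prop where
  ru : Nrm_R e t
  lo : ∀ i ∈ L0, Lo t (Y i)
  tw : ∀ i ∈ L1, Nrm_T t (Y i)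

/-- the value of a word is always zero -/
def Nrm_Z (e : R) (L0 L1 : List ℕ) (w : List ℕ) : Prop :=
  ∀ (t : R) (Y : ℕ → R), Nrm_G e L0 L1 t Y → Nrm_w e (w.map Y) = 0

/-- the value of a word is a multiple of the value of the other -/
def Nrm_E (e : R) (L0 L1 : List ℕ) (w w' : List ℕ) : Prop :=
  ∃ s : ℤ, ∀ (t : R) (Y : ℕ → R), Nrm_G e L0 L1 t Y → Nrm_w e (w.map Y) = s • Nrm_w e (w'.map Y)

variable {e : R} {L0 L1 : List ℕ}

theorem Nrm_E_refl (w : List ℕ) : Nrm_E e L0 L1 w w := ⟨1, fun _ _ _ => (one_zsmul _).symm⟩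

theorem Nrm_E_trans {w w' w'' : List ℕ} (h : Nrm_E e L0 L1 w w') (h' : Nrm_E e L0 L1 w' w'') :
    Nrm_E e L0 L1 w w'' := by
  obtain ⟨s, hs⟩ := h
  obtain ⟨s', hs'⟩ := h'
  exact ⟨s * s', fun t Y hG => by rw [hs t Y hG, hs' t Y hG, mul_smul]⟩

theorem Nrm_Z_of {w w' : List ℕ} (h : Nrm_E e L0 L1 w w') (h' : Nrm_Z e L0 L1 w') :
    Nrm_Z e L0 L1 w := by
  obtain ⟨s, hs⟩ := h
  exact fun t Y hG => by rw [hs t Y hG, h' t Y hG, smul_zero]

/-- three twisted letters -/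
theorem Nrm_E3 {x y z : ℕ} (hx : x ∈ L1) (hy : y ∈ L1) (hz : z ∈ L1) :
    Nrm_E e L0 L1 [x, y, z] [z, y, x] := by
  refine ⟨-1, fun t Y hG => ?_⟩
  have h1 := hG.ru.r7 _ _ _ (hG.tw x hx) (hG.tw y hy) (hG.tw z hz)
  simp only [List.map_cons, List.map_nil, Nrm_w_cons, Nrm_w_nil, (hG.ru.one _).2]
  rw [neg_one_zsmul, ← mul_assoc, ← mul_assoc]
  exact h1

theorem Nrm_E3' {x y : ℕ} (hx : x ∈ L1) (hy : y ∈ L1) :
    Nrm_E e L0 L1 [x, y, x] [y, x, y] := by
  refine ⟨-1, fun t Y hG => ?_⟩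
  have h1 := hG.ru.r8 _ _ (hG.tw x hx) (hG.tw y hy)
  simp only [List.map_cons, List.map_nil, Nrm_w_cons, Nrm_w_nil, (hG.ru.one _).2]
  rw [neg_one_zsmul, ← mul_assoc, ← mul_assoc]
  exact h1

theorem Nrm_Z3 {x : ℕ} (hx : x ∈ L1) : Nrm_Z e L0 L1 [x, x, x] := by
  intro t Y hG
  have h1 := hG.ru.cu _ (hG.tw x hx)
  simp only [List.map_cons, List.map_nil, Nrm_w_cons, Nrm_w_nil, (hG.ru.one _).2]
  rw [← mul_assoc]
  exact h1

/-- the loops before twisted letters -/
theorem Nrm_front (h0 : L0.Nodup) {A : List ℕ} (hA : ∀ i ∈ A, i ∈ L0) (hA' : ∀ i ∈ L0, i ∈ A)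
    {x : ℕ} (hx : x ∈ L1) (r : List ℕ) :
    Nrm_Z e L0 L1 (A ++ x :: r) ∨ Nrm_E e L0 L1 (A ++ x :: r) (L0 ++ x :: r) := by
  by_cases hn : A.Nodup
  · right
    have hp : A.Perm L0 := (List.perm_ext_iff_of_nodup hn h0).2 fun i => ⟨hA i, hA' i⟩
    obtain ⟨s, hs⟩ := Nrm_permL e hp
    refine ⟨s, fun t Y hG => ?_⟩
    have h1 := hs t Y hG.ru (fun i hi => hG.lo i (hA i hi)) (Y x) (hG.tw x hx)
    have he : ∀ x, e * x = x := fun x => (hG.ru.one x).1
    rw [List.map_append, List.map_append, Nrm_w_app he, Nrm_w_app he, List.map_cons, Nrm_w_cons,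
      ← mul_assoc, ← mul_assoc, h1, smul_mul_assoc]
  · left
    intro t Y hG
    have h1 := Nrm_dupL hn hG.ru (fun i hi => hG.lo i (hA i hi)) (hG.tw x hx)
    have he : ∀ x, e * x = x := fun x => (hG.ru.one x).1
    rw [List.map_append, Nrm_w_app he, List.map_cons, Nrm_w_cons, ← mul_assoc, h1, zero_mul]

/-- the loops after a twisted letter -/
theorem Nrm_back (h0 : L0.Nodup) {A : List ℕ} (hA : ∀ i ∈ A, i ∈ L0) (hA' : ∀ i ∈ L0, i ∈ A)
    {x : ℕ} (hx : x ∈ L1) :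
    Nrm_Z e L0 L1 (x :: A) ∨ Nrm_E e L0 L1 (x :: A) (x :: L0) := by
  by_cases hn : A.Nodup
  · right
    have hp : A.Perm L0 := (List.perm_ext_iff_of_nodup hn h0).2 fun i => ⟨hA i, hA' i⟩
    obtain ⟨s, hs⟩ := Nrm_permR e hp
    refine ⟨s, fun t Y hG => ?_⟩
    have h1 := hs t Y hG.ru (fun i hi => hG.lo i (hA i hi)) (Y x) (hG.tw x hx)
    rw [List.map_cons, List.map_cons, Nrm_w_cons, Nrm_w_cons]
    exact h1
  · left
    intro t Y hG
    have h1 := Nrm_dupR hn hG.ru (fun i hi => hG.lo i (hA i hi)) (hG.tw x hx)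
    rw [List.map_cons, Nrm_w_cons]
    exact h1

/-- a word with a factor which is zero -/
theorem Nrm_fac {l l₁ l₂ : List ℕ} (h : Nrm_Z e L0 L1 l) : Nrm_Z e L0 L1 (l₁ ++ (l ++ l₂)) := by
  intro t Y hG
  have he : ∀ x, e * x = x := fun x => (hG.ru.one x).1
  rw [List.map_append, Nrm_w_app he, List.map_append, Nrm_w_app he, h t Y hG, zero_mul, mul_zero]

theorem Nrm_loB {t : R} {Y : ℕ → R} (hG : Nrm_G e L0 L1 t Y) {B : List ℕ} (hB : ∀ i ∈ B, i ∈ L0)
    (hB0 : B ≠ []) : Lo t (Nrm_w e (B.map Y)) := by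
  refine Nrm_lo hG.ru _ ?_ ?_
  · intro h
    exact hB0 (List.map_eq_nil_iff.1 h)
  · intro x hx
    obtain ⟨i, hi, rfl⟩ := List.mem_map.1 hx
    exact hG.lo i (hB i hi)

/-- loops between twisted letters -/
theorem Nrm_Zin {x y : ℕ} (hx : x ∈ L1) (hy : y ∈ L1) {B : List ℕ} (hB : ∀ i ∈ B, i ∈ L0)
    (hB0 : B ≠ []) : Nrm_Z e L0 L1 (x :: (B ++ [y])) := by
  intro t Y hG
  have he : ∀ x, e * x = x := fun x => (hG.ru.one x).1
  have h1 := hG.ru.r1 _ _ _ (hG.tw x hx) (Nrm_loB hG hB hB0) (hG.tw y hy)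
  rw [List.map_cons, Nrm_w_cons, List.map_append, Nrm_w_app he, ← mul_assoc]
  simp only [List.map_cons, List.map_nil, Nrm_w_cons, Nrm_w_nil, (hG.ru.one _).2]
  exact h1

/-- loops before and after a twisted letter -/
theorem Nrm_Zout {x : ℕ} (hx : x ∈ L1) {A B : List ℕ} (hA : ∀ i ∈ A, i ∈ L0) (hA0 : A ≠ [])
    (hB : ∀ i ∈ B, i ∈ L0) (hB0 : B ≠ []) : Nrm_Z e L0 L1 (A ++ x :: B) := by
  intro t Y hG
  have he : ∀ x, e * x = x := fun x => (hG.ru.one x).1
  have h1 := hG.ru.r2 _ _ _ (Nrm_loB hG hA hA0) (hG.tw x hx) (Nrm_loB hG hB hB0)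
  rw [List.map_append, Nrm_w_app he, List.map_cons, Nrm_w_cons, ← mul_assoc]
  exact h1

/-- loops after two twisted letters -/
theorem Nrm_E2 {x y : ℕ} (hx : x ∈ L1) (hy : y ∈ L1) {A C : List ℕ} (hC : ∀ i ∈ C, i ∈ L0) :
    Nrm_E e L0 L1 (A ++ x :: y :: C) ((A ++ C) ++ [x, y]) := by
  by_cases hC0 : C = []
  · rw [hC0, List.append_nil]
    exact Nrm_E_refl _
  refine ⟨-1, fun t Y hG => ?_⟩
  have he : ∀ x, e * x = x := fun x => (hG.ru.one x).1
  have h1 := hG.ru.r5 _ _ _ (Nrm_loB hG hC hC0) (hG.tw x hx) (hG.tw y hy)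
  simp only [List.map_append, Nrm_w_app he, List.map_cons, List.map_nil, Nrm_w_cons, Nrm_w_nil,
    (hG.ru.one _).2]
  rw [neg_one_zsmul]
  simp only [mul_assoc] at h1 ⊢
  rw [h1, mul_neg]

/-- four twisted letters -/
theorem Nrm_Z4 {x y z u : ℕ} (hx : x ∈ L1) (hy : y ∈ L1) (hz : z ∈ L1) (hu : u ∈ L1) :
    Nrm_Z e L0 L1 [x, y, z, u] := by
  intro t Y hG
  have h1 := hG.ru.v3 _ _ _ _ (hG.tw x hx) (hG.tw y hy) (hG.tw z hz) (hG.tw u hu)
  simp only [List.map_cons, List.map_nil, Nrm_w_cons, Nrm_w_nil, (hG.ru.one _).2]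
  simp only [mul_assoc] at h1 ⊢
  exact h1

/-- three twisted letters and loops before them -/
theorem Nrm_Z3f {x y z : ℕ} (hx : x ∈ L1) (hy : y ∈ L1) (hz : z ∈ L1) {A : List ℕ}
    (hA : ∀ i ∈ A, i ∈ L0) (hA0 : A ≠ []) : Nrm_Z e L0 L1 (A ++ [x, y, z]) := by
  intro t Y hG
  have he : ∀ x, e * x = x := fun x => (hG.ru.one x).1
  have h1 := hG.ru.v4 _ _ _ _ (Nrm_loB hG hA hA0) (hG.tw x hx) (hG.tw y hy) (hG.tw z hz)
  simp only [List.map_append, Nrm_w_app he, List.map_cons, List.map_nil, Nrm_w_cons, Nrm_w_nil,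
    (hG.ru.one _).2]
  simp only [mul_assoc] at h1 ⊢
  exact h1

/-- three twisted letters and loops after them -/
theorem Nrm_Z3b {x y z : ℕ} (hx : x ∈ L1) (hy : y ∈ L1) (hz : z ∈ L1) {A : List ℕ}
    (hA : ∀ i ∈ A, i ∈ L0) (hA0 : A ≠ []) : Nrm_Z e L0 L1 (x :: y :: z :: A) := by
  intro t Y hG
  have h1 := hG.ru.v4' _ _ _ _ (Nrm_loB hG hA hA0) (hG.tw x hx) (hG.tw y hy) (hG.tw z hz)
  simp only [List.map_cons, Nrm_w_cons]
  simp only [mul_assoc] at h1 ⊢
  exact h1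

/-- the first twisted letter -/
theorem Nrm_split (L0 L1 : List ℕ) : ∀ w : List ℕ, (∀ i ∈ w, i ∈ L0 ∨ i ∈ L1) →
    (∀ i ∈ w, i ∈ L0) ∨ ∃ A x w', w = A ++ x :: w' ∧ (∀ i ∈ A, i ∈ L0) ∧ x ∈ L1 ∧
      ∀ i ∈ w', i ∈ L0 ∨ i ∈ L1
  | [], _ => Or.inl fun i hi => absurd hi List.not_mem_nil
  | j :: w, h => by
    rcases h j List.mem_cons_self with hj | hj
    · rcases Nrm_split L0 L1 w fun i hi => h i (List.mem_cons_of_mem _ hi) with h1 | h1
      · left
        intro i hi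
        rcases List.mem_cons.1 hi with rfl | hi
        · exact hj
        · exact h1 i hi
      · right
        obtain ⟨A, x, w', rfl, hA, hx, hw'⟩ := h1
        refine ⟨j :: A, x, w', rfl, ?_, hx, hw'⟩
        intro i hi
        rcases List.mem_cons.1 hi with rfl | hi
        · exact hj
        · exact hA i hi
    · right
      exact ⟨[], j, w, rfl, fun i hi => absurd hi List.not_mem_nil, hj,
        fun i hi => h i (List.mem_cons_of_mem _ hi)⟩

/-- the forms of the words -/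
theorem Nrm_forms (h0 : L0.Nodup) (hd : ∀ i ∈ L0, i ∉ L1) {w : List ℕ}
    (hw : ∀ i, i ∈ w ↔ i ∈ L0 ∨ i ∈ L1) (hne : L1 ≠ []) : Nrm_Z e L0 L1 w ∨
      (∃ z, z ∈ L1 ∧ (∀ i ∈ L1, i = z) ∧
        (Nrm_E e L0 L1 w (L0 ++ [z]) ∨ Nrm_E e L0 L1 w ([z] ++ L0))) ∨
      (∃ x y, x ∈ L1 ∧ y ∈ L1 ∧ (∀ i ∈ L1, i = x ∨ i = y) ∧
        Nrm_E e L0 L1 w (L0 ++ [x, y])) ∨
      (∃ x y z, x ∈ L1 ∧ y ∈ L1 ∧ z ∈ L1 ∧ (∀ i ∈ L1, i = x ∨ i = y ∨ i = z) ∧ L0 = [] ∧
        w = [x, y, z]) := by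
  have hdd : ∀ A : List ℕ, (∀ i ∈ A, i ∈ L0) → ∀ i ∈ L1, i ∉ A := fun A hA i hi hi' =>
    hd i (hA i hi') hi
  rcases Nrm_split L0 L1 w fun i hi => (hw i).1 hi with h1 | ⟨A, x, w1, rfl, hA, hx, hw1⟩
  · exfalso
    obtain ⟨j, hj⟩ := List.exists_mem_of_ne_nil _ hne
    exact hd j (h1 j ((hw j).2 (Or.inr hj))) hj
  rcases Nrm_split L0 L1 w1 hw1 with hB | ⟨B, y, w2, rfl, hB, hy, hw2⟩
  · -- one twisted letter
    have hL1 : ∀ i ∈ L1, i = x := by
      intro i hi
      have h2 := (hw i).2 (Or.inr hi)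
      rcases List.mem_append.1 h2 with h2 | h2
      · exact absurd h2 (hdd A hA i hi)
      · rcases List.mem_cons.1 h2 with h2 | h2
        · exact h2
        · exact absurd h2 (hdd w1 hB i hi)
    by_cases hB0 : w1 = []
    · subst hB0
      have hA' : ∀ i ∈ L0, i ∈ A := by
        intro i hi
        have h2 := (hw i).2 (Or.inl hi)
        rcases List.mem_append.1 h2 with h2 | h2
        · exact h2
        · rw [List.mem_singleton] at h2
          exact absurd (h2 ▸ hi) (fun h => hd _ h hx)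
      rcases Nrm_front (e := e) h0 hA hA' hx [] with h3 | h3
      · exact Or.inl h3
      · exact Or.inr (Or.inl ⟨x, hx, hL1, Or.inl h3⟩)
    · by_cases hA0 : A = []
      · subst hA0
        have hA' : ∀ i ∈ L0, i ∈ w1 := by
          intro i hi
          have h2 := (hw i).2 (Or.inl hi)
          rw [List.nil_append] at h2
          rcases List.mem_cons.1 h2 with h2 | h2
          · exact absurd (h2 ▸ hi) (fun h => hd _ h hx)
          · exact h2
        rcases Nrm_back (e := e) h0 hB hA' hx with h3 | h3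
        · exact Or.inl h3
        · exact Or.inr (Or.inl ⟨x, hx, hL1, Or.inr h3⟩)
      · exact Or.inl (Nrm_Zout hx hA hA0 hB hB0)
  by_cases hB0 : B = []
  swap
  · left
    have h2 : Nrm_Z e L0 L1 (A ++ ((x :: (B ++ [y])) ++ w2)) := Nrm_fac (Nrm_Zin hx hy hB hB0)
    have h3 : A ++ x :: (B ++ y :: w2) = A ++ ((x :: (B ++ [y])) ++ w2) := by simp
    rw [h3]
    exact h2
  subst hB0
  rw [List.nil_append] at hw ⊢
  rcases Nrm_split L0 L1 w2 hw2 with hC | ⟨C, z, w3, rfl, hC, hz, hw3⟩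
  · -- two twisted letters
    have hL1 : ∀ i ∈ L1, i = x ∨ i = y := by
      intro i hi
      have h2 := (hw i).2 (Or.inr hi)
      rcases List.mem_append.1 h2 with h2 | h2
      · exact absurd h2 (hdd A hA i hi)
      · rcases List.mem_cons.1 h2 with h2 | h2
        · exact Or.inl h2
        · rcases List.mem_cons.1 h2 with h2 | h2
          · exact Or.inr h2
          · exact absurd h2 (hdd w2 hC i hi)
    have h4 : Nrm_E e L0 L1 (A ++ x :: y :: w2) ((A ++ w2) ++ [x, y]) := Nrm_E2 hx hy hC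
    have hAC : ∀ i ∈ A ++ w2, i ∈ L0 := by
      intro i hi
      rcases List.mem_append.1 hi with hi | hi
      · exact hA i hi
      · exact hC i hi
    have hAC' : ∀ i ∈ L0, i ∈ A ++ w2 := by
      intro i hi
      have h2 := (hw i).2 (Or.inl hi)
      rcases List.mem_append.1 h2 with h2 | h2
      · exact List.mem_append.2 (Or.inl h2)
      · rcases List.mem_cons.1 h2 with h2 | h2
        · exact absurd (h2 ▸ hi) (fun h => hd _ h hx)
        · rcases List.mem_cons.1 h2 with h2 | h2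
          · exact absurd (h2 ▸ hi) (fun h => hd _ h hy)
          · exact List.mem_append.2 (Or.inr h2)
    rcases Nrm_front (e := e) h0 hAC hAC' hx [y] with h3 | h3
    · exact Or.inl (Nrm_Z_of h4 h3)
    · exact Or.inr (Or.inr (Or.inl ⟨x, y, hx, hy, hL1, Nrm_E_trans h4 h3⟩))
  by_cases hC0 : C = []
  swap
  · left
    have h2 : Nrm_Z e L0 L1 ((A ++ [x]) ++ ((y :: (C ++ [z])) ++ w3)) :=
      Nrm_fac (Nrm_Zin hy hz hC hC0)
    have h3 : A ++ x :: y :: (C ++ z :: w3) = (A ++ [x]) ++ ((y :: (C ++ [z])) ++ w3) := by simp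
    rw [h3]
    exact h2
  subst hC0
  rw [List.nil_append] at hw ⊢
  rcases Nrm_split L0 L1 w3 hw3 with hD | ⟨D, u, w4, rfl, hD, hu, hw4⟩
  · -- three twisted letters
    by_cases hA0 : A = []
    swap
    · left
      have h2 : Nrm_Z e L0 L1 ([] ++ ((A ++ [x, y, z]) ++ w3)) :=
        Nrm_fac (Nrm_Z3f hx hy hz hA hA0)
      have h3 : A ++ x :: y :: z :: w3 = [] ++ ((A ++ [x, y, z]) ++ w3) := by simp
      rw [h3]
      exact h2
    by_cases hD0 : w3 = []
    swap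
    · left
      rw [hA0, List.nil_append]
      exact Nrm_Z3b hx hy hz hD hD0
    subst hA0
    subst hD0
    rw [List.nil_append] at hw ⊢
    right; right; right
    refine ⟨x, y, z, hx, hy, hz, ?_, ?_, rfl⟩
    · intro i hi
      have h2 := (hw i).2 (Or.inr hi)
      simpa using h2
    · rw [List.eq_nil_iff_forall_not_mem]
      intro i hi
      have h2 := (hw i).2 (Or.inl hi)
      have h3 : i ∉ L1 := hd i hi
      simp only [List.mem_cons, List.not_mem_nil, or_false] at h2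
      rcases h2 with rfl | rfl | rfl
      · exact h3 hx
      · exact h3 hy
      · exact h3 hz
  left
  by_cases hD0 : D = []
  · subst hD0
    have h2 : Nrm_Z e L0 L1 (A ++ ([x, y, z, u] ++ w4)) := Nrm_fac (Nrm_Z4 hx hy hz hu)
    have h3 : A ++ x :: y :: z :: ([] ++ u :: w4) = A ++ ([x, y, z, u] ++ w4) := by simp
    rw [h3]
    exact h2
  · have h2 : Nrm_Z e L0 L1 ((A ++ [x, y]) ++ ((z :: (D ++ [u])) ++ w4)) :=
      Nrm_fac (Nrm_Zin hz hu hD hD0)
    have h3 : A ++ x :: y :: z :: (D ++ u :: w4) =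
        (A ++ [x, y]) ++ ((z :: (D ++ [u])) ++ w4) := by simp
    rw [h3]
    exact h2

end words

section fin

/-- the normal words for the lists of loops and twisted letters -/
def Nrm_N (L0 L1 : List ℕ) : List (List ℕ) :=
  match L1 with
  | [z] => if L0 = [] then [[z], [z, z]] else [L0 ++ [z], [z] ++ L0, L0 ++ [z, z]]
  | [x, y] => if L0 = [] then [[x, y], [y, x], [x, x, y], [x, y, y], [x, y, x]] else
      [L0 ++ [x, y], L0 ++ [y, x]]
  | [x, y, z] => if L0 = [] then [[x, y, z], [y, x, z], [x, z, y]] else []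
  | _ => []

theorem Nrm_NW (N : ℕ) {g : ℕ} (a : Fin g → ℕ) : NW N a = Nrm_N (Lt0 N a) (Lt1 N a) := rfl

theorem Nrm_nodup {L0 L1 : List ℕ} (h1 : L1.Nodup) (hd : ∀ i ∈ L0, i ∉ L1) :
    (Nrm_N L0 L1).Nodup := by
  match L1, h1, hd with
  | [], _, _ => exact List.nodup_nil
  | [z], _, hd =>
    by_cases h0 : L0 = []
    · simp [Nrm_N, h0]
    · have h2 : L0 ++ [z] ≠ z :: L0 := by
        intro h
        obtain ⟨c, l, rfl⟩ := List.exists_cons_of_ne_nil h0
        have h3 : c = z := (List.cons.inj h).1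
        exact hd c List.mem_cons_self (by rw [h3]; exact List.mem_singleton.2 rfl)
      have h4 : z :: L0 ≠ L0 ++ [z, z] := by
        intro h
        have h5 := congrArg List.length h
        simp at h5
      simp [Nrm_N, h0, h2, h4]
  | [x, y], h1, hd =>
    have hxy : x ≠ y := by
      intro h
      subst h
      simp at h1
    by_cases h0 : L0 = []
    · simp [Nrm_N, h0, hxy, hxy.symm]
    · simp [Nrm_N, h0, hxy]
  | [x, y, z], h1, hd =>
    have h2 : x ≠ y ∧ x ≠ z ∧ y ≠ z := by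
      simp at h1
      tauto
    by_cases h0 : L0 = []
    · simp [Nrm_N, h0, h2.1, h2.2.1, h2.2.2, h2.1.symm, h2.2.2.symm]
    · simp [Nrm_N, h0]
  | _ :: _ :: _ :: _ :: _, _, _ => exact List.nodup_nil

theorem Nrm_p3 {x y z u v r : ℕ} (h7 : u ≠ v ∧ u ≠ r ∧ v ≠ r) (h4 : u = x ∨ u = y ∨ u = z)
    (h5 : v = x ∨ v = y ∨ v = z) (h6 : r = x ∨ r = y ∨ r = z) :
    (x = u ∧ y = v ∧ z = r) ∨ (x = u ∧ y = r ∧ z = v) ∨ (x = v ∧ y = u ∧ z = r) ∨
      (x = v ∧ y = r ∧ z = u) ∨ (x = r ∧ y = u ∧ z = v) ∨ (x = r ∧ y = v ∧ z = u) := by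
  obtain ⟨h1, h2, h3⟩ := h7
  rcases h4 with rfl | rfl | rfl
  · rcases h5 with rfl | rfl | rfl
    · exact absurd rfl h1
    · rcases h6 with rfl | rfl | rfl
      · exact absurd rfl h2
      · exact absurd rfl h3
      · exact Or.inl ⟨rfl, rfl, rfl⟩
    · rcases h6 with rfl | rfl | rfl
      · exact absurd rfl h2
      · exact Or.inr (Or.inl ⟨rfl, rfl, rfl⟩)
      · exact absurd rfl h3
  · rcases h5 with rfl | rfl | rfl
    · rcases h6 with rfl | rfl | rfl
      · exact absurd rfl h3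
      · exact absurd rfl h2
      · exact Or.inr (Or.inr (Or.inl ⟨rfl, rfl, rfl⟩))
    · exact absurd rfl h1
    · rcases h6 with rfl | rfl | rfl
      · exact Or.inr (Or.inr (Or.inr (Or.inr (Or.inl ⟨rfl, rfl, rfl⟩))))
      · exact absurd rfl h2
      · exact absurd rfl h3
  · rcases h5 with rfl | rfl | rfl
    · rcases h6 with rfl | rfl | rfl
      · exact absurd rfl h3
      · exact Or.inr (Or.inr (Or.inr (Or.inl ⟨rfl, rfl, rfl⟩)))
      · exact absurd rfl h2
    · rcases h6 with rfl | rfl | rfl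
      · exact Or.inr (Or.inr (Or.inr (Or.inr (Or.inr ⟨rfl, rfl, rfl⟩))))
      · exact absurd rfl h3
      · exact absurd rfl h2
    · exact absurd rfl h1

variable {R : Type} [NonUnitalRing R] {e : R} {L0 L1 : List ℕ}

theorem Nrm_main (h0 : L0.Nodup) (h1 : L1.Nodup) (hd : ∀ i ∈ L0, i ∉ L1) {w : List ℕ}
    (hw : ∀ i, i ∈ w ↔ i ∈ L0 ∨ i ∈ L1) (hne : L1 ≠ []) :
    Nrm_Z e L0 L1 w ∨ ∃ ν ∈ Nrm_N L0 L1, Nrm_E e L0 L1 w ν := by
  rcases Nrm_forms (e := e) h0 hd hw hne with h | ⟨z, hz, hz', h⟩ | ⟨x, y, hx, hy, hxy, h⟩ |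
    ⟨x, y, z, hx, hy, hz, hxyz, h00, rfl⟩
  · exact Or.inl h
  · right
    have h2 : L1 = [z] := List.perm_singleton.1 ((List.perm_ext_iff_of_nodup h1
      (List.nodup_singleton z)).2 fun i => ⟨fun hi => List.mem_singleton.2 (hz' i hi),
        fun hi => by rw [List.mem_singleton.1 hi]; exact hz⟩)
    rcases h with h | h
    · refine ⟨_, ?_, h⟩
      rw [h2]
      by_cases h3 : L0 = []
      · simp [Nrm_N, h3]
      · simp [Nrm_N, h3]
    · refine ⟨_, ?_, h⟩
      rw [h2]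
      by_cases h3 : L0 = []
      · simp [Nrm_N, h3]
      · simp [Nrm_N, h3]
  · right
    refine ⟨_, ?_, h⟩
    match L1, h1, hx, hy, hxy with
    | [u], _, hx, hy, _ =>
      rw [List.mem_singleton] at hx hy
      subst hx
      subst hy
      by_cases h3 : L0 = []
      · simp [Nrm_N, h3]
      · simp [Nrm_N, h3]
    | [u, v], h1, hx, hy, hxy =>
      have huv : u ≠ v := by
        intro h
        subst h
        simp at h1
      have h4 := hxy u List.mem_cons_self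
      have h5 := hxy v (List.mem_cons_of_mem _ List.mem_cons_self)
      have h6 : (x = u ∧ y = v) ∨ (x = v ∧ y = u) := by
        rcases h4 with rfl | rfl
        · rcases h5 with rfl | rfl
          · exact absurd rfl huv
          · exact Or.inl ⟨rfl, rfl⟩
        · rcases h5 with rfl | rfl
          · exact Or.inr ⟨rfl, rfl⟩
          · exact absurd rfl huv
      rcases h6 with ⟨rfl, rfl⟩ | ⟨rfl, rfl⟩
      · by_cases h3 : L0 = []
        · simp [Nrm_N, h3]
        · simp [Nrm_N, h3]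
      · by_cases h3 : L0 = []
        · simp [Nrm_N, h3]
        · simp [Nrm_N, h3]
    | u :: v :: r :: l, h1, hx, hy, hxy =>
      exfalso
      have h4 := hxy u List.mem_cons_self
      have h5 := hxy v (List.mem_cons_of_mem _ List.mem_cons_self)
      have h6 := hxy r (List.mem_cons_of_mem _ (List.mem_cons_of_mem _ List.mem_cons_self))
      have h7 : u ≠ v ∧ u ≠ r ∧ v ≠ r := by
        simp at h1
        tauto
      omega
  · subst h00
    match L1, h1, hx, hy, hz, hxyz with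
    | [u], _, hx, hy, hz, _ =>
      left
      rw [List.mem_singleton] at hx hy hz
      subst hx
      subst hy
      subst hz
      exact Nrm_Z3 (List.mem_singleton.2 rfl)
    | [u, v], h1, hx, hy, hz, hxyz =>
      have huv : u ≠ v := by
        intro h
        subst h
        simp at h1
      have h4 := hxyz u List.mem_cons_self
      have h5 := hxyz v (List.mem_cons_of_mem _ List.mem_cons_self)
      have hu : u ∈ [u, v] := List.mem_cons_self
      have hv : v ∈ [u, v] := List.mem_cons_of_mem _ List.mem_cons_self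
      have hN : Nrm_N [] [u, v] = [[u, v], [v, u], [u, u, v], [u, v, v], [u, v, u]] := by
        simp [Nrm_N]
      rw [hN]
      simp only [List.mem_cons, List.not_mem_nil, or_false] at hx hy hz
      rcases hx with rfl | rfl
      · rcases hy with rfl | rfl
        · rcases hz with rfl | rfl
          · exfalso
            omega
          · exact Or.inr ⟨_, by simp, Nrm_E_refl _⟩
        · rcases hz with rfl | rfl
          · exact Or.inr ⟨_, by simp, Nrm_E_refl _⟩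
          · exact Or.inr ⟨_, by simp, Nrm_E_refl _⟩
      · rcases hy with rfl | rfl
        · rcases hz with rfl | rfl
          · -- v u u
            exact Or.inr ⟨[z, z, x], by simp, Nrm_E3 hv hu hu⟩
          · -- v u v
            exact Or.inr ⟨[y, z, y], by simp, Nrm_E3' hv hu⟩
        · rcases hz with rfl | rfl
          · -- v v u
            exact Or.inr ⟨[z, y, y], by simp, Nrm_E3 hv hv hu⟩
          · exfalso
            omega
    | [u, v, r], h1, hx, hy, hz, hxyz =>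
      have h7 : u ≠ v ∧ u ≠ r ∧ v ≠ r := by
        simp at h1
        tauto
      have h4 := hxyz u List.mem_cons_self
      have h5 := hxyz v (List.mem_cons_of_mem _ List.mem_cons_self)
      have h6 := hxyz r (List.mem_cons_of_mem _ (List.mem_cons_of_mem _ List.mem_cons_self))
      have hu : u ∈ [u, v, r] := List.mem_cons_self
      have hv : v ∈ [u, v, r] := List.mem_cons_of_mem _ List.mem_cons_self
      have hr : r ∈ [u, v, r] :=
        List.mem_cons_of_mem _ (List.mem_cons_of_mem _ List.mem_cons_self)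
      have hN : Nrm_N [] [u, v, r] = [[u, v, r], [v, u, r], [u, r, v]] := by
        simp [Nrm_N]
      rw [hN]
      right
      rcases Nrm_p3 h7 h4 h5 h6 with ⟨rfl, rfl, rfl⟩ | ⟨rfl, rfl, rfl⟩ | ⟨rfl, rfl, rfl⟩ | ⟨rfl, rfl, rfl⟩ |
        ⟨rfl, rfl, rfl⟩ | ⟨rfl, rfl, rfl⟩
      · exact ⟨_, by simp, Nrm_E_refl _⟩
      · exact ⟨_, by simp, Nrm_E_refl _⟩
      · exact ⟨_, by simp, Nrm_E_refl _⟩
      · exact ⟨[z, y, x], by simp, Nrm_E3 hv hr hu⟩
      · exact ⟨[z, y, x], by simp, Nrm_E3 hr hu hv⟩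
      · exact ⟨[z, y, x], by simp, Nrm_E3 hr hv hu⟩
    | u :: v :: r :: q :: l, h1, hx, hy, hz, hxyz =>
      exfalso
      have h4 := hxyz u List.mem_cons_self
      have h5 := hxyz v (List.mem_cons_of_mem _ List.mem_cons_self)
      have h6 := hxyz r (List.mem_cons_of_mem _ (List.mem_cons_of_mem _ List.mem_cons_self))
      have h9 := hxyz q (List.mem_cons_of_mem _ (List.mem_cons_of_mem _
        (List.mem_cons_of_mem _ List.mem_cons_self)))
      have h7 : u ≠ v ∧ u ≠ r ∧ v ≠ r ∧ u ≠ q ∧ v ≠ q ∧ r ≠ q := by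
        simp at h1
        tauto
      omega

theorem Nrm_sum (f : List ℕ → R) (ν : List ℕ) (s : ℤ) : ∀ l : List (List ℕ), l.Nodup →
    (l.map fun ν' => (if ν' = ν then s else 0) • f ν').sum = if ν ∈ l then s • f ν else 0
  | [], _ => by simp
  | a :: l, hl => by
    rw [List.map_cons, List.sum_cons, Nrm_sum f ν s l (List.nodup_cons.1 hl).2]
    by_cases h1 : a = ν
    · subst h1
      have h2 : a ∉ l := (List.nodup_cons.1 hl).1
      simp [h2]
    · have h3 : ν ≠ a := fun h => h1 h.symm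
      simp [h1, h3]

theorem Nrm_m0 {N g : ℕ} {a : Fin g → ℕ} {i : ℕ} :
    i ∈ Lt0 N a ↔ ∃ h : i < g, a ⟨i, h⟩ % N = 0 := by
  unfold Lt0
  rw [List.mem_filter, List.mem_range]
  constructor
  · rintro ⟨h1, h2⟩
    rw [dif_pos h1] at h2
    exact ⟨h1, of_decide_eq_true h2⟩
  · rintro ⟨h1, h2⟩
    refine ⟨h1, ?_⟩
    rw [dif_pos h1]
    exact decide_eq_true h2

theorem Nrm_m1 {N g : ℕ} {a : Fin g → ℕ} {i : ℕ} :
    i ∈ Lt1 N a ↔ ∃ h : i < g, a ⟨i, h⟩ % N ≠ 0 := by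
  unfold Lt1
  rw [List.mem_filter, List.mem_range]
  constructor
  · rintro ⟨h1, h2⟩
    rw [dif_pos h1] at h2
    exact ⟨h1, of_decide_eq_true h2⟩
  · rintro ⟨h1, h2⟩
    refine ⟨h1, ?_⟩
    rw [dif_pos h1]
    exact decide_eq_true h2

end fin

theorem thm_Nrm (hT : St_Typ) (hZ : St_Rlz) (hV : St_Rlv) : St_Nrm := by
  classical
  intro n p N R _ _ e g a w hw ha
  have h0 : (Lt0 N a).Nodup := List.nodup_range.filter _
  have h1 : (Lt1 N a).Nodup := List.nodup_range.filter _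
  have hd : ∀ i ∈ Lt0 N a, i ∉ Lt1 N a := by
    intro i hi hi'
    obtain ⟨h2, h3⟩ := Nrm_m0.1 hi
    obtain ⟨h4, h5⟩ := Nrm_m1.1 hi'
    exact h5 h3
  have hw' : ∀ i, i ∈ w ↔ i ∈ Lt0 N a ∨ i ∈ Lt1 N a := by
    intro i
    rw [hw i, Nrm_m0, Nrm_m1]
    constructor
    · intro h
      by_cases h2 : a ⟨i, h⟩ % N = 0
      · exact Or.inl ⟨h, h2⟩
      · exact Or.inr ⟨h, h2⟩
    · rintro (⟨h, -⟩ | ⟨h, -⟩)
      · exact h
      · exact h
  have hne : Lt1 N a ≠ [] := by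
    obtain ⟨i, hi⟩ := ha
    intro h
    have h2 : (i : ℕ) ∈ Lt1 N a := Nrm_m1.2 ⟨i.2, hi⟩
    rw [h] at h2
    exact absurd h2 List.not_mem_nil
  have hG : ∀ (t : R) (y : Fin g → R), Lfr n p N e t → Ty n a t y →
      Nrm_G e (Lt0 N a) (Lt1 N a) t (xs y) := by
    intro t y hL hy
    obtain ⟨-, -, t3, -, -, t6, -⟩ := hT n p N R e t hL
    have hx : ∀ i (h : i < g), xs y i = y ⟨i, h⟩ := fun i h => dif_pos h
    refine ⟨Nrm_rules hT hZ hV hL, ?_, ?_⟩
    · intro i hi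
      obtain ⟨h2, h3⟩ := Nrm_m0.1 hi
      rw [hx i h2]
      obtain ⟨h4, h5⟩ := hy.2 ⟨i, h2⟩
      refine ⟨h4, ?_⟩
      rw [h5, t3 _ 0 (by rw [h3, Nat.zero_mod])]
      rfl
    · intro i hi
      obtain ⟨h2, h3⟩ := Nrm_m1.1 hi
      rw [hx i h2]
      obtain ⟨h4, h5⟩ := hy.2 ⟨i, h2⟩
      by_cases h6 : y ⟨i, h2⟩ = 0
      · exact Or.inl h6
      · exact Or.inr ⟨h4, ⟨_, h5⟩, fun h7 => h3 ((t6 _ _ h5 h6).1 h7)⟩
  have hwne : w ≠ [] := by
    obtain ⟨i, hi⟩ := ha
    intro h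
    have h2 : (i : ℕ) ∈ w := (hw i).2 i.2
    rw [h] at h2
    exact absurd h2 List.not_mem_nil
  have hval : ∀ (t : R), Lfr n p N e t → ∀ (y : Fin g → R) (v : List ℕ), v ≠ [] →
      wp (v.map (xs y)) = Nrm_w e (v.map (xs y)) := by
    intro t hL y v hv
    exact Nrm_w_wp (fun x => (hL.one x).2) _ (fun h => hv (List.map_eq_nil_iff.1 h))
  rw [Nrm_NW]
  rcases Nrm_main (e := e) h0 h1 hd hw' hne with h | ⟨ν, hν, s, hs⟩
  · refine ⟨fun _ => 0, fun t y hL hy => ?_⟩
    rw [hval t hL y w hwne, h t _ (hG t y hL hy)]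
    symm
    apply List.sum_eq_zero
    intro x hx
    obtain ⟨ν, -, rfl⟩ := List.mem_map.1 hx
    exact zero_smul _ _
  · refine ⟨fun ν' => if ν' = ν then s else 0, fun t y hL hy => ?_⟩
    rw [Nrm_sum _ ν s _ (Nrm_nodup h1 hd), if_pos hν, hval t hL y w hwne,
      hs t _ (hG t y hL hy)]
    have hν0 : ν ≠ [] := by
      intro h
      subst h
      revert hν
      match Lt1 N a with
      | [] => intro hν; exact absurd hν List.not_mem_nil
      | [z] => by_cases h3 : Lt0 N a = [] <;> simp [Nrm_N, h3]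
      | [x, y] => by_cases h3 : Lt0 N a = [] <;> simp [Nrm_N, h3]
      | [x, y, z] => by_cases h3 : Lt0 N a = [] <;> simp [Nrm_N, h3]
      | _ :: _ :: _ :: _ :: _ => intro hν; exact absurd hν List.not_mem_nil
    rw [hval t hL y ν hν0]

end Pool.Agent.CRP
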