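import Pool.Agent.CRP.St
import Pool.Agent.CRL.Prl

/-!
Campaign CRP, module Rlv: more rules.
-/

set_option autoImplicit false

namespace Pool.Agent.CRP

open Pool.Agent.CRR Pool.Agent.CRN Pool.Agent.CRK Pool.Agent.CRL Pool.Agent.CRM

theorem Rlv_pe {n p N : ℕ} {R : Type} [NonUnitalRing R] {e t : R} (h : Lfr n p N e t) :
    Lo t (p • e) := by
  obtain ⟨r, hr⟩ := h.cy.pr
  have h1 := h.one
  have h2 : e * (p • e) = p • e := by rw [mul_smul_comm, (h1 e).1]
  have h3 : (p • e) * e = p • e := by rw [smul_mul_assoc, (h1 e).1]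
  refine ⟨?_, by rw [smul_mul_assoc, mul_smul_comm, (h1 t).1, (h1 t).2]⟩
  rcases thm_Prl n h.cy.n4 R h.cy.inM e h.prm (p • e) h2 h3 with h | ⟨y, hy, _, hxy, _⟩
  · exact h
  · exfalso
    rw [smul_mul_assoc, (h1 y).1] at hxy
    have h4 : ∀ k : ℕ, ∃ z : R, e = (p ^ k) • z := by
      intro k
      induction k with
      | zero => exact ⟨e, by rw [pow_zero, one_smul]⟩
      | succ k ih =>
        obtain ⟨z, hz⟩ := ih
        refine ⟨y * z, ?_⟩
        have h5 : z = p • (y * z) := by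
          rw [← smul_mul_assoc, hxy, (h1 z).1]
        rw [pow_succ, mul_smul, ← h5]
        exact hz
    obtain ⟨z, hz⟩ := h4 r
    rw [hr z] at hz
    exact h.prm.2.1 hz

theorem Rlv_loH {R : Type} [NonUnitalRing R] {t c : R} (h : Lo t c) : Hx t c :=
  ⟨h.1, 0, h.2⟩

theorem Rlv_ttH {R : Type} [NonUnitalRing R] {t c : R} (h : Tt t c) : Hx t c :=
  ⟨h.1, h.2.1⟩

/-- **RLV.** -/
theorem thm_Rlv (hTyp : St_Typ) (hRlz : St_Rlz) : St_Rlv := by
  intro n p N R _ _ e t hL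
  obtain ⟨t1, t2, t3, t4, t5, t6, t7, t8, t9⟩ := hTyp n p N R e t hL
  obtain ⟨r1, r2, r3, r4, r5, r6, r7, r8⟩ := hRlz n p N R e t hL
  have hz : ∀ x, Tt t x → x ≠ 0 := by
    rintro x hx rfl
    exact hx.2.2 (by rw [zero_mul, mul_zero])
  have q1 : ∀ c x, Lo t c → Tt t x → (c * x = 0 ∨ Tt t (c * x)) ∧ (x * c = 0 ∨ Tt t (x * c)) ∧
      Sm t x (c * x) ∧ Sm t x (x * c) := by
    intro c x hc hx
    have hx0 := hz x hx
    obtain ⟨a, ha⟩ := hx.2.1
    have hca : c * t = pw t 0 * c := hc.2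
    have aN : ¬ a % N = 0 := fun h => hx.2.2 ((t6 x a ha hx0).2 h)
    have e1 : c * x * t = pw t a * (c * x) := by
      have := t2 c x 0 a hca ha
      have e : (0 + 1) * (a + 1) - 1 = a := by omega
      rwa [e] at this
    have e2 : x * c * t = pw t a * (x * c) := by
      have := t2 x c a 0 ha hca
      have e : (a + 1) * (0 + 1) - 1 = a := by omega
      rwa [e] at this
    have n1 : Nl (c * x) := (t9 c x (Rlv_loH hc) (Rlv_ttH hx)).1
    have n2 : Nl (x * c) := (t9 x c (Rlv_ttH hx) (Rlv_loH hc)).1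
    refine ⟨?_, ?_, ⟨a, ha, e1⟩, ⟨a, ha, e2⟩⟩
    · by_cases h0 : c * x = 0
      · exact Or.inl h0
      · exact Or.inr ⟨n1, ⟨a, e1⟩, fun h => aN ((t6 _ a e1 h0).1 h)⟩
    · by_cases h0 : x * c = 0
      · exact Or.inl h0
      · exact Or.inr ⟨n2, ⟨a, e2⟩, fun h => aN ((t6 _ a e2 h0).1 h)⟩
  have q4 : ∀ c x y z, Lo t c → Tt t x → Tt t y → Tt t z → c * x * y * z = 0 ∧ x * y * z * c = 0 := by
    intro c x y z hc hx hy hzz
    rcases (r7 x y z hx hy hzz).2 with h | ⟨hxy, hyz, -⟩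
    · constructor
      · rw [mul_assoc c x y, mul_assoc c (x * y) z, h, mul_zero]
      · rw [h, zero_mul]
    · constructor
      · rw [mul_assoc (c * x) y z]
        exact r2 c x (y * z) hc hx hyz
      · exact r2 (x * y) z c hxy hzz hc
  have q5 : Lo t (p • e) := Rlv_pe hL
  refine ⟨q1, ?_, ?_, q4, ⟨q5, ?_⟩, ?_⟩
  · rintro x ⟨hx, ha⟩
    by_cases h0 : x * t = t * x
    · exact Or.inr (Or.inl ⟨hx, h0⟩)
    · exact Or.inr (Or.inr ⟨hx, ha, h0⟩)
  · intro x y z w hx hy hzz hw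
    rcases (r7 y z w hy hzz hw).2 with h | ⟨hyz, -, -⟩
    · rw [mul_assoc x y z, mul_assoc x (y * z) w, h, mul_zero]
    · rw [mul_assoc x y z]
      exact r1 x (y * z) w hx hyz hw
  · intro x hx
    have := (r3 (p • e) (p • e) x q5 q5 hx).2
    rw [smul_mul_assoc, smul_mul_assoc, mul_smul_comm, smul_mul_assoc, (hL.one e).1, (hL.one x).1] at this
    exact this
  · intro x y z hx hy hzz
    have := (q4 (p • e) x y z q5 hx hy hzz).1
    rw [smul_mul_assoc, smul_mul_assoc, smul_mul_assoc, (hL.one x).1] at this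
    exact this

end Pool.Agent.CRP
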