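import Pool.Agent.CRP.St
import Pool.Agent.CRL.All

/-!
# CRP, module Rlz: the rules for products of three elements with types
-/

set_option autoImplicit false
set_option linter.unusedSectionVars false

namespace Pool.Agent.CRP

open Pool.Agent.CRR Pool.Agent.CRN Pool.Agent.CRK Pool.Agent.CRL Pool.Agent.CRM

section general
variable {R : Type} [NonUnitalRing R]

theorem Rlz_six {u v w : R} (hJ : ∃ J : AddSubgroup R, Idl R J ∧ ∀ x, x ∈ J ↔ Nl x)
    (hu : Nl u) (hv : Nl v) (hw : Nl w) :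
    u * v * w + u * w * v + v * u * w + v * w * u + w * u * v + w * v * u = 0 := by
  obtain ⟨J, hI, hJ⟩ := hJ
  have hadd : ∀ a b : R, Nl a → Nl b → Nl (a + b) := fun a b ha hb =>
    (hJ _).1 (J.add_mem ((hJ _).2 ha) ((hJ _).2 hb))
  have h1 : (u + v + w) * (u + v + w) * (u + v + w) = 0 := hadd _ _ (hadd _ _ hu hv) hw
  have h2 : (u + v) * (u + v) * (u + v) = 0 := hadd _ _ hu hv
  have h3 : (u + w) * (u + w) * (u + w) = 0 := hadd _ _ hu hw
  have h4 : (v + w) * (v + w) * (v + w) = 0 := hadd _ _ hv hw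
  have h5 : u * u * u = 0 := hu
  have h6 : v * v * v = 0 := hv
  have h7 : w * w * w = 0 := hw
  have e : u * v * w + u * w * v + v * u * w + v * w * u + w * u * v + w * v * u =
      (u + v + w) * (u + v + w) * (u + v + w) - (u + v) * (u + v) * (u + v)
        - (u + w) * (u + w) * (u + w) - (v + w) * (v + w) * (v + w)
        + u * u * u + v * v * v + w * w * w := by
    simp only [mul_add, add_mul, mul_assoc]
    abel
  rw [e, h1, h2, h3, h4, h5, h6, h7]
  simp

theorem Rlz_cub {u v : R} (hJ : ∃ J : AddSubgroup R, Idl R J ∧ ∀ x, x ∈ J ↔ Nl x)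
    (hu : Nl u) (hv : Nl v) :
    u * u * v + u * v * u + v * u * u + u * v * v + v * u * v + v * v * u = 0 := by
  obtain ⟨J, hI, hJ⟩ := hJ
  have h2 : (u + v) * (u + v) * (u + v) = 0 := (hJ _).1 (J.add_mem ((hJ _).2 hu) ((hJ _).2 hv))
  have h5 : u * u * u = 0 := hu
  have h6 : v * v * v = 0 := hv
  have e : u * u * v + u * v * u + v * u * u + u * v * v + v * u * v + v * v * u =
      (u + v) * (u + v) * (u + v) - u * u * u - v * v * v := by
    simp only [mul_add, add_mul, mul_assoc]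
    abel
  rw [e, h2, h5, h6]
  simp

end general

/-- the exponents of the six products -/
def Rlz_chi (A B C : ℕ) : Fin 6 → Fin 3 → ℕ :=
  ![![1, A, A * B], ![1, A * C, A], ![B, 1, A * B], ![B * C, 1, B], ![C, A * C, 1], ![B * C, C, 1]]

/-- the exponents of the six words in two letters -/
def Rlz_chj (A B : ℕ) : Fin 6 → Fin 2 → ℕ :=
  ![![1 + A, A * A], ![1 + A * B, A], ![B + B * A, 1], ![1, A + A * B], ![B, 1 + B * A],
    ![B * B, 1 + B]]

section main
variable {n p N : ℕ} {R : Type} [NonUnitalRing R] [Finite R] {e t : R}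

theorem Rlz_te_add (hL : Lfr n p N e t) (i j : ℕ) : te e t i * te e t j = te e t (i + j) := by
  induction i with
  | zero => rw [Nat.zero_add]; exact (hL.one _).1
  | succ i ih =>
    rw [Nat.succ_add]
    change t * te e t i * te e t j = t * te e t (i + j)
    rw [mul_assoc, ih]

theorem Rlz_mv (hT : St_Typ) (hL : Lfr n p N e t) {x : R} (y : R) {a : ℕ}
    (hx : x * t = pw t a * x) (i j : ℕ) :
    te e t i * x * (te e t j * y) = te e t (i + (a + 1) * j) * (x * y) := by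
  have h1 := (hT n p N R e t hL).1 x a j hx
  calc te e t i * x * (te e t j * y) = te e t i * (x * te e t j) * y := by
        simp only [mul_assoc]
    _ = te e t i * te e t (j * (a + 1)) * (x * y) := by rw [h1]; simp only [mul_assoc]
    _ = te e t (i + (a + 1) * j) * (x * y) := by rw [Rlz_te_add hL, mul_comm j]

theorem Rlz_mv3 (hT : St_Typ) (hL : Lfr n p N e t) {x y : R} (z : R) {a b : ℕ}
    (hx : x * t = pw t a * x) (hy : y * t = pw t b * y) (i j k : ℕ) :
    te e t i * x * (te e t j * y) * (te e t k * z) =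
      te e t (i + (a + 1) * j + (a + 1) * (b + 1) * k) * (x * y * z) := by
  rw [Rlz_mv hT hL y hx]
  have h2 := (hT n p N R e t hL).2.1 x y a b hx hy
  rw [Rlz_mv hT hL z h2, Nat.sub_add_cancel (Nat.mul_pos (Nat.succ_pos a) (Nat.succ_pos b))]

theorem Rlz_jil (hL : Lfr n p N e t) : ∃ J : AddSubgroup R, Idl R J ∧ ∀ x, x ∈ J ↔ Nl x :=
  jil n hL.cy.n4 R hL.cy.inM hL.cy.nt

theorem Rlz_nl (hL : Lfr n p N e t) {x : R} (hx : Nl x) (r : R) : Nl (r * x) := by
  obtain ⟨J, hI, hJ⟩ := Rlz_jil hL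
  exact (hJ _).1 (hI r x ((hJ _).2 hx)).1

/-- the six products: the selection of one item -/
theorem Rlz_sum3 (hT : St_Typ) (hL : Lfr n p N e t) {x y z : R} {a b c : ℕ}
    (hx : x * t = pw t a * x) (hy : y * t = pw t b * y) (hz : z * t = pw t c * z)
    (nx : Nl x) (ny : Nl y) (nz : Nl z) (s : Fin 3 → ℕ) :
    ∑ l, te e t (∑ i, Rlz_chi (a + 1) (b + 1) (c + 1) l i * s i) *
      (![x * y * z, x * z * y, y * x * z, y * z * x, z * x * y, z * y * x] : Fin 6 → R) l = 0 := by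
  have h := Rlz_six (Rlz_jil hL) (Rlz_nl hL nx (te e t (s 0))) (Rlz_nl hL ny (te e t (s 1)))
    (Rlz_nl hL nz (te e t (s 2)))
  rw [Rlz_mv3 hT hL z hx hy, Rlz_mv3 hT hL y hx hz, Rlz_mv3 hT hL z hy hx, Rlz_mv3 hT hL x hy hz,
    Rlz_mv3 hT hL y hz hx, Rlz_mv3 hT hL x hz hy] at h
  rw [Fin.sum_univ_six, ← h]
  simp only [Fin.sum_univ_three]
  congr 1
  · congr 1
    · congr 1
      · congr 1
        · congr 1
          · congr 2
            simp [Rlz_chi]
          · congr 2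
            simp [Rlz_chi]
            ring
        · congr 2
          simp [Rlz_chi]
          ring
      · congr 2
        simp [Rlz_chi]
        ring
    · congr 2
      simp [Rlz_chi]
      ring
  · congr 2
    simp [Rlz_chi]
    ring

theorem Rlz_sum2 (hT : St_Typ) (hL : Lfr n p N e t) {x y : R} {a b : ℕ}
    (hx : x * t = pw t a * x) (hy : y * t = pw t b * y)
    (nx : Nl x) (ny : Nl y) (s : Fin 2 → ℕ) :
    ∑ l, te e t (∑ i, Rlz_chj (a + 1) (b + 1) l i * s i) *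
      (![x * x * y, x * y * x, y * x * x, x * y * y, y * x * y, y * y * x] : Fin 6 → R) l = 0 := by
  have h := Rlz_cub (Rlz_jil hL) (Rlz_nl hL nx (te e t (s 0))) (Rlz_nl hL ny (te e t (s 1)))
  rw [Rlz_mv3 hT hL y hx hx, Rlz_mv3 hT hL x hx hy, Rlz_mv3 hT hL x hy hx, Rlz_mv3 hT hL y hx hy,
    Rlz_mv3 hT hL y hy hx, Rlz_mv3 hT hL x hy hy] at h
  rw [Fin.sum_univ_six, ← h]
  simp only [Fin.sum_univ_two]
  congr 1
  · congr 1
    · congr 1
      · congr 1
        · congr 1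
          · congr 2
            simp [Rlz_chj]
            ring
          · congr 2
            simp [Rlz_chj]
            ring
        · congr 2
          simp [Rlz_chj]
          ring
      · congr 2
        simp [Rlz_chj]
        ring
    · congr 2
      simp [Rlz_chj]
      ring
  · congr 2
    simp [Rlz_chj]
    ring

/-- one item is selected -/
theorem Rlz_sel1 (hS : St_Sep) (hL : Lfr n p N e t) {r m : ℕ} (χ : Fin m → Fin r → ℕ)
    (w : Fin m → R) (h : ∀ s : Fin r → ℕ, ∑ l, te e t (∑ i, χ l i * s i) * w l = 0) (l₀ : Fin m)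
    (h1 : ∀ l, l ≠ l₀ → ∃ i, (χ l i : ZMod N) ≠ (χ l₀ i : ZMod N)) : w l₀ = 0 := by
  have h2 := hS n p N R e t hL r m χ w h l₀
  rw [Finset.sum_eq_single l₀] at h2
  · simpa using h2
  · intro l _ hl
    obtain ⟨i, hi⟩ := h1 l hl
    rw [if_neg]
    intro h3
    exact hi ((ZMod.natCast_eq_natCast_iff' _ _ _).2 (h3 i))
  · intro h3
    exact absurd (Finset.mem_univ _) h3

/-- two items are selected -/
theorem Rlz_sel2 (hS : St_Sep) (hL : Lfr n p N e t) {r m : ℕ} (χ : Fin m → Fin r → ℕ)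
    (w : Fin m → R) (h : ∀ s : Fin r → ℕ, ∑ l, te e t (∑ i, χ l i * s i) * w l = 0)
    (l₀ l₁ : Fin m) (h01 : l₀ ≠ l₁) (h2 : ∀ i, (χ l₁ i : ZMod N) = (χ l₀ i : ZMod N))
    (h1 : ∀ l, l ≠ l₀ → l ≠ l₁ → ∃ i, (χ l i : ZMod N) ≠ (χ l₀ i : ZMod N)) :
    w l₀ + w l₁ = 0 := by
  have h3 := hS n p N R e t hL r m χ w h l₀
  rw [Finset.sum_eq_add l₀ l₁ h01] at h3
  · rw [if_pos (fun i => rfl), if_pos (fun i => (ZMod.natCast_eq_natCast_iff' _ _ _).1 (h2 i))] at h3
    exact h3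
  · intro l _ hl
    obtain ⟨i, hi⟩ := h1 l hl.1 hl.2
    rw [if_neg]
    intro h4
    exact hi ((ZMod.natCast_eq_natCast_iff' _ _ _).2 (h4 i))
  · intro h4
    exact absurd (Finset.mem_univ _) h4
  · intro h4
    exact absurd (Finset.mem_univ _) h4

/-- the data of a twisted element -/
theorem Rlz_tt (hT : St_Typ) (hL : Lfr n p N e t) {x : R} (hx : Tt t x) :
    Nl x ∧ ∃ a, x * t = pw t a * x ∧ ((a + 1 : ℕ) : ZMod N) ≠ 1 ∧ IsUnit ((a + 1 : ℕ) : ZMod N) := by
  obtain ⟨hn, ⟨a, ha⟩, hne⟩ := hx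
  have hx0 : x ≠ 0 := by
    rintro rfl
    exact hne (by rw [mul_zero, zero_mul])
  obtain ⟨-, -, -, -, h5, h6, -⟩ := hT n p N R e t hL
  refine ⟨hn, a, ha, ?_, (ZMod.isUnit_iff_coprime _ _).2 (h5 x a ha hx0)⟩
  intro h
  apply hne
  rw [h6 x a ha hx0]
  have h1 : (a : ZMod N) = 0 := by
    push_cast at h
    exact add_eq_right.1 h
  exact Nat.mod_eq_zero_of_dvd ((ZMod.natCast_eq_zero_iff _ _).1 h1)

theorem Rlz_lo {x : R} (hx : Lo t x) : Nl x ∧ x * t = pw t 0 * x := hx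

theorem Rlz_mod {a b : ℕ} (h : ((a + 1 : ℕ) : ZMod N) = ((b + 1 : ℕ) : ZMod N)) :
    a % N = b % N := by
  push_cast at h
  exact (ZMod.natCast_eq_natCast_iff' _ _ _).1 (add_right_cancel h)

theorem Rlz_lop (hT : St_Typ) (hL : Lfr n p N e t) {x y : R} {a b : ℕ}
    (hx : x * t = pw t a * x) (hy : y * t = pw t b * y) (nx : Nl x)
    (h : ((a + 1 : ℕ) : ZMod N) * ((b + 1 : ℕ) : ZMod N) = 1) : Lo t (x * y) := by
  obtain ⟨-, h2, h3, -⟩ := hT n p N R e t hL
  obtain ⟨J, hI, hJ⟩ := Rlz_jil hL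
  refine ⟨(hJ _).1 (hI y x ((hJ _).2 nx)).2, ?_⟩
  have h4 := h2 x y a b hx hy
  have h5 : ((a + 1) * (b + 1) - 1) % N = 0 % N := by
    have hp := Nat.sub_add_cancel (Nat.mul_pos (Nat.succ_pos a) (Nat.succ_pos b))
    apply Rlz_mod
    rw [show (a + 1) * (b + 1) - 1 + 1 = (a + 1) * (b + 1) from hp]
    push_cast at h ⊢
    simpa using h
  rw [h3 _ _ h5] at h4
  exact h4

theorem Rlz_sm (hT : St_Typ) (hL : Lfr n p N e t) {x y : R} {a b : ℕ}
    (hx : x * t = pw t a * x) (hy : y * t = pw t b * y)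
    (h : ((a + 1 : ℕ) : ZMod N) = ((b + 1 : ℕ) : ZMod N)) : Sm t x y := by
  obtain ⟨-, -, h3, -⟩ := hT n p N R e t hL
  exact ⟨a, hx, by rw [h3 a b (Rlz_mod h)]; exact hy⟩

theorem Rlz_half (hL : Lfr n p N e t) (hp : p ≠ 2) {v : R} (h : v + v = 0) : v = 0 := by
  obtain ⟨r, hr⟩ := hL.cy.pr
  have h1 : addOrderOf v ∣ p ^ r := addOrderOf_dvd_of_nsmul_eq_zero (hr v)
  have h2 : addOrderOf v ∣ 2 := addOrderOf_dvd_of_nsmul_eq_zero (by rw [two_nsmul]; exact h)
  have h3 : Nat.Coprime (p ^ r) 2 :=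
    Nat.Coprime.pow_left r ((Nat.coprime_primes hL.cy.pp Nat.prime_two).2 hp)
  have h4 : addOrderOf v ∣ 1 := by
    have := Nat.dvd_gcd h1 h2
    rwa [h3] at this
  exact AddMonoid.addOrderOf_eq_one_iff.1 (Nat.dvd_one.1 h4)

theorem Rlz_two (hL : Lfr n p N e t) (hp : p = 2) : IsUnit (2 : ZMod N) := by
  have h := hL.np
  rw [hp] at h
  exact_mod_cast (ZMod.isUnit_iff_coprime 2 N).2 h.symm

end main

theorem thm_Rlz (hT : St_Typ) (hS : St_Sep) : St_Rlz := by
  intro n p N R _ _ e t hL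
  -- three twisted elements
  have L7 : ∀ (x y z : R) (a b c : ℕ), x * t = pw t a * x → y * t = pw t b * y →
      z * t = pw t c * z → Nl x → Nl y → Nl z → ((a + 1 : ℕ) : ZMod N) ≠ 1 →
      ((b + 1 : ℕ) : ZMod N) ≠ 1 → ((c + 1 : ℕ) : ZMod N) ≠ 1 → IsUnit ((a + 1 : ℕ) : ZMod N) →
      (¬ (((a + 1 : ℕ) : ZMod N) * ((b + 1 : ℕ) : ZMod N) = 1 ∧
        ((b + 1 : ℕ) : ZMod N) * ((c + 1 : ℕ) : ZMod N) = 1) → x * y * z = 0) ∧
      (((a + 1 : ℕ) : ZMod N) * ((b + 1 : ℕ) : ZMod N) = 1 →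
        ((b + 1 : ℕ) : ZMod N) * ((c + 1 : ℕ) : ZMod N) = 1 → x * y * z + z * y * x = 0) := by
    intro x y z a b c hx hy hz nx ny nz hA hB hC uA
    have hs := Rlz_sum3 hT hL hx hy hz nx ny nz
    have c1 : (((a + 1) * (c + 1) : ℕ) : ZMod N) ≠ ((a + 1 : ℕ) : ZMod N) := by
      rw [Nat.cast_mul]
      intro h
      exact hC (uA.mul_left_cancel (by rw [h, mul_one]))
    constructor
    · intro hno
      refine Rlz_sel1 hS hL _ _ hs 0 ?_
      intro l hl
      fin_cases l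
      · exact absurd rfl hl
      · exact ⟨1, c1⟩
      · exact ⟨0, by simpa [Rlz_chi] using hB⟩
      · exact ⟨1, by simpa [Rlz_chi] using hA.symm⟩
      · exact ⟨0, by simpa [Rlz_chi] using hC⟩
      · by_contra hcon
        push Not at hcon
        apply hno
        have h0 := hcon 0
        have h2 := hcon 2
        simp [Rlz_chi] at h0 h2
        push_cast
        exact ⟨h2.symm, h0⟩
    · intro hab hbc
      refine Rlz_sel2 hS hL _ _ hs 0 5 (by decide) ?_ ?_
      · intro i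
        have hca : ((c + 1 : ℕ) : ZMod N) = ((a + 1 : ℕ) : ZMod N) := by
          calc ((c + 1 : ℕ) : ZMod N) = ((a + 1 : ℕ) : ZMod N) * ((b + 1 : ℕ) : ZMod N) *
                ((c + 1 : ℕ) : ZMod N) := by rw [hab, one_mul]
            _ = ((a + 1 : ℕ) : ZMod N) * (((b + 1 : ℕ) : ZMod N) * ((c + 1 : ℕ) : ZMod N)) := by
              rw [mul_assoc]
            _ = _ := by rw [hbc, mul_one]
        fin_cases i
        · simpa [Rlz_chi] using hbc
        · simpa [Rlz_chi] using hca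
        · simpa [Rlz_chi] using hab.symm
      · intro l hl hl'
        fin_cases l
        · exact absurd rfl hl
        · exact ⟨1, c1⟩
        · exact ⟨0, by simpa [Rlz_chi] using hB⟩
        · exact ⟨1, by simpa [Rlz_chi] using hA.symm⟩
        · exact ⟨0, by simpa [Rlz_chi] using hC⟩
        · exact absurd rfl hl'
  -- two twisted elements with inverse types
  have L8 : ∀ (x y : R) (a b : ℕ), x * t = pw t a * x → y * t = pw t b * y → Nl x → Nl y →
      ((a + 1 : ℕ) : ZMod N) ≠ 1 → ((b + 1 : ℕ) : ZMod N) ≠ 1 →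
      ((a + 1 : ℕ) : ZMod N) * ((b + 1 : ℕ) : ZMod N) = 1 →
      (¬ (((a + 1 : ℕ) : ZMod N) = 2 ∧ ((b + 1 : ℕ) : ZMod N) = 2) → x * y * x = 0) ∧
      (((a + 1 : ℕ) : ZMod N) = 2 → ((b + 1 : ℕ) : ZMod N) = 2 → x * y * x + y * x * y = 0) := by
    intro x y a b hx hy nx ny hA hB hab
    have hs := Rlz_sum2 hT hL hx hy nx ny
    have h10 : (1 : ZMod N) ≠ 0 := fun h => hA (eq_of_zero_eq_one h.symm _ _)
    have hba : ((b + 1 : ℕ) : ZMod N) * ((a + 1 : ℕ) : ZMod N) = 1 := by rw [mul_comm]; exact hab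
    have d0 : ((1 + (a + 1) : ℕ) : ZMod N) ≠ ((1 + (a + 1) * (b + 1) : ℕ) : ZMod N) := by
      rw [Nat.cast_add 1 (a + 1), Nat.cast_add 1 ((a + 1) * (b + 1)), Nat.cast_mul, hab]
      intro h
      exact hA (by simpa using add_left_cancel h)
    have d2 : (((b + 1) + (b + 1) * (a + 1) : ℕ) : ZMod N) ≠
        ((1 + (a + 1) * (b + 1) : ℕ) : ZMod N) := by
      rw [Nat.cast_add, Nat.cast_add 1, Nat.cast_mul, Nat.cast_mul, hab, hba]
      intro h
      exact hB (by simpa using add_right_cancel h)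
    have d3 : ((1 : ℕ) : ZMod N) ≠ ((1 + (a + 1) * (b + 1) : ℕ) : ZMod N) := by
      rw [Nat.cast_add, Nat.cast_mul, hab]
      intro h
      exact h10 (by simpa using h)
    have d5 : (((b + 1) * (b + 1) : ℕ) : ZMod N) = ((1 + (a + 1) * (b + 1) : ℕ) : ZMod N) →
        ((1 + (b + 1) : ℕ) : ZMod N) ≠ ((a + 1 : ℕ) : ZMod N) := by
      intro h1 h2
      rw [Nat.cast_add, Nat.cast_mul, Nat.cast_mul, hab] at h1
      rw [Nat.cast_add 1] at h2
      have h3 : ((b + 1 : ℕ) : ZMod N) = -1 := by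
        have h4 := hba
        rw [← h2, mul_add, h1] at h4
        have h5 : ((b + 1 : ℕ) : ZMod N) + 1 = 0 := by
          have h6 : ((b + 1 : ℕ) : ZMod N) * ((1 : ℕ) : ZMod N) + (((1 : ℕ) : ZMod N) + 1) = 1 := h4
          rw [Nat.cast_one, mul_one, ← add_assoc] at h6
          exact add_eq_right.1 h6
        exact eq_neg_of_add_eq_zero_left h5
      rw [h3] at h1
      apply h10
      have h6 : (1 : ZMod N) = 1 + 1 := by simpa using h1
      exact (add_eq_left.1 h6.symm)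
    constructor
    · intro hno
      refine Rlz_sel1 hS hL _ _ hs 1 ?_
      intro l hl
      fin_cases l
      · exact ⟨0, d0⟩
      · exact absurd rfl hl
      · exact ⟨0, d2⟩
      · exact ⟨0, d3⟩
      · by_contra hcon
        push Not at hcon
        apply hno
        have h0 : ((b + 1 : ℕ) : ZMod N) = ((1 + (a + 1) * (b + 1) : ℕ) : ZMod N) := hcon 0
        have h1 : ((1 + (b + 1) * (a + 1) : ℕ) : ZMod N) = ((a + 1 : ℕ) : ZMod N) := hcon 1
        rw [Nat.cast_add 1, Nat.cast_mul, hab, Nat.cast_one, one_add_one_eq_two] at h0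
        rw [Nat.cast_add 1, Nat.cast_mul, hba, Nat.cast_one, one_add_one_eq_two] at h1
        exact ⟨h1.symm, h0⟩
      · by_contra hcon
        push Not at hcon
        exact d5 (hcon 0) (hcon 1)
    · intro hA2 hB2
      refine Rlz_sel2 hS hL _ _ hs 1 4 (by decide) ?_ ?_
      · intro i
        fin_cases i
        · change ((b + 1 : ℕ) : ZMod N) = ((1 + (a + 1) * (b + 1) : ℕ) : ZMod N)
          rw [Nat.cast_add 1, Nat.cast_mul, hab, Nat.cast_one, one_add_one_eq_two, hB2]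
        · change ((1 + (b + 1) * (a + 1) : ℕ) : ZMod N) = ((a + 1 : ℕ) : ZMod N)
          rw [Nat.cast_add 1, Nat.cast_mul, hba, Nat.cast_one, one_add_one_eq_two, hA2]
      · intro l hl hl'
        fin_cases l
        · exact ⟨0, d0⟩
        · exact absurd rfl hl
        · exact ⟨0, d2⟩
        · exact ⟨0, d3⟩
        · exact absurd rfl hl'
        · by_contra hcon
          push Not at hcon
          exact d5 (hcon 0) (hcon 1)
  refine ⟨?_, ?_, ?_, ?_, ?_, ?_, ?_, ?_⟩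
  · -- twisted, loop, twisted
    intro x y z tx ly tz
    obtain ⟨nx, a, hx, hA, uA⟩ := Rlz_tt hT hL tx
    obtain ⟨ny, hy⟩ := Rlz_lo ly
    obtain ⟨nz, c, hz, hC, uC⟩ := Rlz_tt hT hL tz
    refine Rlz_sel1 hS hL _ _ (Rlz_sum3 hT hL hx hy hz nx ny nz) 0 ?_
    intro l hl
    fin_cases l
    · exact absurd rfl hl
    · refine ⟨1, ?_⟩
      change (((a + 1) * (c + 1) : ℕ) : ZMod N) ≠ ((a + 1 : ℕ) : ZMod N)
      rw [Nat.cast_mul]
      intro h
      exact hC (uA.mul_left_cancel (by rw [h, mul_one]))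
    · exact ⟨1, by simpa [Rlz_chi] using hA.symm⟩
    · exact ⟨1, by simpa [Rlz_chi] using hA.symm⟩
    · exact ⟨0, by simpa [Rlz_chi] using hC⟩
    · exact ⟨0, by simpa [Rlz_chi] using hC⟩
  · -- loop, twisted, loop
    intro x y z lx ty lz
    obtain ⟨nx, hx⟩ := Rlz_lo lx
    obtain ⟨ny, b, hy, hB, uB⟩ := Rlz_tt hT hL ty
    obtain ⟨nz, hz⟩ := Rlz_lo lz
    refine Rlz_sel1 hS hL _ _ (Rlz_sum3 hT hL hx hy hz nx ny nz) 0 ?_
    intro l hl
    fin_cases l
    · exact absurd rfl hl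
    · exact ⟨2, by simpa [Rlz_chi] using hB.symm⟩
    · exact ⟨0, by simpa [Rlz_chi] using hB⟩
    · exact ⟨0, by simpa [Rlz_chi] using hB⟩
    · exact ⟨2, by simpa [Rlz_chi] using hB.symm⟩
    · exact ⟨0, by simpa [Rlz_chi] using hB⟩
  · -- loop, loop, twisted
    have h3 : ∀ x y z : R, Lo t x → Lo t y → Tt t z → x * y * z + y * x * z = 0 := by
      intro x y z lx ly tz
      obtain ⟨nx, hx⟩ := Rlz_lo lx
      obtain ⟨ny, hy⟩ := Rlz_lo ly
      obtain ⟨nz, c, hz, hC, uC⟩ := Rlz_tt hT hL tz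
      refine Rlz_sel2 hS hL _ _ (Rlz_sum3 hT hL hx hy hz nx ny nz) 0 2 (by decide) ?_ ?_
      · intro i
        fin_cases i <;> simp [Rlz_chi]
      · intro l hl hl'
        fin_cases l
        · exact absurd rfl hl
        · exact ⟨1, by simpa [Rlz_chi] using hC⟩
        · exact absurd rfl hl'
        · exact ⟨0, by simpa [Rlz_chi] using hC⟩
        · exact ⟨0, by simpa [Rlz_chi] using hC⟩
        · exact ⟨0, by simpa [Rlz_chi] using hC⟩
    intro x y z lx ly tz
    refine ⟨h3 x y z lx ly tz, ?_⟩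
    by_cases hp : p = 2
    · obtain ⟨nx, hx⟩ := Rlz_lo lx
      obtain ⟨nz, c, hz, hC, uC⟩ := Rlz_tt hT hL tz
      have h10 : (1 : ZMod N) ≠ 0 := fun h => hC (eq_of_zero_eq_one h.symm _ _)
      have hC0 : ((c + 1 : ℕ) : ZMod N) ≠ 0 := by
        intro h
        rw [h] at uC
        exact h10 ((isUnit_zero_iff.1 uC).symm)
      refine Rlz_sel1 hS hL _ _ (Rlz_sum2 hT hL hx hz nx nz) 0 ?_
      intro l hl
      fin_cases l
      · exact absurd rfl hl
      · refine ⟨0, ?_⟩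
        change ((1 + (0 + 1) * (c + 1) : ℕ) : ZMod N) ≠ ((1 + (0 + 1) : ℕ) : ZMod N)
        rw [Nat.zero_add, Nat.one_mul, Nat.cast_add 1 (c + 1), Nat.cast_add 1 1]
        intro h
        exact hC (by simpa using add_left_cancel h)
      · refine ⟨0, ?_⟩
        change (((c + 1) + (c + 1) * (0 + 1) : ℕ) : ZMod N) ≠ ((1 + (0 + 1) : ℕ) : ZMod N)
        rw [Nat.zero_add, Nat.mul_one, Nat.cast_add (c + 1) (c + 1), Nat.cast_add 1 1, ← two_mul]
        intro h
        apply hC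
        apply (Rlz_two hL hp).mul_left_cancel
        rw [h, Nat.cast_one, mul_one, one_add_one_eq_two]
      · refine ⟨0, ?_⟩
        change ((1 : ℕ) : ZMod N) ≠ ((1 + (0 + 1) : ℕ) : ZMod N)
        rw [Nat.zero_add, Nat.cast_add 1 1]
        intro h
        exact h10 (by simpa using add_eq_left.1 h.symm)
      · refine ⟨1, ?_⟩
        change ((1 + (c + 1) * (0 + 1) : ℕ) : ZMod N) ≠ (((0 + 1) * (0 + 1) : ℕ) : ZMod N)
        rw [Nat.zero_add, Nat.mul_one, Nat.mul_one, Nat.cast_add 1 (c + 1)]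
        intro h
        exact hC0 (add_eq_left.1 h)
      · refine ⟨1, ?_⟩
        change ((1 + (c + 1) : ℕ) : ZMod N) ≠ (((0 + 1) * (0 + 1) : ℕ) : ZMod N)
        rw [Nat.zero_add, Nat.mul_one, Nat.cast_add 1 (c + 1)]
        intro h
        exact hC0 (add_eq_left.1 h)
    · exact Rlz_half hL hp (h3 x x z lx lx tz)
  · -- twisted, loop, loop
    have h4 : ∀ x y z : R, Tt t x → Lo t y → Lo t z → x * y * z + x * z * y = 0 := by
      intro x y z tx ly lz
      obtain ⟨nx, a, hx, hA, uA⟩ := Rlz_tt hT hL tx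
      obtain ⟨ny, hy⟩ := Rlz_lo ly
      obtain ⟨nz, hz⟩ := Rlz_lo lz
      refine Rlz_sel2 hS hL _ _ (Rlz_sum3 hT hL hx hy hz nx ny nz) 0 1 (by decide) ?_ ?_
      · intro i
        fin_cases i <;> simp [Rlz_chi]
      · intro l hl hl'
        fin_cases l
        · exact absurd rfl hl
        · exact absurd rfl hl'
        · exact ⟨1, by simpa [Rlz_chi] using hA.symm⟩
        · exact ⟨1, by simpa [Rlz_chi] using hA.symm⟩
        · exact ⟨2, by simpa [Rlz_chi] using hA.symm⟩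
        · exact ⟨1, by simpa [Rlz_chi] using hA.symm⟩
    intro x y z tx ly lz
    refine ⟨h4 x y z tx ly lz, ?_⟩
    by_cases hp : p = 2
    · obtain ⟨nx, a, hx, hA, uA⟩ := Rlz_tt hT hL tx
      obtain ⟨ny, hy⟩ := Rlz_lo ly
      have h10 : (1 : ZMod N) ≠ 0 := fun h => hA (eq_of_zero_eq_one h.symm _ _)
      have hA0 : ((a + 1 : ℕ) : ZMod N) ≠ 0 := by
        intro h
        rw [h] at uA
        exact h10 ((isUnit_zero_iff.1 uA).symm)
      refine Rlz_sel1 hS hL _ _ (Rlz_sum2 hT hL hx hy nx ny) 3 ?_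
      intro l hl
      fin_cases l
      · refine ⟨0, ?_⟩
        change ((1 + (a + 1) : ℕ) : ZMod N) ≠ ((1 : ℕ) : ZMod N)
        rw [Nat.cast_add 1 (a + 1)]
        intro h
        exact hA0 (add_eq_left.1 h)
      · refine ⟨0, ?_⟩
        change ((1 + (a + 1) * (0 + 1) : ℕ) : ZMod N) ≠ ((1 : ℕ) : ZMod N)
        rw [Nat.zero_add, Nat.mul_one, Nat.cast_add 1 (a + 1)]
        intro h
        exact hA0 (add_eq_left.1 h)
      · refine ⟨0, ?_⟩
        change (((0 + 1) + (0 + 1) * (a + 1) : ℕ) : ZMod N) ≠ ((1 : ℕ) : ZMod N)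
        rw [Nat.zero_add, Nat.one_mul, Nat.cast_add 1 (a + 1)]
        intro h
        exact hA0 (add_eq_left.1 h)
      · exact absurd rfl hl
      · refine ⟨1, ?_⟩
        change ((1 + (0 + 1) * (a + 1) : ℕ) : ZMod N) ≠ (((a + 1) + (a + 1) * (0 + 1) : ℕ) : ZMod N)
        rw [Nat.zero_add, Nat.one_mul, Nat.mul_one, Nat.cast_add 1 (a + 1),
          Nat.cast_add (a + 1) (a + 1)]
        intro h
        exact hA (by simpa using (add_right_cancel h).symm)
      · refine ⟨1, ?_⟩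
        change ((1 + (0 + 1) : ℕ) : ZMod N) ≠ (((a + 1) + (a + 1) * (0 + 1) : ℕ) : ZMod N)
        rw [Nat.zero_add, Nat.mul_one, Nat.cast_add 1 1, Nat.cast_add (a + 1) (a + 1), ← two_mul,
          ← two_mul]
        intro h
        apply hA
        have := (Rlz_two hL hp).mul_left_cancel h
        rw [← this, Nat.cast_one]
    · exact Rlz_half hL hp (h4 x y y tx ly ly)
  · -- loop, twisted, twisted
    intro x y z lx ty tz
    obtain ⟨nx, hx⟩ := Rlz_lo lx
    obtain ⟨ny, b, hy, hB, uB⟩ := Rlz_tt hT hL ty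
    obtain ⟨nz, c, hz, hC, uC⟩ := Rlz_tt hT hL tz
    by_cases hbc : ((b + 1 : ℕ) : ZMod N) * ((c + 1 : ℕ) : ZMod N) = 1
    · right
      refine ⟨Rlz_lop hT hL hy hz ny hbc, ?_⟩
      refine Rlz_sel2 hS hL _ _ (Rlz_sum3 hT hL hx hy hz nx ny nz) 0 3 (by decide) ?_ ?_
      · intro i
        fin_cases i
        · change (((b + 1) * (c + 1) : ℕ) : ZMod N) = ((1 : ℕ) : ZMod N)
          rw [Nat.cast_mul, hbc, Nat.cast_one]
        · simp [Rlz_chi]
        · simp [Rlz_chi]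
      · intro l hl hl'
        fin_cases l
        · exact absurd rfl hl
        · exact ⟨1, by simpa [Rlz_chi] using hC⟩
        · exact ⟨0, by simpa [Rlz_chi] using hB⟩
        · exact absurd rfl hl'
        · exact ⟨0, by simpa [Rlz_chi] using hC⟩
        · exact ⟨1, by simpa [Rlz_chi] using hC⟩
    · left
      refine Rlz_sel1 hS hL _ _ (Rlz_sum3 hT hL hx hy hz nx ny nz) 0 ?_
      intro l hl
      fin_cases l
      · exact absurd rfl hl
      · exact ⟨1, by simpa [Rlz_chi] using hC⟩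
      · exact ⟨0, by simpa [Rlz_chi] using hB⟩
      · refine ⟨0, ?_⟩
        change (((b + 1) * (c + 1) : ℕ) : ZMod N) ≠ ((1 : ℕ) : ZMod N)
        rw [Nat.cast_mul, Nat.cast_one]
        exact hbc
      · exact ⟨0, by simpa [Rlz_chi] using hC⟩
      · exact ⟨1, by simpa [Rlz_chi] using hC⟩
  · -- twisted, twisted, loop
    intro x y z tx ty lz
    obtain ⟨nx, a, hx, hA, uA⟩ := Rlz_tt hT hL tx
    obtain ⟨ny, b, hy, hB, uB⟩ := Rlz_tt hT hL ty
    obtain ⟨nz, hz⟩ := Rlz_lo lz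
    have c1 : (((a + 1 : ℕ)) : ZMod N) ≠ (((a + 1) * (b + 1) : ℕ) : ZMod N) := by
      rw [Nat.cast_mul]
      intro h
      exact hB (uA.mul_left_cancel (by rw [← h, mul_one]))
    by_cases hab : ((a + 1 : ℕ) : ZMod N) * ((b + 1 : ℕ) : ZMod N) = 1
    · right
      refine ⟨Rlz_lop hT hL hx hy nx hab, ?_⟩
      refine Rlz_sel2 hS hL _ _ (Rlz_sum3 hT hL hx hy hz nx ny nz) 0 4 (by decide) ?_ ?_
      · intro i
        fin_cases i
        · simp [Rlz_chi]
        · simp [Rlz_chi]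
        · change ((1 : ℕ) : ZMod N) = (((a + 1) * (b + 1) : ℕ) : ZMod N)
          rw [Nat.cast_mul, hab, Nat.cast_one]
      · intro l hl hl'
        fin_cases l
        · exact absurd rfl hl
        · exact ⟨2, c1⟩
        · exact ⟨0, by simpa [Rlz_chi] using hB⟩
        · exact ⟨0, by simpa [Rlz_chi] using hB⟩
        · exact absurd rfl hl'
        · exact ⟨0, by simpa [Rlz_chi] using hB⟩
    · left
      refine Rlz_sel1 hS hL _ _ (Rlz_sum3 hT hL hx hy hz nx ny nz) 0 ?_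
      intro l hl
      fin_cases l
      · exact absurd rfl hl
      · exact ⟨2, c1⟩
      · exact ⟨0, by simpa [Rlz_chi] using hB⟩
      · exact ⟨0, by simpa [Rlz_chi] using hB⟩
      · refine ⟨2, ?_⟩
        change ((1 : ℕ) : ZMod N) ≠ (((a + 1) * (b + 1) : ℕ) : ZMod N)
        rw [Nat.cast_mul, Nat.cast_one]
        exact fun h => hab h.symm
      · exact ⟨0, by simpa [Rlz_chi] using hB⟩
  · -- three twisted elements
    intro x y z tx ty tz
    obtain ⟨nx, a, hx, hA, uA⟩ := Rlz_tt hT hL tx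
    obtain ⟨ny, b, hy, hB, uB⟩ := Rlz_tt hT hL ty
    obtain ⟨nz, c, hz, hC, uC⟩ := Rlz_tt hT hL tz
    obtain ⟨h1, h2⟩ := L7 x y z a b c hx hy hz nx ny nz hA hB hC uA
    obtain ⟨h3, -⟩ := L7 z y x c b a hz hy hx nz ny nx hC hB hA uC
    by_cases hab : ((a + 1 : ℕ) : ZMod N) * ((b + 1 : ℕ) : ZMod N) = 1
    · by_cases hbc : ((b + 1 : ℕ) : ZMod N) * ((c + 1 : ℕ) : ZMod N) = 1
      · refine ⟨h2 hab hbc, Or.inr ⟨Rlz_lop hT hL hx hy nx hab, Rlz_lop hT hL hy hz ny hbc, ?_⟩⟩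
        refine Rlz_sm hT hL hx hz ?_
        calc ((a + 1 : ℕ) : ZMod N) = ((a + 1 : ℕ) : ZMod N) * (((b + 1 : ℕ) : ZMod N) *
              ((c + 1 : ℕ) : ZMod N)) := by rw [hbc, mul_one]
          _ = ((a + 1 : ℕ) : ZMod N) * ((b + 1 : ℕ) : ZMod N) * ((c + 1 : ℕ) : ZMod N) := by
            rw [mul_assoc]
          _ = _ := by rw [hab, one_mul]
      · have e1 : x * y * z = 0 := h1 fun h => hbc h.2
        have e2 : z * y * x = 0 := h3 fun h => hbc (by rw [mul_comm]; exact h.1)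
        exact ⟨by rw [e1, e2, add_zero], Or.inl e1⟩
    · have e1 : x * y * z = 0 := h1 fun h => hab h.1
      have e2 : z * y * x = 0 := h3 fun h => hab (by rw [mul_comm]; exact h.2)
      exact ⟨by rw [e1, e2, add_zero], Or.inl e1⟩
  · -- two twisted elements
    intro x y tx ty
    obtain ⟨nx, a, hx, hA, uA⟩ := Rlz_tt hT hL tx
    obtain ⟨ny, b, hy, hB, uB⟩ := Rlz_tt hT hL ty
    obtain ⟨h1, -⟩ := L7 x y x a b a hx hy hx nx ny nx hA hB hA uA
    obtain ⟨h2, -⟩ := L7 y x y b a b hy hx hy ny nx ny hB hA hB uB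
    by_cases hab : ((a + 1 : ℕ) : ZMod N) * ((b + 1 : ℕ) : ZMod N) = 1
    · have hba : ((b + 1 : ℕ) : ZMod N) * ((a + 1 : ℕ) : ZMod N) = 1 := by rw [mul_comm]; exact hab
      obtain ⟨h3, h4⟩ := L8 x y a b hx hy nx ny hA hB hab
      obtain ⟨h5, -⟩ := L8 y x b a hy hx ny nx hB hA hba
      by_cases h22 : ((a + 1 : ℕ) : ZMod N) = 2 ∧ ((b + 1 : ℕ) : ZMod N) = 2
      · exact ⟨h4 h22.1 h22.2, Or.inr (Rlz_sm hT hL hx hy (h22.1.trans h22.2.symm))⟩
      · have e1 := h3 h22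
        have e2 := h5 fun h => h22 ⟨h.2, h.1⟩
        exact ⟨by rw [e1, e2, add_zero], Or.inl e1⟩
    · have e1 : x * y * x = 0 := h1 fun h => hab h.1
      have e2 : y * x * y = 0 := h2 fun h => hab h.2
      exact ⟨by rw [e1, e2, add_zero], Or.inl e1⟩

end Pool.Agent.CRP
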