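import Pool.Agent.CRP.St
import Pool.Agent.CRP.Sep
import Pool.Agent.CRP.Cha
import Pool.Agent.CRM.Tyn
import Pool.Agent.CRL.All
import Pool.Agent.CRN.Fwb

/-!
Campaign CRP, module `Spf`: splitting a combination of words into normal words.
-/

set_option autoImplicit false

namespace Pool.Agent.CRP

open Pool.Agent.CRR Pool.Agent.CRN Pool.Agent.CRK Pool.Agent.CRL Pool.Agent.CRM

section spf

variable {R : Type} [NonUnitalRing R]

theorem Spf_te_comm {e t : R} (h1 : ∀ x : R, e * x = x ∧ x * e = x) (a b : ℕ) :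
    te e t a * te e t b = te e t b * te e t a := by
  rw [← Sep_te_add h1, ← Sep_te_add h1, add_comm]

theorem Spf_Cv_nil (e t : R) : Cv [] e t = 0 := rfl

theorem Spf_Cv_cons (q : ℤ × ℕ) (C : List (ℤ × ℕ)) (e t : R) :
    Cv (q :: C) e t = q.1 • te e t q.2 + Cv C e t := by simp [Cv]

theorem Spf_Cv_comm {e t : R} (h1 : ∀ x : R, e * x = x ∧ x * e = x) (C : List (ℤ × ℕ)) (k : ℕ) :
    Cv C e t * te e t k = te e t k * Cv C e t := by
  induction C with
  | nil => rw [Spf_Cv_nil, zero_mul, mul_zero]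
  | cons q C ih =>
    rw [Spf_Cv_cons, add_mul, mul_add, ih, smul_mul_assoc, mul_smul_comm, Spf_te_comm h1]

theorem Spf_wp_rep {e t : R} (h1 : ∀ x : R, e * x = x ∧ x * e = x) (d : ℕ) {l : List R}
    (hl : l ≠ []) : wp (List.replicate d t ++ l) = te e t d * wp l := by
  induction d with
  | zero => rw [List.replicate_zero, List.nil_append, te, (h1 _).1]
  | succ d ih =>
    rw [List.replicate_succ, List.cons_append, Fwb_wp_cons _ (by simp [hl]), ih, te, mul_assoc]

theorem Spf_wp_zero {l : List R} (h : (0 : R) ∈ l) : wp l = 0 := by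
  induction l with
  | nil => simp at h
  | cons x l ih =>
    by_cases hl : l = []
    · subst hl
      have h1 : (0 : R) = x := by simpa using h
      rw [← h1]
      rfl
    · rw [Fwb_wp_cons x hl]
      rcases List.mem_cons.1 h with h | h
      · rw [← h, zero_mul]
      · rw [ih h, mul_zero]

theorem Spf_avg {n p N : ℕ} {e t : R} (h : Lfr n p N e t) (K : AddSubgroup R)
    (hK : ∀ r : R, ∀ x ∈ K, r * x ∈ K) {ι : Type} (S : Finset ι) (r : ℕ)
    (χ : ι → Fin r → ℕ) (w : ι → R) (ν : ι) (hν : ν ∈ S)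
    (hw : ∀ s : Fin r → ℕ, ∑ l ∈ S, te e t (∑ i, χ l i * s i) * w l ∈ K)
    (hs : ∀ l ∈ S, l ≠ ν → w l = 0 ∨ ∃ i, χ ν i % N ≠ χ l i % N) : w ν ∈ K := by
  have : NeZero N := ⟨by have := h.n1; omega⟩
  set D : Fin r → ℕ := fun i => N - χ ν i % N with hD
  have h1 : ∀ σ : Fin r → ZMod N,
      ∑ l ∈ S, te e t (∑ i, (D i + χ l i) * (σ i).val) * w l ∈ K := by
    intro σ
    have h2 := hK (te e t (∑ i, D i * (σ i).val)) _ (hw fun i => (σ i).val)
    rw [Finset.mul_sum] at h2
    have h3 : ∑ l ∈ S, te e t (∑ i, (D i + χ l i) * (σ i).val) * w l =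
        ∑ l ∈ S, te e t (∑ i, D i * (σ i).val) * (te e t (∑ i, χ l i * (σ i).val) * w l) := by
      refine Finset.sum_congr rfl fun l _ => ?_
      rw [← mul_assoc, ← Sep_te_add h.one, ← Finset.sum_add_distrib]
      simp only [add_mul]
    rw [h3]
    exact h2
  have h2 : ∑ l ∈ S, (∑ σ : Fin r → ZMod N, te e t (∑ i, (D i + χ l i) * (σ i).val)) * w l ∈ K := by
    simp only [Finset.sum_mul]
    rw [Finset.sum_comm]
    exact AddSubgroup.sum_mem K fun σ _ => h1 σ
  have h3 : ∀ l, (∀ i, N ∣ D i + χ l i) ↔ ∀ i, χ l i % N = χ ν i % N := by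
    intro l
    refine forall_congr' fun i => ?_
    have hlt : χ ν i % N < N := Nat.mod_lt _ h.n1
    rw [← ZMod.natCast_eq_natCast_iff', ← ZMod.natCast_eq_zero_iff, hD]
    simp only
    rw [Nat.cast_add, Nat.cast_sub hlt.le]
    simp only [CharP.cast_eq_zero, ZMod.natCast_mod, zero_sub]
    rw [neg_add_eq_zero]
    exact eq_comm
  have h4 : (N ^ r) • w ν ∈ K := by
    have h5 : ∑ l ∈ S, (∑ σ : Fin r → ZMod N, te e t (∑ i, (D i + χ l i) * (σ i).val)) * w l =
        (N ^ r) • w ν := by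
      rw [Finset.sum_eq_single ν]
      · rw [Sep_sum h, if_pos ((h3 ν).mpr fun i => rfl), smul_mul_assoc, (h.one _).1]
      · intro l hl hne
        rcases hs l hl hne with h6 | ⟨i, hi⟩
        · rw [h6, mul_zero]
        · rw [Sep_sum h, if_neg fun h7 => hi ((h3 l).mp h7 i).symm, zero_mul]
      · intro h6
        exact absurd hν h6
    rw [← h5]
    exact h2
  obtain ⟨k, hk⟩ := h.cy.pr
  have hc : (N ^ r).Coprime (p ^ k) := Nat.Coprime.pow _ _ h.np
  obtain ⟨u, v, huv⟩ := Nat.isCoprime_iff_coprime.2 hc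
  have h5 : w ν = u • ((N ^ r) • w ν) := by
    calc w ν = (1 : ℤ) • w ν := (one_zsmul _).symm
      _ = (u * ((N ^ r : ℕ) : ℤ) + v * ((p ^ k : ℕ) : ℤ)) • w ν := by rw [huv]
      _ = u • ((N ^ r) • w ν) + v • ((p ^ k) • w ν) := by
        rw [add_smul, mul_smul, mul_smul, natCast_zsmul, natCast_zsmul]
      _ = u • ((N ^ r) • w ν) := by rw [hk, smul_zero, add_zero]
  rw [h5]
  exact AddSubgroup.zsmul_mem K h4 u

theorem Spf_Vl {e t : R} (h1 : ∀ x : R, e * x = x ∧ x * e = x) {g : ℕ} (y : Fin g → R)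
    (M : List (List ℕ)) (ε : ℤ × ℕ × List ℕ → List ℕ → ℤ) (L : List (ℤ × ℕ × List ℕ))
    (hne : ∀ q ∈ L, q.2.2 ≠ [])
    (hL : ∀ q ∈ L, wp (q.2.2.map (xs y)) = (M.map fun ν => ε q ν • wp (ν.map (xs y))).sum) :
    Vl L t y = ∑ ν ∈ M.toFinset,
      Cv (L.map fun q => (q.1 * ε q ν * ((@List.count _ instBEqOfDecidableEq ν M : ℕ) : ℤ), q.2.1)) e t * wp (ν.map (xs y)) := by
  induction L with
  | nil => simp [Vl, Cv]
  | cons q L ih =>
    have h2 := ih (fun q' hq' => hne q' (by simp [hq'])) (fun q' hq' => hL q' (by simp [hq']))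
    have h3 : Vl (q :: L) t y =
        q.1 • wp (List.replicate q.2.1 t ++ q.2.2.map (xs y)) + Vl L t y := by simp [Vl]
    rw [h3, h2, Spf_wp_rep h1 _ (by simpa using hne q (by simp)), hL q (by simp),
      Finset.sum_list_map_count, Finset.mul_sum, Finset.smul_sum, ← Finset.sum_add_distrib]
    refine Finset.sum_congr rfl fun ν _ => ?_
    rw [List.map_cons, Spf_Cv_cons, add_mul]
    congr 1
    rw [mul_smul_comm, mul_smul_comm, smul_mul_assoc, ← natCast_zsmul, smul_smul, smul_smul]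
    congr 1
    ring

theorem Spf_Ty {n p N : ℕ} {e t : R} (h : Lfr n p N e t) (hJ : ∀ r x : R, Nl x → Nl (r * x))
    {g : ℕ} (a : Fin g → ℕ) (y : Fin g → R) (hT : Ty n a t y) (s : Fin g → ℕ) :
    Ty n a t (fun i => te e t (s i) * y i) := by
  refine ⟨hT.1, fun i => ⟨hJ _ _ (hT.2 i).1, ?_⟩⟩
  rw [mul_assoc, (hT.2 i).2, ← mul_assoc, ← mul_assoc, ← Sep_te_pw h.one, Spf_te_comm h.one]

theorem Spf_N {n p N N' : ℕ} {e t : R} (h : Lfr n p N e t) (h' : Lfr n p N' e t) : N' ≤ N := by
  by_contra hc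
  obtain ⟨u, hu, -⟩ := h'.un N h.n1 (by omega)
  rw [h.pn, sub_self, mul_zero] at hu
  exact h.prm.2.1 hu.symm

theorem Spf_NW {N g : ℕ} (a : Fin g → ℕ) {ν : List ℕ} (h : ν ∈ NW N a) :
    ν ≠ [] ∧ ∀ i ∈ ν, i < g := by
  have h0 : ∀ l ∈ Lt0 N a, l < g := fun l hl => (Cha_lt0 a hl).1
  have h1 : ∀ l ∈ Lt1 N a, l < g := fun l hl => (Cha_lt1 a hl).1
  unfold NW at h
  split at h
  · rename_i z hz
    have hz' : z < g := h1 z (by rw [hz]; simp)
    split_ifs at h
    · simp only [List.mem_cons, List.not_mem_nil, or_false] at h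
      rcases h with rfl | rfl <;> simp [hz']
    · simp only [List.mem_cons, List.not_mem_nil, or_false] at h
      rcases h with rfl | rfl | rfl
      · refine ⟨by simp, fun i hi => ?_⟩
        rcases List.mem_append.1 hi with hi | hi
        · exact h0 i hi
        · rw [List.mem_singleton.1 hi]; exact hz'
      · refine ⟨by simp, fun i hi => ?_⟩
        rcases List.mem_append.1 hi with hi | hi
        · rw [List.mem_singleton.1 hi]; exact hz'
        · exact h0 i hi
      · refine ⟨by simp, fun i hi => ?_⟩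
        rcases List.mem_append.1 hi with hi | hi
        · exact h0 i hi
        · have : i = z := by simpa using hi
          rw [this]; exact hz'
  · rename_i x y hz
    have hx' : x < g := h1 x (by rw [hz]; simp)
    have hy' : y < g := h1 y (by rw [hz]; simp)
    split_ifs at h
    · simp only [List.mem_cons, List.not_mem_nil, or_false] at h
      rcases h with rfl | rfl | rfl | rfl | rfl <;> simp [hx', hy']
    · simp only [List.mem_cons, List.not_mem_nil, or_false] at h
      rcases h with rfl | rfl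
      · refine ⟨by simp, fun i hi => ?_⟩
        rcases List.mem_append.1 hi with hi | hi
        · exact h0 i hi
        · have : i = x ∨ i = y := by simpa using hi
          rcases this with rfl | rfl
          · exact hx'
          · exact hy'
      · refine ⟨by simp, fun i hi => ?_⟩
        rcases List.mem_append.1 hi with hi | hi
        · exact h0 i hi
        · have : i = y ∨ i = x := by simpa using hi
          rcases this with rfl | rfl
          · exact hy'
          · exact hx'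
  · rename_i x y z hz
    have hx' : x < g := h1 x (by rw [hz]; simp)
    have hy' : y < g := h1 y (by rw [hz]; simp)
    have hz' : z < g := h1 z (by rw [hz]; simp)
    split_ifs at h
    · simp only [List.mem_cons, List.not_mem_nil, or_false] at h
      rcases h with rfl | rfl | rfl <;> simp [hx', hy', hz']
    · simp at h
  · simp at h

theorem Spf_mem_te {e t : R} (h1 : ∀ x : R, e * x = x ∧ x * e = x) {u : R}
    (hu : u ∈ NonUnitalSubring.closure ({t} : Set R)) (k : ℕ) :
    te e t k * u ∈ NonUnitalSubring.closure ({t} : Set R) := by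
  induction k with
  | zero => rw [te, (h1 u).1]; exact hu
  | succ k ih =>
    rw [te, mul_assoc]
    exact mul_mem (NonUnitalSubring.subset_closure rfl) ih

theorem Spf_te_mem {e t : R} (h1 : ∀ x : R, e * x = x ∧ x * e = x) {u : R}
    (hu : u ∈ NonUnitalSubring.closure ({t} : Set R)) (k : ℕ) :
    u * te e t k ∈ NonUnitalSubring.closure ({t} : Set R) := by
  induction k with
  | zero => rw [te, (h1 u).2]; exact hu
  | succ k ih =>
    have h2 : te e t (k + 1) = te e t k * t := by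
      rw [Sep_te_add h1, Sep_te_one h1]
    rw [h2, ← mul_assoc]
    exact mul_mem ih (NonUnitalSubring.subset_closure rfl)

theorem Spf_Mj {n p N : ℕ} {e t : R} (h : Lfr n p N e t) (hJ : ∀ r x : R, Nl x → Nl (r * x))
    {g : ℕ} (y : Fin g → R) (s : Fin g → ℕ) (j : Fin g) (x : Fin g → R)
    (hx : ∀ i, i < j → x i = te e t (s i) * y i) {z : R} (hz : z ∈ Mj p t y j) (k : ℕ) :
    te e t k * z ∈ Mj p t x j := by
  have key : Mj p t y j ≤ (Mj p t x j).comap (AddMonoidHom.mulLeft (te e t k)) := by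
    unfold Mj
    refine sup_le ?_ ?_
    · refine (AddSubgroup.closure_le _).2 ?_
      rintro w (⟨a, b, ha, hb, rfl⟩ | ⟨a, rfl⟩)
      · refine AddSubgroup.mem_sup_left (AddSubgroup.subset_closure (Or.inl
          ⟨te e t k * a, b, hJ _ _ ha, hb, ?_⟩))
        exact (mul_assoc _ _ _).symm
      · refine AddSubgroup.mem_sup_left (AddSubgroup.subset_closure (Or.inr ⟨te e t k * a, ?_⟩))
        exact mul_smul_comm _ _ _
    · refine (AddSubgroup.closure_le _).2 ?_
      rintro w ⟨i, hi, u, hu, rfl⟩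
      refine AddSubgroup.mem_sup_right (AddSubgroup.subset_closure
        ⟨i, hi, te e t k * u * te e t ((N - 1) * s i),
          Spf_te_mem h.one (Spf_mem_te h.one hu k) _, ?_⟩)
      change te e t k * (u * y i) = te e t k * u * te e t ((N - 1) * s i) * x i
      have h2 : te e t ((N - 1) * s i) * te e t (s i) = e := by
        rw [← Sep_te_add h.one]
        have h3 : (N - 1) * s i + s i = N * s i := by
          have h4 := h.n1
          obtain ⟨m, rfl⟩ : ∃ m, N = m + 1 := ⟨N - 1, by omega⟩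
          rw [Nat.add_sub_cancel]
          ring
        rw [h3, Sep_te_mul h]
      rw [hx i hi, mul_assoc (te e t k * u), ← mul_assoc (te e t ((N - 1) * s i)), h2,
        (h.one _).1, mul_assoc]
  exact key hz

end spf

theorem thm_Spf (_hTyp : St_Typ) (_hSep : St_Sep) (hNrm : St_Nrm) (hCha : St_Cha) : St_Spf := by
  classical
  intro n p N R _ _ e t₀ h₀ H hH g a L ha hL hinv hex
  -- all frames
  obtain ⟨N', hN1, -, hcop, -, hall⟩ := thm_Tyn n p R h₀.cy e h₀.prm h₀.one
  have hfr' : ∀ t : R, Frame R n 1 (fun _ => t) → Lfr n p N' e t := fun t ht =>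
    ⟨h₀.cy, h₀.prm, h₀.one, ht, hN1, hcop, (hall t ht).2.1, (hall t ht).2.2⟩
  have hNN : N' = N := le_antisymm (Spf_N h₀ (hfr' t₀ h₀.fr)) (Spf_N (hfr' t₀ h₀.fr) h₀)
  subst hNN
  have hfr := hfr'
  -- the nil elements are an ideal
  obtain ⟨J, hJ1, hJ2⟩ := CRL.jil n h₀.cy.n4 R h₀.cy.inM h₀.cy.nt
  have hJ : ∀ r x : R, Nl x → Nl (r * x) := fun r x hx =>
    (hJ2 _).1 (hJ1 r x ((hJ2 x).2 hx)).1
  -- normal forms
  have hc : ∀ q : ℤ × ℕ × List ℕ, ∃ ε : List ℕ → ℤ, q ∈ L → ∀ (t : R) (y : Fin g → R),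
      Lfr n p N' e t → Ty n a t y →
      wp (q.2.2.map (xs y)) = ((NW N' a).map fun ν => ε ν • wp (ν.map (xs y))).sum := by
    intro q
    by_cases hq : q ∈ L
    · obtain ⟨ε, hε⟩ := hNrm n p N' R e g a q.2.2 (hL q hq).2 ha
      exact ⟨ε, fun _ => hε⟩
    · exact ⟨fun _ => 0, fun h => absurd h hq⟩
  choose ε hε using hc
  obtain ⟨C, hC⟩ : ∃ C : List ℕ → List (ℤ × ℕ), ∀ ν, C ν =
      L.map fun q => (q.1 * ε q ν * ((@List.count _ instBEqOfDecidableEq ν (NW N' a) : ℕ) : ℤ), q.2.1) := ⟨_, fun _ => rfl⟩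
  have hne : ∀ q ∈ L, q.2.2 ≠ [] := by
    intro q hq h
    obtain ⟨i, -⟩ := ha
    have := ((hL q hq).2 i).2 i.2
    rw [h] at this
    exact absurd this List.not_mem_nil
  have hVl : ∀ (t : R) (y : Fin g → R), Lfr n p N' e t → Ty n a t y →
      Vl L t y = ∑ ν ∈ (NW N' a).toFinset, Cv (C ν) e t * wp (ν.map (xs y)) := by
    intro t y ht hy
    rw [Spf_Vl h₀.one y (NW N' a) ε L hne fun q hq => hε q hq t y ht hy]
    exact Finset.sum_congr rfl fun ν _ => by rw [hC]
  -- the value for the multiplied entries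
  have hVs : ∀ (t : R) (y : Fin g → R), Lfr n p N' e t → Ty n a t y → ∀ s : Fin g → ℕ,
      Vl L t (fun i => te e t (s i) * y i) = ∑ ν ∈ (NW N' a).toFinset,
        te e t (∑ i : Fin g, chi a ν i * s i) * (Cv (C ν) e t * wp (ν.map (xs y))) := by
    intro t y ht hy s
    rw [hVl t _ ht (Spf_Ty ht hJ a y hy s)]
    refine Finset.sum_congr rfl fun ν hν => ?_
    obtain ⟨hν1, hν2⟩ := Spf_NW a (List.mem_toFinset.1 hν)
    rw [(hCha n p N' R e t ht g a y hy).1 ν hν1 hν2 s, ← mul_assoc, Spf_Cv_comm ht.one, mul_assoc]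
  have hsep : ∀ (K : AddSubgroup R), (∀ r : R, ∀ x ∈ K, r * x ∈ K) →
      ∀ (t : R) (y : Fin g → R), Lfr n p N' e t → Ty n a t y →
      (∀ s : Fin g → ℕ, Vl L t (fun i => te e t (s i) * y i) ∈ K) →
      ∀ ν ∈ NW N' a, Cv (C ν) e t * wp (ν.map (xs y)) ∈ K := by
    intro K hK t y ht hy hs ν hν
    by_cases h0 : wp (ν.map (xs y)) = 0
    · rw [h0, mul_zero]
      exact K.zero_mem
    refine Spf_avg ht K hK (NW N' a).toFinset g (fun ν (i : Fin g) => chi a ν i)
      (fun ν => Cv (C ν) e t * wp (ν.map (xs y))) ν (List.mem_toFinset.2 hν) ?_ ?_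
    · intro s
      rw [← hVs t y ht hy s]
      exact hs s
    · intro ν' hν' hne'
      by_cases h1 : wp (ν'.map (xs y)) = 0
      · left
        simp only [h1, mul_zero]
      · right
        exact (hCha n p N' R e t ht g a y hy).2 ha ν hν ν' (List.mem_toFinset.1 hν') hne'.symm h0 h1
  -- the word
  obtain ⟨t, x, hx, hx0⟩ := hex
  have hx1 := hVl t x (hfr t hx.1) hx
  obtain ⟨ν, hν, hν0⟩ : ∃ ν ∈ (NW N' a).toFinset, Cv (C ν) e t * wp (ν.map (xs x)) ≠ 0 := by
    refine Finset.exists_ne_zero_of_sum_ne_zero ?_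
    rw [← hx1]
    exact hx0
  have hν' : ν ∈ NW N' a := List.mem_toFinset.1 hν
  refine ⟨C ν, ν, hν', ?_, t, x, hx, hν0⟩
  intro t y hy
  have ht := hfr t hy.1
  refine ⟨hsep H (fun r z hz => (hH.1 r z hz).1) t y ht hy
    (fun s => (hinv t _ (Spf_Ty ht hJ a y hy s)).1) ν hν', ?_⟩
  intro j hj
  refine AddSubgroup.mem_bot.1 (hsep ⊥ ?_ t y ht hy ?_ ν hν')
  · intro r z hz
    rw [AddSubgroup.mem_bot.1 hz, mul_zero]
    exact AddSubgroup.zero_mem _
  · intro s
    rw [AddSubgroup.mem_bot]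
    obtain ⟨y', hy'⟩ : ∃ y' : Fin g → R, y' = fun i => te e t (s i) * y i := ⟨_, rfl⟩
    have hTy' : Ty n a t y' := hy' ▸ Spf_Ty ht hJ a y hy s
    obtain ⟨z, hz⟩ : ∃ z : Fin g → R, z = Function.update y' j 0 := ⟨_, rfl⟩
    have hzj : z j = 0 := by rw [hz, Function.update_self]
    have hzi : ∀ i, i ≠ j → z i = y' i := fun i hi => by rw [hz, Function.update_of_ne hi]
    have hTz : Ty n a t z := by
      refine ⟨hy.1, fun i => ?_⟩
      by_cases hi : i = j
      · subst hi
        rw [hzj]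
        exact ⟨by simp [Nl], by rw [zero_mul, mul_zero]⟩
      · rw [hzi i hi]
        exact hTy'.2 i
    have h1 := (hinv t z hTz).2 j (y' j) (hTy'.2 j).1 (hTy'.2 j).2 (by
      have h2 : y' j = te e t (s j) * y j := by rw [hy']
      rw [h2]
      refine Spf_Mj ht hJ y s j z (fun i hi => ?_) hj _
      rw [hzi i hi.ne, hy'])
    have h2 : Function.update z j (z j + y' j) = y' := by
      funext i
      by_cases hi : i = j
      · subst hi
        rw [Function.update_self, hzj, zero_add]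
      · rw [Function.update_of_ne hi, hzi i hi]
    rw [h2] at h1
    rw [← hy', h1]
    unfold Vl
    refine List.sum_eq_zero fun v hv => ?_
    obtain ⟨q, hq, rfl⟩ := List.mem_map.1 hv
    rw [Spf_wp_zero, smul_zero]
    refine List.mem_append_right _ (List.mem_map.2 ⟨j, ((hL q hq).2 j).2 j.2, ?_⟩)
    unfold xs
    rw [dif_pos j.2]
    exact hzj

end Pool.Agent.CRP
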