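import Pool.Agent.CRP.St
import Pool.Agent.CRL.All

/-!
Campaign CRP (problem MP_1bb14d_al): types.
-/

set_option autoImplicit false

namespace Pool.Agent.CRP

open Pool.Agent.CRR Pool.Agent.CRN Pool.Agent.CRK Pool.Agent.CRL Pool.Agent.CRM

section Typ

variable {R : Type} [NonUnitalRing R]

theorem Typ_pw_comm (x : R) (k : ℕ) : x * pw x k = pw x k * x := by
  induction k with
  | zero => rfl
  | succ k ih =>
    show x * (pw x k * x) = pw x k * x * x
    rw [← mul_assoc, ih]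

/-- `te e t (k + 1) = pw t k`. -/
theorem Typ_te_succ {e t : R} (h1 : ∀ x : R, e * x = x ∧ x * e = x) (k : ℕ) :
    te e t (k + 1) = pw t k := by
  induction k with
  | zero =>
    show t * e = t
    exact (h1 t).2
  | succ k ih =>
    show t * te e t (k + 1) = pw t k * t
    rw [ih, Typ_pw_comm]

theorem Typ_te_add {e t : R} (h1 : ∀ x : R, e * x = x ∧ x * e = x) (k l : ℕ) :
    te e t (k + l) = te e t k * te e t l := by
  induction k with
  | zero =>
    rw [Nat.zero_add]
    exact (h1 _).1.symm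
  | succ k ih =>
    have h2 : k + 1 + l = (k + l) + 1 := by omega
    rw [h2]
    show t * te e t (k + l) = t * te e t k * te e t l
    rw [ih, mul_assoc]

theorem Typ_te_mulN {e t : R} (h1 : ∀ x : R, e * x = x ∧ x * e = x) (N : ℕ)
    (hN : te e t N = e) (m : ℕ) : te e t (m * N) = e := by
  induction m with
  | zero =>
    rw [Nat.zero_mul]
    rfl
  | succ m ih =>
    rw [Nat.succ_mul, Typ_te_add h1, ih, hN]
    exact (h1 e).1

theorem Typ_te_mod {e t : R} (h1 : ∀ x : R, e * x = x ∧ x * e = x) (N : ℕ)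
    (hN : te e t N = e) (a : ℕ) : te e t a = te e t (a % N) := by
  have h2 : a = (a / N) * N + a % N := by
    rw [Nat.mul_comm]
    exact (Nat.div_add_mod a N).symm
  calc te e t a = te e t ((a / N) * N + a % N) := by rw [← h2]
    _ = te e t (a % N) := by
      rw [Typ_te_add h1, Typ_te_mulN h1 N hN]
      exact (h1 _).1

/-- `x t^k = t^(k (a + 1)) x`. -/
theorem Typ_mv {e t : R} (h1 : ∀ x : R, e * x = x ∧ x * e = x) (x : R) (a : ℕ)
    (hx : x * t = pw t a * x) (k : ℕ) : x * te e t k = te e t (k * (a + 1)) * x := by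
  induction k with
  | zero =>
    rw [Nat.zero_mul]
    show x * e = e * x
    rw [(h1 x).1, (h1 x).2]
  | succ k ih =>
    show x * (t * te e t k) = _
    rw [← mul_assoc, hx, mul_assoc, ih, ← mul_assoc, ← Typ_te_succ h1, ← Typ_te_add h1]
    congr 2
    ring

theorem Typ_mul {e t : R} (h1 : ∀ x : R, e * x = x ∧ x * e = x) (x y : R) (a b : ℕ)
    (hx : x * t = pw t a * x) (hy : y * t = pw t b * y) :
    x * y * t = pw t ((a + 1) * (b + 1) - 1) * (x * y) := by
  have h2 : 1 ≤ (a + 1) * (b + 1) := Nat.succ_le_of_lt (by positivity)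
  rw [← Typ_te_succ h1, Nat.sub_add_cancel h2, mul_assoc, hy, ← Typ_te_succ h1 b, ← mul_assoc,
    Typ_mv h1 x a hx, mul_assoc]
  congr 2
  ring

theorem Typ_teN {n p N : ℕ} {e t : R} (h : Lfr n p N e t) : te e t N = e := by
  have h2 := Typ_te_succ (t := t) h.one (N - 1)
  rw [Nat.sub_add_cancel h.n1, h.pn] at h2
  exact h2

theorem Typ_can {n p N : ℕ} {e t : R} (h : Lfr n p N e t) (x : R) (k : ℕ)
    (hx : te e t k * x = 0) : x = 0 := by
  have h1 := h.one
  have h2 : te e t (k * (N - 1)) * te e t k = e := by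
    rw [← Typ_te_add h1]
    have h3 : k * (N - 1) + k = k * N := by
      have h4 := h.n1
      obtain ⟨M, rfl⟩ : ∃ M, N = M + 1 := ⟨N - 1, by omega⟩
      simp only [Nat.add_sub_cancel]
      ring
    rw [h3]
    exact Typ_te_mulN h1 N (Typ_teN h) k
  calc x = e * x := (h1 x).1.symm
    _ = te e t (k * (N - 1)) * te e t k * x := by rw [h2]
    _ = te e t (k * (N - 1)) * (te e t k * x) := mul_assoc _ _ _
    _ = 0 := by rw [hx, mul_zero]

theorem Typ_key {n p N : ℕ} {e t : R} (h : Lfr n p N e t) (x : R) (a b : ℕ) (hab : a < b)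
    (hb : b < N) (hx : te e t (a + 1) * x = te e t (b + 1) * x) : x = 0 := by
  have h1 := h.one
  obtain ⟨u, hu1, hu2⟩ := h.un (b - a) (by omega) (by omega)
  have h2 : te e t (b + 1) = te e t (b - a) * te e t (a + 1) := by
    rw [← Typ_te_add h1]
    congr 1
    omega
  have h3 : te e t (b - a) = pw t (b - a - 1) := by
    have h4 := Typ_te_succ (t := t) h1 (b - a - 1)
    rw [Nat.sub_add_cancel (by omega)] at h4
    exact h4
  have h5 : (pw t (b - a - 1) - e) * (te e t (a + 1) * x) = 0 := by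
    rw [sub_mul, (h1 _).1, ← mul_assoc, ← h3, ← h2, hx, sub_self]
  refine Typ_can h x (a + 1) ?_
  calc te e t (a + 1) * x = e * (te e t (a + 1) * x) := (h1 _).1.symm
    _ = u * (pw t (b - a - 1) - e) * (te e t (a + 1) * x) := by rw [hu1]
    _ = u * ((pw t (b - a - 1) - e) * (te e t (a + 1) * x)) := mul_assoc _ _ _
    _ = 0 := by rw [h5, mul_zero]

theorem Typ_pwmod {n p N : ℕ} {e t : R} (h : Lfr n p N e t) (a b : ℕ) (hab : a % N = b % N) :
    pw t a = pw t b := by
  have h1 := h.one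
  rw [← Typ_te_succ h1, ← Typ_te_succ h1, Typ_te_mod h1 N (Typ_teN h) (a + 1),
    Typ_te_mod h1 N (Typ_teN h) (b + 1)]
  congr 1
  exact Nat.ModEq.add_right 1 hab

theorem Typ_uni {n p N : ℕ} {e t : R} (h : Lfr n p N e t) (x : R) (a b : ℕ)
    (ha : x * t = pw t a * x) (hb : x * t = pw t b * x) (hx : x ≠ 0) : a % N = b % N := by
  have h1 := h.one
  have hN := h.n1
  have ea : pw t a = te e t (a % N + 1) := by
    rw [Typ_te_succ h1]
    exact Typ_pwmod h _ _ (Nat.mod_mod a N).symm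
  have eb : pw t b = te e t (b % N + 1) := by
    rw [Typ_te_succ h1]
    exact Typ_pwmod h _ _ (Nat.mod_mod b N).symm
  have h2 : te e t (a % N + 1) * x = te e t (b % N + 1) * x := by
    rw [← ea, ← eb, ← ha, ← hb]
  rcases lt_trichotomy (a % N) (b % N) with h3 | h3 | h3
  · exact absurd (Typ_key h x _ _ h3 (Nat.mod_lt _ (by omega)) h2) hx
  · exact h3
  · exact absurd (Typ_key h x _ _ h3 (Nat.mod_lt _ (by omega)) h2.symm) hx

theorem Typ_cop {n p N : ℕ} {e t : R} (h : Lfr n p N e t) (x : R) (a : ℕ)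
    (ha : x * t = pw t a * x) (hx : x ≠ 0) : (a + 1).Coprime N := by
  have h1 := h.one
  have hN := h.n1
  by_contra hc
  have hd : Nat.gcd (a + 1) N ≠ 1 := hc
  obtain ⟨m, hm⟩ := Nat.gcd_dvd_left (a + 1) N
  obtain ⟨N', hN'⟩ := Nat.gcd_dvd_right (a + 1) N
  have hd0 : 0 < Nat.gcd (a + 1) N := Nat.gcd_pos_of_pos_left _ (by omega)
  generalize hdd : Nat.gcd (a + 1) N = d at *
  have hN0 : 0 < N' := by
    rcases Nat.eq_zero_or_pos N' with h0 | h0
    · rw [h0, Nat.mul_zero] at hN'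
      omega
    · exact h0
  have hlt : N' < N := by
    rw [hN']
    have h2 : 2 ≤ d := by omega
    nlinarith
  obtain ⟨u, hu1, hu2⟩ := h.un N' hN0 hlt
  have h3 : te e t N' = pw t (N' - 1) := by
    have h4 := Typ_te_succ (t := t) h1 (N' - 1)
    rw [Nat.sub_add_cancel (by omega)] at h4
    exact h4
  have h5 : x * te e t N' = x := by
    rw [Typ_mv h1 x a ha]
    have h6 : N' * (a + 1) = m * N := by
      rw [hm, hN']
      ring
    rw [h6, Typ_te_mulN h1 N (Typ_teN h)]
    exact (h1 x).1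
  apply hx
  calc x = x * e := (h1 x).2.symm
    _ = x * ((pw t (N' - 1) - e) * u) := by rw [hu2]
    _ = (x * te e t N' - x * e) * u := by rw [← mul_assoc, mul_sub, h3]
    _ = 0 := by rw [h5, (h1 x).2, sub_self, zero_mul]

end Typ

theorem thm_Typ : St_Typ := by
  intro n p N R _ _ e t h
  have h1 := h.one
  obtain ⟨J, hJ1, hJ2⟩ := jil n h.cy.n4 R h.cy.inM h.cy.nt
  refine ⟨fun x a k hx => Typ_mv h1 x a hx k, fun x y a b hx hy => Typ_mul h1 x y a b hx hy,
    fun a b hab => Typ_pwmod h a b hab, fun x a b ha hb hx => Typ_uni h x a b ha hb hx,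
    fun x a ha hx => Typ_cop h x a ha hx, ?_, fun x k hx => Typ_can h x k hx, ?_, ?_⟩
  · intro x a ha hx
    constructor
    · intro hc
      have h2 := Typ_uni h x a 0 ha hc hx
      rw [h2, Nat.zero_mod]
    · intro hz
      have h2 : pw t a = t := Typ_pwmod h a 0 (by rw [hz, Nat.zero_mod])
      rw [ha, h2]
  · intro x y hx hy
    refine ⟨⟨?_, ?_⟩, ⟨?_, ?_⟩⟩
    · exact (hJ2 _).1 (hJ1 y x ((hJ2 x).2 hx.1)).2
    · rw [mul_assoc, hy.2, ← mul_assoc, hx.2, mul_assoc]
    · exact (hJ2 _).1 (J.add_mem ((hJ2 x).2 hx.1) ((hJ2 y).2 hy.1))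
    · rw [add_mul, mul_add, hx.2, hy.2]
  · rintro x y ⟨hx, a, ha⟩ ⟨hy, b, hb⟩
    exact ⟨(hJ2 _).1 (hJ1 y x ((hJ2 x).2 hx)).2, _, Typ_mul h1 x y a b ha hb⟩

end Pool.Agent.CRP
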