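import Pool.Agent.CRP.St
import Pool.Agent.CRM.Kjf

/-!
Campaign CRP, module Wpn: the subring generated by a frame.
-/

set_option autoImplicit false

namespace Pool.Agent.CRP

open Pool.Agent.CRR Pool.Agent.CRN Pool.Agent.CRK Pool.Agent.CRL Pool.Agent.CRM

section frob

open Polynomial

theorem Wpn_frob {A : Type} [Ring A] (p m : ℕ) (hp : p.Prime) (t : A) (ht : t ^ (p ^ m) = t)
    (w : A) (hw : w ∈ Subring.closure ({t} : Set A)) :
    ∃ (d : ℕ) (c : ℕ → ℤ), w ^ (p ^ m) - w = p • ∑ i ∈ Finset.range d, c i • t ^ i := by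
  have : Fact p.Prime := ⟨hp⟩
  have h1 : ∃ f : ℤ[X], w = aeval t f := by
    induction hw using Subring.closure_induction with
    | mem x hx =>
      rw [Set.mem_singleton_iff] at hx
      exact ⟨X, by rw [aeval_X, hx]⟩
    | zero => exact ⟨0, by simp⟩
    | one => exact ⟨1, by simp⟩
    | add x y _ _ hx hy =>
      obtain ⟨f, hf⟩ := hx
      obtain ⟨g, hg⟩ := hy
      exact ⟨f + g, by rw [map_add, hf, hg]⟩
    | neg x _ hx =>
      obtain ⟨f, hf⟩ := hx
      exact ⟨-f, by rw [map_neg, hf]⟩
    | mul x y _ _ hx hy =>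
      obtain ⟨f, hf⟩ := hx
      obtain ⟨g, hg⟩ := hy
      exact ⟨f * g, by rw [map_mul, hf, hg]⟩
  obtain ⟨f, rfl⟩ := h1
  have h2 : C (p : ℤ) ∣ f ^ (p ^ m) - expand ℤ (p ^ m) f := by
    rw [C_dvd_iff_dvd_coeff]
    intro i
    have h3 : (f ^ (p ^ m) - expand ℤ (p ^ m) f).map (Int.castRingHom (ZMod p)) = 0 := by
      rw [Polynomial.map_sub, Polynomial.map_pow, map_expand, Kjf_pow, sub_self]
    have h4 := congrArg (fun q => coeff q i) h3
    simp only [coeff_map, coeff_zero] at h4
    exact (ZMod.intCast_zmod_eq_zero_iff_dvd _ p).1 h4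
  obtain ⟨g, hg⟩ := h2
  refine ⟨g.natDegree + 1, g.coeff, ?_⟩
  rw [← aeval_eq_sum_range]
  have h3 := congrArg (aeval t) hg
  rw [map_sub, map_pow, expand_aeval, ht, map_mul, aeval_C] at h3
  rw [h3]
  simp

theorem Wpn_pw {R : Type} [NonUnitalRing R] (t : R) (k : ℕ) :
    pw t k ∈ NonUnitalSubring.closure ({t} : Set R) := by
  induction k with
  | zero => exact NonUnitalSubring.subset_closure (Set.mem_singleton t)
  | succ k ih =>
    have h : pw t (k + 1) = pw t k * t := rfl
    rw [h]
    exact mul_mem ih (NonUnitalSubring.subset_closure (Set.mem_singleton t))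

/-- The nonunital part of the value of a polynomial at `t`. -/
theorem Wpn_snd {R : Type} [NonUnitalRing R] (t : R) (d : ℕ) (c : ℕ → ℤ) :
    (∑ i ∈ Finset.range d, c i • (Unitization.inr t : Unitization ℤ R) ^ i).snd ∈
      NonUnitalSubring.closure ({t} : Set R) := by
  induction d with
  | zero =>
    rw [Finset.sum_range_zero, Unitization.snd_zero]
    exact zero_mem _
  | succ d ih =>
    rw [Finset.sum_range_succ, Unitization.snd_add]
    refine add_mem ih ?_
    rcases d with _ | d
    · have h : (c 0 • (Unitization.inr t : Unitization ℤ R) ^ 0).snd = 0 := by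
        rw [pow_zero]
        show c 0 • (1 : Unitization ℤ R).snd = 0
        rw [Unitization.snd_one, smul_zero]
      rw [h]
      exact zero_mem _
    · have h : (c (d + 1) • (Unitization.inr t : Unitization ℤ R) ^ (d + 1)).snd =
          c (d + 1) • pw t d := by
        rw [← Kjf_inr]
        rfl
      rw [h]
      exact zsmul_mem (Wpn_pw t d) _

end frob

theorem Wpn_X {R A : Type} [NonUnitalRing R] [Ring A] (f : R →ₙ+* A) (p m : ℕ) (hp : p.Prime)
    (t : R) (ht : f t ^ (p ^ m) = f t) (w : R) (hw : w ∈ NonUnitalSubring.closure ({t} : Set R)) :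
    ∃ (d : ℕ) (c : ℕ → ℤ),
      f w ^ (p ^ m) - f w = p • ∑ i ∈ Finset.range d, c i • f t ^ i := by
  refine Wpn_frob p m hp _ ht _ ?_
  induction hw using NonUnitalSubring.closure_induction with
  | mem x hx =>
    rw [Set.mem_singleton_iff] at hx
    rw [hx]
    exact Subring.subset_closure (Set.mem_singleton _)
  | zero =>
    rw [map_zero]
    exact zero_mem _
  | add x y _ _ hx hy =>
    rw [map_add]
    exact add_mem hx hy
  | neg x _ hx =>
    rw [map_neg]
    exact neg_mem hx
  | mul x y _ _ hx hy =>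
    rw [map_mul]
    exact mul_mem hx hy

/-- Nil elements of the subring generated by `t` are divisible by `p` in this subring. -/
theorem Wpn_W {R : Type} [NonUnitalRing R] (p m : ℕ) (hp : p.Prime) (t : R) (k : ℕ)
    (hk : p ^ m = k + 1) (ht : pw t k = t) (h3 : 3 ≤ p ^ m) (w : R)
    (hw : w ∈ NonUnitalSubring.closure ({t} : Set R)) (hn : Nl w) :
    ∃ z ∈ NonUnitalSubring.closure ({t} : Set R), w = p • z := by
  have h1 : (Unitization.inr t : Unitization ℤ R) ^ (p ^ m) = Unitization.inr t := by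
    rw [hk, ← Kjf_inr, ht]
  obtain ⟨d, c', hz⟩ := Wpn_X (A := Unitization ℤ R)
    { toFun := fun x => (Unitization.inr x : Unitization ℤ R)
      map_mul' := fun a b => Unitization.inr_mul ℤ a b
      map_zero' := Unitization.inr_zero ℤ
      map_add' := fun a b => Unitization.inr_add ℤ a b } p m hp t h1 w hw
  have hz' : (Unitization.inr w : Unitization ℤ R) ^ (p ^ m) - Unitization.inr w =
      p • ∑ i ∈ Finset.range d, c' i • (Unitization.inr t : Unitization ℤ R) ^ i := hz
  have h4 : (Unitization.inr w : Unitization ℤ R) ^ 3 = 0 := by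
    have h5 := Kjf_inr w 2
    have h6 : pw w 2 = 0 := hn
    rw [h6, Unitization.inr_zero] at h5
    exact h5.symm
  obtain ⟨c, hc⟩ : ∃ c, p ^ m = 3 + c := ⟨p ^ m - 3, by omega⟩
  have h7 : (Unitization.inr w : Unitization ℤ R) ^ (p ^ m) = 0 := by
    rw [hc, pow_add, h4, zero_mul]
  rw [h7, zero_sub] at hz'
  refine ⟨-(∑ i ∈ Finset.range d, c' i • (Unitization.inr t : Unitization ℤ R) ^ i).snd,
    neg_mem (Wpn_snd t d c'), ?_⟩
  have h5 : (-(Unitization.inr w : Unitization ℤ R)).snd =
      (p • ∑ i ∈ Finset.range d, c' i • (Unitization.inr t : Unitization ℤ R) ^ i).snd := by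
    rw [hz']
  rw [Unitization.snd_neg, Unitization.snd_inr, Unitization.snd_smul] at h5
  rw [smul_neg, ← h5, neg_neg]

/-- **WPN.** -/
theorem thm_Wpn : St_Wpn := by
  intro n p N R _ _ e t hL
  have h1 : ∀ w ∈ NonUnitalSubring.closure ({t} : Set R), Nl w →
      ∃ w' ∈ NonUnitalSubring.closure ({t} : Set R), w = p • w' := by
    intro w hw hn
    have hN1 := hL.n1
    have hNp := hL.np
    have hφ : 1 ≤ N.totient := Nat.totient_pos.2 hN1
    have hp2 := hL.cy.pp.two_le
    have hm3 : 3 ≤ p ^ (2 * N.totient) := by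
      have h5 : 2 ^ 2 ≤ p ^ (2 * N.totient) :=
        (Nat.pow_le_pow_left hp2 2).trans (Nat.pow_le_pow_right (by omega) (by omega))
      omega
    have hmod : p ^ (2 * N.totient) ≡ 1 [MOD N] := by
      have h5 := (Nat.ModEq.pow_totient hNp.symm).pow 2
      rwa [← pow_mul, one_pow, mul_comm] at h5
    obtain ⟨k, hk⟩ : ∃ k, p ^ (2 * N.totient) = k + 1 := ⟨p ^ (2 * N.totient) - 1, by omega⟩
    have hdvd : N ∣ k := by
      have h5 := (Nat.modEq_iff_dvd' (by omega)).1 hmod.symm
      rwa [hk, Nat.add_sub_cancel] at h5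
    obtain ⟨l, hl⟩ := hdvd
    have ht : pw t k = t := by
      have h5 : ∀ l : ℕ, (Unitization.inr t : Unitization ℤ R) ^ (N * l + 1) =
          Unitization.inr t := by
        intro l
        induction l with
        | zero => rw [mul_zero, zero_add, pow_one]
        | succ l ih =>
          have e1 : N * (l + 1) + 1 = (N * l + 1) + ((N - 1) + 1) := by
            rw [mul_add]
            omega
          rw [e1, pow_add, ih, ← Kjf_inr, hL.pn, ← Unitization.inr_mul, (hL.one t).2]
      have h6 := h5 l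
      rw [← hl, ← Kjf_inr] at h6
      exact Unitization.inr_injective h6
    exact Wpn_W p _ hL.cy.pp t k hk ht hm3 w hw hn
  refine ⟨h1, ?_⟩
  intro C hC h0
  obtain ⟨r, hr⟩ := hL.cy.pr
  have key : ∀ k : ℕ, (∃ (k : ℕ) (u u' : R), u ∈ NonUnitalSubring.closure ({t} : Set R) ∧
      C = p ^ k • u ∧ u' * u = e ∧ u * u' = e) ∨
      ∃ c ∈ NonUnitalSubring.closure ({t} : Set R), C = p ^ k • c := by
    intro k
    induction k with
    | zero => exact Or.inr ⟨C, hC, by rw [pow_zero, one_smul]⟩
    | succ k ih =>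
      rcases ih with ih | ⟨c, hc, hCc⟩
      · exact Or.inl ih
      · rcases thm_Prl n hL.cy.n4 R hL.cy.inM e hL.prm c (hL.one c).1 (hL.one c).2 with
          h | ⟨y, _, _, hxy, hyx⟩
        · obtain ⟨w', hw', hcw⟩ := h1 c hc h
          refine Or.inr ⟨w', hw', ?_⟩
          rw [hCc, hcw, pow_succ, mul_smul]
        · exact Or.inl ⟨k, c, y, hc, hCc, hyx, hxy⟩
  rcases key r with h | ⟨c, _, hc⟩
  · exact h
  · exact absurd (hc.trans (hr c)) h0

end Pool.Agent.CRP
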