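import Pool.Agent.CRP.St

/-!
Campaign CRP, module Zth: products of three twisted elements.
-/

set_option autoImplicit false

namespace Pool.Agent.CRP

open Pool.Agent.CRR Pool.Agent.CRN Pool.Agent.CRK Pool.Agent.CRL Pool.Agent.CRM

/-- `pw t a` is in the subring generated by `t` -/
theorem Zth_pw {R : Type} [NonUnitalRing R] (t : R) (a : ℕ) :
    pw t a ∈ NonUnitalSubring.closure ({t} : Set R) := by
  induction a with
  | zero => exact NonUnitalSubring.subset_closure rfl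
  | succ a ih => exact mul_mem ih (NonUnitalSubring.subset_closure rfl)

/-- an element with a type can be moved past the elements of the subring generated by `t` -/
theorem Zth_mv {R : Type} [NonUnitalRing R] {t x : R} {a : ℕ} (hx : x * t = pw t a * x) {u : R}
    (hu : u ∈ NonUnitalSubring.closure ({t} : Set R)) :
    ∃ u' ∈ NonUnitalSubring.closure ({t} : Set R), x * u = u' * x := by
  induction hu using NonUnitalSubring.closure_induction with
  | mem z hz =>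
    rw [Set.mem_singleton_iff] at hz
    rw [hz]
    exact ⟨_, Zth_pw t a, hx⟩
  | zero => exact ⟨0, zero_mem _, by rw [mul_zero, zero_mul]⟩
  | add z w _ _ hz hw =>
    obtain ⟨z', hz', hz⟩ := hz
    obtain ⟨w', hw', hw⟩ := hw
    exact ⟨z' + w', add_mem hz' hw', by rw [mul_add, add_mul, hz, hw]⟩
  | neg z _ hz =>
    obtain ⟨z', hz', hz⟩ := hz
    exact ⟨-z', neg_mem hz', by rw [mul_neg, neg_mul, hz]⟩
  | mul z w _ _ hz hw =>
    obtain ⟨z', hz', hz⟩ := hz
    obtain ⟨w', hw', hw⟩ := hw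
    exact ⟨z' * w', mul_mem hz' hw', by rw [← mul_assoc, hz, mul_assoc, hw, mul_assoc]⟩

/-- the elements `u x`, `u y`, and the twisted products of two elements with types -/
def Zth_B {R : Type} [NonUnitalRing R] (t x y : R) : Set R :=
  {w | (∃ u ∈ NonUnitalSubring.closure ({t} : Set R), ∃ z, (z = x ∨ z = y) ∧ w = u * z) ∨
    ∃ c d, Hx t c ∧ Hx t d ∧ w = c * d ∧ Tt t w}

theorem Zth_gen (hT : St_Typ) (hD : St_Dcp) {n p N : ℕ} {R : Type} [NonUnitalRing R] [Finite R]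
    {e t : R} {v : ℕ} {a : ℕ → R} {x y : R} (hG : Gx n p N e t v a x y) {z : R} (hz : Tt t z) :
    z ∈ AddSubgroup.closure (Zth_B t x y) := by
  obtain ⟨t1, t2, t3, t4, t5, t6, t7, t8, t9⟩ := hT n p N R e t hG.fr
  have h0 : z ≠ 0 := by
    rintro rfl
    exact hz.2.2 (by rw [zero_mul, mul_zero])
  obtain ⟨b, hb⟩ := hz.2.1
  have hbN : b % N ≠ 0 := fun h => hz.2.2 ((t6 z b hb h0).2 h)
  obtain ⟨bx, hbx⟩ := hG.tx.2.1
  obtain ⟨bb, hbb⟩ := hG.ty.2.1
  let g : Fin (v + 2) → R := fun i => if (i : ℕ) < v then a i else if (i : ℕ) = v then x else y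
  let τ : Fin (v + 2) → ℕ := fun i => if (i : ℕ) < v then 0 else if (i : ℕ) = v then bx else bb
  have hTy : Ty n τ t g := by
    refine ⟨hG.fr.fr, fun i => ?_⟩
    by_cases h1 : (i : ℕ) < v
    · have := hG.lo i h1
      simp only [g, τ, if_pos h1]
      exact ⟨this.1, this.2⟩
    · by_cases h2 : (i : ℕ) = v
      · simp only [g, τ, if_neg h1, if_pos h2]
        exact ⟨hG.tx.1, hbx⟩
      · simp only [g, τ, if_neg h1, if_neg h2]
        exact ⟨hG.ty.1, hbb⟩
  have hgen : NonUnitalSubring.closure ({t} ∪ Set.range g) = ⊤ := by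
    rw [eq_top_iff, ← hG.gen]
    apply NonUnitalSubring.closure_mono
    rintro w ((hw | ⟨i, hi, rfl⟩) | hw)
    · exact Or.inl hw
    · exact Or.inr ⟨⟨i, by omega⟩, by simp only [g]; rw [if_pos hi]⟩
    · rcases hw with rfl | hw
      · exact Or.inr ⟨⟨v, by omega⟩, by simp [g]⟩
      · rw [Set.mem_singleton_iff] at hw
        rw [hw]
        exact Or.inr ⟨⟨v + 1, by omega⟩, by simp [g]⟩
  obtain ⟨u, w, hu, hw, hw0, hs⟩ := hD n p N R e t hG.fr (v + 2) τ g hTy hgen z b hz.1 hb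
  rw [hw0 hbN, zero_mul, sub_zero] at hs
  have h1 : ∑ i, u i * g i ∈ AddSubgroup.closure (Zth_B t x y) := by
    refine sum_mem fun i _ => ?_
    by_cases h1 : (i : ℕ) < v
    · have : u i = 0 := (hu i).2 (by
        simp only [τ, if_pos h1]
        rw [Nat.zero_mod]
        exact fun h => hbN h.symm)
      rw [this, zero_mul]
      exact zero_mem _
    · apply AddSubgroup.subset_closure
      left
      by_cases h2 : (i : ℕ) = v
      · exact ⟨u i, (hu i).1, x, Or.inl rfl, by simp only [g, if_neg h1, if_pos h2]⟩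
      · exact ⟨u i, (hu i).1, y, Or.inr rfl, by simp only [g, if_neg h1, if_neg h2]⟩
  have h2 : z - ∑ i, u i * g i ∈ AddSubgroup.closure (Zth_B t x y) := by
    refine (AddSubgroup.closure_le _).2 ?_ hs
    rintro w ⟨c, d, hc, hd, hw, hwt⟩
    by_cases hw0 : w = 0
    · rw [hw0]
      exact zero_mem _
    · apply AddSubgroup.subset_closure
      right
      refine ⟨c, d, hc, hd, hw, ?_, ⟨b, hwt⟩, fun h => hbN ((t6 w b hwt hw0).1 h)⟩
      rw [hw]
      exact (t9 c d hc hd).1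
  have := add_mem h2 h1
  rwa [sub_add_cancel] at this

/-- **ZTH.** -/
theorem thm_Zth (hTyp : St_Typ) (hRlz : St_Rlz) (hRlv : St_Rlv) (hDcp : St_Dcp) : St_Zth := by
  intro n p N R _ _ e t v a x y hG x₁ x₂ x₃ h₁ h₂ h₃
  obtain ⟨t1, t2, t3, t4, t5, t6, t7, t8, t9⟩ := hTyp n p N R e t hG.fr
  obtain ⟨r1, r2, r3, r4, r5, r6, r7, r8⟩ := hRlz n p N R e t hG.fr
  obtain ⟨v1, v2, v3, v4, v5, v6⟩ := hRlv n p N R e t hG.fr
  have hA : ∀ c d, Hx t c → Hx t d → Tt t (c * d) → ∀ y₁ y₂, Tt t y₁ → Tt t y₂ →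
      c * d * y₁ * y₂ = 0 ∧ y₁ * (c * d) * y₂ = 0 ∧ y₁ * y₂ * (c * d) = 0 := by
    intro c d hc hd hcd y₁ y₂ g1 g2
    rcases v2 c hc with rfl | hc | hc
    · simp only [zero_mul, mul_zero, and_self]
    · rcases v2 d hd with rfl | hd | hd
      · simp only [zero_mul, mul_zero, and_self]
      · exact absurd (t8 c d hc hd).1.2 hcd.2.2
      · refine ⟨(v4 c d y₁ y₂ hc hd g1 g2).1, ?_, ?_⟩
        · rw [← mul_assoc y₁ c d, r1 y₁ c d g1 hc hd, zero_mul]
        · rw [mul_assoc y₁ y₂, ← mul_assoc y₂ c d, r1 y₂ c d g2 hc hd, mul_zero]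
    · rcases v2 d hd with rfl | hd | hd
      · simp only [zero_mul, mul_zero, and_self]
      · refine ⟨?_, ?_, ?_⟩
        · rw [r1 c d y₁ hc hd g1, zero_mul]
        · rw [mul_assoc y₁ (c * d) y₂, r1 c d y₂ hc hd g2, mul_zero]
        · rw [← mul_assoc (y₁ * y₂) c d]
          exact (v4 d y₁ y₂ c hd g1 g2 hc).2
      · refine ⟨v3 c d y₁ y₂ hc hd g1 g2, ?_, ?_⟩
        · rw [← mul_assoc y₁ c d]
          exact v3 y₁ c d y₂ g1 hc hd g2
        · rw [← mul_assoc (y₁ * y₂) c d]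
          exact v3 y₁ y₂ c d g1 g2 hc hd
  have hsym : Sm t y x → Sm t x y := fun ⟨a, h1, h2⟩ => ⟨a, h2, h1⟩
  have hxy : ∀ z₁ z₂ z₃, (z₁ = x ∨ z₁ = y) → (z₂ = x ∨ z₂ = y) → (z₃ = x ∨ z₃ = y) →
      z₁ * z₂ * z₃ = 0 := by
    intro z₁ z₂ z₃ hz₁ hz₂ hz₃
    have hxxx : x * x * x = 0 := hG.tx.1
    have hyyy : y * y * y = 0 := hG.ty.1
    rcases hG.xy with h | h
    · subst h
      rw [or_self] at hz₁ hz₂ hz₃
      rw [hz₁, hz₂, hz₃]
      exact hxxx
    · have hx := hG.tx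
      have hy := hG.ty
      rcases hz₁ with rfl | rfl <;> rcases hz₂ with rfl | rfl <;> rcases hz₃ with rfl | rfl
      · exact hxxx
      · exact (r7 _ _ _ hx hx hy).2.resolve_right fun h' => h h'.2.2
      · exact (r8 _ _ hx hy).2.resolve_right h
      · exact (r7 _ _ _ hx hy hy).2.resolve_right fun h' => h h'.2.2
      · exact (r7 _ _ _ hy hx hx).2.resolve_right fun h' => h (hsym h'.2.2)
      · exact (r8 _ _ hy hx).2.resolve_right fun h' => h (hsym h')
      · exact (r7 _ _ _ hy hy hx).2.resolve_right fun h' => h (hsym h'.2.2)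
      · exact hyyy
  have hT : ∀ z, (z = x ∨ z = y) → Tt t z := by
    rintro z (rfl | rfl)
    · exact hG.tx
    · exact hG.ty
  have hmv : ∀ z, (z = x ∨ z = y) → ∀ u ∈ NonUnitalSubring.closure ({t} : Set R),
      ∃ u' ∈ NonUnitalSubring.closure ({t} : Set R), z * u = u' * z := by
    intro z hz u hu
    obtain ⟨a, ha⟩ := (hT z hz).2.1
    exact Zth_mv ha hu
  have hC : ∀ z₁ z₂, (z₁ = x ∨ z₁ = y) → (z₂ = x ∨ z₂ = y) →
      ∀ w ∈ AddSubgroup.closure (Zth_B t x y), z₁ * z₂ * w = 0 := by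
    intro z₁ z₂ hz₁ hz₂ w hw
    induction hw using AddSubgroup.closure_induction with
    | mem w hw =>
      rcases hw with ⟨u, hu, z₃, hz₃, rfl⟩ | ⟨c, d, hc, hd, rfl, hcd⟩
      · obtain ⟨u', hu', e1⟩ := hmv z₂ hz₂ u hu
        obtain ⟨u'', -, e2⟩ := hmv z₁ hz₁ u' hu'
        rw [← mul_assoc, mul_assoc z₁ z₂ u, e1, ← mul_assoc z₁ u' z₂, e2, mul_assoc u'' z₁ z₂,
          mul_assoc u'', hxy z₁ z₂ z₃ hz₁ hz₂ hz₃, mul_zero]
      · exact (hA c d hc hd hcd z₁ z₂ (hT _ hz₁) (hT _ hz₂)).2.2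
    | zero => rw [mul_zero]
    | add w w' _ _ h h' => rw [mul_add, h, h', add_zero]
    | neg w _ h => rw [mul_neg, h, neg_zero]
  have hD : ∀ z₁, (z₁ = x ∨ z₁ = y) → ∀ w ∈ AddSubgroup.closure (Zth_B t x y), ∀ w', Tt t w' →
      z₁ * w * w' = 0 := by
    intro z₁ hz₁ w hw w' hw'
    induction hw using AddSubgroup.closure_induction with
    | mem w hw =>
      rcases hw with ⟨u, hu, z₂, hz₂, rfl⟩ | ⟨c, d, hc, hd, rfl, hcd⟩
      · obtain ⟨u', -, e1⟩ := hmv z₁ hz₁ u hu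
        rw [← mul_assoc z₁ u z₂, e1, mul_assoc u' z₁ z₂, mul_assoc u',
          hC z₁ z₂ hz₁ hz₂ w' (Zth_gen hTyp hDcp hG hw'), mul_zero]
      · exact (hA c d hc hd hcd z₁ w' (hT _ hz₁) hw').2.1
    | zero => rw [mul_zero, zero_mul]
    | add w w' _ _ h h' => rw [mul_add, add_mul, h, h', add_zero]
    | neg w _ h => rw [mul_neg, neg_mul, h, neg_zero]
  have hE : ∀ w ∈ AddSubgroup.closure (Zth_B t x y), w * x₂ * x₃ = 0 := by
    intro w hw
    induction hw using AddSubgroup.closure_induction with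
    | mem w hw =>
      rcases hw with ⟨u, hu, z₁, hz₁, rfl⟩ | ⟨c, d, hc, hd, rfl, hcd⟩
      · rw [mul_assoc u z₁ x₂, mul_assoc u,
          hD z₁ hz₁ x₂ (Zth_gen hTyp hDcp hG h₂) x₃ h₃, mul_zero]
      · exact (hA c d hc hd hcd x₂ x₃ h₂ h₃).1
    | zero => rw [zero_mul, zero_mul]
    | add w w' _ _ h h' => rw [add_mul, add_mul, h, h', add_zero]
    | neg w _ h => rw [neg_mul, neg_mul, h, neg_zero]
  exact hE x₁ (Zth_gen hTyp hDcp hG h₁)

end Pool.Agent.CRP
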