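import Pool.Agent.CRP.Cen
import Pool.Agent.CRP.Cfb
import Pool.Agent.CRP.Cha
import Pool.Agent.CRP.Cjl
import Pool.Agent.CRP.Dcp
import Pool.Agent.CRP.Kdc
import Pool.Agent.CRP.Lfx
import Pool.Agent.CRP.Lll
import Pool.Agent.CRP.Llt
import Pool.Agent.CRP.Lte
import Pool.Agent.CRP.Ltl
import Pool.Agent.CRP.Ltt
import Pool.Agent.CRP.Ltw
import Pool.Agent.CRP.Mfp
import Pool.Agent.CRP.Nrm
import Pool.Agent.CRP.Rlv
import Pool.Agent.CRP.Rlz
import Pool.Agent.CRP.Sep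
import Pool.Agent.CRP.Spf
import Pool.Agent.CRP.Typ
import Pool.Agent.CRP.Wpn
import Pool.Agent.CRP.Zth

/-!
Campaign CRP: the theorems without hypotheses (problem MP_1bb14d_al).
-/

set_option autoImplicit false

namespace Pool.Agent.CRP

open Pool.Agent.CRR Pool.Agent.CRN Pool.Agent.CRK Pool.Agent.CRL Pool.Agent.CRM

theorem lfx : St_Lfx := thm_Lfx
theorem typ : St_Typ := thm_Typ
theorem rlz : St_Rlz := thm_Rlz typ thm_Sep
theorem rlv : St_Rlv := thm_Rlv typ rlz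
theorem kdc : St_Kdc := thm_Kdc typ
theorem dcp : St_Dcp := thm_Dcp typ kdc
theorem nrm : St_Nrm := thm_Nrm typ rlz rlv
theorem cha : St_Cha := thm_Cha typ rlz
theorem spf : St_Spf := thm_Spf typ thm_Sep nrm cha
theorem ltw : St_Ltw := thm_Ltw typ rlz rlv thm_Wpn
theorem cen : St_Cen := thm_Cen typ lfx
theorem zth : St_Zth := thm_Zth typ rlz rlv dcp
theorem llt : St_Llt := thm_Llt typ rlz rlv kdc dcp zth
theorem lll : St_Lll := thm_Lll typ rlz rlv kdc dcp zth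
theorem ltt : St_Ltt := thm_Ltt lfx typ rlz thm_Cjl llt
theorem ltl : St_Ltl := thm_Ltl lfx typ rlz thm_Cjl lll
theorem lte : St_Lte := thm_Lte lfx typ rlz rlv kdc
theorem lfw : St_Lfw := thm_Lfw lfx spf ltw cen
theorem mfp : St_Mfp := thm_Mfp lfw ltt ltl lte thm_Cfb

end Pool.Agent.CRP
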