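import Pool.Agent.CRP.St
import Pool.Agent.CRM.Dmk
import Pool.Agent.CRM.Kjf
import Pool.Agent.CRM.Tyn
import Pool.Agent.CRM.Cna
import Pool.Agent.CRM.Cnb
import Pool.Agent.CRM.Cnj
import Pool.Agent.CRM.Lfb
import Pool.Agent.CRL.All

/-!
Campaign CRP, module Cen: the central local type.
-/

set_option autoImplicit false

namespace Pool.Agent.CRP

open Pool.Agent.CRR Pool.Agent.CRN Pool.Agent.CRK Pool.Agent.CRL Pool.Agent.CRM

section cen

variable {R : Type} [NonUnitalRing R]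

theorem Cen_comm_pw {r t : R} (h : t * r = r * t) (k : ℕ) : pw t k * r = r * pw t k := by
  induction k with
  | zero => exact h
  | succ k ih =>
    show pw t k * t * r = r * (pw t k * t)
    rw [mul_assoc, h, ← mul_assoc, ih, mul_assoc]

/-- An element which commutes with generators is central. -/
theorem Cen_closure {t : R} {A : Set R} (hA : NonUnitalSubring.closure A = ⊤)
    (h : ∀ x ∈ A, t * x = x * t) (r : R) : t * r = r * t := by
  have hr : r ∈ NonUnitalSubring.closure A := by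
    rw [hA]
    trivial
  induction hr using NonUnitalSubring.closure_induction with
  | mem x hx => exact h x hx
  | zero => rw [mul_zero, zero_mul]
  | add x y _ _ hx hy => rw [mul_add, add_mul, hx, hy]
  | neg x _ hx => rw [mul_neg, neg_mul, hx]
  | mul x y _ _ hx hy => rw [← mul_assoc, hx, mul_assoc, hy, mul_assoc]

/-- The number `N` is determined by the frame. -/
theorem Cen_le {n p N N' : ℕ} {e t : R} (h : Lfr n p N e t) (h' : Lfr n p N' e t) : N ≤ N' := by
  by_contra hlt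
  obtain ⟨u, hu, _⟩ := h.un N' (by have := h'.n1; omega) (by omega)
  rw [h'.pn, sub_self, mul_zero] at hu
  exact h.prm.2.1 hu.symm

end cen

theorem thm_Cen (hTyp : St_Typ) (hLfx : St_Lfx) : St_Cen := by
  intro n p N R _ _ e t₀ h₀ H hH g a L ha hgen hit hval hne
  obtain ⟨t₁, x₁, hT₁, htop₁⟩ := hgen
  obtain ⟨t₂, x₂, hT₂, hne₂⟩ := hne
  have hC : Cy R n p := h₀.cy
  have he := h₀.prm
  have hid := h₀.one
  have hkjf : St_Kjf := thm_Kjf thm_Tyn
  obtain ⟨J, hJI, hJn⟩ := jil n hC.n4 R hC.inM hC.nt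
  obtain ⟨N', _, hall⟩ := hLfx n p R hC e he hid
  have hNN : N' = N := le_antisymm (Cen_le (hall t₀ h₀.fr) h₀) (Cen_le h₀ (hall t₀ h₀.fr))
  subst hNN
  -- `pw t (a i) = t`
  have hpw : ∀ t : R, Frame R n 1 (fun _ => t) → ∀ i, pw t (a i) = t := by
    intro t ht i
    exact (hTyp n p _ R e t (hall t ht)).2.2.1 (a i) 0 (by rw [ha i, Nat.zero_mod])
  -- `t₁` is central
  have hcen₁ : ∀ r, t₁ * r = r * t₁ := by
    refine Cen_closure htop₁ ?_
    rintro x (hx | ⟨i, rfl⟩)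
    · rw [Set.mem_singleton_iff.1 hx]
    · rw [(hT₁.2 i).2, hpw t₁ hT₁.1 i]
  -- every frame is central
  have hcen : ∀ t : R, Frame R n 1 (fun _ => t) → ∀ r, t * r = r * t := by
    intro t ht r
    obtain ⟨θ, π, hθ⟩ := (thm_Cnj thm_Cna thm_Cnb) n p R hC 1 (fun _ => t₁) (fun _ => t) hT₁.1 ht
    obtain ⟨⟨k, hk⟩, _⟩ := hθ 0
    apply θ.injective
    rw [map_mul, map_mul, hk]
    exact Cen_comm_pw (hcen₁ _) k
  -- types
  have hTy : ∀ (k : ℕ) (b : Fin k → ℕ) (t : R) (x : Fin k → R), (∀ i, pw t (b i) = t) →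
      Frame R n 1 (fun _ => t) → (∀ i, Nl (x i)) → Ty n b t x := by
    intro k b t x hb ht hx
    exact ⟨ht, fun i => ⟨hx i, by rw [hb i, hcen t ht]⟩⟩
  -- `Mj ≤ J`
  obtain ⟨hK1, hK2⟩ := hkjf n p R hC
  have hKJ : KJ R p ≤ J := by
    rw [← hK2 e he hid t₀ h₀.fr]
    unfold JW
    rw [AddSubgroup.closure_le]
    rintro w (⟨a, b, ha, hb, rfl⟩ | ⟨_, hw⟩)
    · exact (hJI a b ((hJn b).2 hb)).1
    · exact (hJn w).2 hw
  have hMJ : ∀ (t : R) (x : Fin g → R), (∀ i, Nl (x i)) → ∀ j, Mj p t x j ≤ J := by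
    intro t x hx j
    refine sup_le hKJ ?_
    rw [AddSubgroup.closure_le]
    rintro w ⟨i, _, u, _, rfl⟩
    exact (hJI u (x i) ((hJn _).2 (hx i))).1
  obtain ⟨q, hq2, hq, _⟩ := (thm_Dmk thm_Tyn hkjf) n p R hC e he hid
  have hKpos : 0 < Nat.card (KJ R p) := Nat.card_pos
  refine ⟨⟨e, he, hid⟩, p, H, hC.pp, hC.pr, hH, g, L, ?_, ⟨t₁, x₁, hT₁.1, hcen₁,
    fun i => (hT₁.2 i).1, htop₁⟩, hit, ?_, t₂, x₂, hT₂.1, fun i => (hT₂.2 i).1, hne₂⟩
  · intro k y hy
    -- lower bound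
    have h1 : q ^ g * Nat.card (KJ R p) ≤ Nat.card {y : R // Nl y} := by
      refine ((hq g a t₂ x₂ hT₂).2 fun j hj => hne₂ ?_).1
      have h2 := (hval t₂ x₂ hT₂).2 j (-x₂ j) ?_ ?_ ((Mj p t₂ x₂ j).neg_mem hj)
      · rw [← h2]
        refine Lfb_Vl_zero L t₂ _ j (fun q hq => (hit q hq).2.2.1) ?_
        simp
      · exact (hJn _).1 (J.neg_mem ((hJn _).2 (hT₂.2 j).1))
      · rw [neg_mul, mul_neg, (hT₂.2 j).2]
    -- upper bound
    have h3 : Nat.card {y : R // Nl y} ≤ q ^ k * Nat.card (KJ R p) := by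
      choose c hc hn using fun i => gen n p R hC 1 (fun _ => t₁) hT₁.1 (y i)
      have hT : Ty n (fun _ : Fin k => 0) t₁ (fun i => y i - ∑ l, c i l) :=
        hTy k _ t₁ _ (fun _ => rfl) hT₁.1 hn
      refine (hq k _ t₁ _ hT).1 ?_
      rw [eq_top_iff, ← hy, NonUnitalSubring.closure_le]
      rintro r ⟨i, rfl⟩
      have ht : t₁ ∈ NonUnitalSubring.closure
          ({t₁} ∪ Set.range fun i => y i - ∑ l, c i l) :=
        NonUnitalSubring.subset_closure (Or.inl rfl)
      have h5 : (∑ l, c i l) ∈ NonUnitalSubring.closure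
          ({t₁} ∪ Set.range fun i => y i - ∑ l, c i l) := by
        refine sum_mem fun l _ => ?_
        rcases hc i l with h | ⟨m, h⟩
        · rw [h]
          exact zero_mem _
        · rw [h]
          exact Nac_pw _ ht m
      have h6 : y i - ∑ l, c i l ∈ NonUnitalSubring.closure
          ({t₁} ∪ Set.range fun i => y i - ∑ l, c i l) :=
        NonUnitalSubring.subset_closure (Or.inr ⟨i, rfl⟩)
      have h7 := add_mem h6 h5
      rwa [sub_add_cancel] at h7
    by_contra hlt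
    have h4 : q ^ k * Nat.card (KJ R p) < q ^ g * Nat.card (KJ R p) :=
      Nat.mul_lt_mul_of_pos_right (Nat.pow_lt_pow_right (by omega) (by omega)) hKpos
    omega
  · intro t x ht hx
    have hT := hTy g a t x (hpw t ht) ht hx
    refine ⟨(hval t x hT).1, fun j y hy => ?_⟩
    refine (hval t x hT).2 j y ?_ ?_ hy
    · exact (hJn y).1 (hMJ t x hx j hy)
    · rw [hpw t ht j, hcen t ht]

end Pool.Agent.CRP
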