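import Pool.Agent.CRM.Ste

/-!
Campaign CRP: local critical rings (problem MP_1bb14d_al).  Definitions.
-/

set_option autoImplicit false

namespace Pool.Agent.CRP

open Pool.Agent.CRR Pool.Agent.CRN Pool.Agent.CRK Pool.Agent.CRL Pool.Agent.CRM

section defs

variable {R : Type} [NonUnitalRing R]

/-- A nil element which commutes with `t`. -/
def Lo (t x : R) : Prop := Nl x ∧ x * t = t * x

/-- A nil element with `x t = t^c x` for some `c ≥ 1`, which does not commute with `t`. -/
def Tt (t x : R) : Prop := Nl x ∧ (∃ a, x * t = pw t a * x) ∧ x * t ≠ t * x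

/-- `x t = t^c x` and `y t = t^c y` for the same `c ≥ 1`. -/
def Sm (t x y : R) : Prop := ∃ a, x * t = pw t a * x ∧ y * t = pw t a * y

variable (R)

/-- `R` is a local ring with identity `e`, its order is a power of `p`, `H` is its least nonzero ideal, `t` is a
frame (it generates the residue field, and its order is prime to `p`). -/
structure Lcx (n p : ℕ) (e t : R) (H : AddSubgroup R) : Prop where
  pp : p.Prime
  pr : ∃ r : ℕ, ∀ x : R, (p ^ r) • x = 0
  lst : Lst R H
  prm : Prm R e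
  one : ∀ x, e * x = x ∧ x * e = x
  fr : Frame R n 1 (fun _ => t)

/-- `R` is a local ring with identity and a least nonzero ideal `H`, and it is generated by a frame `t`,
nil elements `a_0, ..., a_(v-1)` which commute with `t`, and a nil element `z` with `z t = t^c z` which does not
commute with `t`, such that `p^k a_(v-1) ... a_0 z` is a nonzero element of `H`, and, if `k = 0`, `a_(v-1) ... a_0 z` becomes
zero if a factor `a_i` is replaced by `p`. -/
def LtT (n : ℕ) : Prop := ∃ (p : ℕ) (e t : R) (H : AddSubgroup R) (v k : ℕ) (a : ℕ → R) (z : R),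
  Lcx R n p e t H ∧ (∀ i, i < v → Lo t (a i)) ∧ Tt t z ∧
    p ^ k • pll a z v ∈ H ∧ p ^ k • pll a z v ≠ 0 ∧
    (k = 0 → ∀ i, i < v → pll (Function.update a i (p • e)) z v = 0) ∧
    NonUnitalSubring.closure ({t} ∪ {x | ∃ i, i < v ∧ x = a i} ∪ {z}) = ⊤

/-- The same with `x y` in the place of `z`: `x t = t^c x`, `y t = t^d y`, both do not commute with `t`, and `y = x` or
the powers of `t` are different. -/
def LtL (n : ℕ) : Prop := ∃ (p : ℕ) (e t : R) (H : AddSubgroup R) (v k : ℕ) (a : ℕ → R) (x y : R),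
  Lcx R n p e t H ∧ (∀ i, i < v → Lo t (a i)) ∧ Tt t x ∧ Tt t y ∧ (y = x ∨ ¬ Sm t x y) ∧
    p ^ k • pll a (x * y) v ∈ H ∧ p ^ k • pll a (x * y) v ≠ 0 ∧
    (k = 0 → ∀ i, i < v → pll (Function.update a i (p • e)) (x * y) v = 0) ∧
    NonUnitalSubring.closure ({t} ∪ {u | ∃ i, i < v ∧ u = a i} ∪ {x, y}) = ⊤

/-- `R` is a local ring with identity and a least nonzero ideal, and it is generated by a frame `t` and nil
elements `x, y, z` which do not commute with `t`, `x t = t^c x`, `y t = t^d y`, `z t = t^c z`, with `x y z ≠ 0`, and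
`y = x`, or `z = x`, or the powers `t^c`, `t^d` are different (for `z = x ≠ y` the residue field has 4 elements). -/
def LtE (n : ℕ) : Prop := ∃ (p : ℕ) (e t : R) (H : AddSubgroup R) (x y z : R),
  Lcx R n p e t H ∧ Tt t x ∧ Tt t y ∧ Tt t z ∧ Sm t x z ∧ (y = x ∨ z = x ∨ ¬ Sm t x y) ∧
    x * y * z ≠ 0 ∧ NonUnitalSubring.closure ({t} ∪ {x, y, z}) = ⊤

/-- The types of the local critical rings in which the frame is not central. -/
def Twl (n : ℕ) : Prop := LtT R n ∨ LtT Rᵐᵒᵖ n ∨ LtL R n ∨ LtE R n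

/-- The central local type: `R` is a local ring with identity, its order is a power of a prime `p`, it has a
least nonzero ideal `H`, it is generated by a central frame and `g` nil elements, and by no fewer than `g` elements,
and there is a combination `f` of words `t^d w`, `d ≤ n - 3`, `w` a word in `x_1, ..., x_g` in which every `x_i`
occurs once, twice or three times (if the order of `R` is prime to 6 then `w` has length `≤ 5`), such that for
every frame `t` and all `x_i` in the radical `J` the value `f(t, x)` is in `H`, is not always zero, and does not change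
if `x_j` is replaced by `x_j + y`, `y` an element of `J^2 + p R` plus a sum of elements `u x_i`, `i < j`, `u` in the
subring generated by `t`. -/
def CFl (n : ℕ) : Prop := (∃ e : R, Prm R e ∧ ∀ x, e * x = x ∧ x * e = x) ∧
  ∃ (p : ℕ) (H : AddSubgroup R), p.Prime ∧ (∃ r : ℕ, ∀ x : R, (p ^ r) • x = 0) ∧ Lst R H ∧
  ∃ (g : ℕ) (L : List (ℤ × ℕ × List ℕ)),
    (∀ (k : ℕ) (y : Fin k → R), NonUnitalSubring.closure (Set.range y) = ⊤ → g ≤ k) ∧
    (∃ (t : R) (x : Fin g → R), Frame R n 1 (fun _ => t) ∧ (∀ r, t * r = r * t) ∧ (∀ i, Nl (x i)) ∧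
      NonUnitalSubring.closure ({t} ∪ Set.range x) = ⊤) ∧
    (∀ q ∈ L, q.2.1 ≤ n - 3 ∧ 1 ≤ q.2.1 + q.2.2.length ∧ (∀ i, i ∈ q.2.2 ↔ i < g) ∧
      (∀ i, q.2.2.count i ≤ 3) ∧ ((Nat.card R).Coprime 6 → q.2.2.length ≤ 5)) ∧
    (∀ (t : R) (x : Fin g → R), Frame R n 1 (fun _ => t) → (∀ i, Nl (x i)) →
      Vl L t x ∈ H ∧ ∀ (j : Fin g) (y : R),
      y ∈ KJ R p ⊔ AddSubgroup.closure
        {w | ∃ i, i < j ∧ ∃ u ∈ NonUnitalSubring.closure ({t} : Set R), w = u * x i} →
      Vl L t (Function.update x j (x j + y)) = Vl L t x) ∧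
    ∃ (t : R) (x : Fin g → R), Frame R n 1 (fun _ => t) ∧ (∀ i, Nl (x i)) ∧ Vl L t x ≠ 0

/-! ### Definitions used only in the proofs -/

variable {R}

/-- `t` is a frame of the local ring with identity `e`; `t^N = e`, `t^k - e` is invertible for `0 < k < N`. -/
structure Lfr (n p N : ℕ) (e t : R) : Prop where
  cy : Cy R n p
  prm : Prm R e
  one : ∀ x : R, e * x = x ∧ x * e = x
  fr : Frame R n 1 (fun _ => t)
  n1 : 1 ≤ N
  np : N.Coprime p
  pn : pw t (N - 1) = e
  un : ∀ k, 0 < k → k < N → ∃ u, u * (pw t (k - 1) - e) = e ∧ (pw t (k - 1) - e) * u = e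

/-- `t^k`, `t^0 = e`. -/
def te (e t : R) : ℕ → R
  | 0 => e
  | k + 1 => t * te e t k

/-- A nil element with a type. -/
def Hx (t x : R) : Prop := Nl x ∧ ∃ a, x * t = pw t a * x

/-- The numbers `i < g` with `a_i` divisible by `N` (loops). -/
def Lt0 (N : ℕ) {g : ℕ} (a : Fin g → ℕ) : List ℕ :=
  (List.range g).filter fun i => if h : i < g then a ⟨i, h⟩ % N = 0 else false

/-- The numbers `i < g` with `a_i` not divisible by `N`. -/
def Lt1 (N : ℕ) {g : ℕ} (a : Fin g → ℕ) : List ℕ :=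
  (List.range g).filter fun i => if h : i < g then a ⟨i, h⟩ % N ≠ 0 else false

/-- The normal words. -/
def NW (N : ℕ) {g : ℕ} (a : Fin g → ℕ) : List (List ℕ) :=
  match Lt1 N a with
  | [z] => if Lt0 N a = [] then [[z], [z, z]] else
      [Lt0 N a ++ [z], [z] ++ Lt0 N a, Lt0 N a ++ [z, z]]
  | [x, y] => if Lt0 N a = [] then [[x, y], [y, x], [x, x, y], [x, y, y], [x, y, x]] else
      [Lt0 N a ++ [x, y], Lt0 N a ++ [y, x]]
  | [x, y, z] => if Lt0 N a = [] then [[x, y, z], [y, x, z], [x, z, y]] else []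
  | _ => []

/-- The value of the coefficient `C` (a combination of powers of `t`). -/
def Cv (C : List (ℤ × ℕ)) (e t : R) : R := (C.map fun q => q.1 • te e t q.2).sum

/-- The function `C(t) ν(y)`: values in `H`, zero if some `y_j` is in `M_j`, not zero. -/
def Fz (n p : ℕ) (e : R) (H : AddSubgroup R) {g : ℕ} (a : Fin g → ℕ) (C : List (ℤ × ℕ))
    (ν : List ℕ) : Prop :=
  (∀ (t : R) (y : Fin g → R), Ty n a t y → Cv C e t * wp (ν.map (xs y)) ∈ H ∧
    ∀ j, y j ∈ Mj p t y j → Cv C e t * wp (ν.map (xs y)) = 0) ∧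
  ∃ (t : R) (y : Fin g → R), Ty n a t y ∧ Cv C e t * wp (ν.map (xs y)) ≠ 0

/-- `R` is generated by `t`, the loops `a_i`, `i < v`, and `x, y`. -/
structure Gx (n p N : ℕ) (e t : R) (v : ℕ) (a : ℕ → R) (x y : R) : Prop where
  fr : Lfr n p N e t
  lo : ∀ i, i < v → Lo t (a i)
  tx : Tt t x
  ty : Tt t y
  xy : y = x ∨ ¬ Sm t x y
  gen : NonUnitalSubring.closure ({t} ∪ {u | ∃ i, i < v ∧ u = a i} ∪ {x, y}) = ⊤

end defs

end Pool.Agent.CRP
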