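import Pool.Agent.CRP.Defs

/-!
Campaign CRP (problem MP_1bb14d_al, stage 5): local critical rings in the varieties `x^3 = x^n`.  Frozen
statements.

Every module `Pool/Agent/CRP/<X>.lean` imports this file (and `Pool.Agent.CRM.All`, `Pool.Agent.CRL.All`, or modules
of CRM, CRL, CRN, if their theorems are used) and proves `theorem thm_<X> : St_<X>`; the hypotheses (other
statements `St_<Y>` of this file) named in the docstring may be used as arguments
(`theorem thm_<X> (hY : St_<Y>) : St_<X>`).  Own lemmas have names which start with the name of the module.  The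
docstrings contain the proofs.  All theorems of the campaigns CRN, CRK, CRL, CRM are proved (in `CRL/All.lean` and
`CRM/All.lean` without hypotheses under small letters, for instance `CRL.jil`, `CRL.gen`, `CRL.fpr`, `CRM.cnj`, `CRM.dmk`,
`CRM.kjf`, `CRM.thm_Foi`, `CRM.thm_Tyn`, `CRM.lfb`, `CRM.lff`).

Notation of the docstrings: `t^k = pw t (k - 1) = te e t k`; `J` the nil elements, an ideal (`CRL.jil`), nilpotent
(`CRN.thm_Jnl`); `W` the subring generated by `t`; `x` has the type `m` if `x t = t^m x` (`pw t (m - 1)`), types are taken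
modulo `N`; a loop is an element with `Lo t x` (type 1), a twisted element one with `Tt t x`.  The product of elements of
types `l, m` has the type `l m`.  `x u = u' x` with `u' ∈ W` for `u ∈ W` and `x` with a type.
-/

set_option autoImplicit false

namespace Pool.Agent.CRP

open Pool.Agent.CRR Pool.Agent.CRN Pool.Agent.CRK Pool.Agent.CRL Pool.Agent.CRM

/-! ### Part A: types -/

/-- **LFX.**  PROOF.  (1) `CRM.thm_Tyn`, `CRL.frx` (a frame with `s = 1` exists; see `CRM/Lgf.lean`, `Lgf_one`).  `N` is the same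
for all frames. -/
def St_Lfx : Prop := ∀ (n p : ℕ) (R : Type) [NonUnitalRing R] [Finite R], Cy R n p →
  ∀ e : R, Prm R e → (∀ x, e * x = x ∧ x * e = x) → ∃ N : ℕ, (∃ t, Lfr n p N e t) ∧
    ∀ t : R, Frame R n 1 (fun _ => t) → Lfr n p N e t

/-- **TYP.**  Types.  PROOF.  (1) induction.  (2) `x y t = x t^(b+1) y`.  (3) `t^(k N) = e`.  (4) `(t^(a+1) - t^(b+1)) x = 0`; if `a < b`
modulo `N` then `t^(b-a) - e` is invertible.  (5) let `d > 1` divide `a + 1` and `N = d N'`: `x t^N' = t^((a+1) N') x = x` (`(a+1) N'` is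
a multiple of `N`), so `x (t^N' - e) = 0`, `0 < N' < N`, so `x = 0`.  (6) from (4) with `b = 0`, (3).  (7) `t^N = e`.  (8) `CRL.jil`.
(9) from (2), (8). -/
def St_Typ : Prop := ∀ (n p N : ℕ) (R : Type) [NonUnitalRing R] [Finite R] (e t : R),
  Lfr n p N e t →
  (∀ (x : R) (a k : ℕ), x * t = pw t a * x → x * te e t k = te e t (k * (a + 1)) * x) ∧
  (∀ (x y : R) (a b : ℕ), x * t = pw t a * x → y * t = pw t b * y →
    x * y * t = pw t ((a + 1) * (b + 1) - 1) * (x * y)) ∧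
  (∀ a b : ℕ, a % N = b % N → pw t a = pw t b) ∧
  (∀ (x : R) (a b : ℕ), x * t = pw t a * x → x * t = pw t b * x → x ≠ 0 → a % N = b % N) ∧
  (∀ (x : R) (a : ℕ), x * t = pw t a * x → x ≠ 0 → (a + 1).Coprime N) ∧
  (∀ (x : R) (a : ℕ), x * t = pw t a * x → x ≠ 0 → (x * t = t * x ↔ a % N = 0)) ∧
  (∀ (x : R) (k : ℕ), te e t k * x = 0 → x = 0) ∧
  (∀ x y : R, Lo t x → Lo t y → Lo t (x * y) ∧ Lo t (x + y)) ∧
  ∀ x y : R, Hx t x → Hx t y → Hx t (x * y)

/-- **SEP.**  Separation.  PROOF.  For `s : Fin r → ℕ` with all `s i < N` multiply the equation from the left by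
`t^(∑ (N - χ l₀ i % N) s_i)` and add over all these `s`: the coefficient of `w l` is
`∏_i ∑_(s<N) t^(d_i s)` with `d_i = χ l i + N - χ l₀ i % N`, which is `N^r e` if all `d_i` are divisible by `N`, and `0`
otherwise (`(t^d - e) ∑_(s<N) t^(d s) = 0`, `t^d - e` invertible for `d` not divisible by `N`).  So `N^r` times the sum is `0`, and
`N` is prime to `p`, `p^k R = 0`. -/
def St_Sep : Prop := ∀ (n p N : ℕ) (R : Type) [NonUnitalRing R] [Finite R] (e t : R),
  Lfr n p N e t → ∀ (r m : ℕ) (χ : Fin m → Fin r → ℕ) (w : Fin m → R),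
  (∀ s : Fin r → ℕ, ∑ l, te e t (∑ i, χ l i * s i) * w l = 0) →
  ∀ l₀, (∑ l, if ∀ i, χ l i % N = χ l₀ i % N then w l else 0) = 0

/-- **RLZ** (from `St_Typ`, `St_Sep`).  The rules.  PROOF.  Let `x, y, z` have the types `a, b, c` (prime to `N`, `St_Typ` (5), if they
are not `0`).  The sum of the six products of `t^i x, t^j y, t^k z` in all orders is `0` (these elements are nil, and so
are their sums, `CRL.jil`; `P = 0` in `J`, see `CRM.thm_Nid`).  Moving the powers of `t` to the left: the coefficient of `x y z` is `t^(i + a j + a b k)`, of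
`x z y`: `t^(i + a c j + a k)`, `y x z`: `t^(b i + j + a b k)`, `y z x`: `t^(b c i + j + b k)`, `z x y`: `t^(c i + a c j + k)`,
`z y x`: `t^(b c i + c j + k)`.  By `St_Sep` the sum of the products with the same exponents (modulo `N`) as `x y z` is `0`.
The exponents of `x z y` are equal to those of `x y z` iff `b = c = 1`; `y x z`: `a = b = 1`; `y z x`: `a = 1 = b c`; `z x y`:
`c = 1 = a b`; `z y x`: `a b = 1 = b c`.  This gives all items, except: `x x z = 0` in (3): for odd `p` from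
`2 x x z = 0`; for `p = 2` (`N` is odd) use the cube of `t^i x + t^j z`: `x x z` has the exponents `(2, 1)`, `x z x` `(1 + c, 1)`,
`z x x` `(2 c, 1)`, `x z z` `(1, 1 + c)`, `z x z` `(c, 1 + c)`, `z z x` `(c c, 1 + c)`; `St_Sep`.  The same for `x y y` in (4).  (8): if
`a b ≠ 1` by (7); otherwise the cube of `t^i x + t^j y`: `x y x` has the exponents `(2, a)`, `y x y` `(b, 2)`, `x x y` `(1 + a, a a)`,
`y x x` `(b + 1, 1)`, `x y y` `(1, a + 1)`, `y y x` `(b b, 1 + b)`; only `y x y` can have the same exponents as `x y x`, and only if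
`a = b = 2` (and `N = 3`). -/
def St_Rlz : Prop := ∀ (n p N : ℕ) (R : Type) [NonUnitalRing R] [Finite R] (e t : R),
  Lfr n p N e t →
  (∀ x y z, Tt t x → Lo t y → Tt t z → x * y * z = 0) ∧
  (∀ x y z, Lo t x → Tt t y → Lo t z → x * y * z = 0) ∧
  (∀ x y z, Lo t x → Lo t y → Tt t z → x * y * z + y * x * z = 0 ∧ x * x * z = 0) ∧
  (∀ x y z, Tt t x → Lo t y → Lo t z → x * y * z + x * z * y = 0 ∧ x * y * y = 0) ∧
  (∀ x y z, Lo t x → Tt t y → Tt t z →
    x * y * z = 0 ∨ Lo t (y * z) ∧ x * y * z + y * z * x = 0) ∧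
  (∀ x y z, Tt t x → Tt t y → Lo t z →
    x * y * z = 0 ∨ Lo t (x * y) ∧ x * y * z + z * x * y = 0) ∧
  (∀ x y z, Tt t x → Tt t y → Tt t z → x * y * z + z * y * x = 0 ∧
    (x * y * z = 0 ∨ Lo t (x * y) ∧ Lo t (y * z) ∧ Sm t x z)) ∧
  ∀ x y, Tt t x → Tt t y → x * y * x + y * x * y = 0 ∧ (x * y * x = 0 ∨ Sm t x y)

/-- **RLV** (from `St_Typ`, `St_Rlz`).  More rules.  PROOF.  (1) the product of a loop and a twisted element has the type of
the twisted one; (2) it has a type.  (3) `y z w = 0` or `y z` is a loop, then `x (y z) w = 0`.  (4) `y z w = 0` or `z w` is a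
loop, and `c y (z w) = 0`; the mirror image in the same way.  (5) `p e` is a loop; `(p e)(p e) x = 0`.  (6) `(p e) x (y z)`,
(4). -/
def St_Rlv : Prop := ∀ (n p N : ℕ) (R : Type) [NonUnitalRing R] [Finite R] (e t : R),
  Lfr n p N e t →
  (∀ c x, Lo t c → Tt t x → (c * x = 0 ∨ Tt t (c * x)) ∧ (x * c = 0 ∨ Tt t (x * c)) ∧
    Sm t x (c * x) ∧ Sm t x (x * c)) ∧
  (∀ x, Hx t x → x = 0 ∨ Lo t x ∨ Tt t x) ∧
  (∀ x y z w, Tt t x → Tt t y → Tt t z → Tt t w → x * y * z * w = 0) ∧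
  (∀ c x y z, Lo t c → Tt t x → Tt t y → Tt t z → c * x * y * z = 0 ∧ x * y * z * c = 0) ∧
  (Lo t (p • e) ∧ ∀ x, Tt t x → p • p • x = 0) ∧
  ∀ x y z, Tt t x → Tt t y → Tt t z → p • (x * y * z) = 0

/-- **KDC** (from `St_Typ`).  PROOF.  Let `κ ∈ KJ` be nil of type `b` (`b = a + 1`).  `κ = ∑ c_l d_l + p r`, `c_l, d_l` nil; `r = w + u`, `w ∈ W`,
`u` nil (`CRL.gen`), `p r = w (p e) + (p e) u`.  Decompose `c_l, d_l, u` into elements with types (`CRM.thm_Foi`); apply
`Φ_b` to `κ` (additive; the products have types, `Φ_b` of a product is the product or `0`; `Φ_b (w (p e))` is `w (p e)` if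
`b` is `1` modulo `N` and `0` otherwise). -/
def St_Kdc : Prop := ∀ (n p N : ℕ) (R : Type) [NonUnitalRing R] [Finite R] (e t : R),
  Lfr n p N e t → ∀ (κ : R) (a : ℕ), κ ∈ KJ R p → κ * t = pw t a * κ →
  ∃ w ∈ NonUnitalSubring.closure ({t} : Set R), (a % N ≠ 0 → w = 0) ∧
    κ - w * (p • e) ∈ AddSubgroup.closure
      {z | ∃ c d, Hx t c ∧ Hx t d ∧ z = c * d ∧ z * t = pw t a * z}

/-- **DCP** (from `St_Typ`, `St_Kdc`).  PROOF.  The elements `w + ∑ u_i x_i + κ`, `w, u_i ∈ W`, `κ ∈ KJ`, are a subring which contains the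
generators (see `CRM/Dmk.lean`, `CRM/Lgf.lean`), so `y = w + ∑ u_i x_i + κ`; `w` is nil, so it is in `KJ` (`CRM.kjf` (2)).
Apply `Φ` for the type of `y`: `y = ∑' u_i x_i + Φ κ`, the sum over the `i` such that `x_i` has the type of `y`
(`Φ (u_i x_i) = u_i x_i` or `0`), `Φ κ ∈ KJ`.  `St_Kdc` for `Φ κ`. -/
def St_Dcp : Prop := ∀ (n p N : ℕ) (R : Type) [NonUnitalRing R] [Finite R] (e t : R),
  Lfr n p N e t → ∀ (g : ℕ) (a : Fin g → ℕ) (x : Fin g → R), Ty n a t x →
  NonUnitalSubring.closure ({t} ∪ Set.range x) = ⊤ → ∀ (y : R) (b : ℕ), Nl y →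
  y * t = pw t b * y → ∃ (u : Fin g → R) (w : R),
    (∀ i, u i ∈ NonUnitalSubring.closure ({t} : Set R) ∧ (a i % N ≠ b % N → u i = 0)) ∧
    w ∈ NonUnitalSubring.closure ({t} : Set R) ∧ (b % N ≠ 0 → w = 0) ∧
    y - ∑ i, u i * x i - w * (p • e) ∈ AddSubgroup.closure
      {z | ∃ c d, Hx t c ∧ Hx t d ∧ z = c * d ∧ z * t = pw t b * z}

/-- **WPN.**  PROOF.  (1) See `CRM/Kjf.lean`, (2): a nil element `w` of `W` is in `p W`.  (2) Let `k` be maximal with `C ∈ p^k W`
(`p^r W = 0`, `C ≠ 0`), `C = p^k u`; `u` is not nil by (1) (otherwise `u ∈ p W`), so invertible (`CRL.thm_Prl`). -/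
def St_Wpn : Prop := ∀ (n p N : ℕ) (R : Type) [NonUnitalRing R] [Finite R] (e t : R),
  Lfr n p N e t →
  (∀ w ∈ NonUnitalSubring.closure ({t} : Set R), Nl w →
    ∃ w' ∈ NonUnitalSubring.closure ({t} : Set R), w = p • w') ∧
  ∀ C ∈ NonUnitalSubring.closure ({t} : Set R), C ≠ 0 → ∃ (k : ℕ) (u u' : R),
    u ∈ NonUnitalSubring.closure ({t} : Set R) ∧ C = p ^ k • u ∧ u' * u = e ∧ u * u' = e

/-- **CJL.**  Reduction to one frame.  PROOF.  As `CRM/Gbp.lean`: let `Vec n 1 b v`, `t' = v 0`.  `CRM.cnj` for `s = 1`: an automorphism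
`θ`, `θ t'` is a power of `t` and `t` is a power of `θ t'`.  `v' = θ ∘ v` satisfies `Vec` and the hypothesis, `φ v' = θ (φ v)`
(`TmF.map`), and `θ⁻¹ H ⊆ H` (a nonzero ideal contains `H`; orders).  `van`: the image of `S`. -/
def St_Cjl : Prop := ∀ (n p N : ℕ) (R : Type) [NonUnitalRing R] [Finite R] (e t : R),
  Lfr n p N e t → ∀ (H : AddSubgroup R), Lst R H → ∀ (b : ℕ) (φ : (ℕ → R) → R), TmF φ →
  (∀ v v' : ℕ → R, (∀ i, i < 1 + b → v i = v' i) → φ v = φ v') →
  (∀ v : ℕ → R, Vec n 1 b v → (∃ k, v 0 = pw t k) → (∃ k, t = pw (v 0) k) → φ v ∈ H ∧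
    ∀ S : NonUnitalSubring R, S ≠ ⊤ → (∀ i, i < 1 + b → v i ∈ S) → φ v = 0) →
  (∃ v, Vec n 1 b v ∧ φ v ≠ 0) → Gz n 1 b H φ

/-! ### Part B: local critical rings -/

/-- **NRM** (from `St_Typ`, `St_Rlz`, `St_Rlv`).  Normal words.  PROOF.  Let `y` be as in the statement; call a letter `i` a loop if
`a i % N = 0` (then `y i` is a loop), otherwise twisted (then `y i` is twisted or `0`); there is a twisted letter
(otherwise there is nothing to show).  A word with `≥ 4` twisted letters has the value `0` (`St_Rlv` (3), loops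
between two twisted letters give `0` by `St_Rlz` (1)).
One twisted letter `z`: `w = A z B`; `A, B ≠ []` gives `0` (`St_Rlz` (2)).  Two: `w = A x B y C`; `B ≠ []` gives `0`; `C` can be moved
to the left of `x` with a sign (`St_Rlz` (6): `x y c = - c x y`, or both sides are `0`: if `x y c ≠ 0` then ..., if `c x y ≠ 0` use
(5)), so `w = ± A' x y`.  Three: `w = x y z` (loops between them give `0` by (1), before or after them by `St_Rlv` (4)).
A product of loops before a twisted letter is zero if a letter is repeated, and changes its sign if two letters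
are exchanged (`St_Rlz` (3)); the same after a twisted letter (4).  So `A z = ± A₀ z`, `z B = ± z A₀`, `A' x y = ± A₀ x y` or `0`,
where `A₀ = Lt0 N a` (all loops occur).  All twisted letters occur: one twisted letter `z`: `A₀ z, z A₀, A₀ z z`; `z z z = 0`.
Two, `x < y`: `A₀ x y, A₀ y x`, and if there are no loops also `x x y`, `y x x = - x x y`, `x y y`, `y y x = - x y y`, `x y x`,
`y x y = - x y x` (`St_Rlz` (7), (8)).  Three: `x y z`, `z y x = - x y z` and so on.  The integers `ε` depend only on the word and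
the `a i`. -/
def St_Nrm : Prop := ∀ (n p N : ℕ) (R : Type) [NonUnitalRing R] [Finite R] (e : R) (g : ℕ)
  (a : Fin g → ℕ) (w : List ℕ), (∀ i, i ∈ w ↔ i < g) → (∃ i, a i % N ≠ 0) →
  ∃ ε : List ℕ → ℤ, ∀ (t : R) (y : Fin g → R), Lfr n p N e t → Ty n a t y →
    wp (w.map (xs y)) = ((NW N a).map fun ν => ε ν • wp (ν.map (xs y))).sum

/-- The exponents: `x_i` replaced by `t^(s_i) x_i` multiplies the word by `t^(∑ chi i s_i)`. -/
def chi {g : ℕ} (a : Fin g → ℕ) : List ℕ → ℕ → ℕ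
  | [], _ => 0
  | l :: w, i => (if l = i then 1 else 0) + (if h : l < g then a ⟨l, h⟩ + 1 else 1) * chi a w i

/-- **CHA** (from `St_Typ`, `St_Rlz`).  PROOF.  (1) induction on the word.  (2) A finite list of cases (`m_i = a i + 1` is prime to `N`,
because otherwise `y i = 0`, `St_Typ` (5); `m_i ≠ 1` modulo `N` for twisted letters, `N ≥ 2`).  The exponents of the normal
words: `A₀ z`: `z: 1`, loops `1`; `z A₀`: `z: 1`, loops `m_z`; `A₀ z z`: `z: 1 + m_z`, loops `1`; `A₀ x y`: `x: 1, y: m_x`; `A₀ y x`: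
`x: m_y, y: 1`; `x x y`: `(1 + m_x, m_x m_x)`; `x y y`: `(1, m_x + m_x m_y)`; `x y x`: `(1 + m_x m_y, m_x)`; `x y z`: `(1, m_x, m_x m_y)`;
`y x z`: `(m_y, 1, m_x m_y)`; `x z y`: `(1, m_x m_z, m_x)`.  They are different modulo `N`; only for `y x`, `x x y` one needs: if
`x x y ≠ 0` then `m_x m_x = 1 = m_x m_y` (`St_Rlz` (7)), so `m_y = m_x` and `m_y ≠ 1 + m_x`. -/
def St_Cha : Prop := ∀ (n p N : ℕ) (R : Type) [NonUnitalRing R] [Finite R] (e t : R),
  Lfr n p N e t → ∀ (g : ℕ) (a : Fin g → ℕ) (y : Fin g → R), Ty n a t y →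
  (∀ (w : List ℕ), w ≠ [] → (∀ i ∈ w, i < g) → ∀ s : Fin g → ℕ,
    wp (w.map (xs fun i => te e t (s i) * y i)) =
      te e t (∑ i : Fin g, chi a w i * s i) * wp (w.map (xs y))) ∧
  ((∃ i, a i % N ≠ 0) → ∀ ν ∈ NW N a, ∀ ν' ∈ NW N a, ν ≠ ν' → wp (ν.map (xs y)) ≠ 0 →
    wp (ν'.map (xs y)) ≠ 0 → ∃ i : Fin g, chi a ν i % N ≠ chi a ν' i % N)

/-- **SPF** (from `St_Typ`, `St_Sep`, `St_Nrm`, `St_Cha`).  PROOF.  By `St_Nrm` `Vl L t y = ∑_ν C_ν(t) ν(y)` for all `t, y` with `Ty n a t y` (sum over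
`NW`; `C_ν` the combination of the `t^d` with the coefficients `c ε_ν` of the items `(c, d, w)`; `xs`, `Vl`: `wp` of
`replicate d t ++ w`).  Choose `t, y` with `Vl L t y ≠ 0` and `ν` with `C_ν(t) ν(y) ≠ 0`.  For all `t, y` (`St_Cha`, the sum over `s` as
in the proof of `St_Sep`) `N^g C_ν(t) ν(y) = ∑_s t^(-χ s) Vl L t (t^s y)` if `ν(y) ≠ 0`, where `χ = chi a ν`, `t^s y = (t^(s_i) y_i)_i`,
`-χ` is taken modulo `N`.  So `C_ν(t) ν(y) ∈ H` (`H` is an ideal, `N` prime to `p`).  Let `y j ∈ M_j`; then the same for `t^s y` (`t^k M_j ⊆ M_j`;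
`u y_i = u t^(-s_i) (t^(s_i) y_i)`), and `Vl L t (t^s y) = Vl L t (update .. j 0) = 0` (invariance, `y := -` the entry; every word
contains `j`), so `C_ν(t) ν(y) = 0`. -/
def St_Spf : Prop := ∀ (n p N : ℕ) (R : Type) [NonUnitalRing R] [Finite R] (e t₀ : R),
  Lfr n p N e t₀ → ∀ (H : AddSubgroup R), Lst R H →
  ∀ (g : ℕ) (a : Fin g → ℕ) (L : List (ℤ × ℕ × List ℕ)), (∃ i, a i % N ≠ 0) →
  (∀ q ∈ L, 1 ≤ q.2.1 + q.2.2.length ∧ ∀ i, i ∈ q.2.2 ↔ i < g) →
  (∀ (t : R) (x : Fin g → R), Ty n a t x → Vl L t x ∈ H ∧ ∀ (j : Fin g) (y : R),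
    Nl y → y * t = pw t (a j) * y → y ∈ Mj p t x j →
    Vl L t (Function.update x j (x j + y)) = Vl L t x) →
  (∃ (t : R) (x : Fin g → R), Ty n a t x ∧ Vl L t x ≠ 0) →
  ∃ (C : List (ℤ × ℕ)) (ν : List ℕ), ν ∈ NW N a ∧ Fz n p e H a C ν

/-- **LTW** (from `St_Typ`, `St_Rlz`, `St_Rlv`, `St_Wpn`).  PROOF.  Choose `t, x` with `Ty n a t x`, `C(t) ν(x) ≠ 0`; then all `x j ∉ M_j` (`Fz`), so
by `CRM.dmk` (2) (a generating pair exists, (1)) `t` and the `x i` generate `R`.  `C(t) = p^k u`, `u` invertible (`St_Wpn`; `C(t) ∈ W`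
if all exponents are `≥ 1` or `t^N = e`), so `h = p^k ν(x) ∈ H`, `h ≠ 0`.  If `k = 0` and the loop `i` occurs in `ν`: `Fz` for `x`
with `x i` replaced by `p e` (`∈ KJ ⊆ M_i`, a loop) gives `u ν(x[i := p e]) = 0`, so `ν(x[i := p e]) = 0`.
The cases of `ν ∈ NW`.  `A₀ z`: `LtT` (`pll a z v` with `a_i` = the letters of `A₀` from right to left).  `z A₀`: `LtT` for `Rᵐᵒᵖ`
(frames, ideals, nil elements, generation are preserved, see `CRM/Fop.lean`, `CRM/Opx.lean`).  `A₀ z z`: `LtL` with `y = x`.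
`A₀ x y` (also `x y` without loops): if not `Sm t x y` (the types `a x`, `a y` are different modulo `N`): `LtL`.  If the types are
equal: for every `y'` with `Ty n a t y'` whose entries at the places `x` and `y` are equal `C(t) ν(y') = 0` (`Fz`: the entry at
the larger place is in `M_j`).  Polarize (entries `x, y` and their sum): `C(t) (A₀ x y + A₀ y x) = 0` with the entries of
the original `x`; the same with `t x` in the place of `x`: `C(t) t (A₀ x y + t^(m-1) A₀ y x) = 0` (`m` the type), so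
`(t^(m-1) - e)` times `C(t) A₀ x y` is `0`, a contradiction.  `x x y ≠ 0`: `k = 0` (`St_Rlv` (6)), `Sm t x y` (`St_Rlz` (7)): `LtE` with
`(x, x, y)`; `x y y = - y y x`: `LtE` with `(y, y, x)`; `x y x`: `LtE` with `(x, y, x)`.  `x y z` (three letters, some order):
`Sm t x z` by `St_Rlz` (7); not `Sm t x y`, otherwise all three types are equal, `C(t) ν = 0` if the entries of `x` and `y` are
equal, so `C(t) (x y z + y x z) = 0`, with `t x` for `x`: as above, a contradiction; so `LtE`. -/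
def St_Ltw : Prop := ∀ (n p N : ℕ) (R : Type) [NonUnitalRing R] [Finite R] (e : R)
  (H : AddSubgroup R), Lst R H → (∃ t, Lfr n p N e t) → ∀ (g : ℕ) (a : Fin g → ℕ)
  (C : List (ℤ × ℕ)) (ν : List ℕ), (∃ i, a i % N ≠ 0) → ν ∈ NW N a → Fz n p e H a C ν →
  (∃ (t : R) (x : Fin g → R), Ty n a t x ∧
    NonUnitalSubring.closure ({t} ∪ Set.range x) = ⊤) → Twl R n

/-- **CEN.**  PROOF.  `LFl R n` with all `a i % N = 0`.  The generating `t, x` commute, so `t` is central; all frames are powers of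
`t` (`CRM.cnj` and: `θ t'` is a power of `t`, so central, so `t'` is central, and `t'` and `t` generate the same subgroup: `t' = w + j`
with `w` a power of `t` and `j` nil, `t'^N = e = w^N`, so `j = 0` as in `CRM/Tyn.lean`), in particular every nil element has the type
`a i` for every frame (`pw t (a i) = t`, `St_Typ` (3)).  `g ≤ k`: let `y i`, `i < k`, generate `R`, `y i = w_i + u_i`, `w_i ∈ W`, `u_i` nil;
then `t` and the `u_i` generate `R`, `|J| ≤ q^k |KJ|` (`CRM.dmk` (1)), and `|J| ≥ q^g |KJ|` because `x j ∉ M_j` for all `j` if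
`Vl L t x ≠ 0`. -/
def St_Cen : Prop := ∀ (n p N : ℕ) (R : Type) [NonUnitalRing R] [Finite R] (e t₀ : R),
  Lfr n p N e t₀ → ∀ (H : AddSubgroup R), Lst R H →
  ∀ (g : ℕ) (a : Fin g → ℕ) (L : List (ℤ × ℕ × List ℕ)), (∀ i, a i % N = 0) →
  (∃ (t : R) (x : Fin g → R), Ty n a t x ∧
    NonUnitalSubring.closure ({t} ∪ Set.range x) = ⊤) →
  (∀ q ∈ L, q.2.1 ≤ n - 3 ∧ 1 ≤ q.2.1 + q.2.2.length ∧ (∀ i, i ∈ q.2.2 ↔ i < g) ∧
      (∀ i, q.2.2.count i ≤ 3) ∧ ((Nat.card R).Coprime 6 → q.2.2.length ≤ 5)) →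
  (∀ (t : R) (x : Fin g → R), Ty n a t x → Vl L t x ∈ H ∧ ∀ (j : Fin g) (y : R),
    Nl y → y * t = pw t (a j) * y → y ∈ Mj p t x j →
    Vl L t (Function.update x j (x j + y)) = Vl L t x) →
  (∃ (t : R) (x : Fin g → R), Ty n a t x ∧ Vl L t x ≠ 0) → CFl R n

/-! ### Part C: the rings of the types are critical -/

/-- **ZTH** (from `St_Typ`, `St_Rlz`, `St_Rlv`, `St_Dcp`).  Products of three twisted elements.  PROOF.  `St_Dcp` for the generators `a_i, x, y`
(or `a_i, x`): a twisted element is `u x`, `u y`, `u ∈ W`, or a sum of products `c d` of elements with types (every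
summand has the same type as the element; `c d ≠ 0` is twisted).  Let `x₁ x₂ x₃` be a product of twisted elements; replace `x₁`, `x₂`,
`x₃` one after the other.  `x₁ = c d`: loop, twisted: `c d x₂ x₃ = 0` (`St_Rlv` (4)); twisted, loop: `c d x₂ = 0` (`St_Rlz` (1));
twisted, twisted: `St_Rlv` (3).  `x₂ = c d`: `x₁ c d = 0` or `c d x₃ = 0` by `St_Rlz` (1), or `St_Rlv` (3).  `x₃ = c d`: `x₂ c d = 0`
(`St_Rlz` (1)); `x₁ x₂ c d = 0` (`St_Rlv` (4)); `St_Rlv` (3).  There remain products of `x, y`: `x x x = 0`; `x y x = 0` (`St_Rlz` (8), not `Sm`);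
`x x y ≠ 0` would give `m_x m_x = 1 = m_x m_y`, so `Sm t x y` (`St_Rlz` (7)). -/
def St_Zth : Prop := ∀ (n p N : ℕ) (R : Type) [NonUnitalRing R] [Finite R] (e t : R) (v : ℕ)
  (a : ℕ → R) (x y : R), Gx n p N e t v a x y →
  ∀ x₁ x₂ x₃, Tt t x₁ → Tt t x₂ → Tt t x₃ → x₁ * x₂ * x₃ = 0

/-- **LLT** (from `St_Typ`, `St_Rlz`, `St_Rlv`, `St_Kdc`, `St_Dcp`, `St_Zth`).  The type `LtT`.  PROOF.  Loops anticommute before a twisted
element, and a repeated loop gives `0` (`St_Rlz` (3)); so `pll y w s` is alternating in the loops `y i` (`W`-linear, additive).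
`w` has the type of `z`.  `H J = 0 = J H`, `p H = 0` (`Lst`, `J` nilpotent; `CRK.thm_Phz`).
(0) `v = 0`: if `c, d` have types and one of them is twisted then `p^k c d = 0`.  By descending induction on `s ≥ 2` (`J` is nilpotent):
`p^k` times a product of `s` elements with types, one of which is twisted, is `0`: replace the twisted one by `u z` plus
products of two (one of the two factors is twisted; `St_Dcp`, `v = 0`), and `p^k z ∈ H`, `H J = 0 = J H`.
(1) by descending induction on `s > v` (`J` is nilpotent).  Let `w = u z + ∑ c d`.  `c` a loop, `d` twisted of the same type: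
`pll y (c d) s` is a `pll` with `s + 1` loops.  `c` twisted, `d` a loop: `y 0 c d = 0` (`St_Rlz` (2)).  Both twisted: `y 0 c d = 0` or `c d` is a
loop and twisted or zero (`St_Rlz` (5)).  So let `w = z`.  `y i = ∑ u_j a_j + u (p e) + ∑ c d`, `c d` a loop or `0`: both loops: `s + 1` loops;
both twisted: move it to `z`: `c d z = 0` (`St_Zth`); (one loop, one twisted: `c d` is twisted or zero, so zero.)  So let all
`y i ∈ {a_j, p e}`, different: `s = v + 1` and `pll y z s = ± p pll a z v`, and `p^k` times this is `p h = 0`.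
(2), (3): the same with `s = v`; the terms with products are `0` by (1) or as above (for `v = 0`: by (0)); there remain `± pll a z v`
and, if a `p e` occurs, `pll (a[i := p e]) z v` (up to sign), which is `0` if `k = 0`, and `p^k` times it is
`p^(k+1)` times a product of `v - 1` loops and `z`; if `k ≥ 1` it is `0` by `St_Rlv` (5).  In (3) `y i ∈ KJ` is a sum of `u (p e)` and
products (`St_Kdc`), `w ∈ KJ` a sum of products. -/
def St_Llt : Prop := ∀ (n p N : ℕ) (R : Type) [NonUnitalRing R] [Finite R] (e t : R) (v k : ℕ)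
  (a : ℕ → R) (z : R), Gx n p N e t v a z z → ∀ H : AddSubgroup R, Lst R H →
  p ^ k • pll a z v ∈ H → (k = 0 → ∀ i, i < v → pll (Function.update a i (p • e)) z v = 0) →
  ∀ (s : ℕ) (y : ℕ → R) (w : R), (∀ i, i < s → Lo t (y i)) → Nl w → Sm t z w →
  (v < s → p ^ k • pll y w s = 0) ∧ (s = v → p ^ k • pll y w s ∈ H) ∧
  (s = v → (∃ i, i < v ∧ y i ∈ KJ R p) ∨ w ∈ KJ R p → p ^ k • pll y w s = 0)

/-- **LTT** (from `St_Lfx`, `St_Typ`, `St_Cjl`, `St_Llt`).  PROOF.  `Cy R n p` (not `Twn`: hypothesis), `Lfr` (`St_Lfx`).  Let `c < N` with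
`z t = t^(c+1) z`.  `φ v = p^k pll (fun i => Φ 0 (v 0) (v (1 + i))) (Φ c (v 0) (v (1 + b'))) b'`, `b'` the number of loops,
`b = b' + 1` (`Φ` from `CRM.thm_Foi` and `CRM.thm_Fou`: term function, or prove it for the explicit `Φ` of `CRM/Fou.lean`).  `St_Cjl`: let
`v 0 = t'` be a power of `t` and conversely: the same subring `W`, the same types (`x t' = t'^m x` iff `x t = t^m x`), loops,
twisted elements; `Lfr` for `t'`.  `φ v ∈ H`: `St_Llt` (2) for `t'` (`Gx` for `t'`).  Let `S ≠ ⊤` contain `t'` and the `v i`; then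
`t', x_i = Φ(v (1 + i))` do not generate `R`; by `CRM.dmk` (2) some `x_j ∈ M_j` (the generators `a_i, z` give
`|J| ≤ q^b |KJ|`).  `x_j = κ + ∑_(i<j) u_i x_i`; apply `Φ` for the type of `x_j`: if `x_j` is a loop: `x_j = Φ κ + ∑ u_i x_i` over loops,
`pll` is zero for `x_i` in the place of `x_j` (alternating) and for `Φ κ ∈ KJ` (`St_Llt` (3)); if `x_j` is the twisted one, `x_j = Φ κ`,
`St_Llt` (3).  `ne`: `v = (t, a_i, z)`.  So `Gz`, and `CRM.thm_Bkl`. -/
def St_Ltt : Prop := ∀ (n : ℕ) (R : Type) [NonUnitalRing R] [Finite R], 4 ≤ n → InM n R →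
  ¬ Twn R → LtT R n → Critical R

/-- **LLL** (from `St_Typ`, `St_Rlz`, `St_Rlv`, `St_Kdc`, `St_Dcp`, `St_Zth`).  The type `LtL`.  PROOF.  As `St_Llt`.  `x'` has the type of `x`, `y'`
that of `y`.  (1) by descending induction on `s > v`: `x' = u x + ∑ c d` (`y` does not have the type of `x`, or `y = x`): loop, twisted:
`s + 1` loops (`c d y'`, `d` of the type of `x`); twisted, loop: `d` (a loop) between `c` and `y'` gives `0`; both twisted:
`c d y' = 0` (`St_Zth`).  `y' = u y + ∑ c d`: loop, twisted: `x' c d = 0`; twisted, loop: `x' c d = 0` or `x' c d = - d x' c` (`St_Rlz` (6)),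
`s + 1` loops; both twisted: `St_Zth`.  The loops `y i`: as in `St_Llt` (`c d x' = 0` for twisted `c, d`).  There remains
`± p pll a (x y) v`, `p^k` times it is `0`.  (2), (3) in the same way with `s = v`. -/
def St_Lll : Prop := ∀ (n p N : ℕ) (R : Type) [NonUnitalRing R] [Finite R] (e t : R) (v k : ℕ)
  (a : ℕ → R) (x y : R), Gx n p N e t v a x y → ∀ H : AddSubgroup R, Lst R H →
  p ^ k • pll a (x * y) v ∈ H →
  (k = 0 → ∀ i, i < v → pll (Function.update a i (p • e)) (x * y) v = 0) →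
  ∀ (s : ℕ) (c : ℕ → R) (x' y' : R), (∀ i, i < s → Lo t (c i)) → Nl x' → Sm t x x' → Nl y' →
  Sm t y y' → (v < s → p ^ k • pll c (x' * y') s = 0) ∧ (s = v → p ^ k • pll c (x' * y') s ∈ H) ∧
  (s = v → (∃ i, i < v ∧ c i ∈ KJ R p) ∨ x' ∈ KJ R p ∨ y' ∈ KJ R p →
    p ^ k • pll c (x' * y') s = 0)

/-- **LTL** (from `St_Lfx`, `St_Typ`, `St_Rlz`, `St_Cjl`, `St_Lll`).  PROOF.  As `St_Ltt`.  If `y = x`: `b = v + 1`,
`φ = p^k pll (loops) (w w) v`, `w = Φ c (v 0) (v (1 + v))`; some `x_j ∈ M_j`: loops as before, `w = Φ κ` for the last one.  If `y ≠ x` and not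
`Sm t x y`: `b = v + 2`, `φ = p^k pll (loops) (w w') v`, `w' = Φ d (v 0) (v (2 + v))`; if `w ∈ M_j` or `w' ∈ M_j` then `w`, `w'` are in
`KJ` (the types of the loops and of `w, w'` are different), `St_Lll` (3). -/
def St_Ltl : Prop := ∀ (n : ℕ) (R : Type) [NonUnitalRing R] [Finite R], 4 ≤ n → InM n R →
  ¬ Twn R → LtL R n → Critical R

/-- **LTE** (from `St_Lfx`, `St_Typ`, `St_Rlz`, `St_Rlv`, `St_Kdc`, `St_Cjl`).  PROOF.  (1) Let `x', y', z'` be twisted.  `x' y' z'` is killed by nil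
elements from both sides (a nil element is a sum of elements with types; `St_Rlv` (3), (4)) and by `p` ((6)), so it is in
`H` (the elements killed by `J` from both sides and by `p`; `CRM.soc`, `Pc` for `some 0, some 0`).  (2) If one of the factors is in `KJ` the
product is `0`: by `St_Kdc` it is a sum of products `c d` of elements with types: `c d y' z'`, `x' c d z'`, `x' y' c d` are `0` by `St_Rlz` (1),
`St_Rlv` (3), (4).  Now as `St_Ltt` with: `y = x`: `b = 2`, `φ = w₁ w₁ w₂`, `w_i = Φ c (v 0) (v i)`; `w₁ ∈ KJ`: `0`; `w₂ ∈ KJ + W w₁`: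
`w₂ = κ + u w₁`, `w₁ w₁ κ = 0`, `w₁ w₁ u w₁ = u' w₁ w₁ w₁ = 0`; generators `x, z` (`x x z ≠ 0`).  `z = x`: `b = 2`,
`φ = w₁ w₂ w₁` (`x y x ≠ 0`, so `Sm t x y`, `St_Rlz` (8)), in the same way.  Not `Sm t x y`: `b = 3`, `φ = w₁ w₃ w₂` with
`w₁, w₂` of the type of `x` and `w₃` of the type of `y`: `w₁ ∈ KJ`: `0`; `w₂ = κ + u w₁`: `w₁ w₃ u w₁ = u' w₁ w₃ w₁ = 0`
(`St_Rlz` (8)); `w₃ ∈ KJ` (types): `0`; generators `x, z, y`. -/
def St_Lte : Prop := ∀ (n : ℕ) (R : Type) [NonUnitalRing R] [Finite R], 4 ≤ n → InM n R →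
  ¬ Twn R → LtE R n → Critical R

/-- **CFB.**  PROOF.  `CFl R n` implies `LFl R n` with all `a i = 0` (`g ≤ k ≤ (n - 3) k`; `pw t 0 = t`); `CRM.lfb`. -/
def St_Cfb : Prop := ∀ (n : ℕ) (R : Type) [NonUnitalRing R] [Finite R], 4 ≤ n → InM n R →
  ¬ Twn R → CFl R n → Critical R

end Pool.Agent.CRP
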